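import Mathlib
import Pool.Agent.TH41.LP.Stm

set_option autoImplicit false

open MeasureTheory Filter Topology

namespace Pool.Agent.TH41.LP.SHIFTf

open Pool.Agent.TH41.LP Complex

theorem cont_line {g : ℂ → ℂ} {c : ℝ} (hd : ∀ t : ℝ, DifferentiableAt ℂ g (c + t * I)) :
    Continuous (fun t : ℝ => g (c + t * I)) := by
  rw [continuous_iff_continuousAt]
  intro t
  have h1 : ContinuousAt (fun t : ℝ => (c : ℂ) + t * I) t := by fun_prop
  exact ContinuousAt.comp (f := fun t : ℝ => (c : ℂ) + t * I) (g := g) (x := t)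
    (hd t).continuousAt h1

theorem int_line {g : ℂ → ℂ} {c M ε : ℝ} (hε : 0 < ε)
    (hd : ∀ t : ℝ, DifferentiableAt ℂ g (c + t * I))
    (hb : ∀ t : ℝ, ‖g (c + t * I)‖ ≤ M * Real.exp (-ε * t ^ 2)) :
    Integrable (fun t : ℝ => g (c + t * I)) := by
  refine Integrable.mono' ((integrable_exp_neg_mul_sq hε).const_mul M)
    (cont_line hd).aestronglyMeasurable ?_
  exact Filter.Eventually.of_forall hb

/-- moving the line of integration -/
theorem strip {g : ℂ → ℂ} {a b M ε : ℝ} (hab : a ≤ b) (hε : 0 < ε)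
    (hd : ∀ s : ℂ, a ≤ s.re → s.re ≤ b → DifferentiableAt ℂ g s)
    (hb : ∀ s : ℂ, a ≤ s.re → s.re ≤ b → ‖g s‖ ≤ M * Real.exp (-ε * s.im ^ 2)) :
    ∫ t : ℝ, g (a + t * I) = ∫ t : ℝ, g (b + t * I) := by
  have hM : 0 ≤ M := by
    have h1 := (norm_nonneg _).trans (hb a (by simp) (by simpa using hab))
    simpa using h1
  have hia : Integrable (fun t : ℝ => g (a + t * I)) :=
    int_line hε (fun t => hd _ (by simp) (by simpa using hab))
      (fun t => by simpa using hb (a + t * I) (by simp) (by simpa using hab))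
  have hib : Integrable (fun t : ℝ => g (b + t * I)) :=
    int_line hε (fun t => hd _ (by simpa using hab) (by simp))
      (fun t => by simpa using hb (b + t * I) (by simpa using hab) (by simp))
  have hta := intervalIntegral_tendsto_integral hia tendsto_neg_atTop_atBot tendsto_id
  have htb := intervalIntegral_tendsto_integral hib tendsto_neg_atTop_atBot tendsto_id
  have hdiff : Tendsto (fun T : ℝ => (∫ t in (-T)..T, g (b + t * I)) -
      ∫ t in (-T)..T, g (a + t * I)) atTop (𝓝 0) := by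
    have hlim : Tendsto (fun T : ℝ => 2 * (M * Real.exp (-ε * T ^ 2) * (b - a))) atTop (𝓝 0) := by
      have h1 : Tendsto (fun T : ℝ => Real.exp (-ε * T ^ 2)) atTop (𝓝 0) := by
        apply Real.tendsto_exp_atBot.comp
        have h2 : Tendsto (fun T : ℝ => T ^ 2) atTop atTop := tendsto_pow_atTop two_ne_zero
        exact h2.const_mul_atTop_of_neg (by linarith)
      have h3 := ((h1.const_mul M).mul_const (b - a)).const_mul 2
      simpa using h3
    refine squeeze_zero_norm (fun T => ?_) hlim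
    have hrect := Complex.integral_boundary_rect_eq_zero_of_differentiableOn g
      ((a : ℂ) + (-T : ℝ) * I) ((b : ℂ) + (T : ℝ) * I) (by
        intro s hs
        refine (hd s ?_ ?_).differentiableWithinAt
        · have := hs.1
          simp only [add_re, ofReal_re, mul_re, I_re, mul_zero, ofReal_im, I_im, mul_one,
            sub_self, add_zero, Set.mem_preimage, Set.uIcc_of_le hab, Set.mem_Icc] at this
          exact this.1
        · have := hs.1
          simp only [add_re, ofReal_re, mul_re, I_re, mul_zero, ofReal_im, I_im, mul_one,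
            sub_self, add_zero, Set.mem_preimage, Set.uIcc_of_le hab, Set.mem_Icc] at this
          exact this.2)
    simp only [add_re, ofReal_re, mul_re, I_re, mul_zero, ofReal_im, I_im, mul_one, sub_self,
      add_zero, add_im, mul_im, zero_add] at hrect
    have e1 : (∫ t in (-T)..T, g (b + t * I)) - (∫ t in (-T)..T, g (a + t * I)) =
        -I * ((∫ x in a..b, g (x + (T : ℝ) * I)) - (∫ x in a..b, g (x + (-T : ℝ) * I))) := by
      have h1 : I * ((∫ t in (-T)..T, g (b + t * I)) - (∫ t in (-T)..T, g (a + t * I))) =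
          (∫ x in a..b, g (x + (T : ℝ) * I)) - (∫ x in a..b, g (x + (-T : ℝ) * I)) := by
        simp only [smul_eq_mul] at hrect
        linear_combination hrect
      rw [← h1]
      have hI : I * I = -1 := I_mul_I
      linear_combination ((∫ t in (-T)..T, g (b + t * I)) -
        (∫ t in (-T)..T, g (a + t * I))) * hI
    rw [e1, norm_mul, norm_neg, norm_I, one_mul]
    have hside : ∀ T' : ℝ, T' ^ 2 = T ^ 2 → ‖∫ x in a..b, g (x + (T' : ℝ) * I)‖ ≤
        M * Real.exp (-ε * T ^ 2) * (b - a) := by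
      intro T' hT'
      have := intervalIntegral.norm_integral_le_of_norm_le_const (a := a) (b := b)
        (f := fun x : ℝ => g (x + (T' : ℝ) * I)) (C := M * Real.exp (-ε * T ^ 2)) (by
          intro x hx
          rw [Set.uIoc_of_le hab] at hx
          have h1 := hb (x + (T' : ℝ) * I) (by simpa using hx.1.le) (by simpa using hx.2)
          simpa [hT'] using h1)
      rwa [abs_of_nonneg (by linarith)] at this
    calc ‖(∫ x in a..b, g (x + (T : ℝ) * I)) - (∫ x in a..b, g (x + (-T : ℝ) * I))‖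
        ≤ ‖∫ x in a..b, g (x + (T : ℝ) * I)‖ + ‖∫ x in a..b, g (x + (-T : ℝ) * I)‖ :=
          norm_sub_le _ _
      _ ≤ _ := by
          have h1 := hside T rfl
          have h2 := hside (-T) (by ring)
          linarith
  have h1 := tendsto_nhds_unique hdiff (htb.sub hta)
  exact (sub_eq_zero.mp h1.symm).symm

/-- the first part of the theorem -/
theorem part1 {Y : ℂ → ℂ} {c B M ε : ℝ} (hc : 0 < c) (hcB : c ≤ B) (hε : 0 < ε)
    (hY : Differentiable ℂ Y)
    (hb : ∀ s : ℂ, c ≤ s.re → s.re ≤ B → ‖Y s‖ ≤ M * Real.exp (-ε * s.im ^ 2)) (ρ : ℝ) :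
    WW Y c ρ = WW Y B ρ := by
  unfold WW
  refine strip (g := fun s => Y s / s * cexp (-s * ρ)) (M := M / c * Real.exp (B * |ρ|)) hcB hε ?_ ?_
  · intro s h1 _
    have hs : s ≠ 0 := by
      rintro rfl
      simp only [zero_re] at h1; linarith
    exact ((hY s).div differentiableAt_id hs).mul (by fun_prop)
  · intro s h1 h2
    have hM : 0 ≤ M := by
      have h3 := (norm_nonneg _).trans (hb s h1 h2)
      exact nonneg_of_mul_nonneg_left h3 (Real.exp_pos _)
    have hre : 0 < s.re := hc.trans_le h1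
    have hn : c ≤ ‖s‖ := h1.trans (re_le_norm s)
    have e1 : ‖cexp (-s * ρ)‖ ≤ Real.exp (B * |ρ|) := by
      rw [norm_exp]
      apply Real.exp_le_exp.mpr
      rw [re_mul_ofReal, neg_re]
      calc -s.re * ρ ≤ |(-s.re) * ρ| := le_abs_self _
        _ = s.re * |ρ| := by rw [abs_mul, abs_neg, abs_of_pos hre]
        _ ≤ B * |ρ| := mul_le_mul_of_nonneg_right h2 (abs_nonneg _)
    rw [norm_mul, norm_div]
    calc ‖Y s‖ / ‖s‖ * ‖cexp (-s * ρ)‖
        ≤ (M * Real.exp (-ε * s.im ^ 2)) / c * Real.exp (B * |ρ|) := by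
          refine mul_le_mul ?_ e1 (norm_nonneg _) (by positivity)
          exact div_le_div₀ (by positivity) (hb s h1 h2) hc hn
      _ = _ := by ring

/-- the integral of the Gaussian -/
noncomputable def JG (ε b : ℝ) : ℂ :=
  ∫ t : ℝ, cexp (ε * ((b : ℂ) + t * I) ^ 2) / ((b : ℂ) + t * I)

theorem norm_G (ε : ℝ) (s : ℂ) : ‖cexp (ε * s ^ 2)‖ = Real.exp (ε * (s.re ^ 2 - s.im ^ 2)) := by
  rw [norm_exp, re_ofReal_mul]
  congr 2
  rw [sq, mul_re]; ring

theorem JG_const {ε b B : ℝ} (hε : 0 < ε) (hb : 0 < b) (hbB : b ≤ B) : JG ε b = JG ε B := by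
  have h1 := part1 (Y := fun s => cexp (ε * s ^ 2)) (M := Real.exp (ε * B ^ 2)) hb hbB hε
    (by fun_prop) (fun s h1 h2 => by
      rw [norm_G, ← Real.exp_add]
      apply Real.exp_le_exp.mpr
      have h3 : s.re ^ 2 ≤ B ^ 2 := by
        have : 0 < s.re := hb.trans_le h1
        nlinarith
      nlinarith) 0
  unfold WW at h1
  simpa [JG] using h1

theorem JG_neg (ε b : ℝ) : JG ε (-b) = -JG ε b := by
  unfold JG
  rw [← integral_neg, ← integral_neg_eq_self]
  congr 1
  funext t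
  have e1 : ((-b : ℝ) : ℂ) + ((-t : ℝ) : ℂ) * I = -((b : ℂ) + t * I) := by push_cast; ring
  rw [e1, neg_sq, div_neg]

theorem JG_scale {ε b : ℝ} (hb : 0 < b) : JG ε b = JG (ε * b ^ 2) 1 := by
  unfold JG
  have h1 := Measure.integral_comp_mul_left
    (fun t : ℝ => cexp (ε * ((b : ℂ) + t * I) ^ 2) / ((b : ℂ) + t * I)) b
  rw [abs_of_pos (inv_pos.mpr hb)] at h1
  have h2 : (∫ t : ℝ, cexp (ε * ((b : ℂ) + t * I) ^ 2) / ((b : ℂ) + t * I)) =
      b • ∫ x : ℝ, cexp (ε * ((b : ℂ) + ((b * x : ℝ) : ℂ) * I) ^ 2) /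
        ((b : ℂ) + ((b * x : ℝ) : ℂ) * I) := by
    rw [h1, smul_smul, mul_inv_cancel₀ hb.ne', one_smul]
  rw [h2, ← integral_smul]
  congr 1
  funext x
  have hb0 : (b : ℂ) ≠ 0 := by exact_mod_cast hb.ne'
  have hx : (1 : ℂ) + x * I ≠ 0 := by
    intro h
    have := congrArg re h
    simp at this
  rw [real_smul]
  have e1 : (b : ℂ) + ((b * x : ℝ) : ℂ) * I = b * (1 + x * I) := by push_cast; ring
  rw [e1]
  have e2 : (ε : ℂ) * (b * (1 + x * I)) ^ 2 = ((ε * b ^ 2 : ℝ) : ℂ) * (((1 : ℝ) : ℂ) + x * I) ^ 2 := by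
    push_cast; ring
  rw [e2]
  push_cast
  field_simp

/-- the real part of the integrand -/
noncomputable def RR (δ u : ℝ) : ℝ :=
  Real.exp (δ * (1 - u ^ 2)) * (Real.cos (2 * δ * u) + u * Real.sin (2 * δ * u)) * (1 + u ^ 2)⁻¹

theorem f_eq (δ u : ℝ) : cexp (δ * (((1 : ℝ) : ℂ) + u * I) ^ 2) / (((1 : ℝ) : ℂ) + u * I) =
    ((Real.exp (δ * (1 - u ^ 2)) * (1 + u ^ 2)⁻¹ : ℝ) : ℂ) *
      (((Real.cos (2 * δ * u) : ℝ) : ℂ) + ((Real.sin (2 * δ * u) : ℝ) : ℂ) * I) * (1 - u * I) := by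
  have hx : (1 : ℂ) + u * I ≠ 0 := by
    intro h
    have := congrArg re h
    simp at this
  have hx2 : (1 : ℂ) + (u : ℂ) ^ 2 ≠ 0 := by
    have : (0 : ℝ) < 1 + u ^ 2 := by positivity
    exact_mod_cast this.ne'
  have hI : I ^ 2 = -1 := I_sq
  have e1 : (δ : ℂ) * (((1 : ℝ) : ℂ) + u * I) ^ 2 =
      ((δ * (1 - u ^ 2) : ℝ) : ℂ) + ((2 * δ * u : ℝ) : ℂ) * I := by
    push_cast
    linear_combination (δ : ℂ) * (u : ℂ) ^ 2 * hI
  rw [e1, Complex.exp_add, exp_mul_I, ← ofReal_exp, ← ofReal_cos, ← ofReal_sin]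
  generalize Real.cos (2 * δ * u) = C0
  generalize Real.sin (2 * δ * u) = S0
  generalize Real.exp (δ * (1 - u ^ 2)) = E0
  push_cast
  rw [div_eq_iff hx]
  field_simp
  linear_combination (E0 : ℂ) * ((C0 : ℂ) + (S0 : ℂ) * I) * (u : ℂ) ^ 2 * hI

theorem f_re (δ u : ℝ) :
    (cexp (δ * (((1 : ℝ) : ℂ) + u * I) ^ 2) / (((1 : ℝ) : ℂ) + u * I)).re = RR δ u := by
  rw [f_eq]
  unfold RR
  simp only [mul_re, mul_im, add_re, add_im, sub_re, sub_im, ofReal_re, ofReal_im, I_re, I_im,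
    one_re, one_im]
  ring

theorem f_int {δ : ℝ} (hδ : 0 < δ) : Integrable (fun u : ℝ =>
    cexp (δ * (((1 : ℝ) : ℂ) + u * I) ^ 2) / (((1 : ℝ) : ℂ) + u * I)) := by
  refine int_line (g := fun s => cexp (δ * s ^ 2) / s) (c := 1) (M := Real.exp δ) hδ ?_ ?_
  · intro t
    have hx : ((1 : ℝ) : ℂ) + t * I ≠ 0 := by
      intro h
      have := congrArg re h
      simp at this
    exact DifferentiableAt.div (by fun_prop) differentiableAt_id hx
  · intro t
    rw [norm_div, norm_G]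
    have h1 : 1 ≤ ‖((1 : ℝ) : ℂ) + t * I‖ := by
      have := re_le_norm (((1 : ℝ) : ℂ) + t * I)
      simpa using this
    calc Real.exp (δ * ((((1 : ℝ) : ℂ) + t * I).re ^ 2 - (((1 : ℝ) : ℂ) + t * I).im ^ 2)) /
          ‖((1 : ℝ) : ℂ) + t * I‖
        ≤ Real.exp (δ * ((((1 : ℝ) : ℂ) + t * I).re ^ 2 - (((1 : ℝ) : ℂ) + t * I).im ^ 2)) / 1 :=
          div_le_div_of_nonneg_left (Real.exp_pos _).le one_pos h1
      _ = _ := by
          rw [div_one, ← Real.exp_add]
          congr 1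
          simp
          ring

theorem f_conj (δ u : ℝ) : cexp (δ * (((1 : ℝ) : ℂ) + ((-u : ℝ) : ℂ) * I) ^ 2) /
    (((1 : ℝ) : ℂ) + ((-u : ℝ) : ℂ) * I) =
    (starRingEnd ℂ) (cexp (δ * (((1 : ℝ) : ℂ) + u * I) ^ 2) / (((1 : ℝ) : ℂ) + u * I)) := by
  rw [map_div₀, ← exp_conj, map_mul, map_pow, map_add, map_mul, conj_ofReal, conj_ofReal,
    conj_ofReal, conj_I]
  push_cast
  ring_nf

theorem JG_real {δ : ℝ} (hδ : 0 < δ) : JG δ 1 = ((∫ u : ℝ, RR δ u : ℝ) : ℂ) := by
  obtain ⟨f, hf⟩ : ∃ f : ℝ → ℂ, f = fun u : ℝ =>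
    cexp (δ * (((1 : ℝ) : ℂ) + u * I) ^ 2) / (((1 : ℝ) : ℂ) + u * I) := ⟨_, rfl⟩
  have hJ : JG δ 1 = ∫ u, f u := by rw [hf]; rfl
  have hfi : Integrable f := by rw [hf]; exact f_int hδ
  have h1 : ∫ u, f (-u) = ∫ u, f u := integral_neg_eq_self f _
  have h2 : ∀ u, f u + f (-u) = ((2 * RR δ u : ℝ) : ℂ) := by
    intro u
    rw [hf]
    simp only
    rw [f_conj, Complex.add_conj, f_re]
  have h3 : ∫ u, (f u + f (-u)) = (∫ u, f u) + ∫ u, f (-u) := integral_add hfi hfi.comp_neg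
  simp only [h2] at h3
  rw [integral_complex_ofReal, integral_const_mul, h1] at h3
  rw [hJ]
  push_cast at h3
  linear_combination (-1 / 2 : ℂ) * h3

theorem tendsto_RR : Tendsto (fun δ : ℝ => ∫ u : ℝ, RR δ u) (𝓝[>] 0) (𝓝 Real.pi) := by
  rw [← integral_univ_inv_one_add_sq]
  refine tendsto_integral_filter_of_dominated_convergence
    (fun u : ℝ => 3 * Real.exp 1 * (1 + u ^ 2)⁻¹) ?_ ?_ (integrable_inv_one_add_sq.const_mul _) ?_
  · refine Filter.Eventually.of_forall fun δ => ?_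
    apply Continuous.aestronglyMeasurable
    unfold RR
    have h1 : Continuous (fun u : ℝ => (1 + u ^ 2)⁻¹) :=
      Continuous.inv₀ (by fun_prop) (fun u => by positivity)
    fun_prop
  · have h0 : ∀ᶠ δ : ℝ in 𝓝[>] 0, δ < 1 := nhdsWithin_le_nhds (Iio_mem_nhds one_pos)
    filter_upwards [h0, self_mem_nhdsWithin] with δ hδ1 hδ
    have hδ : 0 < δ := hδ
    refine Filter.Eventually.of_forall fun u => ?_
    unfold RR
    rw [Real.norm_eq_abs, abs_mul, abs_mul, Real.abs_exp,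
      abs_of_pos (show (0 : ℝ) < (1 + u ^ 2)⁻¹ by positivity)]
    refine mul_le_mul_of_nonneg_right ?_ (by positivity)
    have h1 : |Real.cos (2 * δ * u) + u * Real.sin (2 * δ * u)| ≤ 1 + 2 * (δ * u ^ 2) := by
      refine (abs_add_le _ _).trans (add_le_add (Real.abs_cos_le_one _) ?_)
      rw [abs_mul]
      have h2 : |Real.sin (2 * δ * u)| ≤ |2 * δ * u| := Real.abs_sin_le_abs
      calc |u| * |Real.sin (2 * δ * u)| ≤ |u| * |2 * δ * u| :=
            mul_le_mul_of_nonneg_left h2 (abs_nonneg _)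
        _ = 2 * (δ * u ^ 2) := by
            rw [abs_mul, abs_of_pos (show 0 < 2 * δ by positivity), ← sq_abs u]; ring
    have h3 : Real.exp (δ * (1 - u ^ 2)) = Real.exp δ * Real.exp (-(δ * u ^ 2)) := by
      rw [← Real.exp_add]; congr 1; ring
    have h4 : Real.exp (-(δ * u ^ 2)) * (1 + 2 * (δ * u ^ 2)) ≤ 3 := by
      have h5 : 0 ≤ δ * u ^ 2 := by positivity
      have h6 : Real.exp (-(δ * u ^ 2)) ≤ 1 := by
        rw [Real.exp_le_one_iff]; linarith
      have h7 : δ * u ^ 2 ≤ Real.exp (δ * u ^ 2) := by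
        have := Real.add_one_le_exp (δ * u ^ 2); linarith
      have h8 : Real.exp (-(δ * u ^ 2)) * (δ * u ^ 2) ≤ 1 := by
        rw [Real.exp_neg]
        rw [inv_mul_le_iff₀ (Real.exp_pos _), mul_one]
        exact h7
      nlinarith
    calc Real.exp (δ * (1 - u ^ 2)) * |Real.cos (2 * δ * u) + u * Real.sin (2 * δ * u)|
        ≤ Real.exp (δ * (1 - u ^ 2)) * (1 + 2 * (δ * u ^ 2)) :=
          mul_le_mul_of_nonneg_left h1 (Real.exp_pos _).le
      _ = Real.exp δ * (Real.exp (-(δ * u ^ 2)) * (1 + 2 * (δ * u ^ 2))) := by rw [h3]; ring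
      _ ≤ Real.exp 1 * 3 := by
          refine mul_le_mul (Real.exp_le_exp.mpr hδ1.le) h4 (by positivity) (Real.exp_pos _).le
      _ = _ := by ring
  · refine Filter.Eventually.of_forall fun u => ?_
    have h1 : Continuous (fun δ : ℝ => RR δ u) := by
      unfold RR; fun_prop
    have h2 : RR 0 u = (1 + u ^ 2)⁻¹ := by unfold RR; simp
    rw [← h2]
    exact (h1.tendsto 0).mono_left nhdsWithin_le_nhds

theorem JG_pi {ε b : ℝ} (hε : 0 < ε) (hb : 0 < b) : JG ε b = Real.pi := by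
  have h1 : Tendsto (fun δ : ℝ => JG δ 1) (𝓝[>] 0) (𝓝 (Real.pi : ℂ)) := by
    have h2 := (continuous_ofReal.tendsto Real.pi).comp tendsto_RR
    refine h2.congr' ?_
    filter_upwards [self_mem_nhdsWithin] with δ hδ
    rw [JG_real hδ]; rfl
  have h3 : Tendsto (fun x : ℝ => ε * x ^ 2) (𝓝[>] 0) (𝓝[>] 0) := by
    rw [tendsto_nhdsWithin_iff]
    refine ⟨?_, ?_⟩
    · have : Continuous (fun x : ℝ => ε * x ^ 2) := by fun_prop
      have h4 := this.tendsto 0
      simp only [ne_eq, OfNat.ofNat_ne_zero, not_false_eq_true, zero_pow, mul_zero] at h4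
      exact h4.mono_left nhdsWithin_le_nhds
    · filter_upwards [self_mem_nhdsWithin] with x hx
      have hx : 0 < x := hx
      exact mul_pos hε (by positivity)
  have h4 := h1.comp h3
  have h5 : Tendsto (fun _ : ℝ => JG ε b) (𝓝[>] 0) (𝓝 (Real.pi : ℂ)) := by
    refine h4.congr' ?_
    have h0 : ∀ᶠ x : ℝ in 𝓝[>] 0, x < b := nhdsWithin_le_nhds (Iio_mem_nhds hb)
    filter_upwards [h0, self_mem_nhdsWithin] with x hx1 hx
    have hx : 0 < x := hx
    simp only [Function.comp_apply]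
    rw [← JG_scale hx]
    exact JG_const hε hx hx1.le
  exact tendsto_nhds_unique tendsto_const_nhds h5

theorem G_int {ε x : ℝ} (hε : 0 < ε) (hx : x ≠ 0) : Integrable (fun t : ℝ =>
    cexp (ε * ((x : ℂ) + t * I) ^ 2) / ((x : ℂ) + t * I)) := by
  refine int_line (g := fun s => cexp (ε * s ^ 2) / s) (c := x)
    (M := Real.exp (ε * x ^ 2) / |x|) hε ?_ ?_
  · intro t
    have hx' : (x : ℂ) + t * I ≠ 0 := by
      intro h
      have := congrArg re h
      simp at this
      exact hx this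
    exact DifferentiableAt.div (by fun_prop) differentiableAt_id hx'
  · intro t
    rw [norm_div, norm_G]
    have h1 : |x| ≤ ‖(x : ℂ) + t * I‖ := by
      have := abs_re_le_norm ((x : ℂ) + t * I)
      simpa using this
    calc Real.exp (ε * (((x : ℂ) + t * I).re ^ 2 - ((x : ℂ) + t * I).im ^ 2)) /
          ‖(x : ℂ) + t * I‖
        ≤ Real.exp (ε * (((x : ℂ) + t * I).re ^ 2 - ((x : ℂ) + t * I).im ^ 2)) / |x| :=
          div_le_div_of_nonneg_left (Real.exp_pos _).le (abs_pos.mpr hx) h1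
      _ = _ := by
          rw [div_mul_eq_mul_div, ← Real.exp_add]
          congr 2
          simp
          ring

theorem shift : S_shift := by
  intro Y A B M ε hA hB hε hY hb ρ
  refine ⟨fun c hc hcB => part1 hc hcB hε hY (fun s h1 h2 => hb s (by linarith) h2) ρ, ?_⟩
  intro c hcA hc
  have hM : 0 ≤ M := by
    have h1 := (norm_nonneg _).trans (hb 0 (by simpa using hA.le) (by simpa using hB.le))
    simpa using h1
  obtain ⟨R, hR⟩ : ∃ R : ℝ, R = A + B := ⟨_, rfl⟩
  have hR0 : 0 < R := by rw [hR]; positivity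
  obtain ⟨h, hh⟩ : ∃ h : ℂ → ℂ, h = fun s => Y s * cexp (-s * ρ) - Y 0 * cexp (ε * s ^ 2) :=
    ⟨_, rfl⟩
  have hhd : Differentiable ℂ h := by
    rw [hh]
    exact (hY.mul (by fun_prop)).sub (by fun_prop)
  have hh0 : h 0 = 0 := by rw [hh]; simp
  obtain ⟨Q, hQ⟩ : ∃ Q : ℂ → ℂ, Q = dslope h 0 := ⟨_, rfl⟩
  have hQd : Differentiable ℂ Q := by
    rw [← differentiableOn_univ, hQ, Complex.differentiableOn_dslope Filter.univ_mem]
    exact hhd.differentiableOn
  have hQs : ∀ s : ℂ, s ≠ 0 → Q s = h s / s := by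
    intro s hs
    rw [hQ, dslope_of_ne _ hs, slope_def_field, hh0, sub_zero, sub_zero]
  have hre : ∀ s : ℂ, -A ≤ s.re → s.re ≤ B → |s.re| ≤ R := by
    intro s h1 h2
    rw [hR, abs_le]
    constructor <;> linarith
  -- bound of `h`
  obtain ⟨M1, hM1⟩ : ∃ M1 : ℝ, M1 = M * Real.exp (R * |ρ|) + ‖Y 0‖ * Real.exp (ε * R ^ 2) :=
    ⟨_, rfl⟩
  have hM10 : 0 ≤ M1 := by rw [hM1]; positivity
  have hhb : ∀ s : ℂ, -A ≤ s.re → s.re ≤ B → ‖h s‖ ≤ M1 * Real.exp (-ε * s.im ^ 2) := by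
    intro s h1 h2
    have h3 := hre s h1 h2
    have e1 : ‖cexp (-s * ρ)‖ ≤ Real.exp (R * |ρ|) := by
      rw [norm_exp]
      apply Real.exp_le_exp.mpr
      rw [re_mul_ofReal, neg_re]
      calc -s.re * ρ ≤ |(-s.re) * ρ| := le_abs_self _
        _ = |s.re| * |ρ| := by rw [abs_mul, abs_neg]
        _ ≤ R * |ρ| := mul_le_mul_of_nonneg_right h3 (abs_nonneg _)
    have e2 : ‖cexp (ε * s ^ 2)‖ ≤ Real.exp (ε * R ^ 2) * Real.exp (-ε * s.im ^ 2) := by
      rw [norm_G, ← Real.exp_add]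
      apply Real.exp_le_exp.mpr
      have h4 : s.re ^ 2 ≤ R ^ 2 := by
        rw [← sq_abs s.re]
        exact pow_le_pow_left₀ (abs_nonneg _) h3 2
      nlinarith
    rw [hh]
    simp only
    calc ‖Y s * cexp (-s * ρ) - Y 0 * cexp (ε * s ^ 2)‖
        ≤ ‖Y s‖ * ‖cexp (-s * ρ)‖ + ‖Y 0‖ * ‖cexp (ε * s ^ 2)‖ := by
          refine (norm_sub_le _ _).trans ?_
          rw [norm_mul, norm_mul]
      _ ≤ (M * Real.exp (-ε * s.im ^ 2)) * Real.exp (R * |ρ|) +
          ‖Y 0‖ * (Real.exp (ε * R ^ 2) * Real.exp (-ε * s.im ^ 2)) := by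
          refine add_le_add (mul_le_mul (hb s h1 h2) e1 (norm_nonneg _) (by positivity)) ?_
          exact mul_le_mul_of_nonneg_left e2 (norm_nonneg _)
      _ = _ := by rw [hM1]; ring
  -- bound of `Q`
  obtain ⟨M2, hM2⟩ : ∃ M2 : ℝ, ∀ s : ℂ, -A ≤ s.re → s.re ≤ B → |s.im| ≤ 1 → ‖Q s‖ ≤ M2 := by
    have hcomp : IsCompact (Set.Icc (-A) B ×ℂ Set.Icc (-1 : ℝ) 1) :=
      isCompact_Icc.reProdIm isCompact_Icc
    obtain ⟨C, hC⟩ := hcomp.exists_bound_of_continuousOn hQd.continuous.continuousOn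
    refine ⟨C, fun s h1 h2 h3 => hC s ?_⟩
    rw [Complex.mem_reProdIm]
    exact ⟨⟨h1, h2⟩, abs_le.mp h3⟩
  have hM20 : 0 ≤ M2 := (norm_nonneg _).trans
    (hM2 0 (by simpa using hA.le) (by simpa using hB.le) (by simp))
  have hQb : ∀ s : ℂ, -A ≤ s.re → s.re ≤ B →
      ‖Q s‖ ≤ (M1 + M2 * Real.exp ε) * Real.exp (-ε * s.im ^ 2) := by
    intro s h1 h2
    rcases le_or_gt |s.im| 1 with h3 | h3
    · have h4 : 1 ≤ Real.exp ε * Real.exp (-ε * s.im ^ 2) := by
        rw [← Real.exp_add]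
        apply Real.one_le_exp
        have : s.im ^ 2 ≤ 1 := by
          rw [← sq_abs]; exact pow_le_one₀ (abs_nonneg _) h3
        nlinarith
      have h5 : 0 ≤ M1 * Real.exp (-ε * s.im ^ 2) := by positivity
      calc ‖Q s‖ ≤ M2 * 1 := by rw [mul_one]; exact hM2 s h1 h2 h3
        _ ≤ M2 * (Real.exp ε * Real.exp (-ε * s.im ^ 2)) := mul_le_mul_of_nonneg_left h4 hM20
        _ ≤ _ := by nlinarith
    · have hs : s ≠ 0 := by
        rintro rfl
        simp at h3
        linarith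
      have hn : 1 ≤ ‖s‖ := h3.le.trans (abs_im_le_norm s)
      rw [hQs s hs, norm_div]
      have h5 : 0 ≤ M2 * Real.exp ε * Real.exp (-ε * s.im ^ 2) := by positivity
      calc ‖h s‖ / ‖s‖ ≤ ‖h s‖ / 1 := div_le_div_of_nonneg_left (norm_nonneg _) one_pos hn
        _ ≤ M1 * Real.exp (-ε * s.im ^ 2) := by rw [div_one]; exact hhb s h1 h2
        _ ≤ _ := by nlinarith
  have hQint : ∫ t : ℝ, Q (c + t * I) = ∫ t : ℝ, Q (B + t * I) :=
    strip (by linarith) hε (fun s _ _ => hQd s) (fun s h1 h2 => hQb s (by linarith) h2)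
  have key : ∀ x : ℝ, x ≠ 0 → -A ≤ x → x ≤ B →
      WW Y x ρ = Y 0 * JG ε x + ∫ t : ℝ, Q (x + t * I) := by
    intro x hx h1 h2
    have i1 : Integrable (fun t : ℝ => Q (x + t * I)) :=
      int_line hε (fun t => hQd _) (fun t => by
        simpa using hQb (x + t * I) (by simpa using h1) (by simpa using h2))
    have i2 : Integrable (fun t : ℝ => Y 0 * (cexp (ε * ((x : ℂ) + t * I) ^ 2) /
        ((x : ℂ) + t * I))) := (G_int hε hx).const_mul _
    unfold WW JG
    rw [← integral_const_mul, ← integral_add i2 i1]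
    congr 1
    funext t
    have hx' : (x : ℂ) + t * I ≠ 0 := by
      intro h
      have := congrArg re h
      simp at this
      exact hx this
    rw [hQs _ hx', hh]
    simp only
    field_simp
    ring
  have hc' : JG ε c = -Real.pi := by
    have h1 := JG_neg ε (-c)
    rw [neg_neg] at h1
    rw [h1, JG_pi hε (by linarith)]
  rw [key B hB.ne' (by linarith) le_rfl, key c hc.ne hcA (by linarith), hQint, hc', JG_pi hε hB]
  ring

end Pool.Agent.TH41.LP.SHIFTf
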