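import Mathlib
import Pool.Agent.TH41.LP.Stm

set_option autoImplicit false

open MeasureTheory Filter Topology

namespace Pool.Agent.TH41.LP.VVf

open Pool.Agent.TH41.LP

theorem line_ne {c t : ℝ} (hc : c ≠ 0) : ((c : ℂ) + t * Complex.I) ≠ 0 := by
  intro h
  have := congrArg Complex.re h
  simp at this
  exact hc this

theorem line_norm (c t : ℝ) : |c| ≤ ‖(c : ℂ) + t * Complex.I‖ := by
  have := Complex.abs_re_le_norm ((c : ℂ) + t * Complex.I)
  simpa using this

theorem line_norm' (c t : ℝ) : |t| ≤ ‖(c : ℂ) + t * Complex.I‖ := by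
  have := Complex.abs_im_le_norm ((c : ℂ) + t * Complex.I)
  simpa using this

theorem exp_norm (c t ρ : ℝ) :
    ‖Complex.exp (-((c : ℂ) + t * Complex.I) * ρ)‖ = Real.exp (-c * ρ) := by
  rw [Complex.norm_exp]
  congr 1
  simp

theorem gauss_int {b : ℝ} : ∫ t : ℝ, Real.exp (-b * t ^ 2) = √(Real.pi / b) :=
  integral_gaussian b

theorem WW_bound {Y : ℂ → ℂ} {c ρ V A : ℝ} (hc : c ≠ 0) (hV : 0 < V) (hA : 0 ≤ A)
    (h : ∀ t : ℝ, ‖Y (c + t * Complex.I)‖ ≤
      101 / 100 * A * Real.exp (-(49 / 100) * t ^ 2 / V)) :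
    ‖WW Y c ρ‖ ≤ 101 / 100 * A * Real.exp (-c * ρ) / |c| * √(Real.pi / ((49 / 100) / V)) := by
  have hb : 0 < (49 / 100 : ℝ) / V := by positivity
  have hc' : 0 < |c| := abs_pos.2 hc
  unfold WW
  rw [← gauss_int, ← integral_const_mul]
  refine norm_integral_le_of_norm_le ((integrable_exp_neg_mul_sq hb).const_mul _) ?_
  refine Eventually.of_forall fun t => ?_
  rw [norm_mul, norm_div, exp_norm]
  have h1 : ‖Y (c + t * Complex.I)‖ / ‖(c : ℂ) + t * Complex.I‖ ≤
      101 / 100 * A * Real.exp (-(49 / 100) * t ^ 2 / V) / |c| :=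
    div_le_div₀ (by positivity) (h t) hc' (line_norm c t)
  have e1 : -(49 / 100) * t ^ 2 / V = -((49 / 100) / V) * t ^ 2 := by ring
  rw [e1] at h1
  calc _ ≤ 101 / 100 * A * Real.exp (-((49 / 100) / V) * t ^ 2) / |c| * Real.exp (-c * ρ) :=
        mul_le_mul_of_nonneg_right h1 (Real.exp_pos _).le
    _ = _ := by ring

theorem WW_integrable {Y : ℂ → ℂ} (hY : Continuous Y) {c ρ V A : ℝ} (hc : c ≠ 0) (hV : 0 < V)
    (hA : 0 ≤ A) (h : ∀ t : ℝ, ‖Y (c + t * Complex.I)‖ ≤
      101 / 100 * A * Real.exp (-(49 / 100) * t ^ 2 / V)) :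
    Integrable (fun t : ℝ => Y (c + t * Complex.I) / (c + t * Complex.I) *
      Complex.exp (-(c + t * Complex.I) * ρ)) := by
  have hb : 0 < (49 / 100 : ℝ) / V := by positivity
  have hc' : 0 < |c| := abs_pos.2 hc
  refine ((integrable_exp_neg_mul_sq hb).const_mul
    (101 / 100 * A * Real.exp (-c * ρ) / |c|)).mono' ?_ ?_
  · apply Continuous.aestronglyMeasurable
    apply Continuous.mul
    · apply Continuous.div
      · exact hY.comp (by fun_prop)
      · fun_prop
      · intro t
        exact line_ne hc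
    · fun_prop
  · refine Eventually.of_forall fun t => ?_
    rw [norm_mul, norm_div, exp_norm]
    have h1 : ‖Y (c + t * Complex.I)‖ / ‖(c : ℂ) + t * Complex.I‖ ≤
        101 / 100 * A * Real.exp (-(49 / 100) * t ^ 2 / V) / |c| :=
      div_le_div₀ (by positivity) (h t) hc' (line_norm c t)
    have e1 : -(49 / 100) * t ^ 2 / V = -((49 / 100) / V) * t ^ 2 := by ring
    rw [e1] at h1
    calc _ ≤ 101 / 100 * A * Real.exp (-((49 / 100) / V) * t ^ 2) / |c| * Real.exp (-c * ρ) :=
          mul_le_mul_of_nonneg_right h1 (Real.exp_pos _).le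
      _ = _ := by ring

theorem num_s {V : ℝ} (hV : 0 < V) : √(Real.pi / (1 / 10 / V)) ≤ 57 / 10 * √V := by
  rw [Real.sqrt_le_left (by positivity)]
  rw [mul_pow, Real.sq_sqrt hV.le]
  have h3 : Real.pi / (1 / 10 / V) = 10 * Real.pi * V := by
    field_simp
  rw [h3]
  have : Real.pi < 3.15 := Real.pi_lt_d2
  nlinarith

theorem num_e : Real.exp (-(351 / 100)) ≤ 1 / 25 := by
  have h3 : Real.exp (-(351 / 100)) = (Real.exp (351 / 100))⁻¹ := Real.exp_neg _
  rw [h3, inv_le_comm₀ (Real.exp_pos _) (by norm_num)]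
  have h4 : (2.7182818283 : ℝ) ≤ Real.exp 1 := Real.exp_one_gt_d9.le
  have h5 : Real.exp (351 / 100) = Real.exp 1 ^ 3 * Real.exp (51 / 100) := by
    rw [← Real.exp_nat_mul, ← Real.exp_add]
    norm_num
  have h6 : 1 + 51 / 100 ≤ Real.exp (51 / 100) := by
    have := Real.add_one_le_exp (51 / 100 : ℝ)
    linarith
  rw [h5]
  have h7 : (2.7182818283 : ℝ) ^ 3 ≤ Real.exp 1 ^ 3 := pow_le_pow_left₀ (by norm_num) h4 3
  have h8 : (2.7182818283 : ℝ) ^ 3 * (1 + 51 / 100) ≤ Real.exp 1 ^ 3 * Real.exp (51 / 100) :=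
    mul_le_mul h7 h6 (by norm_num) (by positivity)
  refine le_trans ?_ h8
  norm_num

theorem num_fin {a V w mx : ℝ} (ha0 : 0 < a) (hV : 0 < V) (hw : w = min a √V)
    (hmx : mx = max a (3 * √V)) :
    101 / 100 / mx * (1 / 25) * (57 / 10 * √V) ≤ 2 * w * (29 / 100 / a) := by
  have hsV : 0 < √V := Real.sqrt_pos.2 hV
  have hmx0 : 0 < mx := by rw [hmx]; exact lt_of_lt_of_le ha0 (le_max_left _ _)
  rcases le_total a √V with hcase | hcase
  · have hw' : w = a := by rw [hw]; exact min_eq_left hcase
    have hm3 : 3 * √V ≤ mx := by rw [hmx]; exact le_max_right _ _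
    rw [hw']
    have h3 : 2 * a * (29 / 100 / a) = 58 / 100 := by
      field_simp
      norm_num
    rw [h3]
    have h4 : √V / mx ≤ 1 / 3 := by
      rw [div_le_iff₀ hmx0]; linarith
    calc 101 / 100 / mx * (1 / 25) * (57 / 10 * √V) =
        101 / 100 * (1 / 25) * (57 / 10) * (√V / mx) := by ring
      _ ≤ 101 / 100 * (1 / 25) * (57 / 10) * (1 / 3) := by gcongr
      _ ≤ 58 / 100 := by norm_num
  · have hw' : w = √V := by rw [hw]; exact min_eq_right hcase
    have hm3 : a ≤ mx := by rw [hmx]; exact le_max_left _ _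
    rw [hw']
    have h4 : √V / mx ≤ √V / a := div_le_div_of_nonneg_left hsV.le ha0 hm3
    calc 101 / 100 / mx * (1 / 25) * (57 / 10 * √V) =
        101 / 100 * (1 / 25) * (57 / 10) * (√V / mx) := by ring
      _ ≤ 101 / 100 * (1 / 25) * (57 / 10) * (√V / a) := by gcongr
      _ ≤ 58 / 100 * (√V / a) := by
          apply mul_le_mul_of_nonneg_right _ (by positivity)
          norm_num
      _ = _ := by ring

theorem pos_part {Y : ℂ → ℂ} (hY : Continuous Y) {σ ρ V y0 : ℝ} (hσ : σ < 0)
    (hVσ : √V / 5 ≤ -σ) (hV : 0 < V) (hy0 : 0 < y0)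
    (h1 : ∀ t : ℝ, ‖Y (σ + t * Complex.I)‖ ≤
      101 / 100 * y0 * Real.exp (-(49 / 100) * t ^ 2 / V))
    (h2 : ∀ t : ℝ, |t| ≤ 3 * √V → ∃ m θ : ℝ, |θ| ≤ 1 / 1000 ∧
      99 / 100 * Real.exp (-(51 / 100) * t ^ 2 / V) ≤ m ∧
      Y (σ + t * Complex.I) = (y0 : ℂ) * (m : ℂ) *
        Complex.exp (((ρ * t + θ : ℝ) : ℂ) * Complex.I)) :
    (WW Y σ ρ).re ≤ 0 := by
  have hsV : 0 < √V := Real.sqrt_pos.2 hV
  set a := -σ with ha
  have ha0 : 0 < a := by linarith
  have hint := WW_integrable hY (ρ := ρ) hσ.ne hV hy0.le h1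
  set w := min a √V with hw
  have hw0 : 0 < w := lt_min ha0 hsV
  set mx := max a (3 * √V) with hmx
  have hmx0 : 0 < mx := lt_of_lt_of_le ha0 (le_max_left _ _)
  set E := y0 * Real.exp (a * ρ) with hE
  have hE0 : 0 < E := by positivity
  -- the upper bound of the real part of the integrand
  have key : ∀ t : ℝ, (Y (σ + t * Complex.I) / (σ + t * Complex.I) *
      Complex.exp (-(σ + t * Complex.I) * ρ)).re ≤
      E * (101 / 100 / mx * Real.exp (-(351 / 100)) * Real.exp (-(1 / 10 / V) * t ^ 2) -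
        (Set.Icc (-w) w).indicator (fun _ => 29 / 100 / a) t) := by
    intro t
    by_cases ht : |t| ≤ 3 * √V
    · obtain ⟨m, θ, hθ, hm, hYt⟩ := h2 t ht
      have hm0 : 0 ≤ m := le_trans (by positivity) hm
      have e1 : Y (σ + t * Complex.I) / (σ + t * Complex.I) *
          Complex.exp (-(σ + t * Complex.I) * ρ) =
          ((E * m / (a ^ 2 + t ^ 2) : ℝ) : ℂ) * (Complex.exp ((θ : ℂ) * Complex.I) *
            (-(a : ℂ) - t * Complex.I)) := by
        have h3 : (σ : ℂ) + t * Complex.I ≠ 0 := line_ne hσ.ne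
        have h4 : ((a ^ 2 + t ^ 2 : ℝ) : ℂ) = ((σ : ℂ) + t * Complex.I) *
            (-(a : ℂ) - t * Complex.I) := by
          rw [ha]
          push_cast
          linear_combination ((t : ℂ) ^ 2) * Complex.I_sq
        have h5 : ((a ^ 2 + t ^ 2 : ℝ) : ℂ) ≠ 0 := by
          have : 0 < a ^ 2 + t ^ 2 := by positivity
          exact_mod_cast this.ne'
        have h6 : Complex.exp (((ρ * t + θ : ℝ) : ℂ) * Complex.I) *
            Complex.exp (-(σ + t * Complex.I) * ρ) =
            ((Real.exp (a * ρ) : ℝ) : ℂ) * Complex.exp ((θ : ℂ) * Complex.I) := by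
          rw [Complex.ofReal_exp, ← Complex.exp_add, ← Complex.exp_add]
          congr 1
          rw [ha]
          push_cast
          ring
        rw [hYt]
        have h7 : ((y0 : ℂ) * (m : ℂ) * Complex.exp (((ρ * t + θ : ℝ) : ℂ) * Complex.I)) /
            (σ + t * Complex.I) * Complex.exp (-(σ + t * Complex.I) * ρ) =
            (y0 : ℂ) * m * (Complex.exp (((ρ * t + θ : ℝ) : ℂ) * Complex.I) *
            Complex.exp (-(σ + t * Complex.I) * ρ)) / (σ + t * Complex.I) := by ring
        rw [h7, h6, hE]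
        rw [div_eq_iff h3]
        rw [Complex.ofReal_div, div_mul_eq_mul_div, div_mul_eq_mul_div, eq_div_iff h5, h4]
        push_cast
        ring
      rw [e1, Complex.re_ofReal_mul]
      have e2 : (Complex.exp ((θ : ℂ) * Complex.I) * (-(a : ℂ) - t * Complex.I)).re =
          -(a * Real.cos θ - t * Real.sin θ) := by
        rw [Complex.exp_mul_I]
        simp only [Complex.mul_re, Complex.add_re, Complex.add_im, Complex.sub_re, Complex.sub_im,
          Complex.neg_re, Complex.neg_im, Complex.ofReal_re, Complex.ofReal_im, Complex.I_re,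
          Complex.I_im, Complex.mul_im, Complex.cos_ofReal_re, Complex.cos_ofReal_im,
          Complex.sin_ofReal_re, Complex.sin_ofReal_im]
        ring
      rw [e2]
      have hcos : 999 / 1000 ≤ Real.cos θ := by
        have := Real.one_sub_sq_div_two_le_cos (x := θ)
        have h8 : θ ^ 2 ≤ (1 / 1000) ^ 2 := by
          rw [← sq_abs]
          exact pow_le_pow_left₀ (abs_nonneg _) hθ 2
        nlinarith
      have hsin : |Real.sin θ| ≤ 1 / 1000 := (Real.abs_sin_le_abs (x := θ)).trans hθ
      have h9 : t * Real.sin θ ≤ 15 / 1000 * a := by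
        have h10 : t * Real.sin θ ≤ |t| * |Real.sin θ| := by
          rw [← abs_mul]
          exact le_abs_self _
        have h11 : |t| * |Real.sin θ| ≤ (3 * √V) * (1 / 1000) :=
          mul_le_mul ht hsin (abs_nonneg _) (by positivity)
        have h12 : √V ≤ 5 * a := by linarith
        nlinarith
      have h13 : 984 / 1000 * a ≤ a * Real.cos θ - t * Real.sin θ := by nlinarith
      have hfac : 0 ≤ E * m / (a ^ 2 + t ^ 2) := by positivity
      have hterm : 0 ≤ E * (101 / 100 / mx * Real.exp (-(351 / 100)) *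
          Real.exp (-(1 / 10 / V) * t ^ 2)) := by positivity
      by_cases hin : t ∈ Set.Icc (-w) w
      · rw [Set.indicator_of_mem hin]
        have ht1 : |t| ≤ w := abs_le.2 hin
        have hta : |t| ≤ a := ht1.trans (min_le_left _ _)
        have htV : |t| ≤ √V := ht1.trans (min_le_right _ _)
        have h14 : t ^ 2 ≤ a ^ 2 := by
          rw [← sq_abs]; exact pow_le_pow_left₀ (abs_nonneg _) hta 2
        have h15 : t ^ 2 ≤ V := by
          have := pow_le_pow_left₀ (abs_nonneg _) htV 2
          rwa [sq_abs, Real.sq_sqrt hV.le] at this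
        have hm1 : 59 / 100 ≤ m := by
          refine le_trans ?_ hm
          have h16 : -(51 / 100) ≤ -(51 / 100) * t ^ 2 / V := by
            rw [le_div_iff₀ hV]
            nlinarith
          have h17 : Real.exp (-(51 / 100)) ≤ Real.exp (-(51 / 100) * t ^ 2 / V) :=
            Real.exp_le_exp.2 h16
          have h18 : (60 / 100 : ℝ) ≤ Real.exp (-(51 / 100)) := by
            rw [Real.exp_neg, le_inv_comm₀ (by norm_num) (Real.exp_pos _)]
            have h19 : Real.exp (51 / 100) ≤ 1666 / 1000 := by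
              have := Real.exp_bound' (x := 51 / 100) (by norm_num) (by norm_num) (n := 5)
                (by norm_num)
              refine this.trans ?_
              norm_num [Finset.sum_range_succ, Nat.factorial]
            refine h19.trans ?_
            norm_num
          nlinarith
        have h20 : E * m / (a ^ 2 + t ^ 2) * (984 / 1000 * a) ≤
            E * m / (a ^ 2 + t ^ 2) * (a * Real.cos θ - t * Real.sin θ) :=
          mul_le_mul_of_nonneg_left h13 hfac
        have h21 : E * (29 / 100 / a) ≤ E * m / (a ^ 2 + t ^ 2) * (984 / 1000 * a) := by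
          have h22 : E * m / (a ^ 2 + t ^ 2) * (984 / 1000 * a) =
              E * (m * (984 / 1000) * a / (a ^ 2 + t ^ 2)) := by ring
          rw [h22]
          apply mul_le_mul_of_nonneg_left _ hE0.le
          rw [div_le_div_iff₀ ha0 (by positivity)]
          have h23 : a ^ 2 + t ^ 2 ≤ 2 * a ^ 2 := by linarith
          nlinarith [mul_le_mul_of_nonneg_right hm1 (sq_nonneg a)]
        nlinarith
      · rw [Set.indicator_of_notMem hin]
        have : 0 ≤ E * m / (a ^ 2 + t ^ 2) * (a * Real.cos θ - t * Real.sin θ) :=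
          mul_nonneg hfac (le_trans (by positivity) h13)
        rw [sub_zero]
        nlinarith
    · have ht' : 3 * √V < |t| := not_le.1 ht
      have hin : t ∉ Set.Icc (-w) w := by
        intro h
        have h3 : |t| ≤ w := abs_le.2 h
        have h4 : w ≤ √V := min_le_right _ _
        linarith
      rw [Set.indicator_of_notMem hin, sub_zero]
      refine (Complex.re_le_norm _).trans ?_
      rw [norm_mul, norm_div, exp_norm]
      have hmxn : mx ≤ ‖(σ : ℂ) + t * Complex.I‖ := by
        apply max_le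
        · have := line_norm σ t
          rwa [abs_of_neg hσ] at this
        · exact ht'.le.trans (line_norm' σ t)
      have h3 : ‖Y (σ + t * Complex.I)‖ / ‖(σ : ℂ) + t * Complex.I‖ ≤
          101 / 100 * y0 * Real.exp (-(49 / 100) * t ^ 2 / V) / mx :=
        div_le_div₀ (by positivity) (h1 t) hmx0 hmxn
      have h4 : Real.exp (-(49 / 100) * t ^ 2 / V) ≤
          Real.exp (-(351 / 100)) * Real.exp (-(1 / 10 / V) * t ^ 2) := by
        rw [← Real.exp_add, Real.exp_le_exp]
        have h5 : 9 * V ≤ t ^ 2 := by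
          have := pow_le_pow_left₀ (by positivity) ht'.le 2
          rw [sq_abs, mul_pow, Real.sq_sqrt hV.le] at this
          linarith
        have h6 : 9 ≤ t ^ 2 / V := by rwa [le_div_iff₀ hV]
        have h7 : -(49 / 100) * t ^ 2 / V = -(49 / 100) * (t ^ 2 / V) := by ring
        have h8 : -(1 / 10 / V) * t ^ 2 = -(1 / 10) * (t ^ 2 / V) := by ring
        rw [h7, h8]
        linarith
      calc _ ≤ 101 / 100 * y0 * Real.exp (-(49 / 100) * t ^ 2 / V) / mx * Real.exp (-σ * ρ) :=
            mul_le_mul_of_nonneg_right h3 (Real.exp_pos _).le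
        _ ≤ 101 / 100 * y0 * (Real.exp (-(351 / 100)) * Real.exp (-(1 / 10 / V) * t ^ 2)) / mx *
            Real.exp (-σ * ρ) := by gcongr
        _ = _ := by rw [hE, ha]; ring
  have hb : 0 < (1 / 10 : ℝ) / V := by positivity
  have hgi : Integrable (fun t : ℝ => 101 / 100 / mx * Real.exp (-(351 / 100)) *
      Real.exp (-(1 / 10 / V) * t ^ 2)) := (integrable_exp_neg_mul_sq hb).const_mul _
  have hii : Integrable (fun t : ℝ => (Set.Icc (-w) w).indicator (fun _ => 29 / 100 / a) t) := by
    rw [integrable_indicator_iff measurableSet_Icc]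
    exact integrableOn_const (by simp)
  unfold WW
  have hre : (∫ t : ℝ, Y (σ + t * Complex.I) / (σ + t * Complex.I) *
      Complex.exp (-(σ + t * Complex.I) * ρ)).re = ∫ t : ℝ, (Y (σ + t * Complex.I) /
      (σ + t * Complex.I) * Complex.exp (-(σ + t * Complex.I) * ρ)).re :=
    (integral_re hint).symm
  rw [hre]
  refine (integral_mono hint.re ((hgi.sub hii).const_mul E) key).trans ?_
  rw [integral_const_mul]
  apply mul_nonpos_of_nonneg_of_nonpos hE0.le
  have hsub := integral_sub hgi hii
  simp only [Pi.sub_apply] at hsub ⊢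
  rw [hsub, integral_const_mul, gauss_int, integral_indicator measurableSet_Icc,
    setIntegral_const]
  have hvol : (volume.real (Set.Icc (-w) w)) = 2 * w := by
    rw [Real.volume_real_Icc_of_le (by linarith)]
    ring
  rw [hvol, smul_eq_mul]
  have hs := num_s hV
  have he := num_e
  have hfin := num_fin ha0 hV hw hmx
  have h3 : 101 / 100 / mx * Real.exp (-(351 / 100)) * √(Real.pi / (1 / 10 / V)) ≤
      101 / 100 / mx * (1 / 25) * (57 / 10 * √V) := by gcongr
  linarith

end Pool.Agent.TH41.LP.VVf
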