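import Mathlib
import Pool.Agent.TH41.LP.Stm
import Pool.Agent.TH41.LP.VV

set_option autoImplicit false

open MeasureTheory Filter Topology

namespace Pool.Agent.TH41.LP.VVf

open Pool.Agent.TH41.LP

theorem num_pi_sqrt {V : ℝ} (hV : 0 < V) : √(Real.pi / ((49 / 100) / V)) ≤ 2533 / 1000 * √V := by
  rw [Real.sqrt_le_left (by positivity)]
  rw [mul_pow, Real.sq_sqrt hV.le]
  have h3 : Real.pi / ((49 / 100) / V) = 100 / 49 * Real.pi * V := by
    field_simp
  rw [h3]
  have : Real.pi < 3.1416 := Real.pi_lt_d4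
  nlinarith

theorem num_exp : Real.exp (3 / 5) ≤ 1823 / 1000 := by
  have := Real.exp_bound' (x := 3 / 5) (by norm_num) (by norm_num) (n := 6)
    (by norm_num)
  refine this.trans ?_
  norm_num [Finset.sum_range_succ, Nat.factorial]

theorem num_K {ε C K D : ℝ} (hε : 0 < ε) (hC : C = 8 / ε) (hK : K = 16 / (3 * ε ^ 2))
    (hD : 1 ≤ D) : √(K * D) ≤ C * D / 2 := by
  have hC0 : 0 < C := by rw [hC]; positivity
  have hK0 : 0 < K := by rw [hK]; positivity
  rw [Real.sqrt_le_left (by positivity)]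
  have e1 : (C * D / 2) ^ 2 = 16 * D ^ 2 / ε ^ 2 := by
    rw [hC]
    field_simp
    norm_num
  have e2 : K * D = (16 / 3) * D / ε ^ 2 := by
    rw [hK]
    field_simp
  rw [e1, e2]
  apply div_le_div_of_nonneg_right _ (by positivity)
  nlinarith

theorem core {ε C K η D : ℝ} (hε : 0 < ε) (hε1 : ε ≤ 1) (hC : C = 8 / ε)
    (hK : K = 16 / (3 * ε ^ 2)) (hη : η = 3 * ε ^ 2 / 6400) (hD : 1 ≤ D)
    (hDK : 9 / 10 * √(K * D) ≤ D / 2)
    (Y : ℂ → ℂ) (al : ℝ → ℝ) (hY : Differentiable ℂ Y) (hY0 : Y 0 = 1)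
    (hpos : ∀ σ : ℝ, σ ≤ D → 0 < (Y σ).re ∧ (Y σ).im = 0)
    (hshift : ∀ ρ : ℝ, (∀ c : ℝ, 0 < c → c ≤ D / 2 → WW Y c ρ = WW Y (D / 2) ρ) ∧
      (∀ c : ℝ, -(C * D) ≤ c → c < 0 → WW Y (D / 2) ρ - WW Y c ρ = 2 * Real.pi * Y 0))
    (h1a : ∀ σ : ℝ, σ ≤ -(√(K * D) / 5) → ∀ t : ℝ, ‖Y (σ + t * Complex.I)‖ ≤
        101 / 100 * ‖Y σ‖ * Real.exp (-(49 / 100) * t ^ 2 / (K * D)))
    (h1b : ∀ t : ℝ, ‖Y ((9 / 10 * √(K * D) : ℝ) + t * Complex.I)‖ ≤
        101 / 100 * ‖Y (9 / 10 * √(K * D) : ℝ)‖ *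
          Real.exp (-(49 / 100) * t ^ 2 / (K * D)))
    (h2 : ∀ σ : ℝ, σ ≤ -(√(K * D) / 5) → ∀ t : ℝ, |t| ≤ 3 * √(K * D) →
      ∃ m θ : ℝ, |θ| ≤ 1 / 1000 ∧
        99 / 100 * Real.exp (-(51 / 100) * t ^ 2 / (K * D)) ≤ m ∧
        Y (σ + t * Complex.I) =
          Y σ * (m : ℂ) * Complex.exp (((al σ * t + θ : ℝ) : ℂ) * Complex.I))
    (h3 : ContinuousOn al (Set.Iic 0))
    (h4 : al (-(C * D)) ≤ 1 / 2 * Real.log D - Real.log Real.pi - C / K + 2 * η)
    (h5 : ‖Y (-(C * D) : ℝ)‖ ≤ Real.exp (-(C * D) *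
      (1 / 2 * Real.log D - Real.log Real.pi - (C + 1) / (2 * K) - 2 * η)))
    (h6 : ‖Y (9 / 10 * √(K * D) : ℝ)‖ ≤
      Real.exp (9 / 10 * √(K * D) * al (-(√(K * D) / 5)) + 3 / 5)) :
    (∃ M : ℝ, ∀ ρ : ℝ, ‖WW Y (D / 2) ρ‖ ≤ M) ∧
    (∀ ρ : ℝ, ρ ≤ 1 / 2 * Real.log D - Real.log Real.pi - ε →
      ‖1 - WW Y (D / 2) ρ / (2 * Real.pi)‖ ≤ Real.exp (-D)) ∧
    (∀ ρ : ℝ, 1 / 2 * Real.log D - Real.log Real.pi - ε ≤ ρ →
      (WW Y (D / 2) ρ / (2 * Real.pi)).re ≤ 1) := by
  have hC0 : 0 < C := by rw [hC]; positivity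
  have hK0 : 0 < K := by rw [hK]; positivity
  have hη0 : 0 < η := by rw [hη]; positivity
  have hD0 : 0 < D := by linarith
  set V := K * D with hVdef
  have hV : 0 < V := by positivity
  have hsV : 0 < √V := Real.sqrt_pos.2 hV
  have hCD : 0 < C * D := by positivity
  have hnum := num_K hε hC hK hD
  rw [← hVdef] at hnum
  have hpi : (3.14 : ℝ) < Real.pi := Real.pi_gt_d2
  have hpi0 : 0 < Real.pi := Real.pi_pos
  have hσ0 : -(C * D) ≤ -(√V / 5) := by linarith
  set ρ' := 1 / 2 * Real.log D - Real.log Real.pi - ε with hρ'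
  -- part A
  have hA : ∀ ρ : ℝ, ρ ≤ ρ' → ‖1 - WW Y (D / 2) ρ / (2 * Real.pi)‖ ≤ Real.exp (-D) := by
    intro ρ hρ
    have hs := (hshift ρ).2 (-(C * D)) le_rfl (by linarith)
    have e1 : 1 - WW Y (D / 2) ρ / (2 * Real.pi) = -(WW Y (-(C * D) : ℝ) ρ / (2 * Real.pi)) := by
      have h7 : WW Y (D / 2) ρ = WW Y (-(C * D) : ℝ) ρ + 2 * Real.pi := by
        rw [hY0] at hs
        linear_combination hs
      rw [h7]
      have : (2 * (Real.pi : ℂ)) ≠ 0 := by
        have := Real.pi_ne_zero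
        simp [this]
      field_simp
      ring
    rw [e1, norm_neg, norm_div]
    have e2 : ‖(2 * (Real.pi : ℂ))‖ = 2 * Real.pi := by
      rw [norm_mul, Complex.norm_real, Real.norm_of_nonneg hpi0.le]
      norm_num
    rw [e2]
    have h8 := WW_bound (ρ := ρ) (c := -(C * D)) (by linarith) hV (norm_nonneg _) (h1a (-(C * D)) hσ0)
    have e3 : |-(C * D)| = C * D := by rw [abs_neg, abs_of_pos hCD]
    rw [e3] at h8
    have h9 : √(Real.pi / ((49 / 100) / V)) ≤ 2 * (C * D) := by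
      refine (num_pi_sqrt hV).trans ?_
      linarith
    have h10 : ‖Y (-(C * D) : ℝ)‖ * Real.exp (-(-(C * D)) * ρ) ≤ Real.exp (-D) := by
      calc _ ≤ Real.exp (-(C * D) *
            (1 / 2 * Real.log D - Real.log Real.pi - (C + 1) / (2 * K) - 2 * η)) *
            Real.exp (-(-(C * D)) * ρ') := by
            apply mul_le_mul h5 _ (Real.exp_pos _).le (Real.exp_pos _).le
            rw [Real.exp_le_exp, neg_neg]
            exact mul_le_mul_of_nonneg_left hρ hCD.le
        _ ≤ Real.exp (-D) := by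
            rw [← Real.exp_add, Real.exp_le_exp, hρ']
            have h11 : 1 ≤ C * (ε - (C + 1) / (2 * K) - 2 * η) := by
              have e4 : C * (ε - (C + 1) / (2 * K) - 2 * η) =
                  8 - (6 + 3 / 4 * ε) - 3 / 400 * ε := by
                rw [hC, hK, hη]
                field_simp
                ring
              rw [e4]
              linarith
            nlinarith [mul_le_mul_of_nonneg_left h11 hD0.le]
    rw [div_le_iff₀ (by positivity)]
    refine h8.trans ?_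
    have h12 : 101 / 100 * ‖Y (-(C * D) : ℝ)‖ * Real.exp (-(-(C * D)) * ρ) / (C * D) *
        √(Real.pi / ((49 / 100) / V)) ≤
        101 / 100 * ‖Y (-(C * D) : ℝ)‖ * Real.exp (-(-(C * D)) * ρ) / (C * D) *
        (2 * (C * D)) := mul_le_mul_of_nonneg_left h9 (by positivity)
    refine h12.trans ?_
    have e5 : 101 / 100 * ‖Y (-(C * D) : ℝ)‖ * Real.exp (-(-(C * D)) * ρ) / (C * D) *
        (2 * (C * D)) = 202 / 100 * (‖Y (-(C * D) : ℝ)‖ * Real.exp (-(-(C * D)) * ρ)) := by
      field_simp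
      ring
    rw [e5]
    have h13 : 202 / 100 * (‖Y (-(C * D) : ℝ)‖ * Real.exp (-(-(C * D)) * ρ)) ≤
        202 / 100 * Real.exp (-D) := by linarith
    have h14 : 202 / 100 * Real.exp (-D) ≤ Real.exp (-D) * (2 * Real.pi) := by
      have := Real.exp_pos (-D)
      nlinarith
    linarith
  -- bound on the line `Re s = 9/10 √V`
  have hc0 : 0 < 9 / 10 * √V := by positivity
  have hB : ∀ ρ : ℝ, ‖WW Y (D / 2) ρ‖ ≤ 101 / 100 * ‖Y (9 / 10 * √V : ℝ)‖ *
      Real.exp (-(9 / 10 * √V) * ρ) / (9 / 10 * √V) * √(Real.pi / ((49 / 100) / V)) := by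
    intro ρ
    rw [← (hshift ρ).1 (9 / 10 * √V) hc0 hDK]
    have := WW_bound (ρ := ρ) (c := 9 / 10 * √V) hc0.ne' hV (norm_nonneg _) h1b
    rwa [abs_of_pos hc0] at this
  refine ⟨?_, hA, ?_⟩
  · refine ⟨max (4 * Real.pi) (101 / 100 * ‖Y (9 / 10 * √V : ℝ)‖ *
      Real.exp (-(9 / 10 * √V) * ρ') / (9 / 10 * √V) * √(Real.pi / ((49 / 100) / V))), ?_⟩
    intro ρ
    rcases le_total ρ ρ' with h | h
    · refine le_trans ?_ (le_max_left _ _)
      have h7 := hA ρ h
      have h8 : ‖WW Y (D / 2) ρ / (2 * Real.pi)‖ ≤ 2 := by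
        have h9 : WW Y (D / 2) ρ / (2 * Real.pi) = 1 - (1 - WW Y (D / 2) ρ / (2 * Real.pi)) := by
          ring
        rw [h9]
        refine (norm_sub_le _ _).trans ?_
        have : Real.exp (-D) ≤ 1 := Real.exp_le_one_iff.2 (by linarith)
        rw [norm_one]
        linarith
      rw [norm_div, div_le_iff₀ (by
        apply norm_pos_iff.2
        have := Real.pi_ne_zero
        simp [this])] at h8
      have e2 : ‖(2 * (Real.pi : ℂ))‖ = 2 * Real.pi := by
        rw [norm_mul, Complex.norm_real, Real.norm_of_nonneg hpi0.le]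
        norm_num
      rw [e2] at h8
      linarith
    · refine le_trans ((hB ρ).trans ?_) (le_max_right _ _)
      have h7 : Real.exp (-(9 / 10 * √V) * ρ) ≤ Real.exp (-(9 / 10 * √V) * ρ') := by
        rw [Real.exp_le_exp]
        nlinarith
      gcongr
  · intro ρ hρ
    have hdiv : ∀ z : ℂ, (z / (2 * Real.pi)).re = z.re / (2 * Real.pi) := by
      intro z
      have : z / (2 * (Real.pi : ℂ)) = z / (((2 * Real.pi : ℝ)) : ℂ) := by push_cast; rfl
      rw [this, Complex.div_ofReal_re]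
    rcases le_total ρ (al (-(√V / 5))) with h | h
    · -- IVT
      have h7 : al (-(C * D)) ≤ ρ := by
        refine h4.trans (le_trans ?_ hρ)
        rw [hρ']
        have e4 : C / K - 2 * η = 3 / 2 * ε - 3 / 3200 * ε ^ 2 := by
          rw [hC, hK, hη]
          field_simp
          ring
        nlinarith
      have h8 : ContinuousOn al (Set.Icc (-(C * D)) (-(√V / 5))) :=
        h3.mono (fun x hx => by
          have := hx.2
          simp only [Set.mem_Iic]
          linarith)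
      obtain ⟨σ, hσ, hσρ⟩ := intermediate_value_Icc hσ0 h8 ⟨h7, h⟩
      have hσneg : σ < 0 := by
        have := hσ.2
        linarith [hsV]
      have hp := hpos σ (by linarith)
      have hYσ : Y σ = (((Y σ).re : ℝ) : ℂ) := by
        apply Complex.ext
        · simp
        · simp [hp.2]
      have hYn : ‖Y σ‖ = (Y σ).re := by
        rw [hYσ, Complex.norm_real, Real.norm_of_nonneg (by simpa using hp.1.le)]
        simp
      have h9 : (WW Y σ ρ).re ≤ 0 := by
        refine pos_part hY.continuous (V := V) (y0 := (Y σ).re) hσneg ?_ hV hp.1 ?_ ?_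
        · have := hσ.2
          linarith
        · intro t
          have := h1a σ hσ.2 t
          rwa [hYn] at this
        · intro t ht
          obtain ⟨m, θ, hθ, hm, he⟩ := h2 σ hσ.2 t ht
          refine ⟨m, θ, hθ, hm, ?_⟩
          rw [he, hσρ]
          congr 2
      have hs := (hshift ρ).2 σ hσ.1 hσneg
      have h10 : WW Y (D / 2) ρ = WW Y σ ρ + ((2 * Real.pi : ℝ) : ℂ) := by
        rw [hY0] at hs
        push_cast
        linear_combination hs
      rw [hdiv, h10, Complex.add_re, Complex.ofReal_re, div_le_one (by positivity)]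
      linarith
    · -- the bound on the right
      rw [hdiv, div_le_one (by positivity)]
      refine (Complex.re_le_norm _).trans ((hB ρ).trans ?_)
      have h7 : ‖Y (9 / 10 * √V : ℝ)‖ * Real.exp (-(9 / 10 * √V) * ρ) ≤ Real.exp (3 / 5) := by
        calc _ ≤ Real.exp (9 / 10 * √V * al (-(√V / 5)) + 3 / 5) *
              Real.exp (-(9 / 10 * √V) * al (-(√V / 5))) := by
              apply mul_le_mul h6 _ (Real.exp_pos _).le (Real.exp_pos _).le
              rw [Real.exp_le_exp]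
              nlinarith
          _ = Real.exp (3 / 5) := by
              rw [← Real.exp_add]
              congr 1
              ring
      have h8 := h7.trans num_exp
      have h9 := num_pi_sqrt hV
      calc _ = 101 / 100 * (‖Y (9 / 10 * √V : ℝ)‖ * Real.exp (-(9 / 10 * √V) * ρ)) /
            (9 / 10 * √V) * √(Real.pi / ((49 / 100) / V)) := by ring
        _ ≤ 101 / 100 * (1823 / 1000) / (9 / 10 * √V) * (2533 / 1000 * √V) := by gcongr
        _ = 101 / 100 * (1823 / 1000) * (2533 / 1000) / (9 / 10) := by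
            field_simp
        _ ≤ 2 * 3.14 := by norm_num
        _ ≤ 2 * Real.pi := by linarith

end Pool.Agent.TH41.LP.VVf
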