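import Mathlib
import Pool.Agent.TH41.LP.Stm

set_option autoImplicit false

open MeasureTheory Filter Topology

namespace Pool.Agent.TH41.LP.BLKf

open Pool.Agent.TH41.LP

lemma s_pos {β : ℝ} (hβ : 1 ≤ β) (c : ℝ) : 0 < √(β ^ 2 + c ^ 2) :=
  Real.sqrt_pos.mpr (by positivity)

lemma s_ge_one {β : ℝ} (hβ : 1 ≤ β) (c : ℝ) : 1 ≤ √(β ^ 2 + c ^ 2) := by
  rw [Real.one_le_sqrt]
  nlinarith [sq_nonneg c]

lemma s_ge_c (β c : ℝ) : c ≤ √(β ^ 2 + c ^ 2) :=
  Real.le_sqrt_of_sq_le (by nlinarith [sq_nonneg β])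

lemma Wt_pos {β : ℝ} (hβ : 1 ≤ β) {c : ℝ} (hc : 0 < c) : 0 < Wt β c := by
  unfold Wt
  have := s_pos hβ c
  positivity

lemma Wt_nonneg {β : ℝ} (hβ : 1 ≤ β) {c : ℝ} (hc : 0 ≤ c) : 0 ≤ Wt β c := by
  unfold Wt
  have := s_pos hβ c
  positivity

lemma Wt_le_c {β : ℝ} (hβ : 1 ≤ β) {c : ℝ} (hc : 0 ≤ c) : Wt β c ≤ c := by
  unfold Wt
  have h1 := s_ge_one hβ c
  exact div_le_self hc (one_le_pow₀ h1)

lemma Wt_le_one {β : ℝ} (hβ : 1 ≤ β) {c : ℝ} (_hc : 0 ≤ c) : Wt β c ≤ 1 := by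
  unfold Wt
  have h1 := s_ge_one hβ c
  have h0 := s_pos hβ c
  rw [div_le_one (by positivity)]
  have h2 := s_ge_c β c
  calc c ≤ √(β ^ 2 + c ^ 2) := h2
    _ = √(β ^ 2 + c ^ 2) ^ 1 := (pow_one _).symm
    _ ≤ √(β ^ 2 + c ^ 2) ^ 3 := pow_le_pow_right₀ h1 (by norm_num)

lemma Wt_le_inv {β : ℝ} (hβ : 1 ≤ β) {c : ℝ} (hc : 0 < c) : Wt β c ≤ (c ^ 2)⁻¹ := by
  unfold Wt
  have h0 := s_pos hβ c
  have h2 := s_ge_c β c
  rw [div_le_iff₀ (by positivity)]
  have h3 : c ^ 3 ≤ √(β ^ 2 + c ^ 2) ^ 3 := pow_le_pow_left₀ hc.le h2 3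
  calc c = (c ^ 2)⁻¹ * c ^ 3 := by field_simp
    _ ≤ (c ^ 2)⁻¹ * √(β ^ 2 + c ^ 2) ^ 3 := by
        apply mul_le_mul_of_nonneg_left h3 (by positivity)

lemma Wt_cont {β : ℝ} (hβ : 1 ≤ β) : Continuous (Wt β) := by
  unfold Wt
  apply Continuous.div continuous_id
  · fun_prop
  · intro c
    have := s_pos hβ c
    positivity

/-- the grid points -/
noncomputable def pt (cm cM : ℝ) (n : ℕ) (k : ℕ) : ℝ := cm + k * ((cM - cm) / n)

/-- the masses of the cells -/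
noncomputable def ms (β cm cM : ℝ) (n : ℕ) (k : ℕ) : ℝ :=
  ∫ c in (pt cm cM n k)..(pt cm cM n (k + 1)), Wt β c

lemma pt_lt {cm cM : ℝ} (h : cm < cM) {n : ℕ} (hn : 0 < n) (k : ℕ) :
    pt cm cM n k < pt cm cM n (k + 1) := by
  unfold pt
  have : 0 < (cM - cm) / n := div_pos (by linarith) (by exact_mod_cast hn)
  push_cast
  nlinarith

lemma pt_zero (cm cM : ℝ) (n : ℕ) : pt cm cM n 0 = cm := by simp [pt]

lemma pt_n (cm cM : ℝ) {n : ℕ} (hn : 0 < n) : pt cm cM n n = cM := by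
  unfold pt
  have : (n : ℝ) ≠ 0 := by exact_mod_cast hn.ne'
  field_simp
  ring

lemma pt_mono {cm cM : ℝ} (h : cm < cM) {n : ℕ} (hn : 0 < n) {k l : ℕ} (hkl : k ≤ l) :
    pt cm cM n k ≤ pt cm cM n l :=
  monotone_nat_of_le_succ (fun k => (pt_lt h hn k).le) hkl

lemma ms_pos {β cm cM : ℝ} (hβ : 1 ≤ β) (hcm : 0 < cm) (h : cm < cM) {n : ℕ} (hn : 0 < n)
    (k : ℕ) : 0 < ms β cm cM n k := by
  unfold ms
  apply intervalIntegral.intervalIntegral_pos_of_pos_on
  · exact (Wt_cont hβ).intervalIntegrable _ _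
  · intro x hx
    apply Wt_pos hβ
    have : cm ≤ pt cm cM n k := by
      have := pt_mono h hn (Nat.zero_le k)
      rwa [pt_zero] at this
    linarith [hx.1]
  · exact pt_lt h hn k

/-- the comparison of the sum with the integral over `[cm, cM]` -/
lemma riemann {β cm cM : ℝ} (hβ : 1 ≤ β) (hcm : 0 < cm) (h : cm < cM) {n : ℕ} (hn : 0 < n)
    (f : ℝ → ℝ) (ω hh : ℝ) (hω : 0 ≤ ω) (hnh : (cM - cm) / n ≤ hh)
    (hint : IntegrableOn (fun c => Wt β c * f c) (Set.Ioi 0))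
    (hosc : ∀ c c' : ℝ, cm ≤ c → c ≤ cM → cm ≤ c' → c' ≤ cM → |c - c'| ≤ hh →
      |f c - f c'| ≤ ω) :
    |∑ k ∈ Finset.range n, ms β cm cM n k * f (pt cm cM n k) -
      ∫ c in cm..cM, Wt β c * f c| ≤ ω * (cM - cm) := by
  have hII : ∀ a b : ℝ, 0 < a → a ≤ b → IntervalIntegrable (fun c => Wt β c * f c) volume a b := by
    intro a b ha hab
    rw [intervalIntegrable_iff_integrableOn_Ioc_of_le hab]
    exact hint.mono_set (fun x hx => lt_trans ha hx.1)
  have hptpos : ∀ k, cm ≤ pt cm cM n k := by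
    intro k
    have := pt_mono h hn (Nat.zero_le k)
    rwa [pt_zero] at this
  have hsum : ∑ k ∈ Finset.range n,
      (∫ c in (pt cm cM n k)..(pt cm cM n (k + 1)), Wt β c * f c) =
      ∫ c in cm..cM, Wt β c * f c := by
    rw [intervalIntegral.sum_integral_adjacent_intervals]
    · rw [pt_zero, pt_n cm cM hn]
    · intro k _
      exact hII _ _ (lt_of_lt_of_le hcm (hptpos k)) (pt_lt h hn k).le
  rw [← hsum, ← Finset.sum_sub_distrib]
  have hstep : ∀ k ∈ Finset.range n,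
      |ms β cm cM n k * f (pt cm cM n k) -
        ∫ c in (pt cm cM n k)..(pt cm cM n (k + 1)), Wt β c * f c| ≤
      ω * ((cM - cm) / n) := by
    intro k hk
    have hk' : k + 1 ≤ n := Finset.mem_range.mp hk
    have hlt := pt_lt h hn k
    have hup : pt cm cM n (k + 1) ≤ cM := by
      have := pt_mono h hn hk'
      rwa [pt_n cm cM hn] at this
    have e1 : ms β cm cM n k * f (pt cm cM n k) -
        ∫ c in (pt cm cM n k)..(pt cm cM n (k + 1)), Wt β c * f c =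
        ∫ c in (pt cm cM n k)..(pt cm cM n (k + 1)),
          (Wt β c * f (pt cm cM n k) - Wt β c * f c) := by
      rw [intervalIntegral.integral_sub]
      · rw [intervalIntegral.integral_mul_const]
        rfl
      · exact ((Wt_cont hβ).intervalIntegrable _ _).mul_const _
      · exact hII _ _ (lt_of_lt_of_le hcm (hptpos k)) hlt.le
    rw [e1]
    have hlen : pt cm cM n (k + 1) - pt cm cM n k = (cM - cm) / n := by
      unfold pt
      push_cast
      ring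
    have hb : ‖∫ c in (pt cm cM n k)..(pt cm cM n (k + 1)),
          (Wt β c * f (pt cm cM n k) - Wt β c * f c)‖ ≤
        ω * |pt cm cM n (k + 1) - pt cm cM n k| := by
      apply intervalIntegral.norm_integral_le_of_norm_le_const
      intro c hc
      rw [Set.uIoc_of_le hlt.le] at hc
      have hc1 : cm ≤ c := le_trans (hptpos k) hc.1.le
      have hc0 : 0 ≤ c := by linarith
      rw [← mul_sub, norm_mul, Real.norm_eq_abs, Real.norm_eq_abs, abs_of_nonneg (Wt_nonneg hβ hc0)]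
      have h3 : |f (pt cm cM n k) - f c| ≤ ω := by
        apply hosc _ _ (hptpos k) (le_trans hlt.le hup) hc1 (le_trans hc.2 hup)
        rw [abs_sub_comm, abs_of_nonneg (by linarith [hc.1])]
        linarith [hc.2]
      calc Wt β c * |f (pt cm cM n k) - f c| ≤ 1 * ω :=
            mul_le_mul (Wt_le_one hβ hc0) h3 (abs_nonneg _) zero_le_one
        _ = ω := one_mul _
    rw [Real.norm_eq_abs] at hb
    have hnn : 0 ≤ (cM - cm) / (n : ℝ) := div_nonneg (by linarith) (Nat.cast_nonneg n)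
    rwa [hlen, abs_of_nonneg hnn] at hb
  calc |∑ k ∈ Finset.range n, (ms β cm cM n k * f (pt cm cM n k) -
        ∫ c in (pt cm cM n k)..(pt cm cM n (k + 1)), Wt β c * f c)|
      ≤ ∑ k ∈ Finset.range n, |ms β cm cM n k * f (pt cm cM n k) -
        ∫ c in (pt cm cM n k)..(pt cm cM n (k + 1)), Wt β c * f c| :=
        Finset.abs_sum_le_sum_abs _ _
    _ ≤ ∑ k ∈ Finset.range n, ω * ((cM - cm) / n) := Finset.sum_le_sum hstep
    _ = ω * (cM - cm) := by
        rw [Finset.sum_const, Finset.card_range, nsmul_eq_mul]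
        have : (n : ℝ) ≠ 0 := by exact_mod_cast hn.ne'
        field_simp

/-- comparison of the sum with the whole integral -/
lemma core {β cm cM : ℝ} (hβ : 1 ≤ β) (hcm : 0 < cm) (h : cm < cM) {n : ℕ} (hn : 0 < n)
    (f : ℝ → ℝ) (ω hh T : ℝ) (hω : 0 ≤ ω) (hnh : (cM - cm) / n ≤ hh)
    (hint : IntegrableOn (fun c => Wt β c * f c) (Set.Ioi 0))
    (hosc : ∀ c c' : ℝ, cm ≤ c → c ≤ cM → cm ≤ c' → c' ≤ cM → |c - c'| ≤ hh →
      |f c - f c'| ≤ ω)
    (hf0 : ∀ c : ℝ, 0 < c → 0 ≤ f c)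
    (hlow : ∀ c : ℝ, 0 < c → c ≤ cm → Wt β c * f c ≤ T)
    (hhigh : ∀ c : ℝ, cM < c → Wt β c * f c ≤ T * c ^ (-2 : ℝ)) :
    |∑ k ∈ Finset.range n, ms β cm cM n k * f (pt cm cM n k) -
      ∫ c in Set.Ioi (0 : ℝ), Wt β c * f c| ≤ ω * (cM - cm) + T * cm + T * cM⁻¹ := by
  have hcM : 0 < cM := by linarith
  have hr := riemann hβ hcm h hn f ω hh hω hnh hint hosc
  have hsp : ∫ c in Set.Ioi (0 : ℝ), Wt β c * f c =
      (∫ c in Set.Ioc 0 cm, Wt β c * f c) + (∫ c in cm..cM, Wt β c * f c) +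
        ∫ c in Set.Ioi cM, Wt β c * f c := by
    have u1 : Set.Ioi (0 : ℝ) = Set.Ioc 0 cM ∪ Set.Ioi cM := (Set.Ioc_union_Ioi_eq_Ioi hcM.le).symm
    have u2 : Set.Ioc (0 : ℝ) cM = Set.Ioc 0 cm ∪ Set.Ioc cm cM :=
      (Set.Ioc_union_Ioc_eq_Ioc hcm.le h.le).symm
    rw [intervalIntegral.integral_of_le h.le]
    rw [u1, setIntegral_union (Set.Ioc_disjoint_Ioi le_rfl) measurableSet_Ioi
      (hint.mono_set (fun x hx => hx.1)) (hint.mono_set (fun x hx => lt_trans hcM hx))]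
    rw [u2, setIntegral_union (Set.Ioc_disjoint_Ioc_of_le le_rfl) measurableSet_Ioc
      (hint.mono_set (fun x hx => hx.1)) (hint.mono_set (fun x hx => lt_trans hcm hx.1))]
  have hA0 : 0 ≤ ∫ c in Set.Ioc 0 cm, Wt β c * f c := by
    apply setIntegral_nonneg measurableSet_Ioc
    intro c hc
    exact mul_nonneg (Wt_nonneg hβ hc.1.le) (hf0 c hc.1)
  have hA1 : ∫ c in Set.Ioc 0 cm, Wt β c * f c ≤ T * cm := by
    have h1 : ∫ c in Set.Ioc 0 cm, Wt β c * f c ≤ ∫ c in Set.Ioc (0 : ℝ) cm, T := by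
      apply setIntegral_mono_on (hint.mono_set (fun x hx => hx.1))
      · exact integrableOn_const (by simp)
      · exact measurableSet_Ioc
      · intro c hc
        exact hlow c hc.1 hc.2
    rw [setIntegral_const] at h1
    have h2 : (volume.real (Set.Ioc (0 : ℝ) cm)) • T = T * cm := by
      rw [Measure.real, Real.volume_Ioc, ENNReal.toReal_ofReal (by linarith), smul_eq_mul]
      ring
    rw [h2] at h1
    exact h1
  have hB0 : 0 ≤ ∫ c in Set.Ioi cM, Wt β c * f c := by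
    apply setIntegral_nonneg measurableSet_Ioi
    intro c hc
    have hc0 : 0 < c := lt_trans hcM hc
    exact mul_nonneg (Wt_nonneg hβ hc0.le) (hf0 c hc0)
  have hB1 : ∫ c in Set.Ioi cM, Wt β c * f c ≤ T * cM⁻¹ := by
    have h1 : ∫ c in Set.Ioi cM, Wt β c * f c ≤ ∫ c in Set.Ioi cM, T * c ^ (-2 : ℝ) := by
      apply setIntegral_mono_on (hint.mono_set (fun x hx => lt_trans hcM hx))
      · exact (integrableOn_Ioi_rpow_of_lt (by norm_num) hcM).const_mul T
      · exact measurableSet_Ioi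
      · intro c hc
        exact hhigh c hc
    rw [integral_const_mul, integral_Ioi_rpow_of_lt (by norm_num) hcM] at h1
    have h2 : -cM ^ ((-2 : ℝ) + 1) / ((-2 : ℝ) + 1) = cM⁻¹ := by
      have : ((-2 : ℝ) + 1) = -1 := by norm_num
      rw [this, Real.rpow_neg_one]
      ring
    rw [h2] at h1
    exact h1
  rw [hsp]
  rw [abs_le] at hr ⊢
  constructor <;> nlinarith [hr.1, hr.2]

theorem block_of (hpp : S_pp) (hrie : S_rie) (h1 : S_int1) (h2 : S_int2) : S_block := by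
  intro β hβ δ hδ
  obtain ⟨-, -, -, hp4, -⟩ := hpp
  set cm : ℝ := min 1 (δ / 4) with hcm_def
  set cM : ℝ := max 2 (4 / δ) with hcM_def
  have hcm : 0 < cm := lt_min one_pos (by positivity)
  have hcm1 : cm ≤ 1 := min_le_left _ _
  have hcmδ : cm ≤ δ / 4 := min_le_right _ _
  have hcM2 : 2 ≤ cM := le_max_left _ _
  have hcMδ : 4 / δ ≤ cM := le_max_right _ _
  have hcM : 0 < cM := by linarith
  have hlt : cm < cM := by linarith
  have hcMi : cM⁻¹ ≤ δ / 4 := by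
    rw [inv_le_comm₀ hcM (by positivity)]
    calc (δ / 4)⁻¹ = 4 / δ := by rw [inv_div]
      _ ≤ cM := hcMδ
  set δ₁ : ℝ := δ / (4 * cM) with hδ₁_def
  have hδ₁ : 0 < δ₁ := by positivity
  have hδcM : δ₁ * (cM - cm) ≤ δ / 4 := by
    have : δ₁ * cM = δ / 4 := by
      rw [hδ₁_def]
      field_simp
    nlinarith
  obtain ⟨hh, hh0, hr⟩ := hrie cm cM δ₁ hcm hlt hδ₁
  obtain ⟨n, hn⟩ : ∃ n : ℕ, (cM - cm) / hh < n := exists_nat_gt _
  have hn0 : 0 < n := by
    have : (0 : ℝ) < n := lt_trans (div_pos (by linarith) hh0) hn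
    exact_mod_cast this
  have hn0' : (0 : ℝ) < n := by exact_mod_cast hn0
  have hnh : (cM - cm) / n ≤ hh := by
    rw [div_le_iff₀ hn0']
    rw [div_lt_iff₀ hh0] at hn
    linarith
  have hptpos : ∀ k, 0 < pt cm cM n k := by
    intro k
    have := pt_mono hlt hn0 (Nat.zero_le k)
    rw [pt_zero] at this
    linarith
  refine ⟨⟨Fin n, inferInstance, fun i => ms β cm cM n i, fun i => pt cm cM n i,
    fun i => ms_pos hβ hcm hlt hn0 i, fun i => hptpos i⟩, ?_, ?_⟩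
  · intro x hx τ
    obtain ⟨hi, he⟩ := h1 β x τ (by linarith) hx
    have hB : Fam.B ⟨Fin n, inferInstance, fun i => ms β cm cM n i, fun i => pt cm cM n i,
        fun i => ms_pos hβ hcm hlt hn0 i, fun i => hptpos i⟩ x τ =
        ∑ k ∈ Finset.range n, ms β cm cM n k *
          (√(x ^ 2 + (pt cm cM n k) ^ 2) - pp (pt cm cM n k) x τ) := by
      unfold Fam.B
      exact Fin.sum_univ_eq_sum_range (fun k => ms β cm cM n k *
          (√(x ^ 2 + (pt cm cM n k) ^ 2) - pp (pt cm cM n k) x τ)) n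
    rw [hB, ← he]
    have hc := core hβ hcm hlt hn0 (fun c => √(x ^ 2 + c ^ 2) - pp c x τ) (δ₁ * τ ^ 2) hh (τ ^ 2)
      (by positivity) hnh hi
      (fun c c' a b a' b' hcc => (hr c c' a b a' b' hcc).1 x τ hx)
      (fun c hc => (hp4 c x τ hc hx).1)
      (fun c hc0 hc1 => by
        have h4 := hp4 c x τ hc0 hx
        calc Wt β c * (√(x ^ 2 + c ^ 2) - pp c x τ) ≤ c * (τ ^ 2 / c) :=
              mul_le_mul (Wt_le_c hβ hc0.le) h4.2 h4.1 hc0.le
          _ = τ ^ 2 := by field_simp)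
      (fun c hc0 => by
        have hcp : 0 < c := lt_trans hcM hc0
        have h4 := hp4 c x τ hcp hx
        have h5 : c ^ (-2 : ℝ) = (c ^ 2)⁻¹ := by
          rw [Real.rpow_neg hcp.le]
          norm_num
        rw [h5]
        calc Wt β c * (√(x ^ 2 + c ^ 2) - pp c x τ) ≤ (c ^ 2)⁻¹ * (τ ^ 2 / c) :=
              mul_le_mul (Wt_le_inv hβ hcp) h4.2 h4.1 (by positivity)
          _ ≤ (c ^ 2)⁻¹ * τ ^ 2 := by
              apply mul_le_mul_of_nonneg_left _ (by positivity)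
              exact div_le_self (sq_nonneg τ) (by linarith)
          _ = τ ^ 2 * (c ^ 2)⁻¹ := mul_comm _ _)
    refine le_trans hc ?_
    have hτ : 0 ≤ τ ^ 2 := sq_nonneg τ
    have e1 : δ₁ * τ ^ 2 * (cM - cm) ≤ δ / 4 * τ ^ 2 := by
      calc δ₁ * τ ^ 2 * (cM - cm) = (δ₁ * (cM - cm)) * τ ^ 2 := by ring
        _ ≤ δ / 4 * τ ^ 2 := mul_le_mul_of_nonneg_right hδcM hτ
    have e2 : τ ^ 2 * cm ≤ τ ^ 2 * (δ / 4) := mul_le_mul_of_nonneg_left hcmδ hτ
    have e3 : τ ^ 2 * cM⁻¹ ≤ τ ^ 2 * (δ / 4) := mul_le_mul_of_nonneg_left hcMi hτ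
    nlinarith
  · intro x hx
    obtain ⟨hi, he⟩ := h2 β x (by linarith) hx
    have hA : Fam.A1 ⟨Fin n, inferInstance, fun i => ms β cm cM n i, fun i => pt cm cM n i,
        fun i => ms_pos hβ hcm hlt hn0 i, fun i => hptpos i⟩ x =
        ∑ k ∈ Finset.range n, ms β cm cM n k *
          (x / √(x ^ 2 + (pt cm cM n k) ^ 2)) := by
      unfold Fam.A1
      exact Fin.sum_univ_eq_sum_range (fun k => ms β cm cM n k *
          (x / √(x ^ 2 + (pt cm cM n k) ^ 2))) n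
    rw [hA, ← he]
    have hG0 : ∀ c : ℝ, 0 < c → 0 ≤ x / √(x ^ 2 + c ^ 2) := fun c hc =>
      div_nonneg hx (Real.sqrt_nonneg _)
    have hG1 : ∀ c : ℝ, 0 < c → x / √(x ^ 2 + c ^ 2) ≤ 1 := fun c hc => by
      have hs : 0 < √(x ^ 2 + c ^ 2) := Real.sqrt_pos.mpr (by positivity)
      rw [div_le_one hs]
      exact Real.le_sqrt_of_sq_le (by nlinarith [sq_nonneg c])
    have hc := core hβ hcm hlt hn0 (fun c => x / √(x ^ 2 + c ^ 2)) δ₁ hh 1
      hδ₁.le hnh hi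
      (fun c c' a b a' b' hcc => (hr c c' a b a' b' hcc).2 x hx)
      hG0
      (fun c hc0 hc1 => by
        calc Wt β c * (x / √(x ^ 2 + c ^ 2)) ≤ 1 * 1 :=
              mul_le_mul (Wt_le_one hβ hc0.le) (hG1 c hc0) (hG0 c hc0) zero_le_one
          _ = 1 := one_mul _)
      (fun c hc0 => by
        have hcp : 0 < c := lt_trans hcM hc0
        have h5 : c ^ (-2 : ℝ) = (c ^ 2)⁻¹ := by
          rw [Real.rpow_neg hcp.le]
          norm_num
        rw [h5, one_mul]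
        calc Wt β c * (x / √(x ^ 2 + c ^ 2)) ≤ (c ^ 2)⁻¹ * 1 :=
              mul_le_mul (Wt_le_inv hβ hcp) (hG1 c hcp) (hG0 c hcp) (by positivity)
          _ = (c ^ 2)⁻¹ := mul_one _)
    refine le_trans hc ?_
    linarith

end Pool.Agent.TH41.LP.BLKf
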