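import Mathlib
import Pool.Agent.TH41.LP.Stm

set_option autoImplicit false

open MeasureTheory Filter Topology

namespace Pool.Agent.TH41.LP.C1f

open Pool.Agent.TH41.LP

theorem pp_neg (c x τ : ℝ) : pp c x (-τ) = pp c x τ := by
  unfold pp
  rw [neg_sq]

theorem pp_nonneg (c x τ : ℝ) : 0 ≤ pp c x τ := Real.sqrt_nonneg _

theorem norm_cosh_le (z : ℂ) : ‖Complex.cosh z‖ ≤ Real.cosh z.re := by
  rw [Complex.cosh, Real.cosh_eq, norm_div]
  have h1 : ‖Complex.exp z + Complex.exp (-z)‖ ≤ Real.exp z.re + Real.exp (-z.re) := by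
    refine (norm_add_le _ _).trans (le_of_eq ?_)
    rw [Complex.norm_exp, Complex.norm_exp, Complex.neg_re]
  have h2 : ‖(2 : ℂ)‖ = 2 := by simp
  rw [h2]
  gcongr

theorem cosh_le_mul (a b : ℝ) :
    Real.cosh a ≤ Real.cosh b * (Real.exp (-(b - a)) * (1 + Real.exp (-(2 * a)))) := by
  have h1 : Real.exp b / 2 ≤ Real.cosh b := by
    rw [Real.cosh_eq]
    have := Real.exp_pos (-b)
    linarith
  have h2 : Real.cosh a = Real.exp b / 2 * (Real.exp (-(b - a)) * (1 + Real.exp (-(2 * a)))) := by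
    rw [Real.cosh_eq, mul_add, mul_one, ← Real.exp_add, mul_add, div_mul_eq_mul_div,
      div_mul_eq_mul_div, ← Real.exp_add, ← Real.exp_add, ← add_div]
    congr 3 <;> ring
  rw [h2]
  have h3 := Real.exp_pos (-(b - a))
  have h4 := Real.exp_pos (-(2 * a))
  gcongr

/-- the estimate for the even entire function -/
theorem EEb (he : S_ee) (F : Fam) {D : ℝ} (hD : 0 < D) {σ : ℝ} (hσ : σ ≠ 0) (t : ℝ) :
    ‖EE F D (σ + t * Complex.I)‖ ≤ ‖EE F D σ‖ *
      (Real.exp (-∑ i, F.κ i * (√(σ ^ 2 + (F.c i * D) ^ 2) - pp (F.c i * D) |σ| t)) *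
        ∏ i, (1 + Real.exp (-(2 * (F.κ i * pp (F.c i * D) |σ| t))))) := by
  obtain ⟨-, -, h3, h4, -⟩ := he F D hD
  have hn : ‖EE F D σ‖ = ∏ i, Real.cosh (F.κ i * √(σ ^ 2 + (F.c i * D) ^ 2)) := by
    rw [h4 σ, Complex.norm_real, Real.norm_eq_abs, abs_of_pos]
    exact Finset.prod_pos fun i _ => Real.cosh_pos _
  rw [hn, h3 σ t hσ, norm_prod, ← Finset.sum_neg_distrib, Real.exp_sum, ← Finset.prod_mul_distrib,
    ← Finset.prod_mul_distrib]
  refine Finset.prod_le_prod (fun i _ => norm_nonneg _) fun i _ => ?_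
  refine (norm_cosh_le _).trans ?_
  have e : ((F.κ i : ℂ) * (((pp (F.c i * D) |σ| t : ℝ) : ℂ) +
      ((σ * t / pp (F.c i * D) |σ| t : ℝ) : ℂ) * Complex.I)).re =
      F.κ i * pp (F.c i * D) |σ| t := by
    simp
  rw [e]
  have := cosh_le_mul (F.κ i * pp (F.c i * D) |σ| t) (F.κ i * √(σ ^ 2 + (F.c i * D) ^ 2))
  rw [mul_sub]
  exact this

/-- homogeneity -/
theorem Bhom (hpp : S_pp) (F : Fam) {D : ℝ} (hD : 0 < D) (y t : ℝ) :
    ∑ i, F.κ i * (√(y ^ 2 + (F.c i * D) ^ 2) - pp (F.c i * D) y t) =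
      D * F.B (y / D) (t / D) := by
  unfold Fam.B
  rw [Finset.mul_sum]
  refine Finset.sum_congr rfl fun i _ => ?_
  have h1 := hpp.2.1 (F.c i) (y / D) (t / D) D hD.le
  rw [mul_div_cancel₀ y hD.ne', mul_div_cancel₀ t hD.ne', mul_comm D (F.c i)] at h1
  have h2 : √(y ^ 2 + (F.c i * D) ^ 2) = D * √((y / D) ^ 2 + F.c i ^ 2) := by
    have : y ^ 2 + (F.c i * D) ^ 2 = D ^ 2 * ((y / D) ^ 2 + F.c i ^ 2) := by
      field_simp
    rw [this, Real.sqrt_mul (by positivity), Real.sqrt_sq hD.le]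
  rw [h1, h2]
  ring

theorem gl_Phi {D σ : ℝ} (hD : 0 < D) (hσ : σ < D) (t : ℝ) :
    gl ((D - σ) / 2) (t / 2) = D * Phi (-(σ / D)) (t / D) := by
  unfold gl Phi
  have h0 : D - σ ≠ 0 := by linarith
  have h1 : t / 2 / ((D - σ) / 2) = t / D / (1 + -(σ / D)) := by
    have : 1 + -(σ / D) = (D - σ) / D := by field_simp; ring
    rw [this]
    field_simp
  have h2 : (t / 2) ^ 2 / ((D - σ) / 2) ^ 2 = (t / D) ^ 2 / (1 + -(σ / D)) ^ 2 := by
    rw [← div_pow, h1, div_pow]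
  rw [h1, h2]
  have h3 : (1 + -(σ / D)) * D = D - σ := by field_simp; ring
  have h4 : D * (1 / 4 * (1 + -(σ / D)) * Real.log (1 + (t / D) ^ 2 / (1 + -(σ / D)) ^ 2)) =
      1 / 2 * ((D - σ) / 2) * Real.log (1 + (t / D) ^ 2 / (1 + -(σ / D)) ^ 2) := by
    rw [← h3]; ring
  rw [mul_sub, h4]
  congr 1
  field_simp

/-- the estimate for `YY` -/
theorem YYb (he : S_ee) (hpp : S_pp) (hg : S_gam) (F : Fam) {D K : ℝ} (hD : 0 < D) (hK : 0 < K)
    {σ : ℝ} (hσ : σ ≠ 0) (hσ2 : σ < D) (t : ℝ) :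
    ‖YY F D K (σ + t * Complex.I)‖ ≤ ‖YY F D K σ‖ *
      (Real.exp (-(t ^ 2 / (2 * (K * D))) + D * (Phi (-(σ / D)) (t / D) -
        F.B (|σ| / D) (t / D) - F.B ((D - σ) / D) (t / D))) *
        ((∏ i, (1 + Real.exp (-(2 * (F.κ i * pp (F.c i * D) |σ| t))))) *
          ∏ i, (1 + Real.exp (-(2 * (F.κ i * pp (F.c i * D) (D - σ) t)))))) := by
  have hX : 0 < (D - σ) / 2 := by linarith
  have hDσ : D - σ ≠ 0 := by linarith
  obtain ⟨hg1, -⟩ := hg ((D - σ) / 2) (t / 2) hX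
  have hE1 := EEb he F hD hσ t
  have hE2 := EEb he F hD hDσ (-t)
  rw [abs_of_pos (show 0 < D - σ by linarith)] at hE2
  simp only [pp_neg] at hE2
  have hB1 := Bhom hpp F hD |σ| t
  simp only [sq_abs] at hB1
  rw [hB1] at hE1
  rw [Bhom hpp F hD (D - σ) t] at hE2
  rw [gl_Phi hD hσ2] at hg1
  -- the factors
  have e1 : ‖Complex.exp (-(((σ : ℂ) + t * Complex.I) / 2) * (Real.log Real.pi : ℝ))‖ =
      ‖Complex.exp (-((σ : ℂ) / 2) * (Real.log Real.pi : ℝ))‖ := by
    rw [Complex.norm_exp, Complex.norm_exp]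
    congr 1
    simp
  have e2 : ‖Complex.exp ((((σ : ℂ) + t * Complex.I) ^ 2 - D * ((σ : ℂ) + t * Complex.I)) /
      (2 * K * D))‖ = ‖Complex.exp (((σ : ℂ) ^ 2 - D * (σ : ℂ)) / (2 * K * D))‖ *
        Real.exp (-(t ^ 2 / (2 * (K * D)))) := by
    rw [Complex.norm_exp, Complex.norm_exp, ← Real.exp_add]
    congr 1
    have a1 : (((σ : ℂ) + t * Complex.I) ^ 2 - D * ((σ : ℂ) + t * Complex.I)) / (2 * K * D) =
        (((σ ^ 2 - D * σ) / (2 * K * D) + -(t ^ 2 / (2 * (K * D))) : ℝ) : ℂ) +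
          ((((2 * σ - D) * t) / (2 * K * D) : ℝ) : ℂ) * Complex.I := by
      have hDc : (D : ℂ) ≠ 0 := by exact_mod_cast hD.ne'
      have hKc : (K : ℂ) ≠ 0 := by exact_mod_cast hK.ne'
      push_cast
      field_simp
      ring_nf
      rw [Complex.I_sq]
      ring
    have a2 : ((σ : ℂ) ^ 2 - D * (σ : ℂ)) / (2 * K * D) =
        (((σ ^ 2 - D * σ) / (2 * K * D) : ℝ) : ℂ) := by
      push_cast; rfl
    rw [a1, a2, Complex.add_re, Complex.ofReal_re, Complex.ofReal_re, Complex.re_ofReal_mul,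
      Complex.I_re, mul_zero, add_zero]
  have e3 : ((D : ℂ) - ((σ : ℂ) + t * Complex.I)) / 2 + 1 =
      (((D - σ) / 2 : ℝ) : ℂ) + 1 - ((t / 2 : ℝ) : ℂ) * Complex.I := by
    push_cast; ring
  have e3' : ((D : ℂ) - (σ : ℂ)) / 2 + 1 = (((D - σ) / 2 : ℝ) : ℂ) + 1 := by
    push_cast; ring
  have e4 : (D : ℂ) - ((σ : ℂ) + t * Complex.I) = ((D - σ : ℝ) : ℂ) + ((-t : ℝ) : ℂ) * Complex.I := by
    push_cast; ring
  have e4' : (D : ℂ) - (σ : ℂ) = ((D - σ : ℝ) : ℂ) := by push_cast; rfl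
  have hGpos : 0 < ‖Complex.Gamma ((((D - σ) / 2 : ℝ) : ℂ) + 1)‖ := by
    rw [norm_pos_iff]
    refine Complex.Gamma_ne_zero_of_re_pos ?_
    simp
    linarith
  have hG : ‖Complex.Gamma (D / 2 + 1) / Complex.Gamma (((D : ℂ) - ((σ : ℂ) + t * Complex.I)) / 2 + 1)‖
      ≤ ‖Complex.Gamma (D / 2 + 1) / Complex.Gamma (((D : ℂ) - (σ : ℂ)) / 2 + 1)‖ *
        Real.exp (D * Phi (-(σ / D)) (t / D)) := by
    rw [e3, e3', norm_div, norm_div]
    rw [norm_div] at hg1
    calc ‖Complex.Gamma (D / 2 + 1)‖ / ‖Complex.Gamma ((((D - σ) / 2 : ℝ) : ℂ) + 1 -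
          ((t / 2 : ℝ) : ℂ) * Complex.I)‖
        = ‖Complex.Gamma (D / 2 + 1)‖ / ‖Complex.Gamma ((((D - σ) / 2 : ℝ) : ℂ) + 1)‖ *
          (‖Complex.Gamma ((((D - σ) / 2 : ℝ) : ℂ) + 1)‖ / ‖Complex.Gamma ((((D - σ) / 2 : ℝ) : ℂ) + 1 -
          ((t / 2 : ℝ) : ℂ) * Complex.I)‖) := by
          rw [div_mul_div_cancel₀ hGpos.ne']
      _ ≤ _ := by gcongr
  have hEE : ‖EE F D ((σ : ℂ) + t * Complex.I) * EE F D ((D : ℂ) - ((σ : ℂ) + t * Complex.I)) /
      (EE F D 0 * EE F D D)‖ ≤ ‖EE F D σ * EE F D ((D : ℂ) - σ) / (EE F D 0 * EE F D D)‖ *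
        ((Real.exp (-(D * F.B (|σ| / D) (t / D))) *
          ∏ i, (1 + Real.exp (-(2 * (F.κ i * pp (F.c i * D) |σ| t))))) *
        (Real.exp (-(D * F.B ((D - σ) / D) (t / D))) *
          ∏ i, (1 + Real.exp (-(2 * (F.κ i * pp (F.c i * D) (D - σ) t)))))) := by
    rw [e4, e4', norm_div, norm_div, norm_mul (EE F D ((σ : ℂ) + t * Complex.I)),
      norm_mul (EE F D σ), div_mul_eq_mul_div]
    refine div_le_div_of_nonneg_right ?_ (norm_nonneg _)
    calc ‖EE F D ((σ : ℂ) + t * Complex.I)‖ * ‖EE F D (((D - σ : ℝ) : ℂ) + ((-t : ℝ) : ℂ) * Complex.I)‖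
        ≤ (‖EE F D σ‖ * (Real.exp (-(D * F.B (|σ| / D) (t / D))) *
          ∏ i, (1 + Real.exp (-(2 * (F.κ i * pp (F.c i * D) |σ| t)))))) *
          (‖EE F D ((D - σ : ℝ) : ℂ)‖ * (Real.exp (-(D * F.B ((D - σ) / D) (t / D))) *
          ∏ i, (1 + Real.exp (-(2 * (F.κ i * pp (F.c i * D) (D - σ) t)))))) := by
          refine mul_le_mul hE1 hE2 (norm_nonneg _) ((norm_nonneg _).trans hE1)
      _ = _ := by ring
  unfold YY
  rw [norm_mul, norm_mul, norm_mul, norm_mul (_ * _ * _), norm_mul (_ * _), norm_mul (Complex.exp _),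
    e1, e2]
  calc _ ≤ ‖Complex.exp (-((σ : ℂ) / 2) * (Real.log Real.pi : ℝ))‖ *
        (‖Complex.exp (((σ : ℂ) ^ 2 - D * (σ : ℂ)) / (2 * K * D))‖ *
        Real.exp (-(t ^ 2 / (2 * (K * D))))) *
        (‖Complex.Gamma (D / 2 + 1) / Complex.Gamma (((D : ℂ) - (σ : ℂ)) / 2 + 1)‖ *
        Real.exp (D * Phi (-(σ / D)) (t / D))) *
        (‖EE F D σ * EE F D ((D : ℂ) - σ) / (EE F D 0 * EE F D D)‖ *
        ((Real.exp (-(D * F.B (|σ| / D) (t / D))) *
          ∏ i, (1 + Real.exp (-(2 * (F.κ i * pp (F.c i * D) |σ| t))))) *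
        (Real.exp (-(D * F.B ((D - σ) / D) (t / D))) *
          ∏ i, (1 + Real.exp (-(2 * (F.κ i * pp (F.c i * D) (D - σ) t))))))) := by
        refine mul_le_mul (mul_le_mul_of_nonneg_left hG (by positivity)) hEE (norm_nonneg _)
          (by positivity)
    _ = _ := by
        have : Real.exp (-(t ^ 2 / (2 * (K * D))) + D * (Phi (-(σ / D)) (t / D) -
            F.B (|σ| / D) (t / D) - F.B ((D - σ) / D) (t / D))) =
            Real.exp (-(t ^ 2 / (2 * (K * D)))) * Real.exp (D * Phi (-(σ / D)) (t / D)) *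
            Real.exp (-(D * F.B (|σ| / D) (t / D))) *
            Real.exp (-(D * F.B ((D - σ) / D) (t / D))) := by
          rw [← Real.exp_add, ← Real.exp_add, ← Real.exp_add]
          congr 1
          ring
        rw [this]
        ring

/-- the product of the small factors -/
theorem prod_small (hpp : S_pp) (F : Fam) {K : ℝ} (hK : 0 < K) :
    ∀ᶠ D : ℝ in atTop, ∀ x : ℝ, 0 < x → ∀ t : ℝ,
      ∏ i, (1 + Real.exp (-(2 * (F.κ i * pp (F.c i * D) x t)))) ≤
        Real.exp (1 / 250 + t ^ 2 / (400 * (K * D))) := by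
  set J : ℝ := (Fintype.card F.ι : ℝ) + 1 with hJ
  have hJpos : 0 < J := by positivity
  have key : ∀ i : F.ι, ∀ᶠ D : ℝ in atTop, ∀ x : ℝ, 0 < x → ∀ t : ℝ,
      Real.exp (-(2 * (F.κ i * pp (F.c i * D) x t))) ≤
        1 / J * (1 / 250 + t ^ 2 / (400 * (K * D))) := by
    intro i
    have hκ := F.κ_pos i
    have hc := F.c_pos i
    have h1 : Tendsto (fun D : ℝ => Real.exp (-(8 / 5 * F.κ i * F.c i * D))) atTop (𝓝 0) := by
      have : Tendsto (fun D : ℝ => 8 / 5 * F.κ i * F.c i * D) atTop atTop :=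
        tendsto_id.const_mul_atTop (by positivity)
      exact Real.tendsto_exp_atBot.comp (tendsto_neg_atTop_atBot.comp this)
    have h2 : ∀ᶠ D : ℝ in atTop, Real.exp (-(8 / 5 * F.κ i * F.c i * D)) < 1 / J * (1 / 250) :=
      h1.eventually_lt_const (by positivity)
    have h3 : ∀ᶠ D : ℝ in atTop, 1600 * K * J / F.c i ^ 2 ≤ D := eventually_ge_atTop _
    filter_upwards [h2, h3, eventually_gt_atTop 0] with D hD1 hD2 hD3 x hx t
    have hcD : 0 < F.c i * D := by positivity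
    have hq : 0 ≤ t ^ 2 / (400 * (K * D)) := by positivity
    rcases le_or_gt |t| (F.c i * D / 2) with ht | ht
    · have h4 := (hpp.2.2.2.2 (F.c i * D) x t hcD hx ht).1
      have h5 : 4 / 5 * (F.c i * D) ≤ pp (F.c i * D) x t := by
        refine le_of_sq_le_sq ?_ (pp_nonneg _ _ _)
        nlinarith [sq_nonneg (F.c i * D)]
      have h6 : Real.exp (-(2 * (F.κ i * pp (F.c i * D) x t))) ≤
          Real.exp (-(8 / 5 * F.κ i * F.c i * D)) := by
        refine Real.exp_le_exp.2 ?_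
        have := mul_le_mul_of_nonneg_left h5 hκ.le
        nlinarith
      have h7 : 1 / J * (1 / 250) ≤ 1 / J * (1 / 250 + t ^ 2 / (400 * (K * D))) := by
        gcongr
        linarith
      linarith
    · have h4 : Real.exp (-(2 * (F.κ i * pp (F.c i * D) x t))) ≤ 1 := by
        rw [Real.exp_le_one_iff]
        have := mul_nonneg hκ.le (pp_nonneg (F.c i * D) x t)
        linarith
      refine h4.trans ?_
      have h5 : (F.c i * D / 2) ^ 2 ≤ t ^ 2 := by
        rw [← sq_abs t]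
        gcongr
      have h6 : J ≤ t ^ 2 / (400 * (K * D)) := by
        rw [le_div_iff₀ (by positivity)]
        have h7 : 1600 * K * J ≤ D * F.c i ^ 2 := (div_le_iff₀ (by positivity)).1 hD2
        nlinarith
      rw [div_mul_eq_mul_div, one_mul, le_div_iff₀ hJpos]
      linarith
  filter_upwards [eventually_all.2 key, eventually_gt_atTop 0] with D hD hD3 x hx t
  have hq : 0 ≤ t ^ 2 / (400 * (K * D)) := by positivity
  calc ∏ i, (1 + Real.exp (-(2 * (F.κ i * pp (F.c i * D) x t))))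
      ≤ ∏ i : F.ι, Real.exp (1 / J * (1 / 250 + t ^ 2 / (400 * (K * D)))) := by
        refine Finset.prod_le_prod (fun i _ => by positivity) fun i _ => ?_
        have h1 := hD i x hx t
        have h2 := Real.add_one_le_exp (1 / J * (1 / 250 + t ^ 2 / (400 * (K * D))))
        linarith
    _ = Real.exp ((Fintype.card F.ι : ℝ) * (1 / J * (1 / 250 + t ^ 2 / (400 * (K * D))))) := by
        rw [Finset.prod_const, Finset.card_univ, ← Real.exp_nat_mul]
    _ ≤ _ := by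
        refine Real.exp_le_exp.2 ?_
        have h1 : (Fintype.card F.ι : ℝ) * (1 / J) ≤ 1 := by
          rw [mul_one_div, div_le_one hJpos]
          linarith
        have h2 : 0 ≤ 1 / 250 + t ^ 2 / (400 * (K * D)) := by positivity
        nlinarith

theorem exp_small : Real.exp (1 / 125) ≤ 101 / 100 := by
  have h := Real.one_sub_le_exp_neg (1 / 125)
  rw [Real.exp_neg] at h
  have h2 := Real.exp_pos (1 / 125)
  have h3 : (1 - 1 / 125) * Real.exp (1 / 125) ≤ 1 := by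
    calc (1 - 1 / 125) * Real.exp (1 / 125) ≤ (Real.exp (1 / 125))⁻¹ * Real.exp (1 / 125) := by
          gcongr
      _ = 1 := inv_mul_cancel₀ h2.ne'
  linarith

theorem c1_of (he : S_ee) (hpp : S_pp) (hg : S_gam) (_hy : S_yp) : S_c1 := by
  intro K C η hK hC hη hKη F hP
  have hev2 : ∀ᶠ D : ℝ in atTop, 9 / 10 * √(K * D) / D ≤ 1 / 2 ∧
      4 * (9 / 10 * √(K * D) / D) * K ≤ 1 / 400 := by
    have h1 : Tendsto (fun D : ℝ => √(K * D) / D) atTop (𝓝 0) := by
      have h2 : Tendsto (fun D : ℝ => √(K / D)) atTop (𝓝 √0) :=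
        (Real.continuous_sqrt.tendsto 0).comp (tendsto_const_nhds.div_atTop tendsto_id)
      rw [Real.sqrt_zero] at h2
      refine h2.congr' ?_
      filter_upwards [eventually_gt_atTop 0] with D hD
      rw [eq_div_iff hD.ne']
      conv_lhs => rw [← Real.sqrt_sq hD.le]
      rw [Real.sqrt_sq hD.le]
      nth_rewrite 2 [← Real.sqrt_sq hD.le]
      rw [← Real.sqrt_mul (by positivity)]
      congr 1
      field_simp
    have h3 : ∀ᶠ D : ℝ in atTop, √(K * D) / D < min (1 / 2) (1 / (1600 * K)) :=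
      h1.eventually_lt_const (by positivity)
    filter_upwards [h3, eventually_gt_atTop 0] with D hD hD0
    have h4 : √(K * D) / D < 1 / 2 := lt_of_lt_of_le hD (min_le_left _ _)
    have h5 : √(K * D) / D < 1 / (1600 * K) := lt_of_lt_of_le hD (min_le_right _ _)
    have h6 : 0 ≤ √(K * D) / D := by positivity
    have e : 9 / 10 * √(K * D) / D = 9 / 10 * (√(K * D) / D) := by ring
    rw [e]
    refine ⟨by linarith, ?_⟩
    rw [lt_div_iff₀ (by positivity)] at h5
    nlinarith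
  obtain ⟨D1, hD1⟩ := eventually_atTop.1 ((prod_small hpp F hK).and (hev2.and
    (eventually_gt_atTop (0 : ℝ))))
  refine ⟨max D1 1, by positivity, fun D hD => ?_⟩
  obtain ⟨hprod, ⟨hx1, hx2⟩, hD0⟩ := hD1 D ((le_max_left _ _).trans hD)
  have hKD : 0 < √(K * D) := Real.sqrt_pos.2 (by positivity)
  -- final combination
  have fin : ∀ σ t : ℝ, σ ≠ 0 → σ < D → ∀ w : ℝ, w ≤ 1 / 200 →
      D * (Phi (-(σ / D)) (t / D) - F.B (|σ| / D) (t / D) - F.B ((D - σ) / D) (t / D)) ≤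
        w * t ^ 2 / (K * D) →
      ‖YY F D K (σ + t * Complex.I)‖ ≤
      101 / 100 * ‖YY F D K σ‖ * Real.exp (-(49 / 100) * t ^ 2 / (K * D)) := by
    intro σ t hσ hσ2 w hw hB
    have h1 := YYb he hpp hg F hD0 hK hσ hσ2 t
    have h2 := hprod |σ| (abs_pos.2 hσ) t
    have h3 := hprod (D - σ) (by linarith) t
    refine h1.trans ?_
    have hq : 0 ≤ t ^ 2 / (K * D) := by positivity
    have h4 : Real.exp (-(t ^ 2 / (2 * (K * D))) + D * (Phi (-(σ / D)) (t / D) -
        F.B (|σ| / D) (t / D) - F.B ((D - σ) / D) (t / D))) *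
        ((∏ i, (1 + Real.exp (-(2 * (F.κ i * pp (F.c i * D) |σ| t))))) *
          ∏ i, (1 + Real.exp (-(2 * (F.κ i * pp (F.c i * D) (D - σ) t))))) ≤
        Real.exp (1 / 125) * Real.exp (-(49 / 100) * t ^ 2 / (K * D)) := by
      calc _ ≤ Real.exp (-(t ^ 2 / (2 * (K * D))) + w * t ^ 2 / (K * D)) *
            (Real.exp (1 / 250 + t ^ 2 / (400 * (K * D))) *
              Real.exp (1 / 250 + t ^ 2 / (400 * (K * D)))) := by
            refine mul_le_mul (Real.exp_le_exp.2 (by linarith)) ?_ ?_ (Real.exp_pos _).le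
            · exact mul_le_mul h2 h3 (Finset.prod_nonneg fun i _ => by positivity)
                (Real.exp_pos _).le
            · exact mul_nonneg (Finset.prod_nonneg fun i _ => by positivity)
                (Finset.prod_nonneg fun i _ => by positivity)
        _ ≤ _ := by
            rw [← Real.exp_add, ← Real.exp_add, ← Real.exp_add]
            refine Real.exp_le_exp.2 ?_
            have e1 : t ^ 2 / (2 * (K * D)) = 1 / 2 * (t ^ 2 / (K * D)) := by field_simp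
            have e2 : t ^ 2 / (400 * (K * D)) = 1 / 400 * (t ^ 2 / (K * D)) := by field_simp
            have e3 : w * t ^ 2 / (K * D) = w * (t ^ 2 / (K * D)) := by ring
            have e4 : -(49 / 100) * t ^ 2 / (K * D) = -(49 / 100) * (t ^ 2 / (K * D)) := by ring
            rw [e1, e2, e3, e4]
            nlinarith
    calc ‖YY F D K σ‖ * _ ≤ ‖YY F D K σ‖ *
          (Real.exp (1 / 125) * Real.exp (-(49 / 100) * t ^ 2 / (K * D))) :=
          mul_le_mul_of_nonneg_left h4 (norm_nonneg _)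
      _ ≤ ‖YY F D K σ‖ * (101 / 100 * Real.exp (-(49 / 100) * t ^ 2 / (K * D))) := by
          gcongr
          exact exp_small
      _ = _ := by ring
  constructor
  · intro σ hσ t
    have hσ0 : σ < 0 := by linarith
    refine fin σ t hσ0.ne (by linarith) (1 / 400) (by norm_num) ?_
    have hx : 0 < -σ / D := div_pos (by linarith) hD0
    have h1 := hP.p1 (-σ / D) hx (t / D)
    have e1 : |σ| / D = -σ / D := by rw [abs_of_neg hσ0]
    have e2 : (D - σ) / D = 1 + -σ / D := by field_simp; ring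
    have e3 : -(σ / D) = -σ / D := by ring
    rw [e1, e2, e3]
    have h2 := (abs_le.1 h1).1
    have h3 : D * (Phi (-σ / D) (t / D) - F.B (-σ / D) (t / D) - F.B (1 + -σ / D) (t / D)) ≤
        D * (η * (t / D) ^ 2) := by
      refine mul_le_mul_of_nonneg_left ?_ hD0.le
      linarith
    refine h3.trans ?_
    have e4 : D * (η * (t / D) ^ 2) = (K * η) * (t ^ 2 / (K * D)) := by field_simp
    rw [e4, mul_div_assoc]
    gcongr
  · intro t
    set σ : ℝ := 9 / 10 * √(K * D) with hσdef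
    have hσ0 : 0 < σ := by positivity
    have hσD : σ < D := by
      have : σ / D ≤ 1 / 2 := hx1
      rw [div_le_iff₀ hD0] at this
      linarith
    refine fin σ t hσ0.ne' hσD (1 / 200) le_rfl ?_
    have hx : 0 < σ / D := div_pos hσ0 hD0
    have h1 := hP.p2 (σ / D) hx hx1 (t / D)
    have e1 : |σ| / D = σ / D := by rw [abs_of_pos hσ0]
    have e2 : (D - σ) / D = 1 - σ / D := by field_simp
    rw [e1, e2]
    have h3 : D * (Phi (-(σ / D)) (t / D) - F.B (σ / D) (t / D) - F.B (1 - σ / D) (t / D)) ≤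
        D * ((η + 4 * (σ / D)) * (t / D) ^ 2) :=
      mul_le_mul_of_nonneg_left h1 hD0.le
    refine h3.trans ?_
    have e4 : D * ((η + 4 * (σ / D)) * (t / D) ^ 2) =
        (K * η + 4 * (σ / D) * K) * (t ^ 2 / (K * D)) := by field_simp
    have e5 : 1 / 200 * t ^ 2 / (K * D) = 1 / 200 * (t ^ 2 / (K * D)) := by ring
    rw [e4, e5]
    have hq : 0 ≤ t ^ 2 / (K * D) := by positivity
    refine mul_le_mul_of_nonneg_right ?_ hq
    linarith

end Pool.Agent.TH41.LP.C1f
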