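import Mathlib
import Pool.Agent.TH41.LP.Stm

set_option autoImplicit false

open MeasureTheory Filter Topology

namespace Pool.Agent.TH41.LP.C2f

open Pool.Agent.TH41.LP

/-- polar form of `cosh` far to the right -/
lemma cosh_polar {κ P Q ε : ℝ} (hε : Real.exp (-(2 * (κ * P))) ≤ ε) (hε2 : ε ≤ 1 / 2) :
    ∃ m φ : ℝ, |φ| ≤ 2 * ε ∧ 1 / 2 * Real.exp (κ * P) * (1 - ε) ≤ m ∧
      Complex.cosh ((κ : ℂ) * ((P : ℂ) + (Q : ℂ) * Complex.I)) =
        (m : ℂ) * Complex.exp (((κ * Q + φ : ℝ) : ℂ) * Complex.I) := by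
  set w : ℂ := (κ : ℂ) * ((P : ℂ) + (Q : ℂ) * Complex.I) with hw
  set z : ℂ := Complex.exp (-(2 * w)) with hz
  have hwre : w.re = κ * P := by simp [hw]
  have hzn : ‖z‖ = Real.exp (-(2 * (κ * P))) := by
    rw [hz, Complex.norm_exp]
    congr 1
    simp [hwre]
  have hz1 : ‖z‖ ≤ ε := hzn ▸ hε
  have hz2 : ‖z‖ ≤ 1 / 2 := hz1.trans hε2
  refine ⟨1 / 2 * Real.exp (κ * P) * ‖1 + z‖, (Complex.log (1 + z)).im, ?_, ?_, ?_⟩
  · have h1 : |(Complex.log (1 + z)).im| ≤ ‖Complex.log (1 + z)‖ := Complex.abs_im_le_norm _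
    have h2 := Complex.norm_log_one_add_half_le_self hz2
    have h3 : 0 ≤ ‖z‖ := norm_nonneg z
    linarith
  · have h1 : 1 - ε ≤ ‖1 + z‖ := by
      have h2 : ‖(1 : ℂ)‖ - ‖-z‖ ≤ ‖(1 : ℂ) - (-z)‖ := norm_sub_norm_le _ _
      rw [norm_one, norm_neg, sub_neg_eq_add] at h2
      linarith
    gcongr
  · have hne : 1 + z ≠ 0 := by
      intro h
      have h2 : z = -1 := by linear_combination h
      rw [h2, norm_neg, norm_one] at hz2
      norm_num at hz2
    have h1 : (1 + z : ℂ) = (‖1 + z‖ : ℂ) * Complex.exp (((Complex.log (1 + z)).im : ℂ) * Complex.I) := by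
      rw [Complex.log_im]
      exact (Complex.norm_mul_exp_arg_mul_I (1 + z)).symm
    have h2 : Complex.cosh w = 1 / 2 * Complex.exp w * (1 + z) := by
      rw [Complex.cosh, hz]
      have : Complex.exp w * Complex.exp (-(2 * w)) = Complex.exp (-w) := by
        rw [← Complex.exp_add]; congr 1; ring
      linear_combination (-1 / 2 : ℂ) * this
    have h3 : Complex.exp w = (Real.exp (κ * P) : ℂ) * Complex.exp (((κ * Q : ℝ) : ℂ) * Complex.I) := by
      rw [Complex.ofReal_exp, ← Complex.exp_add, hw]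
      congr 1
      push_cast
      ring
    have h4 : Complex.exp (((κ * Q + (Complex.log (1 + z)).im : ℝ) : ℂ) * Complex.I) =
        Complex.exp (((κ * Q : ℝ) : ℂ) * Complex.I) *
          Complex.exp (((Complex.log (1 + z)).im : ℂ) * Complex.I) := by
      rw [← Complex.exp_add]
      congr 1
      push_cast
      ring
    rw [h2, h4, h3]
    push_cast
    linear_combination (1 / 2 * Complex.exp (κ * P) * Complex.exp (κ * Q * Complex.I)) * h1

/-- one factor of `EE` -/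
lemma factor (hpp : S_pp) {κ c σ t : ℝ} (hκ : 0 < κ) (hc : 0 < c) (hσ : σ ≠ 0)
    (ht : |t| ≤ c / 2) {ε : ℝ} (hε : Real.exp (-(8 / 5 * (κ * c))) ≤ ε) (hε2 : ε ≤ 1 / 2) :
    ∃ m φ : ℝ, |φ| ≤ 2 * ε + κ * (2 * |t| ^ 3 / c ^ 2) ∧
      Real.exp (-(κ * (√(σ ^ 2 + c ^ 2) - pp c |σ| t))) * ((1 - ε) / (1 + ε)) ≤ m ∧
      Complex.cosh ((κ : ℂ) * (((pp c |σ| t : ℝ) : ℂ) +
        ((σ * t / pp c |σ| t : ℝ) : ℂ) * Complex.I)) =
      ((Real.cosh (κ * √(σ ^ 2 + c ^ 2)) : ℝ) : ℂ) * (m : ℂ) *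
        Complex.exp (((κ * (σ / √(σ ^ 2 + c ^ 2)) * t + φ : ℝ) : ℂ) * Complex.I) := by
  obtain ⟨hp1, hp2, hp3, hp4, hp5⟩ := hpp
  have hx : 0 < |σ| := abs_pos.2 hσ
  have h1 := hp1 c |σ| t hc hx
  have h5 := hp5 c |σ| t hc hx ht
  rw [sq_abs] at h1 h5
  set P := pp c |σ| t with hP
  set r := √(σ ^ 2 + c ^ 2) with hr
  have hPpos : 0 < P := hx.trans_le h1.1
  have hrpos : 0 < r := Real.sqrt_pos.2 (by positivity)
  have hPc : 4 / 5 * c ≤ P := by
    have : (4 / 5 * c) ^ 2 ≤ P ^ 2 := by nlinarith [h5.1, sq_nonneg c]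
    exact (pow_le_pow_iff_left₀ (by positivity) hPpos.le two_ne_zero).1 this
  have he1 : Real.exp (-(2 * (κ * P))) ≤ ε := by
    refine le_trans (Real.exp_le_exp.2 ?_) hε
    nlinarith
  have he2 : Real.exp (-(2 * (κ * r))) ≤ ε := by
    refine le_trans (Real.exp_le_exp.2 ?_) he1
    nlinarith [h1.2.1]
  have hεpos : 0 < ε := (Real.exp_pos _).trans_le hε
  obtain ⟨m, φ, hφ, hm, hcosh⟩ := cosh_polar (Q := σ * t / P) he1 hε2
  have hcr : 0 < Real.cosh (κ * r) := Real.cosh_pos _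
  refine ⟨m / Real.cosh (κ * r), κ * (σ * t / P) - κ * (σ / r) * t + φ, ?_, ?_, ?_⟩
  · have h6 : |κ * (σ * t / P) - κ * (σ / r) * t| ≤ κ * (2 * |t| ^ 3 / c ^ 2) := by
      have h7 : |κ * (σ * t / P) - κ * (σ / r) * t| = κ * abs (|σ| * t / P - |σ| * t / r) := by
        have h8 : κ * (σ * t / P) - κ * (σ / r) * t = κ * (σ * (t / P - t / r)) := by ring
        have h9 : |σ| * t / P - |σ| * t / r = |σ| * (t / P - t / r) := by ring
        rw [h8, h9, abs_mul, abs_mul, abs_of_pos hκ, abs_mul, abs_abs]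
      rw [h7]
      exact mul_le_mul_of_nonneg_left h5.2 hκ.le
    calc |κ * (σ * t / P) - κ * (σ / r) * t + φ| ≤
        |κ * (σ * t / P) - κ * (σ / r) * t| + |φ| := abs_add_le _ _
      _ ≤ 2 * ε + κ * (2 * |t| ^ 3 / c ^ 2) := by linarith
  · have h6 : Real.cosh (κ * r) ≤ 1 / 2 * Real.exp (κ * r) * (1 + ε) := by
      rw [Real.cosh_eq]
      have h7 : Real.exp (-(κ * r)) = Real.exp (κ * r) * Real.exp (-(2 * (κ * r))) := by
        rw [← Real.exp_add]; congr 1; ring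
      rw [h7]
      have := Real.exp_pos (κ * r)
      nlinarith
    rw [le_div_iff₀ hcr]
    have h1e : 0 ≤ 1 - ε := by linarith
    calc Real.exp (-(κ * (r - P))) * ((1 - ε) / (1 + ε)) * Real.cosh (κ * r)
        ≤ Real.exp (-(κ * (r - P))) * ((1 - ε) / (1 + ε)) *
          (1 / 2 * Real.exp (κ * r) * (1 + ε)) := by gcongr
      _ = 1 / 2 * Real.exp (κ * P) * (1 - ε) := by
          have h8 : Real.exp (κ * P) = Real.exp (-(κ * (r - P))) * Real.exp (κ * r) := by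
            rw [← Real.exp_add]; congr 1; ring
          rw [h8]
          have : (1 + ε) ≠ 0 := by positivity
          field_simp
      _ ≤ m := hm
  · rw [hcosh]
    have h7 : ((Real.cosh (κ * r) : ℝ) : ℂ) * ((m / Real.cosh (κ * r) : ℝ) : ℂ) = (m : ℂ) := by
      rw [← Complex.ofReal_mul]
      congr 1
      field_simp
    rw [h7]
    congr 3
    ring_nf

/-- polar form of `EE` -/
lemma EE_polar (hee : S_ee) (hpp : S_pp) (F : Fam) {D σ t : ℝ} (hD : 0 < D) (hσ : σ ≠ 0)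
    (ht : ∀ i, |t| ≤ F.c i * D / 2) {ε : F.ι → ℝ}
    (hε : ∀ i, Real.exp (-(8 / 5 * (F.κ i * (F.c i * D)))) ≤ ε i) (hε2 : ∀ i, ε i ≤ 1 / 2) :
    ∃ m φ : ℝ, |φ| ≤ ∑ i, (2 * ε i + F.κ i * (2 * |t| ^ 3 / (F.c i * D) ^ 2)) ∧
      Real.exp (-∑ i, F.κ i * (√(σ ^ 2 + (F.c i * D) ^ 2) - pp (F.c i * D) |σ| t)) *
        ∏ i, ((1 - ε i) / (1 + ε i)) ≤ m ∧
      EE F D ((σ : ℂ) + (t : ℂ) * Complex.I) = EE F D (σ : ℂ) * (m : ℂ) *
        Complex.exp ((((∑ i, F.κ i * (σ / √(σ ^ 2 + (F.c i * D) ^ 2))) * t + φ : ℝ) : ℂ) *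
          Complex.I) := by
  obtain ⟨-, -, h3, h4, -⟩ := hee F D hD
  have hfac := fun i => factor hpp (F.κ_pos i) (mul_pos (F.c_pos i) hD) hσ (ht i) (hε i) (hε2 i)
  choose m φ hφ hm hc using hfac
  refine ⟨∏ i, m i, ∑ i, φ i, ?_, ?_, ?_⟩
  · exact (Finset.abs_sum_le_sum_abs _ _).trans (Finset.sum_le_sum fun i _ => hφ i)
  · rw [← Finset.sum_neg_distrib, Real.exp_sum, ← Finset.prod_mul_distrib]
    refine Finset.prod_le_prod (fun i _ => ?_) (fun i _ => ?_)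
    · have h1 : 0 < ε i := (Real.exp_pos _).trans_le (hε i)
      have h2 := hε2 i
      have h5 : 0 ≤ (1 - ε i) / (1 + ε i) := div_nonneg (by linarith) (by linarith)
      have := Real.exp_pos (-(F.κ i * (√(σ ^ 2 + (F.c i * D) ^ 2) - pp (F.c i * D) |σ| t)))
      positivity
    · exact hm i
  · rw [h3 σ t hσ, h4 σ]
    rw [Finset.prod_congr rfl fun i _ => hc i, Finset.prod_mul_distrib, Finset.prod_mul_distrib,
      ← Complex.exp_sum]
    push_cast
    congr 2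
    rw [← Finset.sum_mul]
    congr 1
    rw [Finset.sum_add_distrib, Finset.sum_mul]

/-- the sum of the real parts is `D * B` -/
lemma sum_eq (hpp : S_pp) (F : Fam) {D a t : ℝ} (hD : 0 < D) :
    ∑ i, F.κ i * (√(a ^ 2 + (F.c i * D) ^ 2) - pp (F.c i * D) a t) =
      D * F.B (a / D) (t / D) := by
  obtain ⟨-, hp2, -⟩ := hpp
  unfold Fam.B
  rw [Finset.mul_sum]
  refine Finset.sum_congr rfl fun i _ => ?_
  have h1 : pp (F.c i * D) a t = D * pp (F.c i) (a / D) (t / D) := by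
    rw [← hp2 _ _ _ _ hD.le]
    congr 1
    · ring
    · field_simp
    · field_simp
  have h2 : √(a ^ 2 + (F.c i * D) ^ 2) = D * √((a / D) ^ 2 + F.c i ^ 2) := by
    rw [show a ^ 2 + (F.c i * D) ^ 2 = D ^ 2 * ((a / D) ^ 2 + F.c i ^ 2) by field_simp,
      Real.sqrt_mul (by positivity), Real.sqrt_sq hD.le]
  rw [h1, h2]
  ring

lemma pp_neg (c x τ : ℝ) : pp c x (-τ) = pp c x τ := by
  unfold pp
  rw [neg_sq]

/-- the estimate for fixed `D` -/
lemma core (hee : S_ee) (hpp : S_pp) (hg : S_gam) (hph : S_gph) (F : Fam)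
    {D K σ t η C : ℝ} (hD : 0 < D) (hK : 0 < K) (hF : Pot η C F) (hσ : σ < 0)
    (ht : ∀ i, |t| ≤ F.c i * D / 2) {ε : F.ι → ℝ}
    (hε : ∀ i, Real.exp (-(8 / 5 * (F.κ i * (F.c i * D)))) ≤ ε i) (hε2 : ∀ i, ε i ≤ 1 / 2) :
    ∃ m θ : ℝ, |θ| ≤ |t / 2| ^ 3 / ((D - σ) / 2 + 1) ^ 2 +
        2 * ∑ i, (2 * ε i + F.κ i * (2 * |t| ^ 3 / (F.c i * D) ^ 2)) ∧
      Real.exp (-(t ^ 2 / (2 * K * D)) - η * (t ^ 2 / D) - t ^ 2 / (2 * D ^ 2)) *
        ((∏ i, ((1 - ε i) / (1 + ε i))) * ∏ i, ((1 - ε i) / (1 + ε i))) ≤ m ∧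
      YY F D K ((σ : ℂ) + (t : ℂ) * Complex.I) =
        YY F D K (σ : ℂ) * (m : ℂ) *
          Complex.exp (((alpha F D K σ * t + θ : ℝ) : ℂ) * Complex.I) := by
  have hDσ : 0 < D - σ := by linarith
  obtain ⟨m1, φ1, hφ1, hm1, he1⟩ := EE_polar hee hpp F hD hσ.ne ht hε hε2
  obtain ⟨m2, φ2, hφ2, hm2, he2⟩ := EE_polar (t := -t) hee hpp F hD hDσ.ne'
    (fun i => by rw [abs_neg]; exact ht i) hε hε2
  rw [abs_neg] at hφ2
  have hX : 0 < (D - σ) / 2 := by linarith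
  obtain ⟨-, hgl⟩ := hg ((D - σ) / 2) (t / 2) hX
  obtain ⟨φ3, hφ3, hG⟩ := hph ((D - σ) / 2 + 1) (t / 2) (by linarith)
  have hcast : (((D - σ) / 2 : ℝ) : ℂ) + 1 = (((D - σ) / 2 + 1 : ℝ) : ℂ) := by push_cast; ring
  rw [hcast] at hgl
  set X : ℝ := (D - σ) / 2 + 1 with hXdef
  set m3 : ℝ := ‖Complex.Gamma X / Complex.Gamma (X - (t / 2 : ℝ) * Complex.I)‖ with hm3
  have hDx : (D - σ) / D = 1 + -σ / D := by field_simp; ring
  have hgl' : gl ((D - σ) / 2) (t / 2) = D * Phi (-σ / D) (t / D) := by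
    unfold gl Phi
    have h1 : t / 2 / ((D - σ) / 2) = t / D / (1 + -σ / D) := by
      rw [← hDx]
      field_simp
    have h2 : (t / 2) ^ 2 / ((D - σ) / 2) ^ 2 = (t / D) ^ 2 / (1 + -σ / D) ^ 2 := by
      rw [← div_pow, ← div_pow, h1]
    rw [h1, h2]
    field_simp
    ring
  have hlog : 1 / 2 * Real.log (1 + (t / 2) ^ 2 / ((D - σ) / 2) ^ 2) ≤ t ^ 2 / (2 * D ^ 2) := by
    have h1 : Real.log (1 + (t / 2) ^ 2 / ((D - σ) / 2) ^ 2) ≤ (t / 2) ^ 2 / ((D - σ) / 2) ^ 2 := by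
      have h2 : 0 < 1 + (t / 2) ^ 2 / ((D - σ) / 2) ^ 2 := by positivity
      have := Real.log_le_sub_one_of_pos h2
      linarith
    have h2 : (t / 2) ^ 2 / ((D - σ) / 2) ^ 2 ≤ t ^ 2 / D ^ 2 := by
      rw [show (t / 2) ^ 2 / ((D - σ) / 2) ^ 2 = t ^ 2 / (D - σ) ^ 2 by field_simp]
      gcongr
      linarith
    calc 1 / 2 * Real.log (1 + (t / 2) ^ 2 / ((D - σ) / 2) ^ 2) ≤ 1 / 2 * (t ^ 2 / D ^ 2) := by
          linarith
      _ = t ^ 2 / (2 * D ^ 2) := by field_simp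
  have hS1 := sum_eq hpp F (a := -σ) (t := t) hD
  have hS2 := sum_eq hpp F (a := D - σ) (t := t) hD
  rw [hDx] at hS2
  have hx : 0 < -σ / D := div_pos (by linarith) hD
  have hp := (abs_le.1 (hF.p1 (-σ / D) hx (t / D))).2
  have hpD : D * (F.B (-σ / D) (t / D)) + D * (F.B (1 + -σ / D) (t / D)) -
      D * Phi (-σ / D) (t / D) ≤ η * (t ^ 2 / D) := by
    have h1 : D * (F.B (-σ / D) (t / D) + F.B (1 + -σ / D) (t / D) - Phi (-σ / D) (t / D)) ≤
        D * (η * (t / D) ^ 2) := mul_le_mul_of_nonneg_left hp hD.le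
    have h2 : D * (η * (t / D) ^ 2) = η * (t ^ 2 / D) := by field_simp
    linarith
  rw [abs_of_neg hσ, show σ ^ 2 = (-σ) ^ 2 by ring, hS1] at hm1
  rw [abs_of_pos hDσ] at hm2
  simp only [pp_neg] at hm2
  rw [hS2] at hm2
  have hm3' : Real.exp (D * Phi (-σ / D) (t / D) - t ^ 2 / (2 * D ^ 2)) ≤ m3 := by
    refine le_trans (Real.exp_le_exp.2 ?_) hgl
    rw [hgl']
    linarith
  set G : ℝ := ∏ i, ((1 - ε i) / (1 + ε i)) with hGdef
  have hGpos : 0 ≤ G := by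
    refine Finset.prod_nonneg fun i _ => ?_
    have h1 : 0 < ε i := (Real.exp_pos _).trans_le (hε i)
    have h2 := hε2 i
    exact div_nonneg (by linarith) (by linarith)
  have hm3nn : 0 ≤ m3 := norm_nonneg _
  have hm1nn : 0 ≤ m1 := le_trans (by positivity) hm1
  have hm2nn : 0 ≤ m2 := le_trans (by positivity) hm2
  refine ⟨Real.exp (-(t ^ 2 / (2 * K * D))) * m3 * m1 * m2, φ3 + φ1 + φ2, ?_, ?_, ?_⟩
  · calc |φ3 + φ1 + φ2| ≤ |φ3| + |φ1| + |φ2| := abs_add_three _ _ _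
      _ ≤ _ := by linarith
  · calc Real.exp (-(t ^ 2 / (2 * K * D)) - η * (t ^ 2 / D) - t ^ 2 / (2 * D ^ 2)) * (G * G)
        ≤ Real.exp (-(t ^ 2 / (2 * K * D)) + (D * Phi (-σ / D) (t / D) - t ^ 2 / (2 * D ^ 2)) +
            -(D * F.B (-σ / D) (t / D)) + -(D * F.B (1 + -σ / D) (t / D))) * (G * G) := by
          gcongr
          linarith
      _ = Real.exp (-(t ^ 2 / (2 * K * D))) *
            Real.exp (D * Phi (-σ / D) (t / D) - t ^ 2 / (2 * D ^ 2)) *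
            (Real.exp (-(D * F.B (-σ / D) (t / D))) * G) *
            (Real.exp (-(D * F.B (1 + -σ / D) (t / D))) * G) := by
          rw [Real.exp_add, Real.exp_add, Real.exp_add]
          ring
      _ ≤ Real.exp (-(t ^ 2 / (2 * K * D))) * m3 * m1 * m2 := by
          gcongr
  · have hD2 : (D : ℂ) - ((σ : ℂ) + (t : ℂ) * Complex.I) =
        ((D - σ : ℝ) : ℂ) + ((-t : ℝ) : ℂ) * Complex.I := by
      push_cast
      ring
    have hX2 : ((D : ℂ) - ((σ : ℂ) + (t : ℂ) * Complex.I)) / 2 + 1 =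
        (X : ℂ) - ((t / 2 : ℝ) : ℂ) * Complex.I := by
      rw [hXdef]
      push_cast
      ring
    have hX3 : ((D : ℂ) - (σ : ℂ)) / 2 + 1 = (X : ℂ) := by
      rw [hXdef]
      push_cast
      ring
    have hD3 : (D : ℂ) - (σ : ℂ) = ((D - σ : ℝ) : ℂ) := by push_cast; ring
    unfold YY
    rw [hX2, hX3, hD2, hD3, he1, he2]
    have hGne : Complex.Gamma X ≠ 0 :=
      Complex.Gamma_ne_zero_of_re_pos (by rw [Complex.ofReal_re]; linarith)
    have hGr : Complex.Gamma (D / 2 + 1) / Complex.Gamma (X - ((t / 2 : ℝ) : ℂ) * Complex.I) =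
        Complex.Gamma (D / 2 + 1) / Complex.Gamma X *
          (Complex.Gamma X / Complex.Gamma (X - ((t / 2 : ℝ) : ℂ) * Complex.I)) := by
      field_simp
    rw [hGr, hG]
    have hE1 : Complex.exp (-(((σ : ℂ) + (t : ℂ) * Complex.I) / 2) * (Real.log Real.pi : ℝ)) =
        Complex.exp (-((σ : ℂ) / 2) * (Real.log Real.pi : ℝ)) *
          Complex.exp (((-(1 / 2) * Real.log Real.pi * t : ℝ) : ℂ) * Complex.I) := by
      rw [← Complex.exp_add]
      congr 1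
      push_cast
      ring
    have hKD : (K : ℂ) * (D : ℂ) ≠ 0 := by
      exact_mod_cast (mul_pos hK hD).ne'
    have hKc : (K : ℂ) ≠ 0 := by exact_mod_cast hK.ne'
    have hDc : (D : ℂ) ≠ 0 := by exact_mod_cast hD.ne'
    have hE2 : Complex.exp ((((σ : ℂ) + (t : ℂ) * Complex.I) ^ 2 -
          (D : ℂ) * ((σ : ℂ) + (t : ℂ) * Complex.I)) / (2 * (K : ℂ) * (D : ℂ))) =
        Complex.exp (((σ : ℂ) ^ 2 - (D : ℂ) * (σ : ℂ)) / (2 * (K : ℂ) * (D : ℂ))) *
          ((Real.exp (-(t ^ 2 / (2 * K * D))) : ℝ) : ℂ) *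
          Complex.exp ((((2 * σ - D) / (2 * K * D) * t : ℝ) : ℂ) * Complex.I) := by
      rw [Complex.ofReal_exp, ← Complex.exp_add, ← Complex.exp_add]
      congr 1
      push_cast
      field_simp
      linear_combination ((t : ℂ) ^ 2) * Complex.I_sq
    rw [hE1, hE2]
    have hfin : Complex.exp (((alpha F D K σ * t + (φ3 + φ1 + φ2) : ℝ) : ℂ) * Complex.I) =
        Complex.exp (((-(1 / 2) * Real.log Real.pi * t : ℝ) : ℂ) * Complex.I) *
        Complex.exp ((((2 * σ - D) / (2 * K * D) * t : ℝ) : ℂ) * Complex.I) *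
        Complex.exp (((dg X * (t / 2) + φ3 : ℝ) : ℂ) * Complex.I) *
        Complex.exp ((((∑ i, F.κ i * (σ / √(σ ^ 2 + (F.c i * D) ^ 2))) * t + φ1 : ℝ) : ℂ) *
          Complex.I) *
        Complex.exp ((((∑ i, F.κ i * ((D - σ) / √((D - σ) ^ 2 + (F.c i * D) ^ 2))) * (-t) +
          φ2 : ℝ) : ℂ) * Complex.I) := by
      rw [← Complex.exp_add, ← Complex.exp_add, ← Complex.exp_add, ← Complex.exp_add]
      congr 1
      rw [← add_mul, ← add_mul, ← add_mul, ← add_mul, ← Complex.ofReal_add, ← Complex.ofReal_add,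
        ← Complex.ofReal_add, ← Complex.ofReal_add]
      congr 2
      unfold alpha
      have hsum : ∑ i, F.κ i * (σ / √(σ ^ 2 + (F.c i * D) ^ 2) -
          (D - σ) / √((D - σ) ^ 2 + (F.c i * D) ^ 2)) =
          ∑ i, F.κ i * (σ / √(σ ^ 2 + (F.c i * D) ^ 2)) -
            ∑ i, F.κ i * ((D - σ) / √((D - σ) ^ 2 + (F.c i * D) ^ 2)) := by
        rw [← Finset.sum_sub_distrib]
        exact Finset.sum_congr rfl fun i _ => by ring
      rw [hsum, ← hXdef]
      ring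
    rw [hfin]
    push_cast
    ring

lemma cube_sqrt {K D : ℝ} (hK : 0 < K) (hD : 0 < D) :
    √(K * D) ^ 3 = K * √K / √D * D ^ 2 := by
  have h1 : √D ≠ 0 := (Real.sqrt_pos.2 hD).ne'
  have h2 : √D ^ 2 = D := Real.sq_sqrt hD.le
  have h3 : √K ^ 2 = K := Real.sq_sqrt hK.le
  rw [Real.sqrt_mul hK.le, div_mul_eq_mul_div, eq_div_iff h1]
  calc (√K * √D) ^ 3 * √D = √K ^ 2 * √K * (√D ^ 2) ^ 2 := by ring
    _ = K * √K * D ^ 2 := by rw [h2, h3]

theorem c2_of (he : S_ee) (hpp : S_pp) (hg : S_gam) (hph : S_gph) (hy : S_yp) : S_c2 := by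
  intro K C η hK hC hη hKη F hF
  classical
  set ε : ℝ → F.ι → ℝ := fun D i => Real.exp (-(8 / 5 * (F.κ i * (F.c i * D)))) with hεdef
  set q : ℝ → ℝ := fun D => K * √K / √D with hqdef
  have hεlim : ∀ i, Tendsto (fun D => ε D i) atTop (𝓝 0) := by
    intro i
    have h1 : 0 < 8 / 5 * (F.κ i * F.c i) := by
      have := F.κ_pos i
      have := F.c_pos i
      positivity
    have h2 : Tendsto (fun D : ℝ => 8 / 5 * (F.κ i * F.c i) * D) atTop atTop :=
      tendsto_id.const_mul_atTop h1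
    have h3 := Real.tendsto_exp_neg_atTop_nhds_zero.comp h2
    refine h3.congr fun D => ?_
    simp only [hεdef, Function.comp_apply]
    congr 1
    ring
  have hq : Tendsto q atTop (𝓝 0) := tendsto_const_nhds.div_atTop Real.tendsto_sqrt_atTop
  have hprod : Tendsto (fun D => ∏ i, ((1 - ε D i) / (1 + ε D i))) atTop (𝓝 1) := by
    have h1 : Tendsto (fun D => ∏ i, ((1 - ε D i) / (1 + ε D i))) atTop
        (𝓝 (∏ _i : F.ι, ((1 - 0) / (1 + 0) : ℝ))) := by
      refine tendsto_finsetProd _ fun i _ => ?_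
      exact ((hεlim i).const_sub 1).div ((hεlim i).const_add 1) (by norm_num)
    simpa using h1
  have hgl : Tendsto (fun D : ℝ => Real.exp (-(9 * K / 2 / D)) *
      ((∏ i, ((1 - ε D i) / (1 + ε D i))) * ∏ i, ((1 - ε D i) / (1 + ε D i)))) atTop (𝓝 1) := by
    have h1 : Tendsto (fun D : ℝ => 9 * K / 2 / D) atTop (𝓝 0) :=
      tendsto_const_nhds.div_atTop tendsto_id
    have h2 : Tendsto (fun D : ℝ => Real.exp (-(9 * K / 2 / D))) atTop (𝓝 1) := by
      have := (Real.continuous_exp.tendsto _).comp h1.neg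
      simpa [Function.comp_def] using this
    simpa using h2.mul (hprod.mul hprod)
  have hhl : Tendsto (fun D : ℝ => 27 / 2 * q D +
      2 * ∑ i, (2 * ε D i + F.κ i * (54 / F.c i ^ 2 * q D))) atTop (𝓝 0) := by
    have h1 : Tendsto (fun D => ∑ i, (2 * ε D i + F.κ i * (54 / F.c i ^ 2 * q D))) atTop
        (𝓝 (∑ i : F.ι, (2 * 0 + F.κ i * (54 / F.c i ^ 2 * 0)))) := by
      refine tendsto_finsetSum _ fun i _ => ?_
      exact ((hεlim i).const_mul 2).add ((hq.const_mul _).const_mul _)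
    have h2 := (hq.const_mul (27 / 2)).add (h1.const_mul 2)
    simpa using h2
  have e1 := hgl.eventually (lt_mem_nhds (show (99 / 100 : ℝ) < 1 by norm_num))
  have e2 := hhl.eventually (gt_mem_nhds (show (0 : ℝ) < 1 / 1000 by norm_num))
  have e3 : ∀ᶠ D in atTop, ∀ i, √K / √D ≤ F.c i / 6 := by
    rw [Filter.eventually_all]
    intro i
    have h1 : Tendsto (fun D : ℝ => √K / √D) atTop (𝓝 0) :=
      tendsto_const_nhds.div_atTop Real.tendsto_sqrt_atTop
    have h2 : (0 : ℝ) < F.c i / 6 := by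
      have := F.c_pos i
      positivity
    exact (h1.eventually (gt_mem_nhds h2)).mono fun D hD => hD.le
  have e4 : ∀ᶠ D in atTop, ∀ i, ε D i ≤ 1 / 2 := by
    rw [Filter.eventually_all]
    intro i
    exact ((hεlim i).eventually (gt_mem_nhds (show (0 : ℝ) < 1 / 2 by norm_num))).mono
      fun D hD => hD.le
  obtain ⟨D1, hD1⟩ := eventually_atTop.1 (((e1.and e2).and e3).and e4)
  refine ⟨max D1 1, by positivity, fun D hD σ hσ t ht => ?_⟩
  obtain ⟨⟨⟨a1, a2⟩, a3⟩, a4⟩ := hD1 D ((le_max_left _ _).trans hD)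
  have hDpos : 0 < D := zero_lt_one.trans_le ((le_max_right _ _).trans hD)
  have hKD : 0 < K * D := mul_pos hK hDpos
  have hsq : 0 < √(K * D) := Real.sqrt_pos.2 hKD
  have hσ0 : σ < 0 := by linarith
  have htc : ∀ i, |t| ≤ F.c i * D / 2 := by
    intro i
    have h1 : √(K * D) = √K / √D * D := by
      have h2 : √D ≠ 0 := (Real.sqrt_pos.2 hDpos).ne'
      have h3 : √D * √D = D := Real.mul_self_sqrt hDpos.le
      rw [Real.sqrt_mul hK.le, div_mul_eq_mul_div, eq_div_iff h2, mul_assoc, h3]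
    have h4 := mul_le_mul_of_nonneg_right (a3 i) hDpos.le
    rw [h1] at ht
    linarith
  obtain ⟨m, θ, hθ, hm, heq⟩ := core he hpp hg hph F hDpos hK hF hσ0 htc
    (ε := ε D) (fun i => le_rfl) a4
  refine ⟨m, θ, ?_, ?_, heq⟩
  · have ht3 : |t| ^ 3 ≤ 27 * (q D * D ^ 2) := by
      have h1 : |t| ^ 3 ≤ (3 * √(K * D)) ^ 3 := by gcongr
      calc |t| ^ 3 ≤ (3 * √(K * D)) ^ 3 := h1
        _ = 27 * √(K * D) ^ 3 := by ring
        _ = 27 * (q D * D ^ 2) := by rw [cube_sqrt hK hDpos]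
    have hq0 : 0 ≤ q D := by
      simp only [hqdef]
      positivity
    have h1 : |t / 2| ^ 3 / ((D - σ) / 2 + 1) ^ 2 ≤ 27 / 2 * q D := by
      rw [div_le_iff₀ (by nlinarith)]
      have h2 : |t / 2| ^ 3 = |t| ^ 3 / 8 := by
        rw [abs_div, abs_of_pos (show (0 : ℝ) < 2 by norm_num)]
        ring
      have h3 : (D / 2) ^ 2 ≤ ((D - σ) / 2 + 1) ^ 2 := by
        apply pow_le_pow_left₀ (by positivity)
        linarith
      have h4 : 27 / 2 * q D * (D / 2) ^ 2 ≤ 27 / 2 * q D * ((D - σ) / 2 + 1) ^ 2 :=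
        mul_le_mul_of_nonneg_left h3 (by positivity)
      rw [h2]
      linarith
    have h2 : ∀ i, F.κ i * (2 * |t| ^ 3 / (F.c i * D) ^ 2) ≤ F.κ i * (54 / F.c i ^ 2 * q D) := by
      intro i
      have hc := F.c_pos i
      refine mul_le_mul_of_nonneg_left ?_ (F.κ_pos i).le
      rw [div_le_iff₀ (by positivity)]
      have h3 : 54 / F.c i ^ 2 * q D * (F.c i * D) ^ 2 = 54 * (q D * D ^ 2) := by
        field_simp
      rw [h3]
      linarith
    have h3 : ∑ i, (2 * ε D i + F.κ i * (2 * |t| ^ 3 / (F.c i * D) ^ 2)) ≤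
        ∑ i, (2 * ε D i + F.κ i * (54 / F.c i ^ 2 * q D)) :=
      Finset.sum_le_sum fun i _ => by linarith [h2 i]
    linarith
  · refine le_trans ?_ hm
    set G : ℝ := ∏ i, ((1 - ε D i) / (1 + ε D i)) with hGdef
    have hG : 0 ≤ G := by
      refine Finset.prod_nonneg fun i _ => ?_
      have h1 : 0 < ε D i := Real.exp_pos _
      have h2 := a4 i
      exact div_nonneg (by linarith) (by linarith)
    have ht2 : t ^ 2 ≤ 9 * (K * D) := by
      have h1 : |t| ^ 2 ≤ (3 * √(K * D)) ^ 2 := by gcongr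
      rw [sq_abs] at h1
      calc t ^ 2 ≤ (3 * √(K * D)) ^ 2 := h1
        _ = 9 * √(K * D) ^ 2 := by ring
        _ = 9 * (K * D) := by rw [Real.sq_sqrt hKD.le]
    have h1 : t ^ 2 / (2 * D ^ 2) ≤ 9 * K / 2 / D := by
      rw [div_le_div_iff₀ (by positivity) hDpos]
      nlinarith
    have h2 : η * (t ^ 2 / D) ≤ 1 / 400 * (t ^ 2 / (K * D)) := by
      have h3 : η * (t ^ 2 / D) = K * η * (t ^ 2 / (K * D)) := by field_simp
      rw [h3]
      exact mul_le_mul_of_nonneg_right hKη (by positivity)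
    have h3 : t ^ 2 / (2 * K * D) = 1 / 2 * (t ^ 2 / (K * D)) := by field_simp
    have h4 : -(51 / 100) * t ^ 2 / (K * D) = -(51 / 100) * (t ^ 2 / (K * D)) := by ring
    have h5 : 0 ≤ t ^ 2 / (K * D) := by positivity
    calc 99 / 100 * Real.exp (-(51 / 100) * t ^ 2 / (K * D))
        ≤ (Real.exp (-(9 * K / 2 / D)) * (G * G)) *
            Real.exp (-(51 / 100) * t ^ 2 / (K * D)) := by
          gcongr
      _ = Real.exp (-(51 / 100) * t ^ 2 / (K * D) + -(9 * K / 2 / D)) * (G * G) := by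
          rw [Real.exp_add]
          ring
      _ ≤ Real.exp (-(t ^ 2 / (2 * K * D)) - η * (t ^ 2 / D) - t ^ 2 / (2 * D ^ 2)) *
            (G * G) := by
          gcongr
          rw [h4, h3]
          linarith

end Pool.Agent.TH41.LP.C2f
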