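import Mathlib
import Pool.Agent.TH41.LP.Stm

set_option autoImplicit false

open MeasureTheory Filter Topology

namespace Pool.Agent.TH41.LP.C3f

open Pool.Agent.TH41.LP

theorem c3_of (h : ContinuousOn dg (Set.Ioi 0)) : S_c3 := by
  intro F D K hD hK
  unfold alpha
  apply ContinuousOn.add
  · apply ContinuousOn.add
    · apply Continuous.continuousOn
      fun_prop
    · apply ContinuousOn.mul continuousOn_const
      apply ContinuousOn.comp (t := Set.Ioi 0) h
      · apply Continuous.continuousOn
        fun_prop
      · intro σ hσ
        simp only [Set.mem_Iic] at hσ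
        simp only [Set.mem_Ioi]
        linarith
  · apply Continuous.continuousOn
    apply continuous_finsetSum
    intro i _
    have hc : 0 < F.c i * D := mul_pos (F.c_pos i) hD
    have key : ∀ x : ℝ, √(x ^ 2 + (F.c i * D) ^ 2) ≠ 0 := by
      intro x
      have : 0 < x ^ 2 + (F.c i * D) ^ 2 := by positivity
      exact (Real.sqrt_pos.mpr this).ne'
    apply Continuous.mul continuous_const
    apply Continuous.sub
    · apply Continuous.div continuous_id (by fun_prop)
      intro x; exact key x
    · apply Continuous.div (by fun_prop) (by fun_prop)
      intro x; exact key _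

end Pool.Agent.TH41.LP.C3f
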