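import Mathlib
import Pool.Agent.TH41.LP.Stm

set_option autoImplicit false

open MeasureTheory Filter Topology

namespace Pool.Agent.TH41.LP.C4f

open Pool.Agent.TH41.LP

theorem sqrt_scale (D a b : ℝ) (hD : 0 < D) :
    √((a * D) ^ 2 + (b * D) ^ 2) = D * √(a ^ 2 + b ^ 2) := by
  have h : (a * D) ^ 2 + (b * D) ^ 2 = D ^ 2 * (a ^ 2 + b ^ 2) := by ring
  rw [h, Real.sqrt_mul (by positivity), Real.sqrt_sq hD.le]

theorem c4_of (h : ∀ X : ℝ, 0 < X → dg X ≤ Real.log X) : S_c4 := by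
  intro K C η hK hC hη F hP
  refine ⟨1 / η, by positivity, ?_⟩
  intro D hD
  have hD0 : 0 < D := lt_of_lt_of_le (by positivity) hD
  have hDη : 1 / D ≤ η := by
    rw [div_le_iff₀ hD0]
    rw [div_le_iff₀ hη] at hD
    linarith
  have h3 := (abs_le.mp (hP.p3 C hC.le le_rfl)).1
  unfold alpha
  have hsum : ∑ i, F.κ i * (-(C * D) / √((-(C * D)) ^ 2 + (F.c i * D) ^ 2) -
      (D - -(C * D)) / √((D - -(C * D)) ^ 2 + (F.c i * D) ^ 2)) =
      -(F.A1 C + F.A1 (1 + C)) := by
    unfold Fam.A1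
    rw [← Finset.sum_add_distrib, ← Finset.sum_neg_distrib]
    apply Finset.sum_congr rfl
    intro i _
    have e1 : √((-(C * D)) ^ 2 + (F.c i * D) ^ 2) = D * √(C ^ 2 + F.c i ^ 2) := by
      rw [show (-(C * D)) ^ 2 = (C * D) ^ 2 by ring]
      exact sqrt_scale D C (F.c i) hD0
    have e2 : √((D - -(C * D)) ^ 2 + (F.c i * D) ^ 2) = D * √((1 + C) ^ 2 + F.c i ^ 2) := by
      rw [show D - -(C * D) = (1 + C) * D by ring]
      exact sqrt_scale D (1 + C) (F.c i) hD0
    rw [e1, e2]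
    have hc := F.c_pos i
    have p1 : 0 < √(C ^ 2 + F.c i ^ 2) := Real.sqrt_pos.mpr (by positivity)
    have p2 : 0 < √((1 + C) ^ 2 + F.c i ^ 2) := Real.sqrt_pos.mpr (by positivity)
    have q1 : -(C * D) / (D * √(C ^ 2 + F.c i ^ 2)) = -(C / √(C ^ 2 + F.c i ^ 2)) := by
      field_simp
    have q2 : (D - -(C * D)) / (D * √((1 + C) ^ 2 + F.c i ^ 2)) =
        (1 + C) / √((1 + C) ^ 2 + F.c i ^ 2) := by
      field_simp
      ring
    rw [q1, q2]
    ring
  rw [hsum]
  have hlin : (2 * -(C * D) - D) / (2 * K * D) = -(C / K) - 1 / (2 * K) := by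
    field_simp
  rw [hlin]
  have ha : 0 < (1 + C) * D / 2 := by positivity
  have hX : (D - -(C * D)) / 2 + 1 = (1 + C) * D / 2 + 1 := by ring
  rw [hX]
  have hdg := h ((1 + C) * D / 2 + 1) (by positivity)
  have hlog : Real.log ((1 + C) * D / 2 + 1) ≤
      Real.log ((1 + C) * D / 2) + 1 / ((1 + C) * D / 2) := by
    have e : (1 + C) * D / 2 + 1 = ((1 + C) * D / 2) * (1 + 1 / ((1 + C) * D / 2)) := by
      field_simp
    rw [e, Real.log_mul ha.ne' (by positivity)]
    have := Real.log_le_sub_one_of_pos (x := 1 + 1 / ((1 + C) * D / 2)) (by positivity)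
    linarith
  have hlog2 : Real.log ((1 + C) * D / 2) =
      Real.log (1 + C) + Real.log D - Real.log 2 := by
    rw [Real.log_div (by positivity) (by norm_num), Real.log_mul (by positivity) hD0.ne']
  have hlog3 : Real.log (Real.pi / 2 * (1 + C)) =
      Real.log Real.pi - Real.log 2 + Real.log (1 + C) := by
    rw [Real.log_mul (by positivity) (by positivity), Real.log_div (by positivity) (by norm_num)]
  have hsmall : 1 / 2 * (1 / ((1 + C) * D / 2)) ≤ η := by
    have : 1 / 2 * (1 / ((1 + C) * D / 2)) = 1 / ((1 + C) * D) := by field_simp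
    rw [this]
    refine le_trans ?_ hDη
    apply one_div_le_one_div_of_le hD0
    nlinarith
  have hK2 : 0 < 1 / (2 * K) := by positivity
  rw [hlog3] at h3
  rw [hlog2] at hlog
  linarith

end Pool.Agent.TH41.LP.C4f
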