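import Mathlib
import Pool.Agent.TH41.LP.Stm

set_option autoImplicit false

open MeasureTheory Filter Topology

namespace Pool.Agent.TH41.LP.C5f

open Pool.Agent.TH41.LP

lemma sqrt_scale {D a c : ℝ} (hD : 0 ≤ D) :
    √((a * D) ^ 2 + (c * D) ^ 2) = D * √(a ^ 2 + c ^ 2) := by
  have : (a * D) ^ 2 + (c * D) ^ 2 = D ^ 2 * (a ^ 2 + c ^ 2) := by ring
  rw [this, Real.sqrt_mul (sq_nonneg D), Real.sqrt_sq hD]

lemma cosh_le {x : ℝ} (hx : 0 ≤ x) : Real.cosh x ≤ Real.exp x := by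
  rw [Real.cosh_eq]
  have : Real.exp (-x) ≤ Real.exp x := Real.exp_le_exp.2 (by linarith)
  linarith

lemma le_cosh (x : ℝ) : Real.exp x / 2 ≤ Real.cosh x := by
  rw [Real.cosh_eq]
  have : 0 < Real.exp (-x) := Real.exp_pos _
  linarith

/-- norm of the even function at a real multiple of `D` -/
lemma norm_EE (he : S_ee) (F : Fam) {D : ℝ} (hD : 0 < D) (a : ℝ) :
    ‖EE F D ((a * D : ℝ) : ℂ)‖ = ∏ i, Real.cosh (F.κ i * (D * √(a ^ 2 + F.c i ^ 2))) := by
  rw [(he F D hD).2.2.2.1 (a * D), Complex.norm_real, Real.norm_eq_abs,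
    abs_of_nonneg (Finset.prod_nonneg fun i _ => (Real.cosh_pos _).le)]
  refine Finset.prod_congr rfl fun i _ => ?_
  rw [sqrt_scale hD.le]

lemma EE_upper (he : S_ee) (F : Fam) {D : ℝ} (hD : 0 < D) (a : ℝ) :
    ‖EE F D ((a * D : ℝ) : ℂ)‖ ≤ Real.exp (D * ∑ i, F.κ i * √(a ^ 2 + F.c i ^ 2)) := by
  rw [norm_EE he F hD a, Finset.mul_sum, Real.exp_sum]
  refine Finset.prod_le_prod (fun i _ => (Real.cosh_pos _).le) fun i _ => ?_
  have h := cosh_le (x := F.κ i * (D * √(a ^ 2 + F.c i ^ 2)))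
    (mul_nonneg (F.κ_pos i).le (mul_nonneg hD.le (Real.sqrt_nonneg _)))
  have e : D * (F.κ i * √(a ^ 2 + F.c i ^ 2)) = F.κ i * (D * √(a ^ 2 + F.c i ^ 2)) := by ring
  rw [e]
  exact h

lemma EE_lower (he : S_ee) (F : Fam) {D : ℝ} (hD : 0 < D) (a : ℝ) :
    Real.exp (D * ∑ i, F.κ i * √(a ^ 2 + F.c i ^ 2)) / 2 ^ (Fintype.card F.ι) ≤
      ‖EE F D ((a * D : ℝ) : ℂ)‖ := by
  rw [norm_EE he F hD a, Finset.mul_sum, Real.exp_sum]
  have : (2 : ℝ) ^ (Fintype.card F.ι) = ∏ _i : F.ι, (2 : ℝ) := by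
    simp
  rw [this, ← Finset.prod_div_distrib]
  refine Finset.prod_le_prod (fun i _ => by positivity) fun i _ => ?_
  have h := le_cosh (F.κ i * (D * √(a ^ 2 + F.c i ^ 2)))
  have e : D * (F.κ i * √(a ^ 2 + F.c i ^ 2)) = F.κ i * (D * √(a ^ 2 + F.c i ^ 2)) := by ring
  rw [e]
  exact h

/-- the sum of square roots -/
noncomputable def SS (F : Fam) (x : ℝ) : ℝ := ∑ i, F.κ i * √(x ^ 2 + F.c i ^ 2)

lemma hasDeriv_SS (F : Fam) (x : ℝ) : HasDerivAt (SS F) (F.A1 x) x := by
  unfold SS Fam.A1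
  have h : ∀ i ∈ (Finset.univ : Finset F.ι),
      HasDerivAt (fun x : ℝ => F.κ i * √(x ^ 2 + F.c i ^ 2)) (F.κ i * (x / √(x ^ 2 + F.c i ^ 2))) x := by
    intro i _
    have hc := F.c_pos i
    have hpos : 0 < x ^ 2 + F.c i ^ 2 := by positivity
    have h1 : HasDerivAt (fun x : ℝ => x ^ 2 + F.c i ^ 2) (2 * x) x := by
      have := (hasDerivAt_pow 2 x).add_const (F.c i ^ 2)
      simpa using this
    have h2 := (h1.sqrt hpos.ne').const_mul (F.κ i)
    refine h2.congr_deriv ?_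
    rw [mul_div_mul_left _ _ (two_ne_zero)]
  have := HasDerivAt.fun_sum h
  exact this

lemma SS_bound {η C : ℝ} (hC : 0 < C) {F : Fam} (hF : Pot η C F) :
    SS F C + SS F (1 + C) - SS F 0 - SS F 1 ≤
      C / 2 * Real.log (Real.pi / 2) + 1 / 2 * ((1 + C) * Real.log (1 + C) - C) + η * C := by
  set G : ℝ → ℝ := fun x => SS F x + SS F (1 + x) -
    (x / 2 * Real.log (Real.pi / 2) + 1 / 2 * ((1 + x) * Real.log (1 + x) - x) + η * x) with hG
  have hder : ∀ x : ℝ, 0 ≤ x → HasDerivAt G (F.A1 x + F.A1 (1 + x) -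
      (1 / 2 * Real.log (Real.pi / 2) + 1 / 2 * Real.log (1 + x) + η)) x := by
    intro x hx
    have h1 := hasDeriv_SS F x
    have h2 : HasDerivAt (fun x => SS F (1 + x)) (F.A1 (1 + x)) x := by
      have := (hasDeriv_SS F (1 + x)).comp_const_add 1 x
      exact this
    have h3 : HasDerivAt (fun x : ℝ => x / 2 * Real.log (Real.pi / 2)) (1 / 2 * Real.log (Real.pi / 2)) x := by
      have := ((hasDerivAt_id x).div_const 2).mul_const (Real.log (Real.pi / 2))
      simpa using this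
    have h4 : HasDerivAt (fun x : ℝ => (1 + x) * Real.log (1 + x)) (Real.log (1 + x) + 1) x := by
      have hne : (1 + x) ≠ 0 := by linarith
      have := (Real.hasDerivAt_mul_log hne).comp_const_add 1 x
      exact this
    have h5 : HasDerivAt (fun x : ℝ => 1 / 2 * ((1 + x) * Real.log (1 + x) - x))
        (1 / 2 * (Real.log (1 + x) + 1 - 1)) x := (h4.sub (hasDerivAt_id' x)).const_mul (1 / 2)
    have h6 : HasDerivAt (fun x : ℝ => η * x) η x := by
      have := (hasDerivAt_id' x).const_mul η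
      simpa using this
    have := (h1.add h2).sub ((h3.add h5).add h6)
    refine this.congr_deriv ?_
    ring
  have hanti : AntitoneOn G (Set.Icc 0 C) := by
    refine antitoneOn_of_deriv_nonpos (convex_Icc 0 C) ?_ ?_ ?_
    · intro x hx
      exact (hder x hx.1).continuousAt.continuousWithinAt
    · intro x hx
      rw [interior_Icc] at hx
      exact (hder x hx.1.le).differentiableAt.differentiableWithinAt
    · intro x hx
      rw [interior_Icc] at hx
      rw [(hder x hx.1.le).deriv]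
      have hp := (abs_le.1 (hF.p3 x hx.1.le hx.2.le)).2
      have hl : Real.log (Real.pi / 2 * (1 + x)) = Real.log (Real.pi / 2) + Real.log (1 + x) := by
        refine Real.log_mul ?_ ?_
        · positivity
        · have := hx.1
          linarith
      rw [hl] at hp
      linarith
  have := hanti (Set.left_mem_Icc.2 hC.le) (Set.right_mem_Icc.2 hC.le) hC.le
  simp only [hG] at this
  simp at this
  linarith

theorem c5_of (he : S_ee) (hy : S_yp) (hg : ∀ X u : ℝ, 0 < X → 0 ≤ u → Real.Gamma (X + 1) / Real.Gamma (X + 1 + u) ≤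
    Real.exp (-((X + u) * Real.log (X + u) - X * Real.log X - u))) : S_c5 := by
  intro K C η hK hC hη F hF
  set J : ℕ := Fintype.card F.ι with hJ
  refine ⟨1 + J * Real.log 4 / (η * C), ?_, ?_⟩
  · have : 0 ≤ (J : ℝ) * Real.log 4 / (η * C) := by
      have := Real.log_nonneg (x := 4) (by norm_num)
      positivity
    linarith
  intro D hD
  have hD0 : 0 < D := by
    have : 0 ≤ (J : ℝ) * Real.log 4 / (η * C) := by
      have := Real.log_nonneg (x := 4) (by norm_num)
      positivity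
    linarith
  have hJD : (J : ℝ) * Real.log 4 ≤ η * C * D := by
    have h1 : (J : ℝ) * Real.log 4 / (η * C) ≤ D := by linarith
    rw [div_le_iff₀ (by positivity)] at h1
    linarith
  -- the factors
  have hn1 : ‖Complex.exp (-(((-(C * D) : ℝ) : ℂ) / 2) * (Real.log Real.pi : ℝ))‖ =
      Real.exp (C * D / 2 * Real.log Real.pi) := by
    rw [Complex.norm_exp]
    congr 1
    have : (-(((-(C * D) : ℝ) : ℂ) / 2) * (Real.log Real.pi : ℝ)) =
        ((C * D / 2 * Real.log Real.pi : ℝ) : ℂ) := by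
      push_cast; ring
    rw [this, Complex.ofReal_re]
  have hn2 : ‖Complex.exp ((((-(C * D) : ℝ) : ℂ) ^ 2 - D * ((-(C * D) : ℝ) : ℂ)) / (2 * K * D))‖ =
      Real.exp (C * D * ((C + 1) / (2 * K))) := by
    rw [Complex.norm_exp]
    congr 1
    have : ((((-(C * D) : ℝ) : ℂ) ^ 2 - D * ((-(C * D) : ℝ) : ℂ)) / (2 * K * D)) =
        ((((C * D) ^ 2 + D * (C * D)) / (2 * K * D) : ℝ) : ℂ) := by
      push_cast; ring
    rw [this, Complex.ofReal_re]
    field_simp
  have hn3 : ‖Complex.Gamma ((D : ℂ) / 2 + 1) /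
      Complex.Gamma (((D : ℂ) - ((-(C * D) : ℝ) : ℂ)) / 2 + 1)‖ ≤
      Real.exp (-((D / 2 + C * D / 2) * Real.log (D / 2 + C * D / 2) -
        D / 2 * Real.log (D / 2) - C * D / 2)) := by
    have e1 : (D : ℂ) / 2 + 1 = ((D / 2 + 1 : ℝ) : ℂ) := by push_cast; ring
    have e2 : ((D : ℂ) - ((-(C * D) : ℝ) : ℂ)) / 2 + 1 = ((D / 2 + 1 + C * D / 2 : ℝ) : ℂ) := by
      push_cast; ring
    rw [e1, e2, Complex.Gamma_ofReal, Complex.Gamma_ofReal, ← Complex.ofReal_div,
      Complex.norm_real, Real.norm_eq_abs, abs_of_nonneg]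
    · exact hg (D / 2) (C * D / 2) (by positivity) (by positivity)
    · have h1 : 0 < Real.Gamma (D / 2 + 1) := Real.Gamma_pos_of_pos (by positivity)
      have h2 : 0 < Real.Gamma (D / 2 + 1 + C * D / 2) := Real.Gamma_pos_of_pos (by positivity)
      positivity
  have hn4 : ‖EE F D ((-(C * D) : ℝ) : ℂ) * EE F D ((D : ℂ) - ((-(C * D) : ℝ) : ℂ)) /
      (EE F D 0 * EE F D D)‖ ≤
      Real.exp (J * Real.log 4 + D * (C / 2 * Real.log (Real.pi / 2) +
        1 / 2 * ((1 + C) * Real.log (1 + C) - C) + η * C)) := by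
    have e1 : ((-(C * D) : ℝ) : ℂ) = (((-C) * D : ℝ) : ℂ) := by push_cast; ring
    have e2 : ((D : ℂ) - ((-(C * D) : ℝ) : ℂ)) = (((1 + C) * D : ℝ) : ℂ) := by push_cast; ring
    have e3 : (0 : ℂ) = (((0 : ℝ) * D : ℝ) : ℂ) := by simp
    have e4 : (D : ℂ) = (((1 : ℝ) * D : ℝ) : ℂ) := by simp
    rw [norm_div, norm_mul, norm_mul]
    have u1 : ‖EE F D ((-(C * D) : ℝ) : ℂ)‖ ≤ Real.exp (D * SS F C) := by
      rw [e1]
      refine (EE_upper he F hD0 (-C)).trans (le_of_eq ?_)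
      unfold SS
      simp
    have u2 : ‖EE F D ((D : ℂ) - ((-(C * D) : ℝ) : ℂ))‖ ≤ Real.exp (D * SS F (1 + C)) := by
      rw [e2]
      exact EE_upper he F hD0 (1 + C)
    have l1 : Real.exp (D * SS F 0) / 2 ^ J ≤ ‖EE F D 0‖ := by
      rw [e3]
      exact EE_lower he F hD0 0
    have l2 : Real.exp (D * SS F 1) / 2 ^ J ≤ ‖EE F D D‖ := by
      conv_rhs => rw [e4]
      exact EE_lower he F hD0 1
    have hb : ‖EE F D ((-(C * D) : ℝ) : ℂ)‖ * ‖EE F D ((D : ℂ) - ((-(C * D) : ℝ) : ℂ))‖ /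
        (‖EE F D 0‖ * ‖EE F D D‖) ≤
        (Real.exp (D * SS F C) * Real.exp (D * SS F (1 + C))) /
        (Real.exp (D * SS F 0) / 2 ^ J * (Real.exp (D * SS F 1) / 2 ^ J)) := by
      gcongr
    refine hb.trans ?_
    have e5 : (Real.exp (D * SS F C) * Real.exp (D * SS F (1 + C))) /
        (Real.exp (D * SS F 0) / 2 ^ J * (Real.exp (D * SS F 1) / 2 ^ J)) =
        (4 : ℝ) ^ J * Real.exp (D * (SS F C + SS F (1 + C) - SS F 0 - SS F 1)) := by
      have : D * (SS F C + SS F (1 + C) - SS F 0 - SS F 1) =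
          D * SS F C + D * SS F (1 + C) - D * SS F 0 - D * SS F 1 := by ring
      rw [this, Real.exp_sub, Real.exp_sub, Real.exp_add]
      have h4 : (4 : ℝ) ^ J = 2 ^ J * 2 ^ J := by
        rw [← mul_pow]; norm_num
      rw [h4]
      field_simp
    rw [e5]
    have e6 : (4 : ℝ) ^ J = Real.exp (J * Real.log 4) := by
      rw [mul_comm, Real.exp_mul, Real.exp_log (by norm_num), Real.rpow_natCast]
    rw [e6, ← Real.exp_add]
    refine Real.exp_le_exp.2 ?_
    have := mul_le_mul_of_nonneg_left (SS_bound hC hF) hD0.le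
    linarith
  have hnorm : ‖YY F D K ((-(C * D) : ℝ) : ℂ)‖ ≤
      Real.exp (C * D / 2 * Real.log Real.pi) * Real.exp (C * D * ((C + 1) / (2 * K))) *
      Real.exp (-((D / 2 + C * D / 2) * Real.log (D / 2 + C * D / 2) -
        D / 2 * Real.log (D / 2) - C * D / 2)) *
      Real.exp (J * Real.log 4 + D * (C / 2 * Real.log (Real.pi / 2) +
        1 / 2 * ((1 + C) * Real.log (1 + C) - C) + η * C)) := by
    unfold YY
    rw [norm_mul, norm_mul, norm_mul, hn1, hn2]
    gcongr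
  refine hnorm.trans ?_
  rw [← Real.exp_add, ← Real.exp_add, ← Real.exp_add]
  refine Real.exp_le_exp.2 ?_
  have hl1 : Real.log (D / 2 + C * D / 2) = Real.log (1 + C) + Real.log (D / 2) := by
    rw [← Real.log_mul (by positivity) (by positivity)]
    congr 1; ring
  have hl2 : Real.log (D / 2) = Real.log D - Real.log 2 :=
    Real.log_div hD0.ne' (by norm_num)
  have hl3 : Real.log (Real.pi / 2) = Real.log Real.pi - Real.log 2 :=
    Real.log_div Real.pi_pos.ne' (by norm_num)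
  rw [hl1, hl2, hl3]
  nlinarith [hJD]

end Pool.Agent.TH41.LP.C5f
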