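import Mathlib
import Pool.Agent.TH41.LP.Stm

set_option autoImplicit false

open MeasureTheory Filter Topology

namespace Pool.Agent.TH41.LP.C6f

open Pool.Agent.TH41.LP

/-! ### Calculus of the families -/

lemma hd_sqrt {c : ℝ} (hc : 0 < c) (x : ℝ) :
    HasDerivAt (fun x : ℝ => √(x ^ 2 + c ^ 2)) (x / √(x ^ 2 + c ^ 2)) x := by
  have hpos : 0 < x ^ 2 + c ^ 2 := by positivity
  have h1 : HasDerivAt (fun x : ℝ => x ^ 2 + c ^ 2) (2 * x) x := by
    simpa using (hasDerivAt_pow 2 x).add_const (c ^ 2)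
  have h2 := h1.sqrt hpos.ne'
  have e : 2 * x / (2 * √(x ^ 2 + c ^ 2)) = x / √(x ^ 2 + c ^ 2) := by
    rw [mul_div_mul_left _ _ (by norm_num)]
  rwa [e] at h2

lemma hd_quot {c : ℝ} (hc : 0 < c) (x : ℝ) :
    HasDerivAt (fun x : ℝ => x / √(x ^ 2 + c ^ 2)) (c ^ 2 / √(x ^ 2 + c ^ 2) ^ 3) x := by
  have hpos : 0 < x ^ 2 + c ^ 2 := by positivity
  have hs : 0 < √(x ^ 2 + c ^ 2) := Real.sqrt_pos.2 hpos
  have hsq : √(x ^ 2 + c ^ 2) ^ 2 = x ^ 2 + c ^ 2 := Real.sq_sqrt hpos.le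
  have h := (hasDerivAt_id x).div (hd_sqrt hc x) hs.ne'
  have e : (1 * √(x ^ 2 + c ^ 2) - id x * (x / √(x ^ 2 + c ^ 2))) / √(x ^ 2 + c ^ 2) ^ 2 =
      c ^ 2 / √(x ^ 2 + c ^ 2) ^ 3 := by
    simp only [id]
    field_simp
    rw [hsq]
    ring
  rw [e] at h
  exact h

lemma hd_A0 (F : Fam) (x : ℝ) : HasDerivAt F.A0 (F.A1 x) x := by
  unfold Fam.A0 Fam.A1
  apply HasDerivAt.fun_sum
  intro i _
  exact ((hd_sqrt (F.c_pos i) x).sub_const (F.c i)).const_mul (F.κ i)

lemma hd_A1 (F : Fam) (x : ℝ) : HasDerivAt F.A1 (F.A2 x) x := by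
  unfold Fam.A1 Fam.A2
  apply HasDerivAt.fun_sum
  intro i _
  exact (hd_quot (F.c_pos i) x).const_mul (F.κ i)

lemma mono_aux {g g' : ℝ → ℝ} {a : ℝ} (ha : 0 ≤ a) (h : ∀ x, HasDerivAt g (g' x) x)
    (h' : ∀ x, 0 ≤ x → x ≤ a → 0 ≤ g' x) : g 0 ≤ g a := by
  have hm : MonotoneOn g (Set.Icc 0 a) := by
    apply monotoneOn_of_deriv_nonneg (convex_Icc 0 a)
    · exact fun x _ => (h x).continuousAt.continuousWithinAt
    · exact fun x _ => (h x).differentiableAt.differentiableWithinAt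
    · intro x hx
      rw [interior_Icc] at hx
      rw [(h x).deriv]
      exact h' x hx.1.le hx.2.le
  exact hm ⟨le_rfl, ha⟩ ⟨ha, le_rfl⟩ ha

lemma A1_zero (F : Fam) : F.A1 0 = 0 := by
  simp [Fam.A1]

lemma A0_zero (F : Fam) : F.A0 0 = 0 := by
  unfold Fam.A0
  apply Finset.sum_eq_zero
  intro i _
  rw [zero_pow two_ne_zero, zero_add, Real.sqrt_sq (F.c_pos i).le, sub_self, mul_zero]

/-- the main inequality between the functions of the family -/
lemma key {F : Fam} {a b M : ℝ} (ha : 0 ≤ a) (hb : 0 ≤ b)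
    (hM : ∀ x y : ℝ, 0 ≤ x → 1 - a ≤ y → F.A2 x + F.A2 y ≤ M) :
    F.A0 a + F.A0 (1 - a) - F.A0 1 + a * (F.A1 b + F.A1 (1 + b)) ≤ M * (a ^ 2 / 2 + a * b) := by
  have h1 : ∀ x : ℝ, 0 ≤ x → x ≤ a → F.A1 x - F.A1 (1 - x) + F.A1 1 ≤ M * x := by
    intro x hx hxa
    have hd : ∀ t : ℝ, HasDerivAt (fun t => M * t - (F.A1 t - F.A1 (1 - t) + F.A1 1))
        (M - (F.A2 t + F.A2 (1 - t))) t := by
      intro t
      have e1 : HasDerivAt (fun t : ℝ => 1 - t) (-1) t := by
        simpa using (hasDerivAt_id t).const_sub 1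
      have e2 : HasDerivAt (fun t : ℝ => F.A1 (1 - t)) (F.A2 (1 - t) * -1) t :=
        (hd_A1 F (1 - t)).comp t e1
      have e3 := ((hasDerivAt_id t).const_mul M).sub (((hd_A1 F t).sub e2).add_const (F.A1 1))
      exact e3.congr_deriv (by ring)
    have := mono_aux hx hd (fun t ht htx => by
      have := hM t (1 - t) ht (by linarith)
      linarith)
    simp only [mul_zero, sub_zero, A1_zero, zero_sub] at this
    linarith
  have h2 : F.A0 a + F.A0 (1 - a) - F.A0 1 ≤ M * a ^ 2 / 2 - a * F.A1 1 := by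
    have hd : ∀ t : ℝ, HasDerivAt
        (fun t => M * t ^ 2 / 2 - t * F.A1 1 - (F.A0 t + F.A0 (1 - t) - F.A0 1))
        (M * t - F.A1 1 - (F.A1 t - F.A1 (1 - t))) t := by
      intro t
      have e1 : HasDerivAt (fun t : ℝ => 1 - t) (-1) t := by
        simpa using (hasDerivAt_id t).const_sub 1
      have e2 : HasDerivAt (fun t : ℝ => F.A0 (1 - t)) (F.A1 (1 - t) * -1) t :=
        (hd_A0 F (1 - t)).comp t e1
      have e4 : HasDerivAt (fun t : ℝ => M * t ^ 2 / 2) (M * (2 * t) / 2) t := by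
        have := ((hasDerivAt_pow 2 t).const_mul M).div_const 2
        simpa using this
      have e5 : HasDerivAt (fun t : ℝ => t * F.A1 1) (F.A1 1) t := by
        simpa using (hasDerivAt_id t).mul_const (F.A1 1)
      have e3 := (e4.sub e5).sub (((hd_A0 F t).add e2).sub_const (F.A0 1))
      exact e3.congr_deriv (by ring)
    have := mono_aux ha hd (fun t ht htx => by
      have := h1 t ht htx
      linarith)
    simp only [A0_zero, sub_zero, zero_mul, zero_add] at this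
    norm_num at this
    linarith
  have h3 : F.A1 b + F.A1 (1 + b) - F.A1 1 ≤ M * b := by
    have hd : ∀ t : ℝ, HasDerivAt (fun t => M * t - (F.A1 t + F.A1 (1 + t) - F.A1 1))
        (M - (F.A2 t + F.A2 (1 + t))) t := by
      intro t
      have e1 : HasDerivAt (fun t : ℝ => 1 + t) 1 t := by
        simpa using (hasDerivAt_id t).const_add 1
      have e2 : HasDerivAt (fun t : ℝ => F.A1 (1 + t)) (F.A2 (1 + t) * 1) t :=
        (hd_A1 F (1 + t)).comp t e1
      have e3 := ((hasDerivAt_id t).const_mul M).sub (((hd_A1 F t).add e2).sub_const (F.A1 1))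
      exact e3.congr_deriv (by ring)
    have := mono_aux hb hd (fun t ht htx => by
      have := hM t (1 + t) ht (by linarith)
      linarith)
    simp only [mul_zero, add_zero, A1_zero, zero_add, sub_self] at this
    linarith
  have h4 := mul_le_mul_of_nonneg_left h3 ha
  nlinarith [h2, h4]

/-! ### Real values -/

noncomputable def ER (F : Fam) (D σ : ℝ) : ℝ :=
  ∏ i, Real.cosh (F.κ i * √(σ ^ 2 + (F.c i * D) ^ 2))

lemma ER_pos (F : Fam) (D σ : ℝ) : 0 < ER F D σ :=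
  Finset.prod_pos fun i _ => Real.cosh_pos _

lemma cosh_ratio {a b : ℝ} (hab : b ≤ a) : Real.cosh a ≤ Real.exp (a - b) * Real.cosh b := by
  rw [Real.cosh_eq, Real.cosh_eq, mul_div_assoc', mul_add, ← Real.exp_add, ← Real.exp_add]
  have h1 : a - b + b = a := by ring
  have h2 : Real.exp (-a) ≤ Real.exp (a - b + -b) := Real.exp_le_exp.2 (by linarith)
  rw [h1]
  linarith

lemma cosh_ratio' {a b u : ℝ} (hu : u ≤ a) :
    Real.cosh a ≤ Real.exp (a - b + Real.exp (-(2 * u))) * Real.cosh b := by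
  have h1 : Real.exp (-(2 * a)) ≤ Real.exp (-(2 * u)) := Real.exp_le_exp.2 (by linarith)
  have h2 : Real.cosh a ≤ Real.exp a / 2 * Real.exp (Real.exp (-(2 * u))) := by
    have h3 := Real.add_one_le_exp (Real.exp (-(2 * u)))
    have h4 : Real.cosh a = Real.exp a / 2 * (Real.exp (-(2 * a)) + 1) := by
      rw [Real.cosh_eq, mul_add, div_mul_eq_mul_div, ← Real.exp_add]
      have : a + -(2 * a) = -a := by ring
      rw [this]
      ring
    rw [h4]
    apply mul_le_mul_of_nonneg_left _ (by positivity)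
    linarith
  have h5 : Real.exp b / 2 ≤ Real.cosh b := by
    rw [Real.cosh_eq]
    linarith [Real.exp_pos (-b)]
  have h6 : Real.exp (a - b + Real.exp (-(2 * u))) * (Real.exp b / 2) =
      Real.exp a / 2 * Real.exp (Real.exp (-(2 * u))) := by
    rw [Real.exp_add, Real.exp_sub]
    have := (Real.exp_pos b).ne'
    field_simp
  rw [← h6] at h2
  exact h2.trans (mul_le_mul_of_nonneg_left h5 (Real.exp_pos _).le)

lemma sqrt_scale {D : ℝ} (hD : 0 < D) (x c : ℝ) :
    √((D * x) ^ 2 + (c * D) ^ 2) = D * √(x ^ 2 + c ^ 2) := by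
  have : (D * x) ^ 2 + (c * D) ^ 2 = D ^ 2 * (x ^ 2 + c ^ 2) := by ring
  rw [this, Real.sqrt_mul (by positivity), Real.sqrt_sq hD.le]

lemma ER_ratio1 (F : Fam) {D a : ℝ} (hD : 0 < D) :
    ER F D (D * a) ≤ Real.exp (D * F.A0 a) * ER F D 0 := by
  have e : D * F.A0 a = ∑ i, (F.κ i * √((D * a) ^ 2 + (F.c i * D) ^ 2) -
      F.κ i * √((0 : ℝ) ^ 2 + (F.c i * D) ^ 2)) := by
    unfold Fam.A0
    rw [Finset.mul_sum]
    apply Finset.sum_congr rfl
    intro i _
    have h0 : √((0 : ℝ) ^ 2 + (F.c i * D) ^ 2) = F.c i * D := by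
      rw [zero_pow two_ne_zero, zero_add, Real.sqrt_sq (mul_pos (F.c_pos i) hD).le]
    rw [sqrt_scale hD, h0]
    ring
  rw [e, Real.exp_sum, ER, ER, ← Finset.prod_mul_distrib]
  apply Finset.prod_le_prod
  · exact fun i _ => (Real.cosh_pos _).le
  · intro i _
    apply cosh_ratio
    apply mul_le_mul_of_nonneg_left _ (F.κ_pos i).le
    apply Real.sqrt_le_sqrt
    nlinarith [sq_nonneg (D * a)]

lemma ER_ratio2 (F : Fam) {D a : ℝ} (hD : 0 < D) :
    ER F D (D * (1 - a)) ≤ Real.exp (D * (F.A0 (1 - a) - F.A0 1) +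
      ∑ i, Real.exp (-(2 * (F.κ i * (F.c i * D))))) * ER F D D := by
  have e : D * (F.A0 (1 - a) - F.A0 1) + ∑ i, Real.exp (-(2 * (F.κ i * (F.c i * D)))) =
      ∑ i, (F.κ i * √((D * (1 - a)) ^ 2 + (F.c i * D) ^ 2) -
      F.κ i * √(D ^ 2 + (F.c i * D) ^ 2) + Real.exp (-(2 * (F.κ i * (F.c i * D))))) := by
    unfold Fam.A0
    rw [Finset.sum_add_distrib, ← Finset.sum_sub_distrib, Finset.mul_sum]
    congr 1
    apply Finset.sum_congr rfl
    intro i _
    have h1 : √(D ^ 2 + (F.c i * D) ^ 2) = D * √(1 ^ 2 + F.c i ^ 2) := by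
      have := sqrt_scale hD 1 (F.c i)
      rwa [mul_one] at this
    rw [sqrt_scale hD, h1]
    ring
  rw [e, Real.exp_sum, ER, ER, ← Finset.prod_mul_distrib]
  apply Finset.prod_le_prod
  · exact fun i _ => (Real.cosh_pos _).le
  · intro i _
    apply cosh_ratio'
    apply mul_le_mul_of_nonneg_left _ (F.κ_pos i).le
    apply Real.le_sqrt_of_sq_le
    nlinarith [sq_nonneg (D * (1 - a))]

noncomputable def YR (F : Fam) (D K c : ℝ) : ℝ :=
  Real.exp (-(c / 2) * Real.log Real.pi) * Real.exp ((c ^ 2 - D * c) / (2 * K * D)) *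
    (Real.Gamma (D / 2 + 1) / Real.Gamma ((D - c) / 2 + 1)) *
    (ER F D c * ER F D (D - c) / (ER F D 0 * ER F D D))

lemma yy_real (he : S_ee) (F : Fam) {D K c : ℝ} (hD : 0 < D) :
    YY F D K ((c : ℝ) : ℂ) = ((YR F D K c : ℝ) : ℂ) := by
  have hE := (he F D hD).2.2.2.1
  have h1 : EE F D ((c : ℝ) : ℂ) = ((ER F D c : ℝ) : ℂ) := hE c
  have h2 : EE F D ((D : ℂ) - (c : ℂ)) = ((ER F D (D - c) : ℝ) : ℂ) := by
    rw [← Complex.ofReal_sub]
    exact hE (D - c)
  have h3 : EE F D 0 = ((ER F D 0 : ℝ) : ℂ) := by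
    have := hE 0
    rw [Complex.ofReal_zero] at this
    exact this
  have h4 : EE F D (D : ℂ) = ((ER F D D : ℝ) : ℂ) := hE D
  have g1 : Complex.Gamma ((D : ℂ) / 2 + 1) = ((Real.Gamma (D / 2 + 1) : ℝ) : ℂ) := by
    rw [← Complex.Gamma_ofReal]
    push_cast
    rfl
  have g2 : Complex.Gamma (((D : ℂ) - (c : ℂ)) / 2 + 1) =
      ((Real.Gamma ((D - c) / 2 + 1) : ℝ) : ℂ) := by
    rw [← Complex.Gamma_ofReal]
    push_cast
    rfl
  unfold YY YR
  rw [h1, h2, h3, h4, g1, g2]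
  push_cast
  rfl

lemma alpha_eq (F : Fam) {D K b : ℝ} (hD : 0 < D) :
    alpha F D K (-(D * b)) = -(1 / 2) * Real.log Real.pi + (-(2 * (D * b)) - D) / (2 * K * D) +
      1 / 2 * dg (D / 2 + 1 + D * b / 2) - (F.A1 b + F.A1 (1 + b)) := by
  unfold alpha
  have e1 : (D - -(D * b)) / 2 + 1 = D / 2 + 1 + D * b / 2 := by ring
  have e2 : ∑ i, F.κ i * (-(D * b) / √((-(D * b)) ^ 2 + (F.c i * D) ^ 2) -
      (D - -(D * b)) / √((D - -(D * b)) ^ 2 + (F.c i * D) ^ 2)) = -(F.A1 b + F.A1 (1 + b)) := by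
    unfold Fam.A1
    rw [← Finset.sum_add_distrib, ← Finset.sum_neg_distrib]
    apply Finset.sum_congr rfl
    intro i _
    have h1 : (-(D * b)) ^ 2 = (D * b) ^ 2 := by ring
    have h2 : D - -(D * b) = D * (1 + b) := by ring
    have h3 : √(b ^ 2 + F.c i ^ 2) ≠ 0 := by
      have := F.c_pos i
      positivity
    have h4 : √((1 + b) ^ 2 + F.c i ^ 2) ≠ 0 := by
      have := F.c_pos i
      positivity
    rw [h1, h2, sqrt_scale hD, sqrt_scale hD, neg_div, mul_div_mul_left _ _ hD.ne',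
      mul_div_mul_left _ _ hD.ne']
    ring
  rw [e1, e2]
  ring

lemma tend_exp (F : Fam) :
    Tendsto (fun D : ℝ => ∑ i, Real.exp (-(2 * (F.κ i * (F.c i * D))))) atTop (𝓝 0) := by
  have h : ∀ i : F.ι, Tendsto (fun D : ℝ => Real.exp (-(2 * (F.κ i * (F.c i * D))))) atTop (𝓝 0) := by
    intro i
    have h1 : Tendsto (fun D : ℝ => (2 * F.κ i * F.c i) * D) atTop atTop :=
      tendsto_id.const_mul_atTop (by
        have := F.κ_pos i
        have := F.c_pos i
        positivity)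
    have h2 := Real.tendsto_exp_neg_atTop_nhds_zero.comp h1
    refine h2.congr fun D => ?_
    simp only [Function.comp]
    congr 1
    ring
  have h3 := tendsto_finsetSum Finset.univ (fun i _ => h i)
  simpa using h3

theorem c6_of (he : S_ee) (hy : S_yp) (hg : S_gre) : S_c6 := by
  intro K C η hK hC hη hKη F hF
  obtain ⟨D1, hD1⟩ := eventually_atTop.1 ((tend_exp F).eventually
    (gt_mem_nhds (show (0 : ℝ) < 1 / 1000 by norm_num)))
  -- the small parameter
  set δ : ℝ := min (1 / 2) (1 / (1000 * K)) with hδ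
  have hδ0 : 0 < δ := by
    rw [hδ]
    positivity
  have hδ1 : δ ≤ 1 / 2 := min_le_left _ _
  have hδ2 : K * δ ≤ 1 / 1000 := by
    have : δ ≤ 1 / (1000 * K) := min_le_right _ _
    have h2 := mul_le_mul_of_nonneg_left this hK.le
    have h3 : K * (1 / (1000 * K)) = 1 / 1000 := by field_simp
    linarith
  refine ⟨max (max D1 1) (max (K / δ ^ 2) (1000 * K)), by positivity, ?_⟩
  intro D hD
  have hDD1 : D1 ≤ D := ((le_max_left _ _).trans (le_max_left _ _)).trans hD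
  have hDone : 1 ≤ D := ((le_max_right _ _).trans (le_max_left _ _)).trans hD
  have hDK1 : K / δ ^ 2 ≤ D := ((le_max_left _ _).trans (le_max_right _ _)).trans hD
  have hDK2 : 1000 * K ≤ D := ((le_max_right _ _).trans (le_max_right _ _)).trans hD
  have hD0 : 0 < D := by linarith
  have hexp := hD1 D hDD1
  set s : ℝ := √(K * D) with hs
  have hs0 : 0 < s := Real.sqrt_pos.2 (by positivity)
  have hs2 : s ^ 2 = K * D := Real.sq_sqrt (by positivity)
  have hsD : s ≤ δ * D := by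
    rw [hs, Real.sqrt_le_iff]
    refine ⟨by positivity, ?_⟩
    rw [div_le_iff₀ (by positivity)] at hDK1
    nlinarith
  set a : ℝ := 9 / 10 * s / D with ha
  set b : ℝ := s / 5 / D with hb
  have ha0 : 0 ≤ a := by positivity
  have hb0 : 0 ≤ b := by positivity
  have hDa : D * a = 9 / 10 * s := by rw [ha]; field_simp
  have hDb : D * b = s / 5 := by rw [hb]; field_simp
  have haδ : a ≤ δ := by
    rw [ha, div_le_iff₀ hD0]
    linarith
  have ha2 : a ≤ 1 / 2 := haδ.trans hδ1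
  -- the family
  have hM := key (F := F) (a := a) (b := b) (M := 1 / 2 + η + 4 * a) ha0 hb0
    (fun x y hx hy => hF.p4 a ha0 ha2 x y hx hy)
  -- the Gamma function
  set X : ℝ := D / 2 + 1 with hX
  have hX0 : 0 < X := by rw [hX]; linarith
  have hc0 : (0 : ℝ) ≤ 9 / 10 * s / 2 := by positivity
  have hsle : s ≤ D / 2 := by nlinarith
  have hG := hg.2.2.1 X (9 / 10 * s / 2) hX0 hc0 (by rw [hX]; linarith)
  have hdg := hg.2.2.2.1 X (D * b / 2) hX0 (by positivity)
  have hXc : X - 9 / 10 * s / 2 = (D - 9 / 10 * s) / 2 + 1 := by rw [hX]; ring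
  rw [hXc] at hG
  -- the products
  have hE1 := ER_ratio1 F (a := a) hD0
  have hE2 := ER_ratio2 F (a := a) hD0
  have hDa' : D * (1 - a) = D - 9 / 10 * s := by rw [mul_sub, mul_one, hDa]
  rw [hDa] at hE1
  rw [hDa'] at hE2
  -- assemble
  rw [yy_real he F hD0, Complex.norm_real, Real.norm_eq_abs]
  have hGam : 0 < Real.Gamma X / Real.Gamma ((D - 9 / 10 * s) / 2 + 1) :=
    div_pos (Real.Gamma_pos_of_pos hX0) (Real.Gamma_pos_of_pos (by linarith))
  have hERr : ER F D (9 / 10 * s) * ER F D (D - 9 / 10 * s) / (ER F D 0 * ER F D D) ≤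
      Real.exp (D * F.A0 a) * Real.exp (D * (F.A0 (1 - a) - F.A0 1) +
        ∑ i, Real.exp (-(2 * (F.κ i * (F.c i * D))))) := by
    rw [div_le_iff₀ (mul_pos (ER_pos _ _ _) (ER_pos _ _ _))]
    calc _ ≤ (Real.exp (D * F.A0 a) * ER F D 0) * (Real.exp (D * (F.A0 (1 - a) - F.A0 1) +
        ∑ i, Real.exp (-(2 * (F.κ i * (F.c i * D))))) * ER F D D) :=
          mul_le_mul hE1 hE2 (ER_pos _ _ _).le (by
            have := ER_pos F D 0
            positivity)
      _ = _ := by ring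
  have hERpos : 0 < ER F D (9 / 10 * s) * ER F D (D - 9 / 10 * s) / (ER F D 0 * ER F D D) :=
    div_pos (mul_pos (ER_pos _ _ _) (ER_pos _ _ _)) (mul_pos (ER_pos _ _ _) (ER_pos _ _ _))
  have hYpos : 0 < YR F D K (9 / 10 * s) := by
    unfold YR
    positivity
  rw [abs_of_pos hYpos]
  have hYle : YR F D K (9 / 10 * s) ≤
      Real.exp (-(9 / 10 * s / 2) * Real.log Real.pi) *
      Real.exp (((9 / 10 * s) ^ 2 - D * (9 / 10 * s)) / (2 * K * D)) *
      Real.exp (9 / 10 * s / 2 * dg X - (9 / 10 * s / 2) ^ 2 / (2 * X)) *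
      (Real.exp (D * F.A0 a) * Real.exp (D * (F.A0 (1 - a) - F.A0 1) +
        ∑ i, Real.exp (-(2 * (F.κ i * (F.c i * D)))))) := by
    unfold YR
    apply mul_le_mul _ hERr hERpos.le (by positivity)
    apply mul_le_mul_of_nonneg_left hG (by positivity)
  refine hYle.trans ?_
  rw [← Real.exp_add, ← Real.exp_add, ← Real.exp_add, ← Real.exp_add]
  apply Real.exp_le_exp.2
  have hal := alpha_eq F (K := K) (b := b) hD0
  rw [hDb] at hal
  rw [hal]
  rw [hDb] at hdg
  -- the sums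
  have hn1 : ((9 / 10 * s) ^ 2 - D * (9 / 10 * s)) / (2 * K * D) -
      9 / 10 * s * ((-(2 * (s / 5)) - D) / (2 * K * D)) = 117 / 200 := by
    have h1 : ((9 / 10 * s) ^ 2 - D * (9 / 10 * s)) / (2 * K * D) -
      9 / 10 * s * ((-(2 * (s / 5)) - D) / (2 * K * D)) = (117 / 100 * s ^ 2) / (2 * K * D) := by
      field_simp
      ring
    rw [h1, hs2]
    field_simp
    norm_num
  have hn2 : D * (F.A0 a + F.A0 (1 - a) - F.A0 1 + a * (F.A1 b + F.A1 (1 + b))) ≤
      117 / 200 * K * (1 / 2 + η + 4 * a) := by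
    have h1 := mul_le_mul_of_nonneg_left hM hD0.le
    have h2 : D * ((1 / 2 + η + 4 * a) * (a ^ 2 / 2 + a * b)) =
        117 / 200 * K * (1 / 2 + η + 4 * a) := by
      have h3 : D * (a ^ 2 / 2 + a * b) = 117 / 200 * K := by
        have h4 : D * (D * (a ^ 2 / 2 + a * b)) = D * (117 / 200 * K) := by
          have : D * (D * (a ^ 2 / 2 + a * b)) = (D * a) ^ 2 / 2 + (D * a) * (D * b) := by ring
          rw [this, hDa, hDb]
          nlinarith
        exact mul_left_cancel₀ hD0.ne' h4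
      calc _ = (1 / 2 + η + 4 * a) * (D * (a ^ 2 / 2 + a * b)) := by ring
        _ = _ := by rw [h3]; ring
    linarith
  have hn3 : 9 / 10 * s * (D * 0) = 0 := by ring
  -- the Gamma terms
  have hn4 : 9 / 10 * s / 2 * (dg X - dg (X + s / 5 / 2)) - (9 / 10 * s / 2) ^ 2 / (2 * X) ≤
      -(117 / 400 * K) + 1 / 1000 := by
    have h1 := mul_le_mul_of_nonneg_left hdg hc0
    have h2 : 0 < X + s / 5 / 2 := by positivity
    have h3 : (9 / 10 * s / 2) ^ 2 / (2 * (X + s / 5 / 2)) ≤ (9 / 10 * s / 2) ^ 2 / (2 * X) := by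
      apply div_le_div_of_nonneg_left (by positivity) (by positivity)
      have : 0 ≤ s / 5 / 2 := by positivity
      linarith
    have h4 : 9 / 10 * s / 2 * (s / 5 / 2 / (X + s / 5 / 2)) +
        (9 / 10 * s / 2) ^ 2 / (2 * (X + s / 5 / 2)) =
        (117 / 800 * s ^ 2) / (X + s / 5 / 2) := by
      field_simp
      ring
    have h5 : 117 / 400 * K - 1 / 1000 ≤ (117 / 800 * s ^ 2) / (X + s / 5 / 2) := by
      rw [le_div_iff₀ h2, hs2, hX]
      have hsD' : K * s ≤ K * (δ * D) := mul_le_mul_of_nonneg_left hsD hK.le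
      have hKD : K * δ * D ≤ 1 / 1000 * D := mul_le_mul_of_nonneg_right hδ2 hD0.le
      nlinarith
    linarith
  have hn5 : 117 / 200 * K * (1 / 2 + η + 4 * a) ≤ 117 / 400 * K + 5 / 1000 := by
    have h1 : K * a ≤ 1 / 1000 := (mul_le_mul_of_nonneg_left haδ hK.le).trans hδ2
    nlinarith
  have hn6 : D * (F.A0 a + F.A0 (1 - a) - F.A0 1 + a * (F.A1 b + F.A1 (1 + b))) =
      D * F.A0 a + D * (F.A0 (1 - a) - F.A0 1) + 9 / 10 * s * (F.A1 b + F.A1 (1 + b)) := by
    rw [← hDa]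
    ring
  rw [hn6] at hn2
  have hX' : D / 2 + 1 + s / 5 / 2 = X + s / 5 / 2 := by rw [hX]
  rw [hX']
  linarith [hn1, hn2, hn4, hn5, hexp]

end Pool.Agent.TH41.LP.C6f
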