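import Mathlib
import Pool.Agent.TH41.LP.Stm

set_option autoImplicit false

open MeasureTheory Filter Topology

namespace Pool.Agent.TH41.LP.CSHf

open Pool.Agent.TH41.LP

theorem term_le {R : ℝ} {u : ℂ} (hu : ‖u‖ ≤ R) (n : ℕ) :
    ‖u ^ n / ((2 * n).factorial : ℂ)‖ ≤ R ^ n / (n.factorial : ℝ) := by
  have hR : 0 ≤ R := (norm_nonneg u).trans hu
  rw [norm_div, norm_pow, Complex.norm_natCast]
  have h1 : (0 : ℝ) < (n.factorial : ℝ) := by positivity
  have h2 : ((n.factorial : ℕ) : ℝ) ≤ ((2 * n).factorial : ℝ) := by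
    exact_mod_cast Nat.factorial_le (by omega)
  exact div_le_div₀ (by positivity) (pow_le_pow_left₀ (norm_nonneg _) hu n) h1 h2

theorem csh : S_csh := by
  refine ⟨?_, ?_⟩
  · intro u
    have h : DifferentiableOn ℂ (fun u : ℂ => ∑' n : ℕ, u ^ n / ((2 * n).factorial : ℂ))
        (Metric.ball 0 (‖u‖ + 1)) := by
      refine Complex.differentiableOn_tsum_of_summable_norm
        (u := fun n : ℕ => (‖u‖ + 1) ^ n / (n.factorial : ℝ))
        (Real.summable_pow_div_factorial _) ?_ Metric.isOpen_ball ?_
      · intro n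
        exact ((differentiable_id.pow n).div_const _).differentiableOn
      · intro n w hw
        refine term_le ?_ n
        rw [Metric.mem_ball, dist_zero_right] at hw
        exact hw.le
    refine (h.differentiableAt ?_)
    refine Metric.isOpen_ball.mem_nhds ?_
    rw [Metric.mem_ball, dist_zero_right]
    linarith
  · intro z
    have h := Complex.hasSum_cosh z
    unfold Csh
    rw [← h.tsum_eq]
    refine tsum_congr fun n => ?_
    rw [← pow_mul]

end Pool.Agent.TH41.LP.CSHf
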