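import Mathlib
import Pool.Agent.TH41.LP.Stm

set_option autoImplicit false

/-!
# LP-DUAL: the radial function with symmetric Mellin factor is self-dual
(job 2226, helper81 for helper41)
-/

open MeasureTheory Filter Topology

open scoped FourierTransform

namespace Pool.Agent.TH41.LP.DUALf

open Pool.Agent.TH41.LP

/-- the archimedean factor -/
noncomputable def cA (s : ℂ) : ℂ :=
  Complex.exp (-(s / 2) * (Real.log Real.pi : ℝ)) * Complex.Gamma (s / 2)

/-- the power `‖x‖ ^ (-s)` -/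
noncomputable def kx {d : ℕ} (s : ℂ) (x : EuclideanSpace ℝ (Fin d)) : ℂ :=
  Complex.exp (-s * (Real.log ‖x‖ : ℝ))

/-- the first kernel -/
noncomputable def k1 (s : ℂ) (r α : ℝ) : ℂ :=
  (α : ℂ) ^ (s / 2 - 1) * Complex.exp (-((Real.pi * r ^ 2 : ℝ) * (α : ℂ)))

/-- the second kernel -/
noncomputable def k2 (d : ℕ) (s : ℂ) (r α : ℝ) : ℂ :=
  (α : ℂ) ^ (s / 2 - 1 - d / 2) * Complex.exp (-((Real.pi * r ^ 2 : ℝ) / (α : ℂ)))

/-! ### Scalar integrals -/

theorem int_k1 {s : ℂ} (hs : 0 < s.re) {r : ℝ} (hr : 0 < r) :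
    ∫ α in Set.Ioi (0 : ℝ), k1 s r α = cA s * Complex.exp (-s * (Real.log r : ℝ)) := by
  have hp : 0 < Real.pi * r ^ 2 := by positivity
  have hs2 : 0 < (s / 2).re := by
    have : (s / 2).re = s.re / 2 := by simp
    rw [this]
    linarith
  have h1 := Complex.integral_cpow_mul_exp_neg_mul_Ioi hs2 hp
  unfold k1
  rw [h1]
  unfold cA
  have h2 : (1 / ((Real.pi * r ^ 2 : ℝ) : ℂ)) ^ (s / 2) =
      Complex.exp (-(s / 2) * (Real.log Real.pi : ℝ)) * Complex.exp (-s * (Real.log r : ℝ)) := by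
    rw [Complex.cpow_def_of_ne_zero (by
      apply one_div_ne_zero
      exact_mod_cast hp.ne'), ← Complex.exp_add]
    congr 1
    have h3 : (1 / ((Real.pi * r ^ 2 : ℝ) : ℂ)) = (((Real.pi * r ^ 2)⁻¹ : ℝ) : ℂ) := by
      push_cast
      rw [one_div]
    rw [h3, ← Complex.ofReal_log (by positivity), Real.log_inv,
      Real.log_mul Real.pi_ne_zero (by positivity), Real.log_pow]
    push_cast
    ring
  rw [h2]
  ring

theorem sub_k2 (d : ℕ) (s : ℂ) (r : ℝ) {α : ℝ} (hα : 0 < α) :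
    ((|(-1 : ℝ)| * α ^ ((-1 : ℝ) - 1)) : ℝ) • k1 (d - s) r (α ^ (-1 : ℝ)) = k2 d s r α := by
  unfold k1 k2
  rw [abs_neg, abs_one, one_mul, Real.rpow_neg_one]
  have h1 : (((α⁻¹ : ℝ) : ℂ)) ^ (((d : ℂ) - s) / 2 - 1) = (α : ℂ) ^ (-(((d : ℂ) - s) / 2 - 1)) := by
    rw [Complex.ofReal_inv, Complex.inv_cpow _ _ (by
      rw [Complex.arg_ofReal_of_nonneg hα.le]
      exact Real.pi_ne_zero.symm), Complex.cpow_neg]
  have h2 : ((α ^ ((-1 : ℝ) - 1) : ℝ) : ℂ) = (α : ℂ) ^ (-2 : ℂ) := by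
    rw [Complex.ofReal_cpow hα.le]
    congr 1
    push_cast
    ring
  have hα0 : (α : ℂ) ≠ 0 := by exact_mod_cast hα.ne'
  rw [Complex.real_smul, h1, h2, ← mul_assoc, ← Complex.cpow_add _ _ hα0]
  congr 2
  · ring
  · push_cast
    rw [div_eq_mul_inv]

theorem int_k2 (d : ℕ) {s : ℂ} (hs : s.re < d) {r : ℝ} (hr : 0 < r) :
    ∫ α in Set.Ioi (0 : ℝ), k2 d s r α =
      cA (d - s) * Complex.exp (-(d - s) * (Real.log r : ℝ)) := by
  rw [← int_k1 (s := d - s) (by simp; linarith) hr,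
    ← integral_comp_rpow_Ioi (fun α => k1 (d - s) r α) (p := -1) (by norm_num)]
  refine setIntegral_congr_fun measurableSet_Ioi fun α hα => ?_
  exact (sub_k2 d s r hα).symm

theorem norm_k1 {s : ℂ} {r α : ℝ} (hα : 0 < α) :
    ‖k1 s r α‖ = α ^ (s.re / 2 - 1) * Real.exp (-((Real.pi * r ^ 2) * α)) := by
  unfold k1
  rw [norm_mul, Complex.norm_cpow_eq_rpow_re_of_pos hα, Complex.norm_exp]
  congr 2
  · simp
  · rw [← Complex.ofReal_mul, ← Complex.ofReal_neg, Complex.ofReal_re]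

theorem int_norm_k1 {s : ℂ} (hs : 0 < s.re) {r : ℝ} (hr : 0 < r) :
    ∫ α in Set.Ioi (0 : ℝ), ‖k1 s r α‖ =
      (1 / Real.pi) ^ (s.re / 2) * Real.Gamma (s.re / 2) * r ^ (-s.re) := by
  have h1 := Real.integral_rpow_mul_exp_neg_mul_Ioi (a := s.re / 2) (r := Real.pi * r ^ 2)
    (by positivity) (by positivity)
  rw [setIntegral_congr_fun measurableSet_Ioi (fun α hα => norm_k1 (s := s) (r := r) hα), h1]
  have h2 : (1 / (Real.pi * r ^ 2)) ^ (s.re / 2) = (1 / Real.pi) ^ (s.re / 2) * r ^ (-s.re) := by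
    have h3 : 1 / (Real.pi * r ^ 2) = (1 / Real.pi) * (r ^ 2)⁻¹ := by
      rw [one_div, mul_inv, one_div]
    rw [h3, Real.mul_rpow (by positivity) (by positivity)]
    congr 1
    rw [Real.inv_rpow (by positivity), ← Real.rpow_natCast, ← Real.rpow_mul hr.le,
      ← Real.rpow_neg hr.le]
    congr 1
    push_cast
    ring
  rw [h2]
  ring

theorem int_norm_k2 (d : ℕ) {s : ℂ} (hs : s.re < d) {r : ℝ} (hr : 0 < r) :
    ∫ α in Set.Ioi (0 : ℝ), ‖k2 d s r α‖ =
      (1 / Real.pi) ^ ((d - s.re) / 2) * Real.Gamma ((d - s.re) / 2) * r ^ (-(d - s.re)) := by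
  have hre : ((d : ℂ) - s).re = d - s.re := by simp
  have h1 := int_norm_k1 (s := d - s) (by rw [hre]; linarith) hr
  rw [hre] at h1
  rw [← h1, ← integral_comp_rpow_Ioi (fun α => ‖k1 (d - s) r α‖) (p := -1) (by norm_num)]
  refine setIntegral_congr_fun measurableSet_Ioi fun α (hα : 0 < α) => ?_
  rw [← sub_k2 d s r hα, norm_smul, Real.norm_of_nonneg (by positivity), smul_eq_mul]

theorem meas_k1 (s : ℂ) : Measurable (fun p : ℝ × ℝ => k1 s p.1 p.2) := by
  unfold k1
  fun_prop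

theorem meas_k2 (d : ℕ) (s : ℂ) : Measurable (fun p : ℝ × ℝ => k2 d s p.1 p.2) := by
  unfold k2
  fun_prop

/-! ### Integrability -/

section space

variable {d : ℕ}


theorem ae_ne (hd : 0 < d) : ∀ᵐ x : (EuclideanSpace ℝ (Fin d)), x ≠ 0 := by
  have : Nonempty (Fin d) := ⟨⟨0, hd⟩⟩
  have : Nontrivial (EuclideanSpace ℝ (Fin d)) := inferInstance
  have h1 : (volume : Measure (EuclideanSpace ℝ (Fin d))) {0} = 0 := measure_singleton 0
  exact compl_mem_ae_iff.2 h1

/-- integrability of `g(x) ‖x‖ ^ (-d/2)` -/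
theorem loc (hd : 0 < d) {g : (EuclideanSpace ℝ (Fin d)) → ℂ} (hg : Integrable g) {C : ℝ} (hC : ∀ x, ‖g x‖ ≤ C) :
    Integrable (fun x : (EuclideanSpace ℝ (Fin d)) => ‖g x‖ * ‖x‖ ^ (-((d : ℝ) / 2))) := by
  have : Nonempty (Fin d) := ⟨⟨0, hd⟩⟩
  have : Nontrivial (EuclideanSpace ℝ (Fin d)) := inferInstance
  have hd' : (0 : ℝ) < d := by exact_mod_cast hd
  have h1 : IntegrableOn (fun x : (EuclideanSpace ℝ (Fin d)) => ‖x‖ ^ (-((d : ℝ) / 2))) (Metric.ball 0 1) := by
    rw [integrableOn_fun_norm_addHaar (volume : Measure (EuclideanSpace ℝ (Fin d))) (f := fun r => r ^ (-((d : ℝ) / 2)))]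
    rw [finrank_euclideanSpace, Fintype.card_fin]
    have h2 : IntegrableOn (fun r : ℝ => r ^ ((d : ℝ) / 2 - 1)) (Set.Ioo 0 1) := by
      rw [intervalIntegral.integrableOn_Ioo_rpow_iff one_pos]
      linarith
    refine h2.congr_fun (fun r hr => ?_) measurableSet_Ioo
    simp only [smul_eq_mul]
    rw [← Real.rpow_natCast, ← Real.rpow_add hr.1, Nat.cast_sub hd]
    congr 1
    push_cast
    ring
  have h3 : Integrable (fun x : (EuclideanSpace ℝ (Fin d)) => C * (Metric.ball (0 : (EuclideanSpace ℝ (Fin d))) 1).indicator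
      (fun x => ‖x‖ ^ (-((d : ℝ) / 2))) x + ‖g x‖) :=
    (((integrable_indicator_iff measurableSet_ball).2 h1).const_mul C).add hg.norm
  refine h3.mono ?_ (Eventually.of_forall fun x => ?_)
  · exact hg.norm.aestronglyMeasurable.mul (measurable_norm.pow_const _).aestronglyMeasurable
  · have h4 : 0 ≤ ‖x‖ ^ (-((d : ℝ) / 2)) := by positivity
    rw [Real.norm_of_nonneg (by positivity)]
    refine le_trans ?_ (le_abs_self _)
    by_cases hx : x ∈ Metric.ball (0 : (EuclideanSpace ℝ (Fin d))) 1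
    · rw [Set.indicator_of_mem hx]
      have := mul_le_mul_of_nonneg_right (hC x) h4
      have := norm_nonneg (g x)
      linarith
    · rw [Set.indicator_of_notMem hx, mul_zero, zero_add]
      have h5 : 1 ≤ ‖x‖ := by simpa using hx
      have h6 : ‖x‖ ^ (-((d : ℝ) / 2)) ≤ 1 := Real.rpow_le_one_of_one_le_of_nonpos h5 (by linarith)
      exact mul_le_of_le_one_right (norm_nonneg _) h6

/-- joint integrability for a kernel -/
theorem joint (hd : 0 < d) {g : (EuclideanSpace ℝ (Fin d)) → ℂ} (hg : Integrable g) {C : ℝ} (hC : ∀ x, ‖g x‖ ≤ C)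
    {k : ℝ → ℝ → ℂ} (hk : Measurable (fun p : ℝ × ℝ => k p.1 p.2)) {c : ℝ} (hc : 0 < c)
    (hint : ∀ r : ℝ, 0 < r → ∫ α in Set.Ioi (0 : ℝ), ‖k r α‖ = c * r ^ (-((d : ℝ) / 2))) :
    Integrable (fun p : (EuclideanSpace ℝ (Fin d)) × ℝ => g p.1 * k ‖p.1‖ p.2)
      ((volume : Measure (EuclideanSpace ℝ (Fin d))).prod (volume.restrict (Set.Ioi (0 : ℝ)))) := by
  have hmk : Measurable (fun p : (EuclideanSpace ℝ (Fin d)) × ℝ => k ‖p.1‖ p.2) :=
    hk.comp ((measurable_fst.norm).prodMk measurable_snd)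
  have hm : AEStronglyMeasurable (fun p : (EuclideanSpace ℝ (Fin d)) × ℝ => g p.1 * k ‖p.1‖ p.2)
      ((volume : Measure (EuclideanSpace ℝ (Fin d))).prod (volume.restrict (Set.Ioi (0 : ℝ)))) :=
    (hg.aestronglyMeasurable.comp_fst).mul hmk.aestronglyMeasurable
  rw [integrable_prod_iff hm]
  constructor
  · filter_upwards [ae_ne hd] with x hx
    have hr : 0 < ‖x‖ := norm_pos_iff.2 hx
    have h1 : Integrable (fun α => ‖k ‖x‖ α‖) (volume.restrict (Set.Ioi (0 : ℝ))) := by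
      apply Integrable.of_integral_ne_zero
      rw [hint _ hr]
      positivity
    have h2 : Integrable (fun α => k ‖x‖ α) (volume.restrict (Set.Ioi (0 : ℝ))) := by
      refine (integrable_norm_iff ?_).1 h1
      exact (hk.comp (measurable_const.prodMk measurable_id)).aestronglyMeasurable
    exact h2.const_mul _
  · refine ((loc hd hg hC).const_mul c).congr ?_
    filter_upwards [ae_ne hd] with x hx
    have hr : 0 < ‖x‖ := norm_pos_iff.2 hx
    simp only [norm_mul]
    rw [integral_const_mul, hint _ hr]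
    ring

/-! ### The Fourier transform -/

theorem fourier_bound (f : (EuclideanSpace ℝ (Fin d)) → ℂ) (x : (EuclideanSpace ℝ (Fin d))) : ‖𝓕 f x‖ ≤ ∫ y, ‖f y‖ :=
  VectorFourier.norm_fourierIntegral_le_integral_norm _ _ _ _ _

theorem bound_of_fourier {f : (EuclideanSpace ℝ (Fin d)) → ℂ} (hc : Continuous f) (hf : Integrable f)
    (hF : Integrable (𝓕 f)) (x : (EuclideanSpace ℝ (Fin d))) : ‖f x‖ ≤ ∫ y, ‖𝓕 f y‖ := by
  have h1 : 𝓕⁻ (𝓕 f) x = f x := congrFun (hc.fourierInv_fourier_eq hf hF) x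
  rw [← h1]
  exact VectorFourier.norm_fourierIntegral_le_integral_norm _ _ _ _ _

theorem mult {f φ : (EuclideanSpace ℝ (Fin d)) → ℂ} (hf : Integrable f) (hφ : Integrable φ) :
    ∫ x, 𝓕 f x * φ x = ∫ x, f x * 𝓕 φ x := by
  have h1 := VectorFourier.integral_fourierIntegral_smul_eq_flip (e := Real.fourierChar)
    (μ := (volume : Measure (EuclideanSpace ℝ (Fin d)))) (ν := (volume : Measure (EuclideanSpace ℝ (Fin d)))) (L := innerₗ (EuclideanSpace ℝ (Fin d))) (f := f) (g := φ)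
    Real.continuous_fourierChar (by
      change Continuous fun p : (EuclideanSpace ℝ (Fin d)) × (EuclideanSpace ℝ (Fin d)) => inner ℝ p.1 p.2
      fun_prop) hf hφ
  rw [flip_innerₗ] at h1
  exact h1

theorem gauss {f : (EuclideanSpace ℝ (Fin d)) → ℂ} (hf : Integrable f) {α : ℝ} (hα : 0 < α) :
    ∫ x, 𝓕 f x * Complex.exp (-((Real.pi * ‖x‖ ^ 2 : ℝ) * (α : ℂ))) =
      ∫ x, f x * ((α : ℂ) ^ (-((d : ℂ) / 2)) *
        Complex.exp (-((Real.pi * ‖x‖ ^ 2 : ℝ) / (α : ℂ)))) := by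
  have hb : 0 < ((Real.pi * α : ℝ) : ℂ).re := by
    rw [Complex.ofReal_re]
    positivity
  have hα0 : (α : ℂ) ≠ 0 := by exact_mod_cast hα.ne'
  have hπ0 : (Real.pi : ℂ) ≠ 0 := by exact_mod_cast Real.pi_ne_zero
  have hi : Integrable (fun x : (EuclideanSpace ℝ (Fin d)) => Complex.exp (-((Real.pi * α : ℝ) : ℂ) * ‖x‖ ^ 2)) := by
    have := GaussianFourier.integrable_cexp_neg_mul_sq_norm_add hb 0 (0 : (EuclideanSpace ℝ (Fin d)))
    simpa using this
  have h1 := mult hf hi
  have h2 : ∀ x : (EuclideanSpace ℝ (Fin d)), Complex.exp (-((Real.pi * ‖x‖ ^ 2 : ℝ) * (α : ℂ))) =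
      Complex.exp (-((Real.pi * α : ℝ) : ℂ) * ‖x‖ ^ 2) := by
    intro x
    congr 1
    push_cast
    ring
  simp_rw [h2]
  rw [h1]
  congr 1
  ext x
  congr 1
  rw [fourier_gaussian_innerProductSpace hb, finrank_euclideanSpace, Fintype.card_fin]
  congr 1
  · have h3 : (Real.pi : ℂ) / ((Real.pi * α : ℝ) : ℂ) = (α : ℂ)⁻¹ := by
      push_cast
      field_simp
    rw [h3, Complex.inv_cpow _ _ (by
      rw [Complex.arg_ofReal_of_nonneg hα.le]
      exact Real.pi_ne_zero.symm), Complex.cpow_neg]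
  · congr 1
    push_cast
    field_simp

/-- the functional equation of the Mellin transforms -/
theorem func_eq (hd : 0 < d) {f : (EuclideanSpace ℝ (Fin d)) → ℂ} (hc : Continuous f) (hf : Integrable f)
    (hF : Integrable (𝓕 f)) {s : ℂ} (hs : s.re = (d : ℝ) / 2) :
    cA s * ∫ x, 𝓕 f x * kx s x = cA (d - s) * ∫ x, f x * kx (d - s) x := by
  have hd' : (0 : ℝ) < d := by exact_mod_cast hd
  have hs0 : 0 < s.re := by rw [hs]; positivity
  have hsd : s.re < d := by rw [hs]; linarith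
  have j1 : Integrable (fun p : (EuclideanSpace ℝ (Fin d)) × ℝ => 𝓕 f p.1 * k1 s ‖p.1‖ p.2)
      ((volume : Measure (EuclideanSpace ℝ (Fin d))).prod (volume.restrict (Set.Ioi (0 : ℝ)))) := by
    refine joint hd hF (fourier_bound f) (meas_k1 s)
      (c := (1 / Real.pi) ^ (s.re / 2) * Real.Gamma (s.re / 2)) (by positivity) fun r hr => ?_
    rw [int_norm_k1 hs0 hr, hs]
  have j2 : Integrable (fun p : (EuclideanSpace ℝ (Fin d)) × ℝ => f p.1 * k2 d s ‖p.1‖ p.2)
      ((volume : Measure (EuclideanSpace ℝ (Fin d))).prod (volume.restrict (Set.Ioi (0 : ℝ)))) := by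
    refine joint hd hf (bound_of_fourier hc hf hF) (meas_k2 d s)
      (c := (1 / Real.pi) ^ ((d - s.re) / 2) * Real.Gamma ((d - s.re) / 2)) (by
        have : 0 < (d - s.re) / 2 := by linarith
        positivity) fun r hr => ?_
    rw [int_norm_k2 d hsd hr]
    congr 2
    rw [hs]
    ring
  calc cA s * ∫ x, 𝓕 f x * kx s x
      = ∫ x : (EuclideanSpace ℝ (Fin d)), ∫ α in Set.Ioi (0 : ℝ), 𝓕 f x * k1 s ‖x‖ α := by
        rw [← integral_const_mul]
        refine integral_congr_ae ?_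
        filter_upwards [ae_ne hd] with x hx
        rw [integral_const_mul, int_k1 hs0 (norm_pos_iff.2 hx)]
        unfold kx
        ring
    _ = ∫ α in Set.Ioi (0 : ℝ), ∫ x : (EuclideanSpace ℝ (Fin d)), 𝓕 f x * k1 s ‖x‖ α := integral_integral_swap j1
    _ = ∫ α in Set.Ioi (0 : ℝ), ∫ x : (EuclideanSpace ℝ (Fin d)), f x * k2 d s ‖x‖ α := by
        refine setIntegral_congr_fun measurableSet_Ioi fun α (hα : 0 < α) => ?_
        have hα0 : (α : ℂ) ≠ 0 := by exact_mod_cast hα.ne'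
        have h1 : ∀ x : (EuclideanSpace ℝ (Fin d)), 𝓕 f x * k1 s ‖x‖ α = (α : ℂ) ^ (s / 2 - 1) *
            (𝓕 f x * Complex.exp (-((Real.pi * ‖x‖ ^ 2 : ℝ) * (α : ℂ)))) := by
          intro x
          unfold k1
          ring
        have h2 : ∀ x : (EuclideanSpace ℝ (Fin d)), f x * k2 d s ‖x‖ α = (α : ℂ) ^ (s / 2 - 1) *
            (f x * ((α : ℂ) ^ (-((d : ℂ) / 2)) *
              Complex.exp (-((Real.pi * ‖x‖ ^ 2 : ℝ) / (α : ℂ))))) := by
          intro x
          unfold k2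
          rw [sub_eq_add_neg (s / 2 - 1) ((d : ℂ) / 2), Complex.cpow_add _ _ hα0]
          ring
        simp_rw [h1, h2]
        rw [integral_const_mul, integral_const_mul, gauss hf hα]
    _ = ∫ x : (EuclideanSpace ℝ (Fin d)), ∫ α in Set.Ioi (0 : ℝ), f x * k2 d s ‖x‖ α :=
        (integral_integral_swap j2).symm
    _ = cA (d - s) * ∫ x, f x * kx (d - s) x := by
        rw [← integral_const_mul]
        refine integral_congr_ae ?_
        filter_upwards [ae_ne hd] with x hx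
        rw [integral_const_mul, int_k2 d hsd (norm_pos_iff.2 hx)]
        unfold kx
        ring

/-! ### The function `vK` -/

/-- the points of the critical line -/
noncomputable def st (d : ℕ) (t : ℝ) : ℂ := (d : ℂ) / 2 + t * Complex.I

theorem st_re (t : ℝ) : (st d t).re = (d : ℝ) / 2 := by
  unfold st
  simp

theorem st_neg (t : ℝ) : (d : ℂ) - st d t = st d (-t) := by
  unfold st
  push_cast
  ring

/-- the weight -/
noncomputable def wt (d : ℕ) (Kf : ℂ → ℂ) (t : ℝ) : ℂ := 1 / 2 * cA (st d t) * Kf (st d t)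

theorem vK_eq (Kf : ℂ → ℂ) (x : (EuclideanSpace ℝ (Fin d))) :
    vK d Kf x = 1 / (2 * Real.pi) * ∫ t : ℝ, wt d Kf t * kx (st d t) x := by
  unfold vK wt cA kx st
  congr 1
  refine integral_congr_ae (Eventually.of_forall fun t => ?_)
  simp only
  ring

theorem wt_int {Kf : ℂ → ℂ} (hi : Integrable (fun t : ℝ =>
    Complex.Gamma (((d : ℂ) / 2 + t * Complex.I) / 2) * Kf ((d : ℂ) / 2 + t * Complex.I))) :
    Integrable (wt d Kf) := by
  have h1 : ∀ t : ℝ, wt d Kf t = (1 / 2 * Complex.exp (-(st d t / 2) * (Real.log Real.pi : ℝ))) *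
      (Complex.Gamma (((d : ℂ) / 2 + t * Complex.I) / 2) * Kf ((d : ℂ) / 2 + t * Complex.I)) := by
    intro t
    unfold wt cA st
    ring
  have hcont : Continuous (fun t : ℝ =>
      (1 / 2 * Complex.exp (-(st d t / 2) * (Real.log Real.pi : ℝ)) : ℂ)) := by
    unfold st
    fun_prop
  have h2 : Integrable (fun t : ℝ =>
      (1 / 2 * Complex.exp (-(st d t / 2) * (Real.log Real.pi : ℝ))) *
      (Complex.Gamma (((d : ℂ) / 2 + t * Complex.I) / 2) * Kf ((d : ℂ) / 2 + t * Complex.I))) := by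
    refine (hi.norm.const_mul (1 / 2 * Real.exp (-((d : ℝ) / 4) * Real.log Real.pi))).mono'
      (hcont.aestronglyMeasurable.mul hi.aestronglyMeasurable) (Eventually.of_forall fun t => ?_)
    rw [norm_mul, norm_mul, Complex.norm_exp]
    have h3 : (-(st d t / 2) * ((Real.log Real.pi : ℝ) : ℂ)).re = -((d : ℝ) / 4) * Real.log Real.pi := by
      rw [Complex.re_mul_ofReal, Complex.neg_re]
      have : (st d t / 2).re = (st d t).re / 2 := by simp
      rw [this, st_re]
      ring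
    rw [h3]
    norm_num
  exact h2.congr (Eventually.of_forall fun t => (h1 t).symm)

theorem kx_meas : Measurable (fun p : (EuclideanSpace ℝ (Fin d)) × ℝ => kx (st d p.2) p.1) := by
  unfold kx st
  have : Measurable (fun p : (EuclideanSpace ℝ (Fin d)) × ℝ => Real.log ‖p.1‖) := (measurable_fst.norm).log
  fun_prop

theorem kx_norm (t : ℝ) {x : (EuclideanSpace ℝ (Fin d))} (hx : x ≠ 0) : ‖kx (st d t) x‖ = ‖x‖ ^ (-((d : ℝ) / 2)) := by
  have hr : 0 < ‖x‖ := norm_pos_iff.2 hx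
  unfold kx
  rw [Complex.norm_exp, Complex.re_mul_ofReal, Complex.neg_re, st_re,
    Real.rpow_def_of_pos hr, mul_comm]

theorem joint2 (hd : 0 < d) {g : (EuclideanSpace ℝ (Fin d)) → ℂ} (hg : Integrable g) {C : ℝ} (hC : ∀ x, ‖g x‖ ≤ C)
    {w : ℝ → ℂ} (hw : Integrable w) :
    Integrable (fun p : (EuclideanSpace ℝ (Fin d)) × ℝ => g p.1 * (w p.2 * kx (st d p.2) p.1))
      ((volume : Measure (EuclideanSpace ℝ (Fin d))).prod (volume : Measure ℝ)) := by
  have h1 : Integrable (fun p : (EuclideanSpace ℝ (Fin d)) × ℝ => (‖g p.1‖ * ‖p.1‖ ^ (-((d : ℝ) / 2))) * ‖w p.2‖)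
      ((volume : Measure (EuclideanSpace ℝ (Fin d))).prod (volume : Measure ℝ)) := (loc hd hg hC).mul_prod hw.norm
  refine h1.mono' ?_ ?_
  · exact hg.aestronglyMeasurable.comp_fst.mul
      (hw.aestronglyMeasurable.comp_snd.mul kx_meas.aestronglyMeasurable)
  · have h2 : ∀ᵐ p ∂((volume : Measure (EuclideanSpace ℝ (Fin d))).prod (volume : Measure ℝ)), p.1 ≠ 0 :=
      (Measure.quasiMeasurePreserving_fst (μ := (volume : Measure (EuclideanSpace ℝ (Fin d))))
        (ν := (volume : Measure ℝ))).ae (ae_ne hd)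
    filter_upwards [h2] with p hp
    rw [norm_mul, norm_mul, kx_norm _ hp]
    apply le_of_eq
    ring

theorem pair (hd : 0 < d) {g : (EuclideanSpace ℝ (Fin d)) → ℂ} (hg : Integrable g) {C : ℝ} (hC : ∀ x, ‖g x‖ ≤ C)
    {Kf : ℂ → ℂ} (hw : Integrable (wt d Kf)) :
    ∫ x, g x * vK d Kf x = 1 / (2 * Real.pi) *
      ∫ t : ℝ, wt d Kf t * ∫ x, g x * kx (st d t) x := by
  calc ∫ x, g x * vK d Kf x
      = ∫ x, 1 / (2 * Real.pi) * ∫ t : ℝ, g x * (wt d Kf t * kx (st d t) x) := by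
        refine integral_congr_ae (Eventually.of_forall fun x => ?_)
        simp only
        rw [vK_eq, integral_const_mul]
        ring
    _ = 1 / (2 * Real.pi) * ∫ x, ∫ t : ℝ, g x * (wt d Kf t * kx (st d t) x) :=
        integral_const_mul _ _
    _ = 1 / (2 * Real.pi) * ∫ t : ℝ, ∫ x, g x * (wt d Kf t * kx (st d t) x) := by
        congr 1
        exact integral_integral_swap (joint2 hd hg hC hw)
    _ = _ := by
        congr 1
        refine integral_congr_ae (Eventually.of_forall fun t => ?_)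
        simp only
        rw [← integral_const_mul]
        refine integral_congr_ae (Eventually.of_forall fun x => ?_)
        simp only
        ring

end space

theorem dual : S_dual := by
  intro d hd Kf hK hsym hi
  have hw := wt_int (d := d) hi
  constructor
  · have h1 : AEStronglyMeasurable (fun x : EuclideanSpace ℝ (Fin d) =>
        ∫ t : ℝ, wt d Kf t * kx (st d t) x) volume := by
      have h2 : AEStronglyMeasurable (fun p : EuclideanSpace ℝ (Fin d) × ℝ =>
          wt d Kf p.2 * kx (st d p.2) p.1)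
          ((volume : Measure (EuclideanSpace ℝ (Fin d))).prod (volume : Measure ℝ)) :=
        hw.aestronglyMeasurable.comp_snd.mul kx_meas.aestronglyMeasurable
      exact h2.integral_prod_right'
    have h3 : vK d Kf = fun x : EuclideanSpace ℝ (Fin d) =>
        1 / (2 * Real.pi) * ∫ t : ℝ, wt d Kf t * kx (st d t) x := by
      ext x
      exact vK_eq Kf x
    rw [h3]
    exact h1.const_mul _
  · intro f hc hf hF
    rw [pair hd hF (fourier_bound f) hw, pair hd hf (bound_of_fourier hc hf hF) hw]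
    congr 1
    rw [← integral_neg_eq_self (fun t : ℝ => wt d Kf t *
      ∫ x : EuclideanSpace ℝ (Fin d), f x * kx (st d t) x)]
    refine integral_congr_ae (Eventually.of_forall fun t => ?_)
    simp only
    have h1 := func_eq hd hc hf hF (st_re (d := d) t)
    rw [st_neg] at h1
    have h2 : Kf (st d (-t)) = Kf (st d t) := by
      rw [← st_neg, hsym]
    unfold wt
    rw [h2]
    calc 1 / 2 * cA (st d t) * Kf (st d t) * ∫ x : EuclideanSpace ℝ (Fin d), 𝓕 f x * kx (st d t) x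
        = 1 / 2 * Kf (st d t) *
          (cA (st d t) * ∫ x : EuclideanSpace ℝ (Fin d), 𝓕 f x * kx (st d t) x) := by ring
      _ = _ := by
        rw [h1]
        ring

end Pool.Agent.TH41.LP.DUALf
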