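import Mathlib
import Pool.Agent.TH41.LP.Stm

set_option autoImplicit false

open MeasureTheory Filter Topology

namespace Pool.Agent.TH41.LP.EEf

open Pool.Agent.TH41.LP

theorem norm_cosh_le (z : ℂ) : ‖Complex.cosh z‖ ≤ Real.cosh z.re := by
  have h : Complex.cosh z = (Complex.exp z + Complex.exp (-z)) / 2 := by
    rw [Complex.cosh]
  rw [h, Real.cosh_eq, norm_div]
  have h2 : ‖(2 : ℂ)‖ = 2 := by norm_num
  rw [h2]
  have h3 := norm_add_le (Complex.exp z) (Complex.exp (-z))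
  rw [Complex.norm_exp, Complex.norm_exp, Complex.neg_re] at h3
  linarith

theorem ee_of (hc : S_csh) (hr : S_root) (hpp : S_pp) : S_ee := by
  intro F D hD
  have h1 : Differentiable ℂ (EE F D) := by
    have h : ∀ i ∈ (Finset.univ : Finset F.ι), Differentiable ℂ
        (fun s : ℂ => Csh ((F.κ i : ℂ) ^ 2 * (s ^ 2 + ((F.c i * D : ℝ) : ℂ) ^ 2))) := by
      intro i _
      exact hc.1.comp (((differentiable_id.pow 2).add_const _).const_mul _)
    have h' := Differentiable.fun_finsetProd h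
    exact h'
  have h2 : ∀ s : ℂ, EE F D (-s) = EE F D s := by
    intro s
    unfold EE
    simp only [neg_sq]
  have h3 : ∀ σ t : ℝ, σ ≠ 0 → EE F D (σ + t * Complex.I) =
      ∏ i, Complex.cosh ((F.κ i : ℂ) * (((pp (F.c i * D) |σ| t : ℝ) : ℂ) +
      ((σ * t / pp (F.c i * D) |σ| t : ℝ) : ℂ) * Complex.I)) := by
    intro σ t hσ
    unfold EE
    refine Finset.prod_congr rfl fun i _ => ?_
    have h := (hr (F.c i * D) σ t (mul_pos (F.c_pos i) hD) hσ).2
    rw [← h, ← mul_pow, hc.2]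
  have h4 : ∀ σ : ℝ, EE F D σ =
      ((∏ i, Real.cosh (F.κ i * √(σ ^ 2 + (F.c i * D) ^ 2)) : ℝ) : ℂ) := by
    intro σ
    unfold EE
    rw [Complex.ofReal_prod]
    refine Finset.prod_congr rfl fun i _ => ?_
    have h : (σ : ℂ) ^ 2 + ((F.c i * D : ℝ) : ℂ) ^ 2 =
        ((√(σ ^ 2 + (F.c i * D) ^ 2) : ℝ) : ℂ) ^ 2 := by
      rw [← Complex.ofReal_pow (√(σ ^ 2 + (F.c i * D) ^ 2)), Real.sq_sqrt (by positivity)]
      push_cast
      ring
    rw [h, ← mul_pow, hc.2, ← Complex.ofReal_mul, Complex.ofReal_cosh]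
  have h5 : ∀ σ t : ℝ, σ ≠ 0 → ‖EE F D (σ + t * Complex.I)‖ ≤
      ∏ i, Real.cosh (F.κ i * √(σ ^ 2 + (F.c i * D) ^ 2)) := by
    intro σ t hσ
    rw [h3 σ t hσ, norm_prod]
    refine Finset.prod_le_prod (fun i _ => norm_nonneg _) fun i _ => ?_
    refine (norm_cosh_le _).trans ?_
    have hx : 0 < |σ| := abs_pos.2 hσ
    obtain ⟨g1, g2, -⟩ := hpp.1 (F.c i * D) |σ| t (mul_pos (F.c_pos i) hD) hx
    rw [sq_abs] at g2
    have g3 : ((F.κ i : ℂ) * (((pp (F.c i * D) |σ| t : ℝ) : ℂ) +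
        ((σ * t / pp (F.c i * D) |σ| t : ℝ) : ℂ) * Complex.I)).re =
        F.κ i * pp (F.c i * D) |σ| t := by
      rw [Complex.re_ofReal_mul, Complex.add_re, Complex.ofReal_re, Complex.re_ofReal_mul,
        Complex.I_re, mul_zero, add_zero]
    rw [g3]
    have hk := F.κ_pos i
    have g4 : 0 ≤ F.κ i * pp (F.c i * D) |σ| t := mul_nonneg hk.le (hx.le.trans g1)
    have g5 := mul_le_mul_of_nonneg_left g2 hk.le
    rw [Real.cosh_le_cosh, abs_of_nonneg g4, abs_of_nonneg (g4.trans g5)]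
    exact g5
  refine ⟨h1, h2, h3, h4, ?_⟩
  intro σ t
  have hcl : IsClosed {σ : ℝ | ‖EE F D (σ + t * Complex.I)‖ ≤
      ∏ i, Real.cosh (F.κ i * √(σ ^ 2 + (F.c i * D) ^ 2))} := by
    refine isClosed_le ?_ ?_
    · refine (h1.continuous.comp ?_).norm
      fun_prop
    · refine continuous_finsetProd _ fun i _ => ?_
      refine Real.continuous_cosh.comp ?_
      fun_prop
  have hd : Dense ({0}ᶜ : Set ℝ) := dense_compl_singleton 0
  have hsub : ({0}ᶜ : Set ℝ) ⊆ {σ : ℝ | ‖EE F D (σ + t * Complex.I)‖ ≤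
      ∏ i, Real.cosh (F.κ i * √(σ ^ 2 + (F.c i * D) ^ 2))} := fun σ hσ => h5 σ t hσ
  have := hcl.closure_subset_iff.2 hsub
  exact this (hd σ)

end Pool.Agent.TH41.LP.EEf
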