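import Mathlib
import Pool.Agent.TH41.LP.Stm

set_option autoImplicit false

open MeasureTheory Filter Topology
open scoped FourierTransform

namespace Pool.Agent.TH41.LP.FINf

open Pool.Agent.TH41.LP

variable {d : ℕ}

lemma fourier_scale (f : EuclideanSpace ℝ (Fin d) → ℂ) {R : ℝ} (hR : 0 < R)
    (w : EuclideanSpace ℝ (Fin d)) :
    𝓕 (fun x => f (R⁻¹ • x)) w = ((R ^ d : ℝ) : ℂ) * 𝓕 f (R • w) := by
  rw [Real.fourier_eq', Real.fourier_eq']
  have h := Measure.integral_comp_inv_smul_of_nonneg volume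
    (fun x : EuclideanSpace ℝ (Fin d) =>
      Complex.exp (↑(-2 * Real.pi * (inner ℝ x (R • w))) * Complex.I) • f x) hR.le
  rw [finrank_euclideanSpace, Fintype.card_fin] at h
  rw [← Complex.real_smul, ← h]
  refine integral_congr_ae (Eventually.of_forall fun x => ?_)
  simp only
  congr 4
  rw [real_inner_smul_left, real_inner_smul_right]
  field_simp

/-- the core inequality -/
lemma core (hd : 0 < d) {R : ℝ} (hR : 0 < R) (hR2 : R < √d / Real.pi)
    (hvolB : (volume (Metric.ball (0 : EuclideanSpace ℝ (Fin d)) (√d / Real.pi))).toReal ≤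
      Real.exp d)
    (v : EuclideanSpace ℝ (Fin d) → ℝ) (hvm : AEStronglyMeasurable v volume)
    (hv : ∀ f : EuclideanSpace ℝ (Fin d) → ℂ, Continuous f → Integrable f → Integrable (𝓕 f) →
      (∀ x, (f x).im = 0) → (∀ x, (𝓕 f x).im = 0) →
      ∫ x, (𝓕 f x).re * v x = ∫ x, (f x).re * v x)
    (hvb : ∃ M : ℝ, ∀ x, x ≠ 0 → |v x| ≤ M)
    (hv1 : ∀ x, x ≠ 0 → R ≤ ‖x‖ → v x ≤ 1)
    (hv2 : ∀ x, x ≠ 0 → ‖x‖ ≤ R → |1 - v x| ≤ Real.exp (-(d : ℝ)))
    (f : EuclideanSpace ℝ (Fin d) → ℂ) (hfc : Continuous f) (hfi : Integrable f)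
    (hFi : Integrable (𝓕 f)) (hf0 : ∀ x, (f x).im = 0) (hF0 : ∀ x, (𝓕 f x).im = 0)
    (hFp : ∀ x, 0 ≤ (𝓕 f x).re) (hfn : ∀ x, 1 ≤ ‖x‖ → (f x).re ≤ 0) :
    R ^ d * (𝓕 f 0).re ≤ 3 * (f 0).re := by
  have : Nonempty (Fin d) := ⟨⟨0, hd⟩⟩
  have : Nontrivial (EuclideanSpace ℝ (Fin d)) := by
    refine ⟨⟨0, EuclideanSpace.single ⟨0, hd⟩ 1, ?_⟩⟩
    intro h
    have := congrArg (fun x : EuclideanSpace ℝ (Fin d) => x ⟨0, hd⟩) h
    simp at this
  set g : EuclideanSpace ℝ (Fin d) → ℂ := fun x => f (R⁻¹ • x) with hg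
  have hRd : (0:ℝ) < R ^ d := by positivity
  have hgc : Continuous g := hfc.comp (continuous_const_smul _)
  have hgi : Integrable g := hfi.comp_smul (inv_ne_zero hR.ne')
  have hFg : 𝓕 g = fun w => ((R ^ d : ℝ) : ℂ) * 𝓕 f (R • w) := by
    funext w; exact fourier_scale f hR w
  have hFgi : Integrable (𝓕 g) := by
    rw [hFg]
    exact (hFi.comp_smul hR.ne').const_mul _
  have hgim : ∀ x, (g x).im = 0 := fun x => hf0 _
  have hFgre : ∀ w, (𝓕 g w).re = R ^ d * (𝓕 f (R • w)).re := by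
    intro w; rw [hFg]; simp only [Complex.re_ofReal_mul]
  have hFgim : ∀ w, (𝓕 g w).im = 0 := by
    intro w; rw [hFg]; simp only [Complex.im_ofReal_mul, hF0, mul_zero]
  have hFgp : ∀ w, 0 ≤ (𝓕 g w).re := by
    intro w; rw [hFgre]; exact mul_nonneg hRd.le (hFp _)
  have hgn : ∀ x, R ≤ ‖x‖ → (g x).re ≤ 0 := by
    intro x hx
    refine hfn _ ?_
    rw [norm_smul, norm_inv, Real.norm_eq_abs, abs_of_pos hR, ← div_eq_inv_mul,
      one_le_div hR]
    exact hx
  have hI := hv g hgc hgi hFgi hgim hFgim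
  -- inversion
  have hinv : 𝓕⁻ (𝓕 g) = g := hgc.fourierInv_fourier_eq hgi hFgi
  have hg0 : (g 0).re = ∫ w, (𝓕 g w).re := by
    have h1 : g 0 = ∫ w, 𝓕 g w := by
      conv_lhs => rw [← hinv]
      rw [Real.fourierInv_eq']
      refine integral_congr_ae (Eventually.of_forall fun x => ?_)
      simp
    rw [h1]
    exact (integral_re hFgi).symm
  have hnormF : ∀ w, ‖𝓕 g w‖ = (𝓕 g w).re := by
    intro w
    have h1 : 𝓕 g w = (((𝓕 g w).re : ℝ) : ℂ) := by
      apply Complex.ext
      · simp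
      · simp [hFgim w]
    conv_lhs => rw [h1]
    rw [Complex.norm_real, Real.norm_eq_abs, abs_of_nonneg (hFgp w)]
  have hgle : ∀ x, |(g x).re| ≤ (g 0).re := by
    intro x
    calc |(g x).re| ≤ ‖g x‖ := Complex.abs_re_le_norm _
      _ = ‖𝓕⁻ (𝓕 g) x‖ := by rw [hinv]
      _ ≤ ∫ w, ‖𝓕 g w‖ := by
          rw [Real.fourierInv_eq']
          refine (norm_integral_le_integral_norm _).trans (le_of_eq ?_)
          refine integral_congr_ae (Eventually.of_forall fun w => ?_)
          simp only [norm_smul, Complex.norm_exp_ofReal_mul_I, one_mul]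
      _ = (g 0).re := by rw [hg0]; simp_rw [hnormF]
  have hg00 : 0 ≤ (g 0).re := (abs_nonneg _).trans (hgle 0)
  -- almost everywhere nonzero
  have hne : ∀ᵐ x : EuclideanSpace ℝ (Fin d), x ≠ 0 := by
    have : volume ({0} : Set (EuclideanSpace ℝ (Fin d))) = 0 := measure_singleton 0
    exact measure_eq_zero_iff_ae_notMem.1 this
  obtain ⟨M, hM⟩ := hvb
  have hvbd : ∀ᵐ x : EuclideanSpace ℝ (Fin d), ‖v x‖ ≤ M := by
    filter_upwards [hne] with x hx
    exact hM x hx
  have hFgi' : Integrable (fun w => (𝓕 g w).re) := hFgi.re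
  have hgi' : Integrable (fun w => (g w).re) := hgi.re
  have hi1 : Integrable (fun x => (𝓕 g x).re * v x) := hFgi'.mul_bdd hvm hvbd
  have hi2 : Integrable (fun x => (g x).re * v x) := hgi'.mul_bdd hvm hvbd
  -- upper bound
  have hup : ∫ x, (𝓕 g x).re * v x ≤ 2 * (g 0).re := by
    rw [hg0, ← integral_const_mul]
    refine integral_mono_ae hi1 (hFgi'.const_mul 2) ?_
    filter_upwards [hne] with x hx
    have h1 : v x ≤ 2 := by
      rcases le_total R ‖x‖ with h | h
      · linarith [hv1 x hx h]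
      · have h2 := hv2 x hx h
        have h3 : Real.exp (-(d : ℝ)) ≤ 1 := Real.exp_le_one_iff.2 (by simp)
        have := abs_le.1 (h2.trans h3)
        linarith
    rw [mul_comm 2]
    exact mul_le_mul_of_nonneg_left h1 (hFgp x)
  -- lower bound
  set B : Set (EuclideanSpace ℝ (Fin d)) := Metric.closedBall 0 R with hB
  have hBm : MeasurableSet B := Metric.isClosed_closedBall.measurableSet
  have hBfin : volume B ≠ ⊤ := (isCompact_closedBall _ _).measure_lt_top.ne
  have hBvol : (volume B).toReal ≤ Real.exp d := by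
    refine le_trans (ENNReal.toReal_mono ?_ (measure_mono ?_)) hvolB
    · exact measure_ball_lt_top.ne
    · exact Metric.closedBall_subset_ball hR2
  have hlow : (𝓕 g 0).re - (g 0).re ≤ ∫ x, (g x).re * v x := by
    have h1 : (𝓕 g 0).re = ∫ x, (g x).re := by
      have h2 : 𝓕 g 0 = ∫ x, g x := by
        rw [Real.fourier_eq']
        refine integral_congr_ae (Eventually.of_forall fun x => ?_)
        simp
      rw [h2]
      exact (integral_re hgi).symm
    have hci : Integrable (B.indicator fun _ => (g 0).re * Real.exp (-(d : ℝ))) := by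
      rw [integrable_indicator_iff hBm]
      exact integrableOn_const hBfin
    have h3 : ∫ x, ((g x).re - B.indicator (fun _ => (g 0).re * Real.exp (-(d : ℝ))) x) ≤
        ∫ x, (g x).re * v x := by
      refine integral_mono_ae (hgi'.sub hci) hi2 ?_
      filter_upwards [hne] with x hx
      by_cases hxB : x ∈ B
      · rw [Set.indicator_of_mem hxB]
        have hxR : ‖x‖ ≤ R := by simpa [hB] using hxB
        have h4 := hv2 x hx hxR
        have h5 : |(g x).re * (1 - v x)| ≤ (g 0).re * Real.exp (-(d : ℝ)) := by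
          rw [abs_mul]
          exact mul_le_mul (hgle x) h4 (abs_nonneg _) hg00
        have := (abs_le.1 h5).2
        nlinarith
      · rw [Set.indicator_of_notMem hxB, sub_zero]
        have hxR : R ≤ ‖x‖ := by
          by_contra hcon
          exact hxB (by simpa [hB] using (not_le.1 hcon).le)
        have h4 := hv1 x hx hxR
        have h5 := hgn x hxR
        nlinarith
    rw [integral_sub hgi' hci, integral_indicator_const _ hBm, ← h1, smul_eq_mul] at h3
    have h6 : volume.real B * ((g 0).re * Real.exp (-(d : ℝ))) ≤ (g 0).re := by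
      calc volume.real B * ((g 0).re * Real.exp (-(d : ℝ)))
          ≤ Real.exp d * ((g 0).re * Real.exp (-(d : ℝ))) := by
            refine mul_le_mul_of_nonneg_right hBvol ?_
            positivity
        _ = (g 0).re * (Real.exp d * Real.exp (-(d : ℝ))) := by ring
        _ = (g 0).re := by rw [← Real.exp_add]; simp
    linarith
  have hfin : (𝓕 g 0).re ≤ 3 * (g 0).re := by linarith
  rw [hFgre, smul_zero] at hfin
  have : g 0 = f 0 := by simp [hg]
  rwa [this] at hfin

theorem main_of (hv : S_vv) (hvol : S_vol) : S_main := by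
  intro ε hε
  set ε1 : ℝ := min (ε / 2) 1 with hε1
  have hε10 : 0 < ε1 := lt_min (by linarith) one_pos
  obtain ⟨d1, H1⟩ := hv ε1 hε10 (min_le_right _ _)
  obtain ⟨hvol1, d3, H3⟩ := hvol
  obtain ⟨d2, H2⟩ := hvol1 (ε / 4) (by linarith)
  obtain ⟨d4, hd4⟩ := exists_nat_ge (8 / ε)
  refine ⟨max (max (max d1 d2) (max d3 d4)) 1, ?_⟩
  intro d hd f hfc hfi hFi hf0 hF0 hFp hfn
  have hd1 : d1 ≤ d := le_trans (by simp) hd
  have hd2 : d2 ≤ d := le_trans (by simp) hd
  have hd3 : d3 ≤ d := le_trans (by simp) hd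
  have hd4' : d4 ≤ d := le_trans (by simp) hd
  have hdpos : 0 < d := lt_of_lt_of_le one_pos (le_trans (by simp) hd)
  have hdr : (0:ℝ) < d := by exact_mod_cast hdpos
  obtain ⟨v, hvm, hvf, hvb, hv1, hv2⟩ := H1 d hd1
  have hr0 : 0 < √d / Real.pi := by positivity
  have hR : 0 < √d / Real.pi * Real.exp (-ε1) := by positivity
  have hR2 : √d / Real.pi * Real.exp (-ε1) < √d / Real.pi := by
    have : Real.exp (-ε1) < 1 := by
      have h0 := Real.exp_lt_exp.2 (show -ε1 < 0 by linarith)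
      rwa [Real.exp_zero] at h0
    nlinarith
  have hcore := core hdpos hR hR2 (H3 d hd3) v hvm hvf hvb hv1 hv2 f hfc hfi hFi hf0 hF0 hFp hfn
  have hv' := H2 d hd2
  set Vb := (volume (Metric.ball (0 : EuclideanSpace ℝ (Fin d)) (1 / 2))).toReal with hVb
  have hVb0 : 0 ≤ Vb := ENNReal.toReal_nonneg
  have hF0' := hFp 0
  set F0 := (𝓕 f 0).re
  set f0 := (f 0).re
  set E := (Real.exp 1 / (2 * Real.pi)) ^ ((d : ℝ) / 2) with hE
  have hE0 : 0 < E := by positivity
  have h1 : E * Real.exp (-(ε / 4) * d) * (Real.exp (-ε1) ^ d * F0) ≤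
      (√d / Real.pi) ^ d * Vb * (Real.exp (-ε1) ^ d * F0) :=
    mul_le_mul_of_nonneg_right hv' (by positivity)
  have h2 : (√d / Real.pi) ^ d * Vb * (Real.exp (-ε1) ^ d * F0) ≤ Vb * (3 * f0) := by
    have : (√d / Real.pi) ^ d * Vb * (Real.exp (-ε1) ^ d * F0) =
        Vb * ((√d / Real.pi * Real.exp (-ε1)) ^ d * F0) := by
      rw [mul_pow]; ring
    rw [this]
    exact mul_le_mul_of_nonneg_left hcore hVb0
  have h3 : 3 ≤ Real.exp ((ε - ε / 4 - ε1) * d) := by
    have h4 : (2:ℝ) ≤ (ε - ε / 4 - ε1) * d := by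
      have h5 : ε1 ≤ ε / 2 := min_le_left _ _
      have h6 : 8 / ε ≤ d := hd4.trans (by exact_mod_cast hd4')
      have h7 : 8 ≤ d * ε := by rwa [div_le_iff₀ hε] at h6
      have h8 : ε / 4 * d ≤ (ε - ε / 4 - ε1) * d := by
        apply mul_le_mul_of_nonneg_right _ hdr.le
        linarith
      linarith
    have h5 : (3:ℝ) ≤ Real.exp 2 := by
      have := Real.add_one_le_exp (2:ℝ)
      linarith
    exact h5.trans (Real.exp_le_exp.2 h4)
  have h4 : 3 * (E * Real.exp (-ε * d) * F0) ≤ E * Real.exp (-(ε / 4) * d) * (Real.exp (-ε1) ^ d * F0) := by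
    have e1 : E * Real.exp (-(ε / 4) * d) * (Real.exp (-ε1) ^ d * F0) =
        Real.exp ((ε - ε / 4 - ε1) * d) * (E * Real.exp (-ε * d) * F0) := by
      have : Real.exp (-(ε / 4) * d) * Real.exp (-ε1) ^ d =
          Real.exp ((ε - ε / 4 - ε1) * d) * Real.exp (-ε * d) := by
        rw [← Real.exp_nat_mul, ← Real.exp_add, ← Real.exp_add]
        congr 1
        ring
      calc E * Real.exp (-(ε / 4) * d) * (Real.exp (-ε1) ^ d * F0)
          = E * F0 * (Real.exp (-(ε / 4) * d) * Real.exp (-ε1) ^ d) := by ring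
        _ = _ := by rw [this]; ring
    rw [e1]
    exact mul_le_mul_of_nonneg_right h3 (by positivity)
  linarith

end Pool.Agent.TH41.LP.FINf
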