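import Mathlib
import Pool.Agent.TH41.LP.Stm

set_option autoImplicit false

open MeasureTheory Filter Topology

namespace Pool.Agent.TH41.LP.GAMf

open Pool.Agent.TH41.LP

theorem f_anti {y a b : ℝ} (ha : 0 < a) (hab : a ≤ b) :
    1 / 2 * Real.log (1 + y ^ 2 / b ^ 2) ≤ 1 / 2 * Real.log (1 + y ^ 2 / a ^ 2) := by
  have h : Real.log (1 + y ^ 2 / b ^ 2) ≤ Real.log (1 + y ^ 2 / a ^ 2) := by
    apply Real.log_le_log (by positivity)
    gcongr
  linarith

theorem f_nonneg (y a : ℝ) : 0 ≤ 1 / 2 * Real.log (1 + y ^ 2 / a ^ 2) := by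
  have : 0 ≤ Real.log (1 + y ^ 2 / a ^ 2) := Real.log_nonneg (by
    have : 0 ≤ y ^ 2 / a ^ 2 := by positivity
    linarith)
  positivity

theorem gl_deriv (y : ℝ) {u : ℝ} (hu : 0 < u) :
    HasDerivAt (fun u => gl u y) (-(1 / 2 * Real.log (1 + y ^ 2 / u ^ 2))) u := by
  unfold gl
  have h1 : HasDerivAt (fun u : ℝ => y / u) (-y / u ^ 2) u := by
    refine HasDerivAt.congr_deriv ((hasDerivAt_const u y).div (hasDerivAt_id' u) hu.ne') ?_
    ring
  have h2 := (h1.arctan).const_mul y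
  have h3 : HasDerivAt (fun u : ℝ => 1 + y ^ 2 / u ^ 2) (-(2 * y ^ 2) / u ^ 3) u := by
    refine HasDerivAt.congr_deriv
      (((hasDerivAt_const u (y ^ 2)).div (hasDerivAt_pow 2 u) (by positivity)).const_add 1) ?_
    push_cast
    field_simp
    ring
  have hpos : 1 + y ^ 2 / u ^ 2 ≠ 0 := by positivity
  have h4 := h3.log hpos
  have h5 := ((hasDerivAt_id u).const_mul (1 / 2 : ℝ)).mul h4
  have h6 := h2.sub h5
  refine HasDerivAt.congr_deriv h6 ?_
  have hpos2 : 1 + (y / u) ^ 2 ≠ 0 := by positivity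
  have hpos3 : u ^ 2 + y ^ 2 ≠ 0 := by positivity
  simp only [id]
  field_simp
  ring

theorem gl_step (y : ℝ) {u : ℝ} (hu : 0 < u) :
    1 / 2 * Real.log (1 + y ^ 2 / (u + 1) ^ 2) ≤ gl u y - gl (u + 1) y ∧
      gl u y - gl (u + 1) y ≤ 1 / 2 * Real.log (1 + y ^ 2 / u ^ 2) := by
  obtain ⟨c, hc, hc2⟩ := exists_hasDerivAt_eq_slope (fun u => gl u y)
    (fun u => -(1 / 2 * Real.log (1 + y ^ 2 / u ^ 2))) (show u < u + 1 by linarith)
    (fun x hx => (gl_deriv y (lt_of_lt_of_le hu hx.1)).continuousAt.continuousWithinAt)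
    (fun x hx => gl_deriv y (lt_trans hu hx.1))
  have e : gl u y - gl (u + 1) y = 1 / 2 * Real.log (1 + y ^ 2 / c ^ 2) := by
    have : (u + 1 - u) = 1 := by ring
    rw [this, div_one] at hc2
    linarith
  rw [e]
  exact ⟨f_anti (lt_trans hu hc.1) hc.2.le, f_anti hu hc.1.le⟩

theorem arctan_abs_le (w : ℝ) (hw : 0 ≤ w) : Real.arctan w ≤ w := by
  by_contra h
  push Not at h
  have h2 := Real.arctan_lt_pi_div_two w
  have h3 := Real.lt_tan (lt_of_le_of_lt hw h) h2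
  rw [Real.tan_arctan] at h3
  linarith

theorem yarctan (y : ℝ) {u : ℝ} (hu : 0 < u) : 0 ≤ y * Real.arctan (y / u) ∧
    y * Real.arctan (y / u) ≤ y ^ 2 / u := by
  rcases le_or_gt 0 y with hy | hy
  · have h1 : 0 ≤ y / u := by positivity
    refine ⟨mul_nonneg hy (Real.arctan_nonneg.2 h1), ?_⟩
    have := mul_le_mul_of_nonneg_left (arctan_abs_le _ h1) hy
    calc y * Real.arctan (y / u) ≤ y * (y / u) := this
      _ = y ^ 2 / u := by ring
  · have h1 : 0 ≤ -y / u := by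
      have : 0 < -y := by linarith
      positivity
    have h2 : y * Real.arctan (y / u) = (-y) * Real.arctan (-y / u) := by
      rw [neg_div, Real.arctan_neg]; ring
    rw [h2]
    refine ⟨mul_nonneg (by linarith) (Real.arctan_nonneg.2 h1), ?_⟩
    have := mul_le_mul_of_nonneg_left (arctan_abs_le _ h1) (show 0 ≤ -y by linarith)
    calc (-y) * Real.arctan (-y / u) ≤ (-y) * (-y / u) := this
      _ = y ^ 2 / u := by ring

theorem gl_le (y : ℝ) {u : ℝ} (hu : 0 < u) : gl u y ≤ y ^ 2 / u := by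
  unfold gl
  have h1 := (yarctan y hu).2
  have h2 := f_nonneg y u
  nlinarith

theorem gl_ge (y : ℝ) {u : ℝ} (hu : 0 < u) : -(y ^ 2 / u) ≤ gl u y := by
  unfold gl
  have h1 := (yarctan y hu).1
  have h2 : Real.log (1 + y ^ 2 / u ^ 2) ≤ y ^ 2 / u ^ 2 := by
    have := Real.log_le_sub_one_of_pos (show (0 : ℝ) < 1 + y ^ 2 / u ^ 2 by positivity)
    linarith
  have h3 : 1 / 2 * u * Real.log (1 + y ^ 2 / u ^ 2) ≤ 1 / 2 * u * (y ^ 2 / u ^ 2) := by
    gcongr
  have h4 : 1 / 2 * u * (y ^ 2 / u ^ 2) = 1 / 2 * (y ^ 2 / u) := by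
    field_simp
  have h5 : 0 ≤ y ^ 2 / u := by positivity
  linarith

theorem gl_sum (y : ℝ) {u : ℝ} (hu : 0 < u) (n : ℕ) :
    ∑ j ∈ Finset.range n, 1 / 2 * Real.log (1 + y ^ 2 / (u + 1 + j) ^ 2) ≤
        gl u y - gl (u + n) y ∧
      gl u y - gl (u + n) y ≤ ∑ j ∈ Finset.range n, 1 / 2 * Real.log (1 + y ^ 2 / (u + j) ^ 2) := by
  induction n with
  | zero => simp
  | succ n ih =>
    rw [Finset.sum_range_succ, Finset.sum_range_succ]
    have hpos : 0 < u + n := by positivity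
    obtain ⟨h1, h2⟩ := gl_step y hpos
    have e : u + ((n + 1 : ℕ) : ℝ) = u + n + 1 := by push_cast; ring
    have e2 : u + 1 + (n : ℝ) = u + n + 1 := by ring
    rw [e, e2]
    constructor <;> linarith [ih.1, ih.2]

theorem tendsto_inv_add (y u : ℝ) : Tendsto (fun n : ℕ => y ^ 2 / (u + n)) atTop (𝓝 0) :=
  Tendsto.div_atTop tendsto_const_nhds
    (tendsto_atTop_add_const_left _ _ tendsto_natCast_atTop_atTop)

theorem gl_nonneg (y : ℝ) {u : ℝ} (hu : 0 < u) : 0 ≤ gl u y := by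
  have h1 : ∀ n : ℕ, -(y ^ 2 / (u + n)) ≤ gl u y := by
    intro n
    have h2 := (gl_sum y hu n).1
    have h3 : 0 ≤ ∑ j ∈ Finset.range n, 1 / 2 * Real.log (1 + y ^ 2 / (u + 1 + j) ^ 2) :=
      Finset.sum_nonneg fun j _ => f_nonneg y _
    have h4 := gl_ge y (show 0 < u + n by positivity)
    linarith
  have h2 : Tendsto (fun n : ℕ => -(y ^ 2 / (u + n))) atTop (𝓝 0) := by
    have := (tendsto_inv_add y u).neg
    rwa [neg_zero] at this
  exact le_of_tendsto' h2 h1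

theorem norm_factor {a : ℝ} (ha : 0 < a) (y : ℝ) :
    ‖(a : ℂ) - y * Complex.I‖ / ‖(a : ℂ)‖ =
      Real.exp (1 / 2 * Real.log (1 + y ^ 2 / a ^ 2)) := by
  have h1 : ‖(a : ℂ)‖ = a := by
    rw [Complex.norm_real, Real.norm_eq_abs, abs_of_pos ha]
  have h2 : ‖(a : ℂ) - y * Complex.I‖ = √(a ^ 2 + y ^ 2) := by
    rw [show (a : ℂ) - y * Complex.I = (a : ℂ) + ((-y : ℝ) : ℂ) * Complex.I by push_cast; ring,
      Complex.norm_add_mul_I]
    congr 1; ring
  have hp : (0 : ℝ) < 1 + y ^ 2 / a ^ 2 := by positivity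
  rw [h1, h2, mul_comm, Real.exp_mul, Real.exp_log hp, ← Real.sqrt_eq_rpow]
  rw [div_eq_iff ha.ne', show a ^ 2 + y ^ 2 = (1 + y ^ 2 / a ^ 2) * a ^ 2 by field_simp,
    Real.sqrt_mul hp.le, Real.sqrt_sq ha.le]

theorem seq_norm {X : ℝ} (hX : 0 < X) (y : ℝ) {n : ℕ} (hn : 0 < n) :
    ‖Complex.GammaSeq (X + 1) n / Complex.GammaSeq (X + 1 - y * Complex.I) n‖ =
      Real.exp (∑ j ∈ Finset.range (n + 1), 1 / 2 * Real.log (1 + y ^ 2 / (X + 1 + j) ^ 2)) := by
  unfold Complex.GammaSeq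
  rw [norm_div, norm_div, norm_div, norm_mul, norm_mul, Complex.norm_natCast_cpow_of_pos hn,
    Complex.norm_natCast_cpow_of_pos hn, norm_prod, norm_prod]
  have e1 : ((X : ℂ) + 1 - y * Complex.I).re = ((X : ℂ) + 1).re := by simp
  rw [e1]
  have hA : (n : ℝ) ^ ((X : ℂ) + 1).re * ‖(n.factorial : ℂ)‖ ≠ 0 := by
    have h1 : (0 : ℝ) < (n : ℝ) ^ ((X : ℂ) + 1).re := Real.rpow_pos_of_pos (by exact_mod_cast hn) _
    have h2 : (0 : ℝ) < ‖(n.factorial : ℂ)‖ := by
      rw [norm_pos_iff]; exact_mod_cast n.factorial_ne_zero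
    positivity
  have hB : ∏ j ∈ Finset.range (n + 1), ‖(X : ℂ) + 1 + j‖ ≠ 0 := by
    refine Finset.prod_ne_zero_iff.2 fun j _ => ?_
    rw [norm_ne_zero_iff]
    have : (X : ℂ) + 1 + j = ((X + 1 + j : ℝ) : ℂ) := by push_cast; ring
    rw [this]
    exact_mod_cast (show (X + 1 + j : ℝ) ≠ 0 by positivity)
  have hC : ∏ j ∈ Finset.range (n + 1), ‖(X : ℂ) + 1 - y * Complex.I + j‖ ≠ 0 := by
    refine Finset.prod_ne_zero_iff.2 fun j _ => ?_
    rw [norm_ne_zero_iff]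
    intro h
    have h2 := congrArg Complex.re h
    simp at h2
    have : (0 : ℝ) < X + 1 + j := by positivity
    linarith
  rw [div_div_div_eq, mul_comm (∏ j ∈ Finset.range (n + 1), ‖(X : ℂ) + 1 + j‖) _,
    mul_div_mul_left _ _ hA, ← Finset.prod_div_distrib, Real.exp_sum]
  refine Finset.prod_congr rfl fun j _ => ?_
  have := norm_factor (show (0 : ℝ) < X + 1 + j by positivity) y
  rw [← this]
  push_cast
  congr 2
  ring

theorem gam : S_gam := by
  intro X y hX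
  have hG : Tendsto (fun n => ‖Complex.GammaSeq (X + 1) n /
      Complex.GammaSeq (X + 1 - y * Complex.I) n‖) atTop
      (𝓝 ‖Complex.Gamma (X + 1) / Complex.Gamma (X + 1 - y * Complex.I)‖) := by
    refine ((Complex.GammaSeq_tendsto_Gamma _).div (Complex.GammaSeq_tendsto_Gamma _) ?_).norm
    refine Complex.Gamma_ne_zero_of_re_pos ?_
    simp
    linarith
  constructor
  · refine le_of_tendsto hG ?_
    filter_upwards [eventually_gt_atTop 0] with n hn
    rw [seq_norm hX y hn]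
    refine Real.exp_le_exp.2 ?_
    have h1 := (gl_sum y hX (n + 1)).1
    have h2 := gl_nonneg y (show 0 < X + ((n + 1 : ℕ) : ℝ) by positivity)
    linarith
  · have h3 : Tendsto (fun n : ℕ => Real.exp (gl X y - 1 / 2 * Real.log (1 + y ^ 2 / X ^ 2) -
        y ^ 2 / ((X + 2) + n))) atTop
        (𝓝 (Real.exp (gl X y - 1 / 2 * Real.log (1 + y ^ 2 / X ^ 2) - 0))) :=
      (Real.continuous_exp.tendsto _).comp
        (tendsto_const_nhds.sub (tendsto_inv_add y (X + 2)))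
    rw [sub_zero] at h3
    refine le_of_tendsto_of_tendsto h3 hG ?_
    filter_upwards [eventually_gt_atTop 0] with n hn
    rw [seq_norm hX y hn]
    refine Real.exp_le_exp.2 ?_
    have hX1 : 0 < X + 1 := by linarith
    have h1 := (gl_sum y hX1 (n + 1)).2
    have h2 := (gl_step y hX).2
    have h4 := gl_le y (show 0 < X + 2 + (n : ℝ) by positivity)
    have e : X + 1 + ((n + 1 : ℕ) : ℝ) = X + 2 + n := by push_cast; ring
    rw [e] at h1
    linarith

end Pool.Agent.TH41.LP.GAMf
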