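import Mathlib
import Pool.Agent.TH41.LP.Stm

/-!
LP-GPH (job 2232, helper230 for helper41): the argument of `Γ(X) / Γ(X - i y)`.
-/

set_option autoImplicit false

open MeasureTheory Filter Topology

namespace Pool.Agent.TH41.LP.GPHf

open Pool.Agent.TH41.LP

theorem atan_nonneg {a : ℝ} (ha : 0 ≤ a) : 0 ≤ a - Real.arctan a ∧ a - Real.arctan a ≤ a ^ 3 / 3 := by
  have d1 : ∀ x : ℝ, HasDerivAt (fun x => x - Real.arctan x) (1 - 1 / (1 + x ^ 2)) x := fun x =>
    (hasDerivAt_id x).sub (Real.hasDerivAt_arctan x)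
  have d2 : ∀ x : ℝ, HasDerivAt (fun x => x ^ 3 / 3 - (x - Real.arctan x))
      (3 * x ^ 2 / 3 - (1 - 1 / (1 + x ^ 2))) x := fun x => by
    have e : (3 * x ^ 2 / 3 - (1 - 1 / (1 + x ^ 2)) : ℝ) =
        ((3 : ℕ) : ℝ) * x ^ (3 - 1) / 3 - (1 - 1 / (1 + x ^ 2)) := by norm_num
    rw [e]
    exact ((hasDerivAt_pow 3 x).div_const 3).sub (d1 x)
  have m1 : Monotone (fun x : ℝ => x - Real.arctan x) := by
    refine monotone_of_deriv_nonneg (fun x => (d1 x).differentiableAt) fun x => ?_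
    rw [(d1 x).deriv]
    have : 1 / (1 + x ^ 2) ≤ 1 := by
      rw [div_le_one (by positivity)]
      nlinarith [sq_nonneg x]
    linarith
  have m2 : Monotone (fun x : ℝ => x ^ 3 / 3 - (x - Real.arctan x)) := by
    refine monotone_of_deriv_nonneg (fun x => (d2 x).differentiableAt) fun x => ?_
    rw [(d2 x).deriv]
    have h1 : 3 * x ^ 2 / 3 - (1 - 1 / (1 + x ^ 2)) = x ^ 4 / (1 + x ^ 2) := by
      field_simp
      ring
    rw [h1]
    positivity
  have e1 := m1 ha
  have e2 := m2 ha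
  simp only [Real.arctan_zero] at e1 e2
  constructor
  · linarith
  · norm_num at e2
    linarith

theorem atan_abs (a : ℝ) : |a - Real.arctan a| ≤ |a| ^ 3 / 3 := by
  rcases le_total 0 a with h | h
  · obtain ⟨h1, h2⟩ := atan_nonneg h
    rw [abs_of_nonneg h1, abs_of_nonneg h]
    exact h2
  · obtain ⟨h1, h2⟩ := atan_nonneg (neg_nonneg.2 h)
    rw [Real.arctan_neg] at h1 h2
    rw [abs_of_nonpos (by linarith), abs_of_nonpos h]
    linarith

theorem term (a : ℝ) : (1 : ℂ) - a * Complex.I =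
    ((√(1 + a ^ 2) : ℝ) : ℂ) * Complex.exp (((-Real.arctan a : ℝ) : ℂ) * Complex.I) := by
  have h1 : (0 : ℝ) < √(1 + a ^ 2) := Real.sqrt_pos.2 (by positivity)
  rw [Complex.exp_mul_I, ← Complex.ofReal_cos, ← Complex.ofReal_sin, Real.cos_neg, Real.sin_neg,
    Real.cos_arctan, Real.sin_arctan]
  apply Complex.ext
  · simp [h1.ne']
  · simp
    field_simp

theorem seq_eq (X y : ℝ) (hX : 0 < X) (n : ℕ) (hn : n ≠ 0) :
    Complex.GammaSeq X n / Complex.GammaSeq (X - y * Complex.I) n =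
      ((∏ j ∈ Finset.range (n + 1), √(1 + (y / (X + j)) ^ 2) : ℝ) : ℂ) *
        Complex.exp (((y * Real.log n -
          ∑ j ∈ Finset.range (n + 1), Real.arctan (y / (X + j)) : ℝ) : ℂ) * Complex.I) := by
  have hn' : (n : ℂ) ≠ 0 := by exact_mod_cast hn
  have hz : ∀ j : ℕ, (X : ℂ) - y * Complex.I + j ≠ 0 := by
    intro j h
    have := congrArg Complex.re h
    simp at this
    have h2 : (0 : ℝ) ≤ j := Nat.cast_nonneg j
    linarith
  have hz' : ∀ j : ℕ, (X : ℂ) + j ≠ 0 := by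
    intro j h
    have := congrArg Complex.re h
    simp at this
    have h2 : (0 : ℝ) ≤ j := Nat.cast_nonneg j
    linarith
  have hp1 : ∏ j ∈ Finset.range (n + 1), ((X : ℂ) - y * Complex.I + j) ≠ 0 :=
    Finset.prod_ne_zero_iff.2 fun j _ => hz j
  have hp2 : ∏ j ∈ Finset.range (n + 1), ((X : ℂ) + j) ≠ 0 :=
    Finset.prod_ne_zero_iff.2 fun j _ => hz' j
  have hf : ((n.factorial : ℕ) : ℂ) ≠ 0 := by exact_mod_cast n.factorial_ne_zero
  have hc : (n : ℂ) ^ ((X : ℂ) - y * Complex.I) ≠ 0 := by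
    rw [Complex.cpow_def_of_ne_zero hn']
    exact Complex.exp_ne_zero _
  have h1 : Complex.GammaSeq X n / Complex.GammaSeq (X - y * Complex.I) n =
      (n : ℂ) ^ ((y : ℂ) * Complex.I) *
        ∏ j ∈ Finset.range (n + 1), (1 - ((y / (X + j) : ℝ) : ℂ) * Complex.I) := by
    have h2 : ∏ j ∈ Finset.range (n + 1), (1 - ((y / (X + j) : ℝ) : ℂ) * Complex.I) =
        (∏ j ∈ Finset.range (n + 1), ((X : ℂ) - y * Complex.I + j)) /
          ∏ j ∈ Finset.range (n + 1), ((X : ℂ) + j) := by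
      rw [← Finset.prod_div_distrib]
      refine Finset.prod_congr rfl fun j _ => ?_
      rw [eq_div_iff (hz' j)]
      push_cast
      field_simp [hz' j]
      ring
    have h3 : (n : ℂ) ^ (X : ℂ) = (n : ℂ) ^ ((y : ℂ) * Complex.I) *
        (n : ℂ) ^ ((X : ℂ) - y * Complex.I) := by
      rw [← Complex.cpow_add _ _ hn']
      congr 1
      ring
    rw [h2]
    unfold Complex.GammaSeq
    rw [h3]
    field_simp
  have h4 : (n : ℂ) ^ ((y : ℂ) * Complex.I) = Complex.exp (((y * Real.log n : ℝ) : ℂ) * Complex.I) := by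
    rw [Complex.cpow_def_of_ne_zero hn', ← Complex.natCast_log]
    congr 1
    push_cast
    ring
  have h5 : ∏ j ∈ Finset.range (n + 1), (1 - ((y / (X + j) : ℝ) : ℂ) * Complex.I) =
      ∏ j ∈ Finset.range (n + 1), (((√(1 + (y / (X + j)) ^ 2) : ℝ) : ℂ) *
        Complex.exp (((-Real.arctan (y / (X + j)) : ℝ) : ℂ) * Complex.I)) :=
    Finset.prod_congr rfl fun j _ => term (y / (X + j))
  rw [h1, h4, h5, Finset.prod_mul_distrib, ← Complex.exp_sum, ← Finset.sum_mul]
  rw [mul_left_comm, ← Complex.exp_add]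
  push_cast
  congr 2
  rw [Finset.sum_neg_distrib]
  ring

theorem cube_sum (X : ℝ) (hX : 1 ≤ X) (n : ℕ) :
    ∑ j ∈ Finset.range (n + 1), 1 / (X + j) ^ 3 ≤ 2 / X ^ 2 - 1 / (X * (X + n)) := by
  have hX0 : 0 < X := by linarith
  induction n with
  | zero =>
    simp only [zero_add, Finset.range_one, Finset.sum_singleton, Nat.cast_zero, add_zero]
    rw [div_sub_div _ _ (by positivity) (by positivity), div_le_div_iff₀ (by positivity)
      (by positivity)]
    nlinarith [pow_pos hX0 2, pow_pos hX0 3, pow_pos hX0 4, pow_pos hX0 5, mul_pos hX0 hX0,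
      mul_le_mul_of_nonneg_left hX (pow_pos hX0 6).le,
      mul_le_mul_of_nonneg_left hX (pow_pos hX0 4).le]
  | succ n ih =>
    rw [Finset.sum_range_succ]
    have hn : (0 : ℝ) ≤ n := Nat.cast_nonneg n
    have h1 : 1 / (X + ((n + 1 : ℕ) : ℝ)) ^ 3 ≤
        1 / (X * (X + n)) - 1 / (X * (X + ((n + 1 : ℕ) : ℝ))) := by
      push_cast
      have e : 1 / (X * (X + n)) - 1 / (X * (X + (n + 1))) =
          1 / (X * (X + n) * (X + (n + 1))) := by
        field_simp
        ring
      rw [e]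
      apply one_div_le_one_div_of_le (by positivity)
      have h2 : X ≤ X + (n + 1) := by linarith
      have h3 : X + n ≤ X + (n + 1) := by linarith
      calc X * (X + n) * (X + (n + 1)) ≤ (X + (n + 1)) * (X + (n + 1)) * (X + (n + 1)) := by
            gcongr
        _ = (X + (n + 1)) ^ 3 := by ring
    linarith

theorem summ (X y : ℝ) (hX : 1 ≤ X) :
    Summable (fun j : ℕ => y / (X + j) - Real.arctan (y / (X + j))) ∧
      |∑' j : ℕ, (y / (X + j) - Real.arctan (y / (X + j)))| ≤ |y| ^ 3 / X ^ 2 := by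
  have hX0 : 0 < X := by linarith
  have hb : ∀ n : ℕ, ∑ j ∈ Finset.range n, |y / (X + j) - Real.arctan (y / (X + j))| ≤
      |y| ^ 3 / X ^ 2 := by
    intro n
    have h1 : ∑ j ∈ Finset.range n, |y / (X + j) - Real.arctan (y / (X + j))| ≤
        ∑ j ∈ Finset.range (n + 1), |y / (X + j) - Real.arctan (y / (X + j))| :=
      Finset.sum_le_sum_of_subset_of_nonneg (Finset.range_mono (Nat.le_succ n))
        fun _ _ _ => abs_nonneg _
    have h2 : ∑ j ∈ Finset.range (n + 1), |y / (X + j) - Real.arctan (y / (X + j))| ≤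
        ∑ j ∈ Finset.range (n + 1), |y| ^ 3 / 3 * (1 / (X + j) ^ 3) := by
      refine Finset.sum_le_sum fun j _ => (atan_abs _).trans (le_of_eq ?_)
      have hj : (0 : ℝ) ≤ j := Nat.cast_nonneg j
      rw [abs_div, abs_of_pos (show (0 : ℝ) < X + j by linarith), div_pow]
      ring
    rw [← Finset.mul_sum] at h2
    have h3 := cube_sum X hX n
    have h4 : |y| ^ 3 / 3 * ∑ j ∈ Finset.range (n + 1), 1 / (X + (j : ℝ)) ^ 3 ≤
        |y| ^ 3 / 3 * (2 / X ^ 2) := by
      refine mul_le_mul_of_nonneg_left (h3.trans ?_) (by positivity)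
      have : 0 ≤ 1 / (X * (X + n)) := by positivity
      linarith
    have h5 : |y| ^ 3 / 3 * (2 / X ^ 2) ≤ |y| ^ 3 / X ^ 2 := by
      have : 0 ≤ |y| ^ 3 / X ^ 2 := by positivity
      have e : |y| ^ 3 / 3 * (2 / X ^ 2) = 2 / 3 * (|y| ^ 3 / X ^ 2) := by ring
      rw [e]
      linarith
    linarith
  have hs : Summable (fun j : ℕ => |y / (X + j) - Real.arctan (y / (X + j))|) :=
    summable_of_sum_range_le (fun _ => abs_nonneg _) hb
  refine ⟨hs.of_abs, ?_⟩
  have h6 : |∑' j : ℕ, (y / (X + j) - Real.arctan (y / (X + j)))| ≤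
      ∑' j : ℕ, |y / (X + j) - Real.arctan (y / (X + j))| := by
    have := norm_tsum_le_tsum_norm (f := fun j : ℕ => y / (X + j) - Real.arctan (y / (X + j)))
      (by simpa only [Real.norm_eq_abs] using hs)
    simpa only [Real.norm_eq_abs] using this
  refine h6.trans ?_
  exact hs.tsum_le_of_sum_range_le hb

theorem summ_dg (X : ℝ) (hX : 1 ≤ X) :
    Summable (fun k : ℕ => 1 / ((k : ℝ) + 1) - 1 / (X + k)) := by
  have h1 : Summable (fun k : ℕ => (X - 1) * (1 / ((k : ℝ) + 1) ^ 2)) := by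
    refine Summable.mul_left _ ?_
    have := (summable_nat_add_iff 1).2 (Real.summable_one_div_nat_pow.2 (by norm_num : 1 < 2))
    simpa using this
  refine Summable.of_nonneg_of_le (fun k => ?_) (fun k => ?_) h1
  · have hk : (0 : ℝ) ≤ k := Nat.cast_nonneg k
    rw [sub_nonneg]
    exact one_div_le_one_div_of_le (by positivity) (by linarith)
  · have hk : (0 : ℝ) ≤ k := Nat.cast_nonneg k
    have hX0 : 0 < X + k := by linarith
    have e : 1 / ((k : ℝ) + 1) - 1 / (X + k) = (X - 1) * (1 / (((k : ℝ) + 1) * (X + k))) := by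
      field_simp
      ring
    rw [e]
    refine mul_le_mul_of_nonneg_left ?_ (by linarith)
    refine one_div_le_one_div_of_le (by positivity) ?_
    rw [sq]
    exact mul_le_mul_of_nonneg_left (by linarith) (by positivity)

theorem lim_dg (X : ℝ) (hX : 1 ≤ X) :
    Tendsto (fun n : ℕ => Real.log n - ∑ j ∈ Finset.range (n + 1), 1 / (X + j)) atTop
      (𝓝 (dg X)) := by
  have h1 := (summ_dg X hX).hasSum.tendsto_sum_nat.comp (tendsto_add_atTop_nat 1)
  have h2 := Real.tendsto_harmonic_sub_log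
  have h3 : Tendsto (fun n : ℕ => 1 / ((n : ℝ) + 1)) atTop (𝓝 0) :=
    tendsto_one_div_add_atTop_nhds_zero_nat
  have h4 := (h1.sub h2).sub h3
  have e : ∑' k : ℕ, (1 / ((k : ℝ) + 1) - 1 / (X + k)) - Real.eulerMascheroniConstant - 0 = dg X := by
    unfold dg
    ring
  rw [e] at h4
  refine h4.congr fun n => ?_
  simp only [Function.comp_apply]
  rw [Finset.sum_sub_distrib, Finset.sum_range_succ (fun k : ℕ => 1 / ((k : ℝ) + 1))]
  have h5 : (harmonic n : ℝ) = ∑ k ∈ Finset.range n, 1 / ((k : ℝ) + 1) := by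
    rw [harmonic]
    push_cast
    refine Finset.sum_congr rfl fun k _ => ?_
    rw [one_div]
  rw [h5]
  ring

theorem gph : S_gph := by
  intro X y hX
  have hX0 : 0 < X := by linarith
  obtain ⟨hs, hb⟩ := summ X y hX
  refine ⟨∑' j : ℕ, (y / (X + j) - Real.arctan (y / (X + j))), hb, ?_⟩
  set θ := ∑' j : ℕ, (y / (X + j) - Real.arctan (y / (X + j))) with hθ
  have hz : Complex.Gamma (X - y * Complex.I) ≠ 0 := by
    refine Complex.Gamma_ne_zero_of_re_pos ?_
    simp [hX0]
  -- the limit of the quotients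
  have t1 : Tendsto (fun n : ℕ => Complex.GammaSeq X n / Complex.GammaSeq (X - y * Complex.I) n)
      atTop (𝓝 (Complex.Gamma X / Complex.Gamma (X - y * Complex.I))) :=
    (Complex.GammaSeq_tendsto_Gamma X).div (Complex.GammaSeq_tendsto_Gamma _) hz
  -- the limit of the arguments
  have t2 : Tendsto (fun n : ℕ => y * Real.log n -
      ∑ j ∈ Finset.range (n + 1), Real.arctan (y / (X + j))) atTop (𝓝 (dg X * y + θ)) := by
    have h1 := (lim_dg X hX).mul_const y
    have h2 := hs.hasSum.tendsto_sum_nat.comp (tendsto_add_atTop_nat 1)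
    refine (h1.add h2).congr fun n => ?_
    simp only [Function.comp_apply]
    rw [Finset.sum_sub_distrib, sub_mul, Finset.sum_mul]
    have h3 : ∑ j ∈ Finset.range (n + 1), 1 / (X + (j : ℝ)) * y =
        ∑ j ∈ Finset.range (n + 1), y / (X + (j : ℝ)) :=
      Finset.sum_congr rfl fun j _ => by ring
    rw [h3]
    ring
  have t3 : Tendsto (fun n : ℕ => Complex.exp (((y * Real.log n -
      ∑ j ∈ Finset.range (n + 1), Real.arctan (y / (X + j)) : ℝ) : ℂ) * Complex.I)) atTop
      (𝓝 (Complex.exp (((dg X * y + θ : ℝ) : ℂ) * Complex.I))) := by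
    have hc : Continuous (fun t : ℝ => Complex.exp ((t : ℂ) * Complex.I)) := by fun_prop
    exact (hc.tendsto _).comp t2
  have t4 : Tendsto (fun n : ℕ =>
      ((‖Complex.GammaSeq X n / Complex.GammaSeq (X - y * Complex.I) n‖ : ℝ) : ℂ)) atTop
      (𝓝 ((‖Complex.Gamma X / Complex.Gamma (X - y * Complex.I)‖ : ℝ) : ℂ)) :=
    (Complex.continuous_ofReal.tendsto _).comp t1.norm
  have t5 := t4.mul t3
  refine tendsto_nhds_unique t1 (t5.congr' ?_)
  filter_upwards [eventually_ne_atTop 0] with n hn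
  rw [seq_eq X y hX0 n hn, norm_mul, Complex.norm_exp_ofReal_mul_I, mul_one, Complex.norm_real,
    Real.norm_eq_abs, abs_of_nonneg (Finset.prod_nonneg fun j _ => Real.sqrt_nonneg _)]

end Pool.Agent.TH41.LP.GPHf
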