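import Mathlib
import Pool.Agent.TH41.LP.Stm

set_option autoImplicit false

open MeasureTheory Filter Topology

namespace Pool.Agent.TH41.LP.GREAf

open Pool.Agent.TH41.LP

theorem summable_sq (a : ℝ) (ha : 0 < a) : Summable (fun k : ℕ => 1 / (a + (k : ℝ)) ^ 2) := by
  have h1 : Summable (fun k : ℕ => 1 / ((k : ℝ)) ^ 2) := by
    have := Real.summable_one_div_nat_pow.2 (one_lt_two : 1 < 2)
    exact this
  have h2 : Summable (fun k : ℕ => 1 / (((k + 1 : ℕ) : ℝ)) ^ 2) :=
    (summable_nat_add_iff 1).2 h1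
  have hm : 0 < min a 1 := lt_min ha one_pos
  refine Summable.of_nonneg_of_le (fun k => by positivity) (fun k => ?_)
    (h2.mul_left (1 / (min a 1) ^ 2))
  rw [one_div_mul_one_div, ← mul_pow]
  have hk : (0 : ℝ) ≤ k := Nat.cast_nonneg k
  have hle : min a 1 * ((k + 1 : ℕ) : ℝ) ≤ a + k := by
    push_cast
    have h3 : min a 1 ≤ a := min_le_left _ _
    have h4 : min a 1 ≤ 1 := min_le_right _ _
    nlinarith
  have hpos : 0 < min a 1 * ((k + 1 : ℕ) : ℝ) := by positivity
  exact one_div_le_one_div_of_le (by positivity) (pow_le_pow_left₀ hpos.le hle 2)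

theorem summable_prod (X Y : ℝ) (hX : 0 < X) (hY : 0 < Y) :
    Summable (fun k : ℕ => 1 / ((X + (k : ℝ)) * (Y + (k : ℝ)))) := by
  have hm : 0 < min X Y := lt_min hX hY
  refine Summable.of_nonneg_of_le (fun k => by positivity) (fun k => ?_)
    (summable_sq (min X Y) hm)
  have hk : (0 : ℝ) ≤ k := Nat.cast_nonneg k
  have h1 : min X Y ≤ X := min_le_left _ _
  have h2 : min X Y ≤ Y := min_le_right _ _
  refine one_div_le_one_div_of_le (by positivity) ?_
  rw [sq]
  exact mul_le_mul (by linarith) (by linarith) (by positivity) (by positivity)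

theorem summable_term (X : ℝ) (hX : 0 < X) :
    Summable (fun k : ℕ => 1 / ((k : ℝ) + 1) - 1 / (X + k)) := by
  refine ((summable_prod X 1 hX one_pos).mul_left (X - 1)).congr fun k => ?_
  have hk : (0 : ℝ) ≤ k := Nat.cast_nonneg k
  have h1 : X + (k : ℝ) ≠ 0 := by positivity
  have h2 : (k : ℝ) + 1 ≠ 0 := by positivity
  have h3 : 1 + (k : ℝ) ≠ 0 := by positivity
  field_simp
  ring

theorem dg_sub (X Y : ℝ) (hX : 0 < X) (hY : 0 < Y) :
    dg X - dg Y = ∑' k : ℕ, (X - Y) * (1 / ((X + (k : ℝ)) * (Y + (k : ℝ)))) := by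
  unfold dg
  have h1 : -Real.eulerMascheroniConstant + ∑' k : ℕ, (1 / ((k : ℝ) + 1) - 1 / (X + k)) -
      (-Real.eulerMascheroniConstant + ∑' k : ℕ, (1 / ((k : ℝ) + 1) - 1 / (Y + k))) =
      ∑' k : ℕ, (1 / ((k : ℝ) + 1) - 1 / (X + k)) -
        ∑' k : ℕ, (1 / ((k : ℝ) + 1) - 1 / (Y + k)) := by ring
  rw [h1, ← (summable_term X hX).tsum_sub (summable_term Y hY)]
  refine tsum_congr fun k => ?_
  have hk : (0 : ℝ) ≤ k := Nat.cast_nonneg k
  have h1 : X + (k : ℝ) ≠ 0 := by positivity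
  have h2 : Y + (k : ℝ) ≠ 0 := by positivity
  field_simp
  ring

theorem lip (a X Y : ℝ) (ha : 0 < a) (hX : a ≤ X) (hY : a ≤ Y) :
    |dg X - dg Y| ≤ |X - Y| * ∑' k : ℕ, 1 / (a + (k : ℝ)) ^ 2 := by
  have hX0 : 0 < X := by linarith
  have hY0 : 0 < Y := by linarith
  rw [dg_sub X Y hX0 hY0, tsum_mul_left, abs_mul]
  refine mul_le_mul_of_nonneg_left ?_ (abs_nonneg _)
  rw [abs_of_nonneg (tsum_nonneg fun k => by positivity)]
  refine (summable_prod X Y hX0 hY0).tsum_le_tsum (fun k => ?_) (summable_sq a ha)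
  have hk : (0 : ℝ) ≤ k := Nat.cast_nonneg k
  refine one_div_le_one_div_of_le (by positivity) ?_
  rw [sq]
  exact mul_le_mul (by linarith) (by linarith) (by positivity) (by positivity)

theorem cont : ContinuousOn dg (Set.Ioi 0) := by
  intro X hX
  have hX0 : (0 : ℝ) < X := hX
  refine ContinuousAt.continuousWithinAt ?_
  set S := ∑' k : ℕ, 1 / (X / 2 + (k : ℝ)) ^ 2 with hS
  rw [ContinuousAt, tendsto_iff_norm_sub_tendsto_zero]
  have h1 : Tendsto (fun Y : ℝ => |Y - X| * S) (𝓝 X) (𝓝 0) := by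
    have : Tendsto (fun Y : ℝ => |Y - X| * S) (𝓝 X) (𝓝 (|X - X| * S)) := by
      refine Continuous.tendsto ?_ X
      fun_prop
    simpa using this
  refine squeeze_zero' (Filter.Eventually.of_forall fun Y => norm_nonneg _) ?_ h1
  have h2 : ∀ᶠ Y in 𝓝 X, X / 2 < Y := lt_mem_nhds (by linarith)
  filter_upwards [h2] with Y hY
  rw [Real.norm_eq_abs]
  exact lip (X / 2) Y X (by linarith) hY.le (by linarith)

theorem hasSum_tel (u : ℝ) (hu : 0 < u) :
    HasSum (fun k : ℕ => 1 / (u + (k : ℝ)) - 1 / (u + ((k + 1 : ℕ) : ℝ))) (1 / u) := by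
  have hnn : ∀ k : ℕ, 0 ≤ 1 / (u + (k : ℝ)) - 1 / (u + ((k + 1 : ℕ) : ℝ)) := by
    intro k
    have hk : (0 : ℝ) ≤ k := Nat.cast_nonneg k
    rw [sub_nonneg]
    refine one_div_le_one_div_of_le (by positivity) ?_
    push_cast
    linarith
  rw [hasSum_iff_tendsto_nat_of_nonneg hnn]
  have h1 : ∀ n : ℕ, ∑ k ∈ Finset.range n, (1 / (u + (k : ℝ)) - 1 / (u + ((k + 1 : ℕ) : ℝ))) =
      1 / u - 1 / (u + (n : ℝ)) := by
    intro n
    have := Finset.sum_range_sub' (fun k : ℕ => 1 / (u + (k : ℝ))) n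
    simpa using this
  simp_rw [h1]
  have h2 : Tendsto (fun n : ℕ => u + (n : ℝ)) atTop atTop :=
    tendsto_atTop_add_const_left _ _ tendsto_natCast_atTop_atTop
  have h3 : Tendsto (fun n : ℕ => 1 / (u + (n : ℝ))) atTop (𝓝 0) := by
    simp_rw [one_div]
    exact h2.inv_tendsto_atTop
  simpa using (tendsto_const_nhds (x := 1 / u)).sub h3

theorem diff (X h : ℝ) (hX : 0 < X) (hh : 0 ≤ h) : dg X - dg (X + h) ≤ -(h / (X + h)) := by
  have hu : 0 < X + h := by linarith
  have h1 := dg_sub (X + h) X hu hX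
  have h2 := (hasSum_tel (X + h) hu).mul_left h
  have h3 : h * (1 / (X + h)) ≤ dg (X + h) - dg X := by
    rw [h1, ← h2.tsum_eq]
    have h4 : Summable (fun k : ℕ => (X + h - X) * (1 / ((X + h + (k : ℝ)) * (X + (k : ℝ))))) :=
      (summable_prod (X + h) X hu hX).mul_left _
    refine h2.summable.tsum_le_tsum (fun k => ?_) h4
    have hk : (0 : ℝ) ≤ k := Nat.cast_nonneg k
    have e1 : 1 / (X + h + (k : ℝ)) - 1 / (X + h + ((k + 1 : ℕ) : ℝ)) =
        1 / ((X + h + k) * (X + h + k + 1)) := by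
      push_cast
      have q1 : X + h + (k : ℝ) ≠ 0 := by positivity
      have q2 : X + h + (k : ℝ) + 1 ≠ 0 := by positivity
      have q3 : X + h + ((k : ℝ) + 1) ≠ 0 := by positivity
      field_simp
      ring
    rw [e1]
    have e2 : X + h - X = h := by ring
    rw [e2]
    refine mul_le_mul_of_nonneg_left ?_ hh
    refine one_div_le_one_div_of_le (by positivity) ?_
    refine mul_le_mul_of_nonneg_left ?_ (by positivity)
    linarith
  have h5 : h * (1 / (X + h)) = h / (X + h) := by ring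
  linarith

theorem le_log (X : ℝ) (hX : 0 < X) : dg X ≤ Real.log X := by
  have h1 := (summable_term X hX).hasSum.tendsto_sum_nat
  have h2 : Tendsto (fun n : ℕ => -Real.eulerMascheroniConstant +
      ∑ k ∈ Finset.range n, (1 / ((k : ℝ) + 1) - 1 / (X + k))) atTop (𝓝 (dg X)) :=
    h1.const_add _
  have h3 : Tendsto (fun n : ℕ => -Real.eulerMascheroniConstant +
      ((harmonic n : ℝ) - Real.log n) + Real.log X) atTop (𝓝 (Real.log X)) := by
    have := (Real.tendsto_harmonic_sub_log.const_add (-Real.eulerMascheroniConstant)).add_const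
      (Real.log X)
    simpa using this
  refine le_of_tendsto_of_tendsto h2 h3 ?_
  filter_upwards [eventually_ge_atTop 1] with n hn
  have hn0 : (0 : ℝ) < n := by exact_mod_cast hn
  rw [Finset.sum_sub_distrib]
  have h4 : ∑ k ∈ Finset.range n, 1 / ((k : ℝ) + 1) = (harmonic n : ℝ) := by
    rw [harmonic]
    push_cast
    refine Finset.sum_congr rfl fun k _ => ?_
    rw [one_div]
  have h5 : ∀ m : ℕ, Real.log (X + m) - Real.log X ≤ ∑ k ∈ Finset.range m, 1 / (X + (k : ℝ)) := by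
    intro m
    induction m with
    | zero => simp
    | succ m ih =>
        rw [Finset.sum_range_succ]
        have hm : (0 : ℝ) ≤ m := Nat.cast_nonneg m
        have q1 : 0 < X + (m : ℝ) := by positivity
        have q2 : Real.log (X + ((m + 1 : ℕ) : ℝ)) ≤ Real.log (X + m) + 1 / (X + (m : ℝ)) := by
          have e1 : X + ((m + 1 : ℕ) : ℝ) = (X + m) * (1 + 1 / (X + m)) := by
            push_cast
            field_simp
            ring
          rw [e1, Real.log_mul q1.ne' (by positivity)]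
          have := Real.log_le_sub_one_of_pos (show 0 < 1 + 1 / (X + (m : ℝ)) by positivity)
          linarith
        linarith
  have h6 := h5 n
  have h7 : Real.log n ≤ Real.log (X + n) := Real.log_le_log hn0 (by linarith)
  rw [h4]
  linarith

theorem grea : ContinuousOn dg (Set.Ioi 0) ∧ (∀ X : ℝ, 0 < X → dg X ≤ Real.log X) ∧
    (∀ X h : ℝ, 0 < X → 0 ≤ h → dg X - dg (X + h) ≤ -(h / (X + h))) :=
  ⟨cont, le_log, diff⟩

end Pool.Agent.TH41.LP.GREAf
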