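import Mathlib
import Pool.Agent.TH41.LP.Stm

set_option autoImplicit false

open MeasureTheory Filter Topology

namespace Pool.Agent.TH41.LP.GREBf

open Pool.Agent.TH41.LP

/-- the terms of the series of `dg` are summable -/
lemma summable_dg (X : ℝ) (hX : 0 < X) :
    Summable (fun k : ℕ => 1 / ((k : ℝ) + 1) - 1 / (X + k)) := by
  have h2 : Summable (fun k : ℕ => 1 / ((k : ℝ) ^ 2)) :=
    Real.summable_one_div_nat_pow.2 (by norm_num)
  have h3 : Summable (fun k : ℕ => 1 / (((k + 1 : ℕ) : ℝ) ^ 2)) :=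
    (summable_nat_add_iff 1).2 h2
  set m : ℝ := min X 1 with hm
  have hm0 : 0 < m := lt_min hX one_pos
  have h4 : Summable (fun k : ℕ => |X - 1| / m * (1 / (((k + 1 : ℕ) : ℝ) ^ 2))) := h3.mul_left _
  refine Summable.of_norm_bounded h4 ?_
  intro k
  have hk : (0 : ℝ) ≤ k := Nat.cast_nonneg k
  have hk1 : (0 : ℝ) < (k : ℝ) + 1 := by linarith
  have hXk : 0 < X + k := by linarith
  have e : 1 / ((k : ℝ) + 1) - 1 / (X + k) = (X - 1) / (((k : ℝ) + 1) * (X + k)) := by
    field_simp
    ring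
  rw [e, Real.norm_eq_abs, abs_div, abs_of_pos (mul_pos hk1 hXk)]
  have hge : m * ((k : ℝ) + 1) ≤ X + k := by
    have h5 : m ≤ X := min_le_left _ _
    have h6 : m ≤ 1 := min_le_right _ _
    nlinarith
  have h7 : m * ((k : ℝ) + 1) ^ 2 ≤ ((k : ℝ) + 1) * (X + k) := by nlinarith
  push_cast
  rw [div_mul_div_comm, mul_one]
  exact div_le_div_of_nonneg_left (abs_nonneg _) (by positivity) h7

lemma tendsto_log_sub_sum (X : ℝ) (hX : 0 < X) :
    Tendsto (fun n : ℕ => Real.log n - ∑ m ∈ Finset.range (n + 1), 1 / (X + m)) atTop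
      (𝓝 (dg X)) := by
  have h1 : Tendsto (fun n : ℕ => ∑ m ∈ Finset.range (n + 1),
      (1 / ((m : ℝ) + 1) - 1 / (X + m))) atTop
      (𝓝 (∑' k : ℕ, (1 / ((k : ℝ) + 1) - 1 / (X + k)))) :=
    ((summable_dg X hX).hasSum.tendsto_sum_nat).comp (tendsto_add_atTop_nat 1)
  have h2 := Real.tendsto_harmonic_sub_log
  have h3 : Tendsto (fun n : ℕ => 1 / ((n : ℝ) + 1)) atTop (𝓝 0) :=
    tendsto_one_div_add_atTop_nhds_zero_nat
  have h4 := (h1.sub h2).sub h3
  have e : (∑' k : ℕ, (1 / ((k : ℝ) + 1) - 1 / (X + k))) - Real.eulerMascheroniConstant - 0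
      = dg X := by
    unfold dg; ring
  rw [e] at h4
  refine h4.congr ?_
  intro n
  have e2 : (harmonic n : ℝ) = ∑ m ∈ Finset.range n, 1 / ((m : ℝ) + 1) := by
    unfold harmonic
    push_cast
    refine Finset.sum_congr rfl ?_
    intro i _
    rw [one_div]
  rw [Finset.sum_sub_distrib, Finset.sum_range_succ (fun m : ℕ => 1 / ((m : ℝ) + 1)), e2]
  ring

lemma log_one_sub_le (z : ℝ) (hz : 0 ≤ z) (hz1 : z < 1) :
    Real.log (1 - z) ≤ -z - z ^ 2 / 2 := by
  have h := Real.hasSum_pow_div_log_of_abs_lt_one (x := z) (by rw [abs_of_nonneg hz]; exact hz1)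
  have h2 := sum_le_hasSum (Finset.range 2) (fun i _ => by positivity) h
  simp only [Finset.sum_range_succ, Finset.sum_range_zero] at h2
  norm_num at h2
  linarith

lemma first_aux (X u : ℝ) (hX : 0 < X) (hu : 0 ≤ u) (huX : u < X) :
    Real.log (Real.Gamma X) - Real.log (Real.Gamma (X - u)) ≤ u * dg X - u ^ 2 / (2 * X) := by
  have hXu : 0 < X - u := by linarith
  have h1 := (Real.BohrMollerup.tendsto_log_gamma hX).sub (Real.BohrMollerup.tendsto_log_gamma hXu)
  have h2 := (tendsto_log_sub_sum X hX).const_mul u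
  have h3 : Tendsto (fun n : ℕ => u ^ 2 / 2 * (1 / X - 1 / (X + ((n + 1 : ℕ) : ℝ)))) atTop
      (𝓝 (u ^ 2 / 2 * (1 / X - 0))) := by
    refine Tendsto.const_mul _ (tendsto_const_nhds.sub ?_)
    have h5 : Tendsto (fun n : ℕ => X + ((n + 1 : ℕ) : ℝ)) atTop atTop :=
      tendsto_atTop_add_const_left _ _
        (tendsto_natCast_atTop_atTop.comp (tendsto_add_atTop_nat 1))
    exact (tendsto_inv_atTop_zero.comp h5).congr (fun n => by simp [one_div])
  have h4 := h2.sub h3
  have e : u * dg X - u ^ 2 / 2 * (1 / X - 0) = u * dg X - u ^ 2 / (2 * X) := by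
    field_simp
    ring
  rw [e] at h4
  refine le_of_tendsto_of_tendsto' h1 h4 ?_
  intro n
  unfold Real.BohrMollerup.logGammaSeq
  have key : ∀ m : ℕ, Real.log (X - u + m) - Real.log (X + m) ≤
      -u * (1 / (X + m)) - u ^ 2 / 2 * (1 / (X + m) - 1 / (X + ((m + 1 : ℕ) : ℝ))) := by
    intro m
    have hm : (0 : ℝ) ≤ m := Nat.cast_nonneg m
    have hXm : 0 < X + m := by linarith
    have hXm1 : 0 < X + ((m + 1 : ℕ) : ℝ) := by push_cast; linarith
    have hXum : 0 < X - u + m := by linarith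
    rw [← Real.log_div hXum.ne' hXm.ne']
    have e1 : (X - u + m) / (X + m) = 1 - u / (X + m) := by
      field_simp
      ring
    rw [e1]
    have hz : 0 ≤ u / (X + m) := by positivity
    have hz1 : u / (X + m) < 1 := by rw [div_lt_one hXm]; linarith
    have h6 := log_one_sub_le _ hz hz1
    have h7 : 1 / (X + m) - 1 / (X + ((m + 1 : ℕ) : ℝ)) ≤ 1 / (X + m) ^ 2 := by
      rw [div_sub_div _ _ hXm.ne' hXm1.ne', div_le_div_iff₀ (by positivity) (by positivity)]
      push_cast
      nlinarith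
    have h8 : u ^ 2 / 2 * (1 / (X + m) - 1 / (X + ((m + 1 : ℕ) : ℝ))) ≤
        u ^ 2 / 2 * (1 / (X + m) ^ 2) := mul_le_mul_of_nonneg_left h7 (by positivity)
    have e2 : -(u / (X + m)) - (u / (X + m)) ^ 2 / 2 =
        -u * (1 / (X + m)) - u ^ 2 / 2 * (1 / (X + m) ^ 2) := by
      field_simp
    rw [e2] at h6
    linarith
  have hs := Finset.sum_le_sum (fun m (_ : m ∈ Finset.range (n + 1)) => key m)
  rw [Finset.sum_sub_distrib, Finset.sum_sub_distrib, ← Finset.mul_sum, ← Finset.mul_sum] at hs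
  have htel : ∑ i ∈ Finset.range (n + 1), (1 / (X + (i : ℝ)) - 1 / (X + ((i + 1 : ℕ) : ℝ))) =
      1 / X - 1 / (X + ((n + 1 : ℕ) : ℝ)) := by
    rw [Finset.sum_range_sub' (fun i : ℕ => 1 / (X + (i : ℝ)))]
    simp
  rw [htel] at hs
  have : u * Real.log n = X * Real.log n - (X - u) * Real.log n := by ring
  nlinarith [hs]

lemma mono_aux (a b : ℝ) (ha : 0 < a) (hab : a ≤ b) :
    a * (Real.log (a + 1) - Real.log a) ≤ b * (Real.log (b + 1) - Real.log b) := by
  have hb : 0 < b := lt_of_lt_of_le ha hab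
  rw [← Real.log_div (by linarith) ha.ne', ← Real.log_div (by linarith) hb.ne']
  have h1 : 1 ≤ b / a := by rw [le_div_iff₀ ha]; linarith
  have h2 := one_add_mul_self_le_rpow_one_add (s := 1 / b) (p := b / a)
    (by have : 0 < 1 / b := by positivity
        linarith) h1
  have e1 : 1 + b / a * (1 / b) = (a + 1) / a := by
    field_simp
  have e2 : 1 + 1 / b = (b + 1) / b := by
    field_simp
  rw [e1, e2] at h2
  have h3 := Real.log_le_log (by positivity) h2
  rw [Real.log_rpow (by positivity)] at h3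
  calc a * Real.log ((a + 1) / a) ≤ a * (b / a * Real.log ((b + 1) / b)) :=
        mul_le_mul_of_nonneg_left h3 ha.le
    _ = b * Real.log ((b + 1) / b) := by
        field_simp

lemma second_aux (X u : ℝ) (hX : 0 < X) (hu : 0 ≤ u) :
    Real.log (Real.Gamma (X + 1)) - Real.log (Real.Gamma (X + 1 + u)) ≤
      -((X + u) * Real.log (X + u) - X * Real.log X - u) := by
  have hX1 : 0 < X + 1 := by linarith
  have hX2 : 0 < X + 1 + u := by linarith
  have h1 := (Real.BohrMollerup.tendsto_log_gamma hX1).sub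
    (Real.BohrMollerup.tendsto_log_gamma hX2)
  -- the upper bound of the sequence
  set h : ℝ → ℝ := fun y => (y + u) * Real.log (y + u) - y * Real.log y with hh
  have key : ∀ m : ℕ, Real.log (X + 1 + u + m) - Real.log (X + 1 + m) ≤
      h (X + ((m + 1 : ℕ) : ℝ)) - h (X + m) := by
    intro m
    have hm : (0 : ℝ) ≤ m := Nat.cast_nonneg m
    have h2 := mono_aux (X + m) (X + m + u) (by linarith) (by linarith)
    have e1 : X + 1 + u + (m : ℝ) = X + m + u + 1 := by ring
    have e2 : X + 1 + (m : ℝ) = X + m + 1 := by ring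
    have e3 : X + ((m + 1 : ℕ) : ℝ) = X + m + 1 := by push_cast; ring
    have e4 : X + (m : ℝ) + 1 + u = X + m + u + 1 := by ring
    rw [e1, e2, e3]
    simp only [hh]
    rw [e4]
    linarith
  have hsum : ∀ n : ℕ, ∑ m ∈ Finset.range (n + 1),
      (Real.log (X + 1 + u + m) - Real.log (X + 1 + m)) ≤ h (X + ((n + 1 : ℕ) : ℝ)) - h X := by
    intro n
    refine (Finset.sum_le_sum (fun m _ => key m)).trans ?_
    rw [Finset.sum_range_sub (fun m : ℕ => h (X + (m : ℝ)))]
    simp
  -- the limit of the upper bound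
  have hlim : Tendsto (fun n : ℕ => -(u * Real.log n) + (u * Real.log (X + ((n + 1 : ℕ) : ℝ)) +
      (u + u ^ 2 * (X + ((n + 1 : ℕ) : ℝ))⁻¹) - h X)) atTop (𝓝 (u - h X)) := by
    have h5 : Tendsto (fun n : ℕ => X + ((n + 1 : ℕ) : ℝ)) atTop atTop :=
      tendsto_atTop_add_const_left _ _
        (tendsto_natCast_atTop_atTop.comp (tendsto_add_atTop_nat 1))
    have h6 := (tendsto_inv_atTop_zero.comp h5).const_mul (u ^ 2)
    have h7 := ((Real.tendsto_log_comp_add_sub_log (X + 1)).comp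
      (tendsto_natCast_atTop_atTop (R := ℝ))).const_mul u
    have h8 := (h7.add (h6.const_add u)).sub_const (h X)
    have e : u * 0 + (u + u ^ 2 * 0) - h X = u - h X := by ring
    rw [e] at h8
    refine h8.congr ?_
    intro n
    simp only [Function.comp]
    have e2 : (n : ℝ) + (X + 1) = X + ((n + 1 : ℕ) : ℝ) := by push_cast; ring
    rw [e2]
    ring
  have e9 : -((X + u) * Real.log (X + u) - X * Real.log X - u) = u - h X := by
    simp only [hh]; ring
  rw [e9]
  refine le_of_tendsto_of_tendsto' h1 hlim ?_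
  intro n
  unfold Real.BohrMollerup.logGammaSeq
  have h10 := hsum n
  rw [Finset.sum_sub_distrib] at h10
  have h11 : h (X + ((n + 1 : ℕ) : ℝ)) ≤ u * Real.log (X + ((n + 1 : ℕ) : ℝ)) +
      (u + u ^ 2 * (X + ((n + 1 : ℕ) : ℝ))⁻¹) := by
    set y : ℝ := X + ((n + 1 : ℕ) : ℝ) with hy
    have hy0 : 0 < y := by
      have : (0 : ℝ) ≤ ((n + 1 : ℕ) : ℝ) := Nat.cast_nonneg _
      rw [hy]; linarith
    have hyu : 0 < y + u := by linarith
    have h12 : Real.log (y + u) ≤ Real.log y + u / y := by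
      have h13 : Real.log ((y + u) / y) ≤ (y + u) / y - 1 :=
        Real.log_le_sub_one_of_pos (by positivity)
      rw [Real.log_div hyu.ne' hy0.ne'] at h13
      have h14 : (y + u) / y - 1 = u / y := by field_simp; ring
      linarith
    simp only [hh]
    have h15 : (y + u) * Real.log (y + u) ≤ (y + u) * (Real.log y + u / y) :=
      mul_le_mul_of_nonneg_left h12 hyu.le
    have h16 : (y + u) * (Real.log y + u / y) =
        y * Real.log y + u * Real.log y + (u + u ^ 2 * y⁻¹) := by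
      field_simp
    linarith
  have : (X + 1) * Real.log n - (X + 1 + u) * Real.log n = -(u * Real.log n) := by ring
  linarith

theorem greb : (∀ X u : ℝ, 0 < X → 0 ≤ u → u < X →
    Real.Gamma X / Real.Gamma (X - u) ≤ Real.exp (u * dg X - u ^ 2 / (2 * X))) ∧
  (∀ X u : ℝ, 0 < X → 0 ≤ u → Real.Gamma (X + 1) / Real.Gamma (X + 1 + u) ≤
    Real.exp (-((X + u) * Real.log (X + u) - X * Real.log X - u))) := by
  constructor
  · intro X u hX hu huX
    have h1 := first_aux X u hX hu huX
    have hg1 : 0 < Real.Gamma X := Real.Gamma_pos_of_pos hX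
    have hg2 : 0 < Real.Gamma (X - u) := Real.Gamma_pos_of_pos (by linarith)
    rw [← Real.log_div hg1.ne' hg2.ne'] at h1
    exact (Real.log_le_iff_le_exp (by positivity)).1 h1
  · intro X u hX hu
    have h1 := second_aux X u hX hu
    have hg1 : 0 < Real.Gamma (X + 1) := Real.Gamma_pos_of_pos (by linarith)
    have hg2 : 0 < Real.Gamma (X + 1 + u) := Real.Gamma_pos_of_pos (by linarith)
    rw [← Real.log_div hg1.ne' hg2.ne'] at h1
    exact (Real.log_le_iff_le_exp (by positivity)).1 h1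

end Pool.Agent.TH41.LP.GREBf
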