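import Mathlib
import Pool.Agent.TH41.LP.Stm

set_option autoImplicit false

open MeasureTheory Filter Topology

namespace Pool.Agent.TH41.LP.INT1f

open Pool.Agent.TH41.LP

/-- the square root of `w² + c²` -/
noncomputable def SS (w c : ℂ) : ℂ := (w ^ 2 + c ^ 2) ^ (2⁻¹ : ℂ)

lemma re_z (x τ c : ℝ) :
    (((x : ℂ) + (τ : ℂ) * Complex.I) ^ 2 + (c : ℂ) ^ 2).re = x ^ 2 - τ ^ 2 + c ^ 2 := by
  simp [pow_two]

lemma im_z (x τ c : ℝ) :
    (((x : ℂ) + (τ : ℂ) * Complex.I) ^ 2 + (c : ℂ) ^ 2).im = 2 * x * τ := by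
  simp [pow_two]
  ring

lemma slit (x τ c : ℝ) (hx : 0 < x) :
    ((x : ℂ) + (τ : ℂ) * Complex.I) ^ 2 + (c : ℂ) ^ 2 ∈ Complex.slitPlane := by
  rw [Complex.mem_slitPlane_iff, re_z, im_z]
  by_cases h : τ = 0
  · left
    rw [h]
    have h1 : 0 < x ^ 2 := by positivity
    nlinarith [sq_nonneg c]
  · right
    exact mul_ne_zero (mul_ne_zero two_ne_zero hx.ne') h

lemma SS_re (x τ c : ℝ) : (SS ((x : ℂ) + (τ : ℂ) * Complex.I) c).re = pp c x τ := by
  rw [SS, Complex.cpow_inv_two_re, pp, Complex.norm_eq_sqrt_sq_add_sq, re_z, im_z]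
  congr 5
  ring

lemma SS_sq (w c : ℂ) : SS w c ^ 2 = w ^ 2 + c ^ 2 := by
  simp [SS]

lemma SS_ne (w c : ℂ) (h : w ^ 2 + c ^ 2 ∈ Complex.slitPlane) : SS w c ≠ 0 := by
  intro h0
  have := SS_sq w c
  rw [h0] at this
  exact Complex.slitPlane_ne_zero h (by rw [← this]; ring)

lemma SS_deriv (w c : ℂ) (h : w ^ 2 + c ^ 2 ∈ Complex.slitPlane) :
    HasDerivAt (SS w) (c / SS w c) c := by
  have h1 : HasDerivAt (fun c : ℂ => w ^ 2 + c ^ 2) (2 * c) c := by
    simpa using ((hasDerivAt_pow 2 c).const_add (w ^ 2))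
  have h2 : HasDerivAt (SS w) (2⁻¹ * (w ^ 2 + c ^ 2) ^ ((2⁻¹ : ℂ) - 1) * (2 * c)) c :=
    h1.cpow_const (c := (2⁻¹ : ℂ)) h
  refine h2.congr_deriv (Eq.symm ?_)
  have hz := Complex.slitPlane_ne_zero h
  have hs := SS_ne w c h
  rw [Complex.cpow_sub _ _ hz, Complex.cpow_one]
  change c / SS w c = 2⁻¹ * (SS w c / (w ^ 2 + c ^ 2)) * (2 * c)
  rw [← SS_sq]
  field_simp

/-- the antiderivative -/
noncomputable def GG (β : ℝ) (w c : ℂ) : ℂ :=
  -((SS w c - c) / SS β c) + Complex.log (SS w c + SS β c) - Complex.log (c + SS β c)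

lemma pp_zero (c x : ℝ) : pp c x 0 = √(x ^ 2 + c ^ 2) := by
  unfold pp
  have h : 0 ≤ x ^ 2 + c ^ 2 := by positivity
  congr 1
  have h1 : √((x ^ 2 - 0 ^ 2 + c ^ 2) ^ 2 + 4 * x ^ 2 * 0 ^ 2) = x ^ 2 + c ^ 2 := by
    rw [show (x ^ 2 - 0 ^ 2 + c ^ 2) ^ 2 + 4 * x ^ 2 * 0 ^ 2 = (x ^ 2 + c ^ 2) ^ 2 by ring]
    exact Real.sqrt_sq h
  rw [h1]
  ring

lemma SS_real (x c : ℝ) (hx : 0 < x) : SS x c = ((√(x ^ 2 + c ^ 2) : ℝ) : ℂ) := by
  have h1 : (SS x c).re = √(x ^ 2 + c ^ 2) := by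
    have := SS_re x 0 c
    rw [pp_zero] at this
    simpa using this
  have h2 := SS_sq x c
  have h3 : 0 < √(x ^ 2 + c ^ 2) := by positivity
  have h4 := congrArg Complex.im h2
  simp only [pow_two, Complex.mul_im, Complex.add_im, Complex.ofReal_im, Complex.ofReal_re,
    mul_zero, zero_mul, add_zero] at h4
  rw [h1] at h4
  have h5 : (SS x c).im = 0 := by
    have : 2 * √(x ^ 2 + c ^ 2) * (SS x c).im = 0 := by
      linarith
    rcases mul_eq_zero.1 this with h | h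
    · linarith
    · exact h
  apply Complex.ext
  · rw [h1, Complex.ofReal_re]
  · rw [h5, Complex.ofReal_im]

lemma slit' (x c : ℝ) (hx : 0 < x) : (x : ℂ) ^ 2 + (c : ℂ) ^ 2 ∈ Complex.slitPlane := by
  have := slit x 0 c hx
  simpa using this

lemma GG_deriv (β x τ c : ℝ) (hβ : 0 < β) (hx : 0 < x) (hc : 0 ≤ c) :
    HasDerivAt (fun c : ℝ => (GG β ((x : ℂ) + (τ : ℂ) * Complex.I) c).re)
      (Wt β c * (pp c x τ - c)) c := by
  obtain ⟨w, hw⟩ : ∃ w : ℂ, w = (x : ℂ) + (τ : ℂ) * Complex.I := ⟨_, rfl⟩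
  have hz : w ^ 2 + (c : ℂ) ^ 2 ∈ Complex.slitPlane := by rw [hw]; exact slit x τ c hx
  have hR := slit' β c hβ
  have d1 := SS_deriv w c hz
  have d2 := SS_deriv β c hR
  have n1 := SS_ne w c hz
  have n2 := SS_ne β c hR
  have hRe : SS β c = ((√(β ^ 2 + c ^ 2) : ℝ) : ℂ) := SS_real β c hβ
  have hRp : 0 < √(β ^ 2 + c ^ 2) := by positivity
  have s1 : SS w c + SS β c ∈ Complex.slitPlane := by
    rw [Complex.mem_slitPlane_iff]
    left
    rw [Complex.add_re, hw, SS_re, hRe, Complex.ofReal_re]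
    have : 0 ≤ pp c x τ := Real.sqrt_nonneg _
    linarith
  have s2 : (c : ℂ) + SS β c ∈ Complex.slitPlane := by
    rw [Complex.mem_slitPlane_iff]
    left
    rw [Complex.add_re, hRe, Complex.ofReal_re, Complex.ofReal_re]
    linarith
  have n3 := Complex.slitPlane_ne_zero s1
  have n4 := Complex.slitPlane_ne_zero s2
  have d3 : HasDerivAt (GG β w) ((c : ℂ) * (SS w c - c) / SS β c ^ 3) (c : ℂ) := by
    have e1 := (((d1.sub (hasDerivAt_id (c : ℂ))).div d2 n2).neg)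
    have e2 := (d1.add d2).clog s1
    have e3 := ((hasDerivAt_id (c : ℂ)).add d2).clog s2
    have e4 := (e1.add e2).sub e3
    refine e4.congr_deriv ?_
    simp only [id, Pi.sub_apply, Pi.add_apply]
    field_simp
    ring
  have d4 := d3.real_of_complex
  rw [← hw]
  convert d4 using 1
  rw [hRe, Wt]
  have e5 : (c : ℂ) * (SS w c - c) / ((√(β ^ 2 + c ^ 2) : ℝ) : ℂ) ^ 3 =
      ((c / √(β ^ 2 + c ^ 2) ^ 3 : ℝ) : ℂ) * (SS w c - c) := by
    push_cast
    ring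
  rw [e5, Complex.re_ofReal_mul, Complex.sub_re, hw, SS_re, Complex.ofReal_re]

lemma GG_zero (β x τ : ℝ) (hβ : 0 < β) (hx : 0 < x) :
    (GG β ((x : ℂ) + (τ : ℂ) * Complex.I) ((0 : ℝ) : ℂ)).re =
      -(x / β) + 1 / 2 * Real.log ((x + β) ^ 2 + τ ^ 2) - Real.log β := by
  have h1 : SS ((x : ℂ) + (τ : ℂ) * Complex.I) ((0 : ℝ) : ℂ) = (x : ℂ) + (τ : ℂ) * Complex.I := by
    have h2 : 0 < ((x : ℂ) + (τ : ℂ) * Complex.I).re := by simpa using hx
    have := Complex.sq_cpow_two_inv h2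
    simpa [SS] using this
  have h3 : SS β ((0 : ℝ) : ℂ) = (β : ℂ) := by
    rw [SS_real β 0 hβ]
    congr 1
    rw [zero_pow (by norm_num), add_zero]
    exact Real.sqrt_sq hβ.le
  unfold GG
  rw [h1, h3]
  rw [Complex.sub_re, Complex.add_re, Complex.log_re, Complex.log_re, Complex.neg_re,
    Complex.div_ofReal_re]
  have h4 : ‖((0 : ℝ) : ℂ) + (β : ℂ)‖ = β := by
    simp [abs_of_pos hβ]
  have h5 : ‖(x : ℂ) + (τ : ℂ) * Complex.I + (β : ℂ)‖ = √((x + β) ^ 2 + τ ^ 2) := by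
    rw [Complex.norm_eq_sqrt_sq_add_sq]
    congr 2
    · simp
    · simp
  rw [h4, h5, Real.log_sqrt (by positivity)]
  simp
  ring

lemma GG_tend (β x τ : ℝ) (hβ : 0 < β) (hx : 0 < x) :
    Tendsto (fun c : ℝ => (GG β ((x : ℂ) + (τ : ℂ) * Complex.I) c).re) atTop (𝓝 0) := by
  obtain ⟨w, hw⟩ : ∃ w : ℂ, w = (x : ℂ) + (τ : ℂ) * Complex.I := ⟨_, rfl⟩
  rw [← hw]
  -- `S - c → 0`
  have hb : ∀ c : ℝ, 0 < c → ‖SS w c - c‖ ≤ ‖w‖ ^ 2 / c := by
    intro c hc
    have h1 : (SS w c - c) * (SS w c + c) = w ^ 2 := by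
      have := SS_sq w c
      linear_combination this
    have h2 : c ≤ ‖SS w c + c‖ := by
      refine le_trans ?_ (Complex.re_le_norm _)
      rw [Complex.add_re, hw, SS_re, Complex.ofReal_re]
      have : 0 ≤ pp c x τ := Real.sqrt_nonneg _
      linarith
    have h3 : ‖SS w c - c‖ * ‖SS w c + c‖ = ‖w‖ ^ 2 := by
      rw [← norm_mul, h1, norm_pow]
    rw [le_div_iff₀ hc, ← h3]
    exact mul_le_mul_of_nonneg_left h2 (norm_nonneg _)
  have t0 : Tendsto (fun c : ℝ => ‖w‖ ^ 2 / c) atTop (𝓝 0) :=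
    tendsto_const_nhds.div_atTop tendsto_id
  have t1 : Tendsto (fun c : ℝ => SS w c - c) atTop (𝓝 0) := by
    apply squeeze_zero_norm' _ t0
    filter_upwards [eventually_gt_atTop 0] with c hc using hb c hc
  have hRn : ∀ c : ℝ, 0 < c → β ≤ ‖SS β c‖ := by
    intro c hc
    rw [SS_real β c hβ, Complex.norm_real, Real.norm_eq_abs, abs_of_nonneg (Real.sqrt_nonneg _)]
    exact Real.le_sqrt_of_sq_le (by nlinarith [sq_nonneg c])
  have t2 : Tendsto (fun c : ℝ => (SS w c - c) / SS β c) atTop (𝓝 0) := by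
    have t3 : Tendsto (fun c : ℝ => ‖SS w c - c‖ / β) atTop (𝓝 0) := by
      simpa using (t1.norm.div_const β)
    apply squeeze_zero_norm' _ t3
    filter_upwards [eventually_gt_atTop 0] with c hc
    rw [norm_div]
    exact div_le_div_of_nonneg_left (norm_nonneg _) hβ (hRn c hc)
  have hRc : ∀ c : ℝ, 0 < c → β ≤ ‖(c : ℂ) + SS β c‖ := by
    intro c hc
    refine le_trans ?_ (Complex.re_le_norm _)
    rw [SS_real β c hβ, Complex.add_re, Complex.ofReal_re, Complex.ofReal_re]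
    have : β ≤ √(β ^ 2 + c ^ 2) := Real.le_sqrt_of_sq_le (by nlinarith [sq_nonneg c])
    linarith
  have t4 : Tendsto (fun c : ℝ => (SS w c - c) / ((c : ℂ) + SS β c)) atTop (𝓝 0) := by
    have t3 : Tendsto (fun c : ℝ => ‖SS w c - c‖ / β) atTop (𝓝 0) := by
      simpa using (t1.norm.div_const β)
    apply squeeze_zero_norm' _ t3
    filter_upwards [eventually_gt_atTop 0] with c hc
    rw [norm_div]
    exact div_le_div_of_nonneg_left (norm_nonneg _) hβ (hRc c hc)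
  have t5 : Tendsto (fun c : ℝ => Real.log ‖1 + (SS w c - c) / ((c : ℂ) + SS β c)‖) atTop (𝓝 0) := by
    have h1 : Tendsto (fun c : ℝ => ‖1 + (SS w c - c) / ((c : ℂ) + SS β c)‖) atTop (𝓝 1) := by
      simpa using ((tendsto_const_nhds (x := (1 : ℂ))).add t4).norm
    have h2 := (Real.continuousAt_log one_ne_zero).tendsto.comp h1
    rw [Real.log_one] at h2
    exact h2
  have t6 : Tendsto (fun c : ℝ => -((SS w c - c) / SS β c).re +
      Real.log ‖1 + (SS w c - c) / ((c : ℂ) + SS β c)‖) atTop (𝓝 0) := by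
    have h1 := (Complex.continuous_re.tendsto 0).comp t2
    have h2 := h1.neg.add t5
    simpa using h2
  refine t6.congr' ?_
  filter_upwards [eventually_gt_atTop 0] with c hc
  have n4 : (c : ℂ) + SS β c ≠ 0 := by
    intro h0
    have := hRc c hc
    rw [h0, norm_zero] at this
    linarith
  have hz : w ^ 2 + (c : ℂ) ^ 2 ∈ Complex.slitPlane := by rw [hw]; exact slit x τ c hx
  have n5 : SS w c + SS β c ≠ 0 := by
    intro h0
    have h1 := congrArg Complex.re h0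
    rw [Complex.add_re, hw, SS_re, SS_real β c hβ, Complex.ofReal_re, Complex.zero_re] at h1
    have h2 : 0 ≤ pp c x τ := Real.sqrt_nonneg _
    have h3 : 0 < √(β ^ 2 + c ^ 2) := by positivity
    linarith
  have h1 : 1 + (SS w c - c) / ((c : ℂ) + SS β c) = (SS w c + SS β c) / ((c : ℂ) + SS β c) := by
    field_simp
    ring
  rw [h1, norm_div, Real.log_div (norm_ne_zero_iff.2 n5) (norm_ne_zero_iff.2 n4)]
  unfold GG
  rw [Complex.sub_re, Complex.add_re, Complex.log_re, Complex.log_re, Complex.neg_re]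
  ring

theorem int1_of (hpp : S_pp) (hroot : S_root) : S_int1 := by
  have _ := hroot
  intro β x τ hβ hx
  obtain ⟨F, hF⟩ : ∃ F : ℝ → ℝ, F = fun c : ℝ =>
      (GG β ((x : ℂ) + ((0 : ℝ) : ℂ) * Complex.I) c).re -
        (GG β ((x : ℂ) + (τ : ℂ) * Complex.I) c).re := ⟨_, rfl⟩
  have hder : ∀ c ∈ Set.Ici (0 : ℝ), HasDerivAt F
      (Wt β c * (√(x ^ 2 + c ^ 2) - pp c x τ)) c := by
    intro c hc
    have h1 := (GG_deriv β x 0 c hβ hx hc).sub (GG_deriv β x τ c hβ hx hc)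
    rw [hF]
    refine HasDerivAt.congr_deriv h1 ?_
    rw [pp_zero]
    ring
  have hpos : ∀ c ∈ Set.Ioi (0 : ℝ), 0 ≤ Wt β c * (√(x ^ 2 + c ^ 2) - pp c x τ) := by
    intro c hc
    have hc' : 0 < c := hc
    apply mul_nonneg
    · unfold Wt
      positivity
    · exact (hpp.2.2.2.1 c x τ hc' hx).1
  have htend : Tendsto F atTop (𝓝 0) := by
    rw [hF]
    simpa using (GG_tend β x 0 hβ hx).sub (GG_tend β x τ hβ hx)
  refine ⟨integrableOn_Ioi_deriv_of_nonneg' hder hpos htend, ?_⟩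
  rw [integral_Ioi_of_hasDerivAt_of_nonneg' hder hpos htend, hF]
  simp only
  rw [GG_zero β x 0 hβ hx, GG_zero β x τ hβ hx, lg]
  have h1 : 1 + τ ^ 2 / (β + x) ^ 2 = ((x + β) ^ 2 + τ ^ 2) / ((x + β) ^ 2 + 0 ^ 2) := by
    have : β + x ≠ 0 := by positivity
    have : x + β ≠ 0 := by positivity
    rw [show (x + β) ^ 2 + (0 : ℝ) ^ 2 = (β + x) ^ 2 by ring]
    field_simp
    ring
  rw [h1, Real.log_div (by positivity) (by positivity)]
  ring

end Pool.Agent.TH41.LP.INT1f
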