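import Mathlib
import Pool.Agent.TH41.LP.Stm

set_option autoImplicit false

open MeasureTheory Filter Topology

namespace Pool.Agent.TH41.LP.INT2f

open Pool.Agent.TH41.LP

theorem hasDerivAt_root (a c : ℝ) (ha : 0 < a) :
    HasDerivAt (fun c : ℝ => √(a ^ 2 + c ^ 2)) (c / √(a ^ 2 + c ^ 2)) c := by
  have h1 : HasDerivAt (fun c : ℝ => a ^ 2 + c ^ 2) (2 * c) c := by
    have := (hasDerivAt_pow 2 c).const_add (a ^ 2)
    simpa using this
  have h2 := h1.sqrt (by positivity)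
  convert h2 using 1
  field_simp

theorem hasDerivAt_G (β x c : ℝ) (hβ : 0 < β) (hx : 0 < x) :
    HasDerivAt (fun c : ℝ => -x / (√(β ^ 2 + c ^ 2) * (√(β ^ 2 + c ^ 2) + √(x ^ 2 + c ^ 2))))
      (Wt β c * (x / √(x ^ 2 + c ^ 2))) c := by
  have hR : 0 < √(β ^ 2 + c ^ 2) := Real.sqrt_pos.2 (by positivity)
  have hS : 0 < √(x ^ 2 + c ^ 2) := Real.sqrt_pos.2 (by positivity)
  have h1 := hasDerivAt_root β c hβ
  have h2 := hasDerivAt_root x c hx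
  have h3 : HasDerivAt (fun c : ℝ => √(β ^ 2 + c ^ 2) * (√(β ^ 2 + c ^ 2) + √(x ^ 2 + c ^ 2)))
      (c / √(β ^ 2 + c ^ 2) * (√(β ^ 2 + c ^ 2) + √(x ^ 2 + c ^ 2)) +
        √(β ^ 2 + c ^ 2) * (c / √(β ^ 2 + c ^ 2) + c / √(x ^ 2 + c ^ 2))) c :=
    h1.mul (h1.add h2)
  have h4 := (hasDerivAt_const c (-x)).div h3 (mul_pos hR (add_pos hR hS)).ne'
  refine h4.congr_deriv ?_
  unfold Wt
  generalize √(β ^ 2 + c ^ 2) = R at *
  generalize √(x ^ 2 + c ^ 2) = S at *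
  field_simp
  ring

theorem tendsto_G (β x : ℝ) :
    Tendsto (fun c : ℝ => -x / (√(β ^ 2 + c ^ 2) * (√(β ^ 2 + c ^ 2) + √(x ^ 2 + c ^ 2))))
      atTop (𝓝 0) := by
  apply Tendsto.div_atTop tendsto_const_nhds
  have h1 : Tendsto (fun c : ℝ => c * c) atTop atTop := tendsto_id.atTop_mul_atTop₀ tendsto_id
  refine tendsto_atTop_mono' atTop ?_ h1
  filter_upwards [eventually_ge_atTop (0 : ℝ)] with c hc
  have h2 : c ≤ √(β ^ 2 + c ^ 2) := Real.le_sqrt_of_sq_le (by nlinarith)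
  have h3 : 0 ≤ √(x ^ 2 + c ^ 2) := Real.sqrt_nonneg _
  exact mul_le_mul h2 (by linarith) hc (Real.sqrt_nonneg _)

theorem int2 : S_int2 := by
  intro β x hβ hx
  rcases hx.eq_or_lt with rfl | hx
  · simp
  have hcont : ContinuousWithinAt
      (fun c : ℝ => -x / (√(β ^ 2 + c ^ 2) * (√(β ^ 2 + c ^ 2) + √(x ^ 2 + c ^ 2))))
      (Set.Ici 0) 0 := (hasDerivAt_G β x 0 hβ hx).continuousAt.continuousWithinAt
  have hpos : ∀ c ∈ Set.Ioi (0 : ℝ), 0 ≤ Wt β c * (x / √(x ^ 2 + c ^ 2)) := by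
    intro c hc
    have hc' : (0 : ℝ) < c := hc
    unfold Wt
    positivity
  refine ⟨integrableOn_Ioi_deriv_of_nonneg hcont (fun c _ => hasDerivAt_G β x c hβ hx) hpos
    (tendsto_G β x), ?_⟩
  rw [integral_Ioi_of_hasDerivAt_of_nonneg hcont (fun c _ => hasDerivAt_G β x c hβ hx) hpos
    (tendsto_G β x)]
  simp only [ne_eq, OfNat.ofNat_ne_zero, not_false_eq_true, zero_pow, add_zero]
  rw [Real.sqrt_sq hβ.le, Real.sqrt_sq hx.le]
  ring

end Pool.Agent.TH41.LP.INT2f
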