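import Mathlib
import Pool.Agent.TH41.LP.Stm

set_option autoImplicit false

open MeasureTheory Filter Topology

namespace Pool.Agent.TH41.LP.KSf

open Pool.Agent.TH41.LP

theorem ks_of (he : S_ee) : S_ks := by
  intro F D K hD hK
  obtain ⟨hdiff, heven, -, hreal, -⟩ := he F D hD
  have hcont : Continuous (EE F D) := hdiff.continuous
  have hGcont : Continuous fun z : ℂ => (Complex.Gamma z)⁻¹ :=
    Complex.differentiable_one_div_Gamma.continuous
  refine ⟨?_, ?_, ?_⟩
  · unfold KK
    have h2 : Continuous fun s : ℂ => Complex.exp ((s ^ 2 - D * s) / (2 * K * D)) := by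
      fun_prop
    have h3 : Continuous fun s : ℂ => (Complex.Gamma (D / 2 + 1) /
      (Complex.Gamma (s / 2 + 1) * Complex.Gamma ((D - s) / 2 + 1))) := by
      have e : (fun s : ℂ => (Complex.Gamma (D / 2 + 1) /
          (Complex.Gamma (s / 2 + 1) * Complex.Gamma ((D - s) / 2 + 1)))) =
          fun s : ℂ => Complex.Gamma (D / 2 + 1) *
            ((fun z : ℂ => (Complex.Gamma z)⁻¹) (s / 2 + 1) *
             (fun z : ℂ => (Complex.Gamma z)⁻¹) ((D - s) / 2 + 1)) := by
        funext s; simp only [div_eq_mul_inv, mul_inv]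
      rw [e]
      apply Continuous.mul continuous_const
      apply Continuous.mul
      · exact hGcont.comp (by fun_prop)
      · exact hGcont.comp (by fun_prop)
    have h4 : Continuous fun s : ℂ =>
        EE F D s * EE F D (D - s) / (EE F D 0 * EE F D D) := by
      apply Continuous.div_const
      apply Continuous.mul hcont
      exact hcont.comp (by fun_prop)
    exact (h2.mul h3).mul h4
  · intro s
    unfold KK
    have e1 : (D : ℂ) - (D - s) = s := by ring
    have e2 : ((D : ℂ) - s) ^ 2 - D * (D - s) = s ^ 2 - D * s := by ring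
    rw [e1, e2]
    ring
  · intro t
    have ed : ((D / 2 : ℝ) : ℂ) = (D : ℂ) / 2 := by push_cast; ring
    rw [ed]
    set s : ℂ := (D : ℂ) / 2 + t * Complex.I with hs
    have hsre : s.re = D / 2 := by
      rw [hs]; simp
    have hs0 : s ≠ 0 := by
      intro h
      have : s.re = 0 := by rw [h]; simp
      rw [hsre] at this
      linarith
    have hs2 : s / 2 ≠ 0 := div_ne_zero hs0 (by norm_num)
    have hG : Complex.Gamma (s / 2 + 1) = (s / 2) * Complex.Gamma (s / 2) :=
      Complex.Gamma_add_one _ hs2
    have hG0 : Complex.Gamma (s / 2) ≠ 0 := by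
      apply Complex.Gamma_ne_zero_of_re_pos
      have : (s / 2).re = D / 4 := by
        rw [show s / 2 = ((1 / 2 : ℝ) : ℂ) * s by push_cast; ring, Complex.re_ofReal_mul, hsre]
        ring
      rw [this]; positivity
    unfold KK YY
    rw [hG]
    have hD1 : (Complex.Gamma ((D - s) / 2 + 1)) ≠ 0 := by
      apply Complex.Gamma_ne_zero_of_re_pos
      have : (((D : ℂ) - s) / 2 + 1).re = D / 4 + 1 := by
        rw [show ((D : ℂ) - s) / 2 + 1 = ((1 / 2 : ℝ) : ℂ) * (D - s) + 1 by push_cast; ring,
          Complex.add_re, Complex.re_ofReal_mul, Complex.sub_re, hsre, Complex.ofReal_re,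
          Complex.one_re]
        ring
      rw [this]; positivity
    field_simp

end Pool.Agent.TH41.LP.KSf
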