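import Mathlib
import Pool.Agent.TH41.LP.Stm

/-!
Project LP (helper41), piece P12: the grid sum against the integral.  `Psi a τ` is the integral of
`u ↦ lg u τ` over `(a, ∞)`; the sums over the grid are compared with it by monotonicity.
-/

set_option autoImplicit false

open MeasureTheory Filter Topology

namespace Pool.Agent.TH41.LP.P12f

open Pool.Agent.TH41.LP

/-- the integral of `u ↦ lg u τ` over `(a, ∞)` -/
noncomputable def Psi (a τ : ℝ) : ℝ :=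
  τ * Real.arctan (τ / a) - 1 / 2 * a * Real.log (1 + τ ^ 2 / a ^ 2)

lemma Phi_eq (x τ : ℝ) : Phi x τ = 1 / 2 * Psi (1 + x) τ := by
  unfold Phi Psi; ring

lemma ratio_nonneg (a τ : ℝ) : 0 ≤ τ ^ 2 / a ^ 2 := div_nonneg (sq_nonneg τ) (sq_nonneg a)

lemma log_nn (a τ : ℝ) : 0 ≤ Real.log (1 + τ ^ 2 / a ^ 2) :=
  Real.log_nonneg (by have := ratio_nonneg a τ; linarith)

lemma log_le (a τ : ℝ) : Real.log (1 + τ ^ 2 / a ^ 2) ≤ τ ^ 2 / a ^ 2 := by
  have h := Real.log_le_sub_one_of_pos (x := 1 + τ ^ 2 / a ^ 2)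
    (by have := ratio_nonneg a τ; linarith)
  linarith

lemma lg_nonneg (a τ : ℝ) : 0 ≤ lg a τ := by
  unfold lg
  have := log_nn a τ
  linarith

lemma lg_le (a τ : ℝ) : lg a τ ≤ 1 / 2 * (τ ^ 2 / a ^ 2) := by
  unfold lg
  have := log_le a τ
  linarith

lemma lg_anti {a b : ℝ} (ha : 0 < a) (hab : a ≤ b) (τ : ℝ) : lg b τ ≤ lg a τ := by
  unfold lg
  have h1 : τ ^ 2 / b ^ 2 ≤ τ ^ 2 / a ^ 2 :=
    div_le_div_of_nonneg_left (sq_nonneg τ) (by positivity) (pow_le_pow_left₀ ha.le hab 2)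
  have h2 : Real.log (1 + τ ^ 2 / b ^ 2) ≤ Real.log (1 + τ ^ 2 / a ^ 2) :=
    Real.log_le_log (by have := ratio_nonneg b τ; linarith) (by linarith)
  linarith

/-- `log (1 + s y) ≥ s log (1 + y)` for `0 ≤ s ≤ 1`, `y ≥ 0` -/
lemma log_scale {s y : ℝ} (hs0 : 0 ≤ s) (hs1 : s ≤ 1) (hy : 0 ≤ y) :
    s * Real.log (1 + y) ≤ Real.log (1 + s * y) := by
  have hc := strictConcaveOn_log_Ioi.concaveOn
  have h := hc.2 (Set.mem_Ioi.mpr one_pos) (Set.mem_Ioi.mpr (by linarith : (0 : ℝ) < 1 + y))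
    (by linarith : (0 : ℝ) ≤ 1 - s) hs0 (by ring)
  simp only [smul_eq_mul, Real.log_one, mul_zero, zero_add] at h
  have he : (1 - s) * 1 + s * (1 + y) = 1 + s * y := by ring
  rw [he] at h
  exact h

lemma lg_scale {c a : ℝ} (hc : 1 ≤ c) (ha : 0 < a) (τ : ℝ) :
    (c ^ 2)⁻¹ * lg a τ ≤ lg (c * a) τ := by
  unfold lg
  have hc0 : 0 < c := by linarith
  have h := log_scale (s := (c ^ 2)⁻¹) (y := τ ^ 2 / a ^ 2) (by positivity)
    (inv_le_one_of_one_le₀ (by nlinarith)) (ratio_nonneg a τ)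
  have he : (c ^ 2)⁻¹ * (τ ^ 2 / a ^ 2) = τ ^ 2 / (c * a) ^ 2 := by
    field_simp
  rw [he] at h
  linarith

lemma hasDerivAt_Psi {a : ℝ} (ha : 0 < a) (τ : ℝ) :
    HasDerivAt (fun a => Psi a τ) (-lg a τ) a := by
  unfold Psi lg
  have h1 : HasDerivAt (fun a : ℝ => τ / a) (-τ / a ^ 2) a := by
    have h := (hasDerivAt_inv ha.ne').const_mul τ
    have h' := h.congr_deriv (show τ * -(a ^ 2)⁻¹ = -τ / a ^ 2 by field_simp)
    simpa only [div_eq_mul_inv] using h'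
  have h2 : HasDerivAt (fun a : ℝ => Real.arctan (τ / a)) (1 / (1 + (τ / a) ^ 2) * (-τ / a ^ 2)) a :=
    (Real.hasDerivAt_arctan (τ / a)).comp a h1
  have h3 : HasDerivAt (fun a : ℝ => 1 + τ ^ 2 / a ^ 2) (-2 * τ ^ 2 / a ^ 3) a := by
    have h := ((hasDerivAt_pow 2 a).inv (by positivity)).const_mul (τ ^ 2)
    have h' := h.const_add 1
    have h'' := h'.congr_deriv (show τ ^ 2 * (-((2 : ℕ) * a ^ (2 - 1)) / (a ^ 2) ^ 2) =
      -2 * τ ^ 2 / a ^ 3 by field_simp; push_cast; ring)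
    have hfun : (fun a : ℝ => 1 + τ ^ 2 / a ^ 2) = fun x => 1 + τ ^ 2 * (fun x => x ^ 2)⁻¹ x := by
      funext x
      simp [div_eq_mul_inv]
    rw [hfun]
    exact h''
  have h4 : HasDerivAt (fun a : ℝ => Real.log (1 + τ ^ 2 / a ^ 2))
      ((-2 * τ ^ 2 / a ^ 3) / (1 + τ ^ 2 / a ^ 2)) a :=
    h3.log (by have := ratio_nonneg a τ; linarith)
  have h5 : HasDerivAt (fun a : ℝ => 1 / 2 * a) (1 / 2) a := by
    simpa using (hasDerivAt_id a).const_mul (1 / 2 : ℝ)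
  have h6 := (h2.const_mul τ).sub (h5.mul h4)
  refine h6.congr_deriv ?_
  have hpos : 0 < a ^ 2 + τ ^ 2 := by positivity
  have e1 : 1 + (τ / a) ^ 2 = (a ^ 2 + τ ^ 2) / a ^ 2 := by field_simp
  have e2 : 1 + τ ^ 2 / a ^ 2 = (a ^ 2 + τ ^ 2) / a ^ 2 := by field_simp
  rw [e1, e2]
  field_simp
  ring

lemma mul_arctan_le (a τ : ℝ) (ha : 0 < a) :
    0 ≤ τ * Real.arctan (τ / a) ∧ τ * Real.arctan (τ / a) ≤ τ ^ 2 / a := by
  have key : ∀ t : ℝ, 0 ≤ t → 0 ≤ t * Real.arctan (t / a) ∧ t * Real.arctan (t / a) ≤ t ^ 2 / a := by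
    intro t ht
    have h0 : 0 ≤ t / a := by positivity
    have h1 : 0 ≤ Real.arctan (t / a) := Real.arctan_nonneg.mpr h0
    have h2 : Real.arctan (t / a) ≤ t / a := by
      rcases eq_or_lt_of_le h0 with h | h
      · rw [← h]; simp
      · have h3 := Real.lt_tan (Real.arctan_pos.mpr h) (Real.arctan_lt_pi_div_two (t / a))
        rw [Real.tan_arctan] at h3
        exact h3.le
    refine ⟨by positivity, ?_⟩
    calc t * Real.arctan (t / a) ≤ t * (t / a) := mul_le_mul_of_nonneg_left h2 ht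
      _ = t ^ 2 / a := by ring
  rcases le_total 0 τ with h | h
  · exact key τ h
  · have := key (-τ) (by linarith)
    have e : -τ * Real.arctan (-τ / a) = τ * Real.arctan (τ / a) := by
      rw [neg_div, Real.arctan_neg]; ring
    rw [e] at this
    simpa using this

lemma Psi_le {a : ℝ} (ha : 0 < a) (τ : ℝ) : Psi a τ ≤ τ ^ 2 / a := by
  unfold Psi
  have h1 := (mul_arctan_le a τ ha).2
  have h2 : 0 ≤ 1 / 2 * a * Real.log (1 + τ ^ 2 / a ^ 2) :=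
    mul_nonneg (by positivity) (log_nn a τ)
  linarith

lemma Psi_ge {a : ℝ} (ha : 0 < a) (τ : ℝ) : -(τ ^ 2 / (2 * a)) ≤ Psi a τ := by
  unfold Psi
  have h1 := (mul_arctan_le a τ ha).1
  have h2 : 1 / 2 * a * Real.log (1 + τ ^ 2 / a ^ 2) ≤ 1 / 2 * a * (τ ^ 2 / a ^ 2) :=
    mul_le_mul_of_nonneg_left (log_le a τ) (by positivity)
  have h3 : 1 / 2 * a * (τ ^ 2 / a ^ 2) = τ ^ 2 / (2 * a) := by field_simp
  linarith

lemma comp {g h : ℝ} (hg : 0 < g) (hh : 0 < h) (τ : ℝ) :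
    h * lg (g + h) τ ≤ Psi g τ - Psi (g + h) τ ∧ Psi g τ - Psi (g + h) τ ≤ h * lg g τ := by
  obtain ⟨c, hc, hc'⟩ := exists_hasDerivAt_eq_slope (fun a => Psi a τ) (fun a => -lg a τ)
    (show g < g + h by linarith)
    (fun a ha => (hasDerivAt_Psi (lt_of_lt_of_le hg ha.1) τ).continuousAt.continuousWithinAt)
    (fun a ha => hasDerivAt_Psi (lt_trans hg ha.1) τ)
  have hh' : g + h - g = h := by ring
  rw [hh', eq_div_iff hh.ne'] at hc'
  have h1 := lg_anti (lt_trans hg hc.1) hc.2.le τ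
  have h2 := lg_anti hg hc.1.le τ
  constructor
  · nlinarith
  · nlinarith

lemma Psi_anti {a b : ℝ} (ha : 0 < a) (hab : a ≤ b) (τ : ℝ) : Psi b τ ≤ Psi a τ := by
  rcases eq_or_lt_of_le hab with h | h
  · rw [h]
  · have h1 := (comp ha (sub_pos.mpr h) τ).1
    have h2 : a + (b - a) = b := by ring
    rw [h2] at h1
    have h3 : 0 ≤ (b - a) * lg b τ := mul_nonneg (by linarith) (lg_nonneg b τ)
    linarith

lemma Psi_nonneg {a : ℝ} (ha : 0 < a) (τ : ℝ) : 0 ≤ Psi a τ := by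
  have ht : Tendsto (fun b : ℝ => -(τ ^ 2 / (2 * b))) atTop (𝓝 0) := by
    have h1 : Tendsto (fun b : ℝ => 2 * b) atTop atTop :=
      Tendsto.const_mul_atTop (by norm_num) tendsto_id
    have h2 := (tendsto_const_nhds (x := τ ^ 2)).div_atTop h1
    simpa using h2.neg
  refine le_of_tendsto ht ?_
  filter_upwards [eventually_ge_atTop a] with b hb
  exact (Psi_ge (lt_of_lt_of_le ha hb) τ).trans (Psi_anti ha hb τ)

/-- the sum with step `h` against the integral -/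
lemma sum_comp {a h : ℝ} (ha : 0 < a) (hh : 0 < h) (τ : ℝ) (M : ℕ) :
    Psi a τ - Psi (a + M * h) τ ≤ h * ∑ n ∈ Finset.range M, lg (a + n * h) τ ∧
    h * ∑ n ∈ Finset.range M, lg (a + n * h) τ ≤
      Psi a τ - Psi (a + M * h) τ + h * (lg a τ - lg (a + M * h) τ) := by
  induction M with
  | zero => simp
  | succ M ih =>
    have hp : 0 < a + M * h := by positivity
    have hc := comp hp hh τ
    have he : a + (M : ℝ) * h + h = a + ((M + 1 : ℕ) : ℝ) * h := by push_cast; ring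
    rw [he] at hc
    rw [Finset.sum_range_succ, mul_add]
    constructor
    · linarith [ih.1, hc.2]
    · linarith [ih.2, hc.1]

/-- the grid sum -/
noncomputable def T (N H : ℕ) (x τ : ℝ) : ℝ :=
  1 / (2 * (H : ℝ)) * ∑ k ∈ Finset.range N, ∑ l ∈ Finset.range H,
      lg (2 * (k : ℝ) + 1 + (l : ℝ) / H + x) τ

lemma T_add (N H : ℕ) (hH : 0 < H) (x τ : ℝ) :
    T N H x τ + T N H (1 + x) τ =
      1 / (2 * (H : ℝ)) * ∑ n ∈ Finset.range (2 * N * H), lg (1 + x + n * (1 / (H : ℝ))) τ := by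
  have hH' : (H : ℝ) ≠ 0 := by positivity
  unfold T
  rw [← mul_add]
  congr 1
  induction N with
  | zero => simp
  | succ N ih =>
    rw [Finset.sum_range_succ, Finset.sum_range_succ]
    have e1 : 2 * (N + 1) * H = 2 * N * H + H + H := by ring
    rw [e1, Finset.sum_range_add, Finset.sum_range_add, ← ih]
    have e2 : ∑ l ∈ Finset.range H, lg (2 * (N : ℝ) + 1 + (l : ℝ) / H + x) τ =
        ∑ l ∈ Finset.range H, lg (1 + x + ((2 * N * H + l : ℕ) : ℝ) * (1 / (H : ℝ))) τ := by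
      refine Finset.sum_congr rfl fun l _ => ?_
      congr 1
      push_cast
      field_simp
      ring
    have e3 : ∑ l ∈ Finset.range H, lg (2 * (N : ℝ) + 1 + (l : ℝ) / H + (1 + x)) τ =
        ∑ l ∈ Finset.range H, lg (1 + x + ((2 * N * H + H + l : ℕ) : ℝ) * (1 / (H : ℝ))) τ := by
      refine Finset.sum_congr rfl fun l _ => ?_
      congr 1
      push_cast
      field_simp
      ring
    rw [e2, e3]
    ring

/-- the two grid sums against the integral -/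
lemma T_comp (N H : ℕ) (hH : 0 < H) {x : ℝ} (hx : 0 ≤ x) (τ : ℝ) :
    1 / 2 * Psi (1 + x) τ - τ ^ 2 * (1 / (2 * (2 * N + 1))) ≤ T N H x τ + T N H (1 + x) τ ∧
    T N H x τ + T N H (1 + x) τ ≤ 1 / 2 * Psi (1 + x) τ + τ ^ 2 * (1 / (4 * H)) := by
  have hH' : (0 : ℝ) < H := by exact_mod_cast hH
  rw [T_add N H hH]
  have h := sum_comp (a := 1 + x) (h := 1 / (H : ℝ)) (by linarith) (by positivity) τ (2 * N * H)
  have he : 1 + x + ((2 * N * H : ℕ) : ℝ) * (1 / (H : ℝ)) = 1 + x + 2 * N := by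
    push_cast
    field_simp
  rw [he] at h
  have hf : 1 / (2 * (H : ℝ)) * ∑ n ∈ Finset.range (2 * N * H), lg (1 + x + n * (1 / (H : ℝ))) τ =
      1 / 2 * (1 / (H : ℝ) * ∑ n ∈ Finset.range (2 * N * H), lg (1 + x + n * (1 / (H : ℝ))) τ) := by
    have : 1 / (2 * (H : ℝ)) = 1 / 2 * (1 / (H : ℝ)) := by field_simp
    rw [this, mul_assoc]
  rw [hf]
  have hN : (0 : ℝ) ≤ N := Nat.cast_nonneg N
  have h1 : Psi (1 + x + 2 * N) τ ≤ τ ^ 2 * (1 / (2 * N + 1)) := by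
    refine (Psi_le (by linarith) τ).trans ?_
    rw [div_eq_mul_one_div]
    exact mul_le_mul_of_nonneg_left (one_div_le_one_div_of_le (by linarith) (by linarith))
      (sq_nonneg τ)
  have h2 : 0 ≤ Psi (1 + x + 2 * N) τ := Psi_nonneg (by linarith) τ
  have h3 : lg (1 + x) τ ≤ τ ^ 2 * (1 / 2) := by
    refine (lg_le (1 + x) τ).trans ?_
    have : τ ^ 2 / (1 + x) ^ 2 ≤ τ ^ 2 := div_le_self (sq_nonneg τ) (by nlinarith)
    linarith
  have h4 := lg_nonneg (1 + x + 2 * N) τ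
  have h5 : 1 / (H : ℝ) * (lg (1 + x) τ - lg (1 + x + 2 * N) τ) ≤ 1 / (H : ℝ) * (τ ^ 2 * (1 / 2)) :=
    mul_le_mul_of_nonneg_left (by linarith) (by positivity)
  have e1 : 1 / (2 * (2 * (N : ℝ) + 1)) = 1 / 2 * (1 / (2 * N + 1)) := by
    field_simp
  have e2 : 1 / (4 * (H : ℝ)) = 1 / 2 * (1 / (H : ℝ) * (1 / 2)) := by
    field_simp; norm_num
  constructor
  · rw [e1]
    have := h.1
    nlinarith
  · rw [e2]
    have := h.2
    nlinarith

lemma T_anti (N H : ℕ) {x y : ℝ} (hx : 0 ≤ x) (hxy : x ≤ y) (τ : ℝ) :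
    T N H y τ ≤ T N H x τ := by
  unfold T
  refine mul_le_mul_of_nonneg_left ?_ (by positivity)
  refine Finset.sum_le_sum fun k _ => Finset.sum_le_sum fun l _ => ?_
  exact lg_anti (by positivity) (by linarith) τ

lemma T_scale (N H : ℕ) {x : ℝ} (hx : 0 ≤ x) (τ : ℝ) :
    ((1 + x) ^ 2)⁻¹ * T N H 0 τ ≤ T N H x τ := by
  unfold T
  rw [mul_left_comm]
  refine mul_le_mul_of_nonneg_left ?_ (by positivity)
  rw [Finset.mul_sum]
  refine Finset.sum_le_sum fun k _ => ?_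
  rw [Finset.mul_sum]
  refine Finset.sum_le_sum fun l _ => ?_
  have hb : 0 < 2 * (k : ℝ) + 1 + (l : ℝ) / H := by positivity
  have hb1 : 1 ≤ 2 * (k : ℝ) + 1 + (l : ℝ) / H := by
    have : 0 ≤ 2 * (k : ℝ) + (l : ℝ) / H := by positivity
    linarith
  rw [add_zero]
  refine (lg_scale (c := 1 + x) (by linarith) hb τ).trans ?_
  refine lg_anti (by positivity) ?_ τ
  nlinarith

lemma T_nonneg (N H : ℕ) (x τ : ℝ) : 0 ≤ T N H x τ := by
  unfold T
  exact mul_nonneg (by positivity)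
    (Finset.sum_nonneg fun k _ => Finset.sum_nonneg fun l _ => lg_nonneg _ τ)

/-- `a ↦ a Ψ(a)` is nondecreasing: here `s Ψ(s) ≤ Ψ(1)` -/
lemma Psi_scale {s : ℝ} (hs : 0 < s) (hs1 : s ≤ 1) (τ : ℝ) : Psi s τ ≤ s⁻¹ * Psi 1 τ := by
  set f : ℝ → ℝ := fun a => s⁻¹ * Psi a τ - Psi (s * a) τ with hf
  have hd : ∀ a : ℝ, 0 < a → HasDerivAt f (s⁻¹ * (-lg a τ) - (-lg (s * a) τ) * s) a := by
    intro a ha
    have h1 := (hasDerivAt_Psi ha τ).const_mul s⁻¹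
    have h2 : HasDerivAt (fun a : ℝ => s * a) s a := by
      simpa using (hasDerivAt_id a).const_mul s
    have h3 := (hasDerivAt_Psi (a := s * a) (by positivity) τ).comp a h2
    exact h1.sub h3
  have hneg : ∀ a : ℝ, 0 < a → s⁻¹ * (-lg a τ) - (-lg (s * a) τ) * s ≤ 0 := by
    intro a ha
    have h := lg_scale (c := s⁻¹) (a := s * a) ((one_le_inv₀ hs).mpr hs1) (by positivity) τ
    have e : s⁻¹ * (s * a) = a := by field_simp
    rw [e] at h
    have e2 : ((s⁻¹) ^ 2)⁻¹ = s ^ 2 := by field_simp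
    rw [e2] at h
    have h3 := mul_le_mul_of_nonneg_left h (inv_pos.mpr hs).le
    have e3 : s⁻¹ * (s ^ 2 * lg (s * a) τ) = lg (s * a) τ * s := by field_simp
    rw [e3] at h3
    linarith
  have hanti : AntitoneOn f (Set.Ioi 0) := by
    refine antitoneOn_of_deriv_nonpos (convex_Ioi 0)
      (fun a ha => (hd a ha).continuousAt.continuousWithinAt) ?_ ?_
    · rw [interior_Ioi]
      exact fun a ha => (hd a ha).differentiableAt.differentiableWithinAt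
    · rw [interior_Ioi]
      intro a ha
      rw [(hd a ha).deriv]
      exact hneg a ha
  have hlow : ∀ b : ℝ, 1 ≤ b → -(τ ^ 2 / (s * b)) ≤ f 1 := by
    intro b hb
    have hb0 : 0 < b := by linarith
    have h1 : f b ≤ f 1 := hanti (by simp) hb0 hb
    have h2 : 0 ≤ s⁻¹ * Psi b τ := mul_nonneg (inv_pos.mpr hs).le (Psi_nonneg hb0 τ)
    have h3 := Psi_le (a := s * b) (by positivity) τ
    have h4 : f b = s⁻¹ * Psi b τ - Psi (s * b) τ := rfl
    linarith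
  have ht : Tendsto (fun b : ℝ => -(τ ^ 2 / (s * b))) atTop (𝓝 0) := by
    have h1 : Tendsto (fun b : ℝ => s * b) atTop atTop :=
      Tendsto.const_mul_atTop hs tendsto_id
    have h2 := (tendsto_const_nhds (x := τ ^ 2)).div_atTop h1
    simpa using h2.neg
  have h0 : 0 ≤ f 1 := by
    refine le_of_tendsto ht ?_
    filter_upwards [eventually_ge_atTop 1] with b hb
    exact hlow b hb
  have h5 : f 1 = s⁻¹ * Psi 1 τ - Psi s τ := by simp [hf]
  linarith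

/-- the grid sum against the integral -/
theorem p12 : S_p12 := by
  intro η hη
  obtain ⟨N0, hN0⟩ := exists_nat_ge (1 / η)
  refine ⟨N0 + 1, fun N H hN hH hHpos F hF => ?_⟩
  have hN' : 1 / η ≤ (N : ℝ) := hN0.trans (by exact_mod_cast (by omega : N0 ≤ N))
  have hH' : 1 / η ≤ (H : ℝ) := hN0.trans (by exact_mod_cast (by omega : N0 ≤ H))
  have hNpos : (0 : ℝ) < N := lt_of_lt_of_le (by positivity) hN'
  have hHp : (0 : ℝ) < H := by exact_mod_cast hHpos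
  have hNi : 1 / (N : ℝ) ≤ η := by
    rw [div_le_iff₀ hNpos]
    rw [div_le_iff₀ hη] at hN'
    linarith
  have hHi : 1 / (H : ℝ) ≤ η := by
    rw [div_le_iff₀ hHp]
    rw [div_le_iff₀ hη] at hH'
    linarith
  have hNe : 1 / (2 * (2 * (N : ℝ) + 1)) ≤ η / 4 := by
    have h1 : 1 / (2 * (2 * (N : ℝ) + 1)) ≤ 1 / (4 * N) :=
      one_div_le_one_div_of_le (by positivity) (by linarith)
    have h2 : 1 / (4 * (N : ℝ)) = 1 / 4 * (1 / N) := by field_simp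
    linarith
  have hHe : 1 / (4 * (H : ℝ)) ≤ η / 4 := by
    have h2 : 1 / (4 * (H : ℝ)) = 1 / 4 * (1 / H) := by field_simp
    linarith
  have hG : ∀ x : ℝ, 0 < x → ∀ τ : ℝ, |F.B x τ - T N H x τ| ≤ η / 8 * τ ^ 2 := hF.1
  refine ⟨fun x hx τ => ?_, fun x hx hx2 τ => ?_⟩
  · have h1 := abs_le.mp (hG x hx τ)
    have h2 := abs_le.mp (hG (1 + x) (by linarith) τ)
    have h3 := T_comp N H hHpos hx.le τ
    have hτ := sq_nonneg τ
    have h4 : τ ^ 2 * (1 / (2 * (2 * (N : ℝ) + 1))) ≤ τ ^ 2 * (η / 4) :=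
      mul_le_mul_of_nonneg_left hNe hτ
    have h5 : τ ^ 2 * (1 / (4 * (H : ℝ))) ≤ τ ^ 2 * (η / 4) :=
      mul_le_mul_of_nonneg_left hHe hτ
    have h6 : 0 ≤ η * τ ^ 2 := by positivity
    rw [Phi_eq, abs_le]
    constructor
    · linarith [h1.1, h2.1, h3.1]
    · linarith [h1.2, h2.2, h3.2]
  · have h1 := abs_le.mp (hG x hx τ)
    have h2 := abs_le.mp (hG (1 - x) (by linarith) τ)
    have hτ := sq_nonneg τ
    have h3 := (T_comp N H hHpos le_rfl τ).1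
    rw [add_zero] at h3
    have h4 : τ ^ 2 * (1 / (2 * (2 * (N : ℝ) + 1))) ≤ τ ^ 2 * (η / 4) :=
      mul_le_mul_of_nonneg_left hNe hτ
    have h5 : T N H 1 τ ≤ T N H (1 - x) τ := T_anti N H (by linarith) (by linarith) τ
    have h6 := T_scale N H hx.le τ
    have h7 := Psi_scale (s := 1 - x) (by linarith) (by linarith) τ
    have h8 := Psi_le (a := 1) one_pos τ
    rw [div_one] at h8
    have h9 := Psi_nonneg (a := 1) one_pos τ
    have hc1 : ((1 + x) ^ 2)⁻¹ ≤ 1 := inv_le_one_of_one_le₀ (by nlinarith)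
    have hc0 : 0 < ((1 + x) ^ 2)⁻¹ := by positivity
    have h10 : ((1 + x) ^ 2)⁻¹ * T N H 1 τ ≤ T N H 1 τ := by
      have := mul_le_mul_of_nonneg_right hc1 (T_nonneg N H 1 τ)
      linarith
    have h11 : ((1 + x) ^ 2)⁻¹ * (1 / 2 * Psi 1 τ - τ ^ 2 * (η / 4)) ≤
        T N H x τ + T N H (1 - x) τ := by
      have := mul_le_mul_of_nonneg_left (h3.trans' (by linarith :
        1 / 2 * Psi 1 τ - τ ^ 2 * (η / 4) ≤ 1 / 2 * Psi 1 τ - τ ^ 2 * (1 / (2 * (2 * (N : ℝ) + 1)))))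
        hc0.le
      linarith
    have h12 : ((1 + x) ^ 2)⁻¹ * (τ ^ 2 * (η / 4)) ≤ τ ^ 2 * (η / 4) := by
      have := mul_le_mul_of_nonneg_right hc1 (by positivity : 0 ≤ τ ^ 2 * (η / 4))
      linarith
    have h13 : (1 - x)⁻¹ - ((1 + x) ^ 2)⁻¹ ≤ 8 * x := by
      have hx1 : 0 < 1 - x := by linarith
      have e : (1 - x)⁻¹ - ((1 + x) ^ 2)⁻¹ = x * (3 + x) / ((1 - x) * (1 + x) ^ 2) := by
        field_simp
        ring
      rw [e, div_le_iff₀ (by positivity)]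
      have h34 : 3 / 4 ≤ (1 - x) * (1 + x) ^ 2 := by
        have hxx : x ^ 2 ≤ 1 / 4 := by nlinarith
        have e2 : (1 - x) * (1 + x) ^ 2 = (1 - x ^ 2) + (1 - x ^ 2) * x := by ring
        have h35 : 0 ≤ (1 - x ^ 2) * x := mul_nonneg (by linarith) hx.le
        rw [e2]
        linarith
      nlinarith
    have h14 : 0 ≤ (1 - x)⁻¹ - ((1 + x) ^ 2)⁻¹ := by
      have : ((1 + x) ^ 2)⁻¹ ≤ (1 - x)⁻¹ := by
        refine inv_anti₀ (by linarith) (by nlinarith)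
      linarith
    have h15 : ((1 - x)⁻¹ - ((1 + x) ^ 2)⁻¹) * Psi 1 τ ≤ 8 * x * τ ^ 2 :=
      mul_le_mul h13 h8 h9 (by positivity)
    have he : (1 : ℝ) + -x = 1 - x := by ring
    have h16 : 0 ≤ η * τ ^ 2 := by positivity
    rw [Phi_eq, he]
    have h17 : ((1 + x) ^ 2)⁻¹ * (1 / 2 * Psi 1 τ - τ ^ 2 * (η / 4)) =
      1 / 2 * (((1 + x) ^ 2)⁻¹ * Psi 1 τ) - ((1 + x) ^ 2)⁻¹ * (τ ^ 2 * (η / 4)) := by ring
    have h18 : ((1 - x)⁻¹ - ((1 + x) ^ 2)⁻¹) * Psi 1 τ =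
      (1 - x)⁻¹ * Psi 1 τ - ((1 + x) ^ 2)⁻¹ * Psi 1 τ := by ring
    rw [h17] at h11
    rw [h18] at h15
    obtain ⟨a1, ha1⟩ : ∃ a, a = ((1 + x) ^ 2)⁻¹ * Psi 1 τ := ⟨_, rfl⟩
    obtain ⟨a2, ha2⟩ : ∃ a, a = (1 - x)⁻¹ * Psi 1 τ := ⟨_, rfl⟩
    obtain ⟨a3, ha3⟩ : ∃ a, a = ((1 + x) ^ 2)⁻¹ * (τ ^ 2 * (η / 4)) := ⟨_, rfl⟩
    obtain ⟨a4, ha4⟩ : ∃ a, a = x * τ ^ 2 := ⟨_, rfl⟩
    obtain ⟨a5, ha5⟩ : ∃ a, a = η * τ ^ 2 := ⟨_, rfl⟩
    rw [← ha1, ← ha2, mul_assoc, ← ha4] at h15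
    rw [← ha1, ← ha3] at h11
    rw [← ha2] at h7
    have e5 : τ ^ 2 * (η / 4) = a5 / 4 := by rw [ha5]; ring
    rw [← ha3, e5] at h12
    have e6 : η / 8 * τ ^ 2 = a5 / 8 := by rw [ha5]; ring
    have h19 := h1.1
    have h20 := h2.1
    rw [e6] at h19 h20
    rw [← ha5] at h16
    have e7 : (η + 4 * x) * τ ^ 2 = a5 + 4 * a4 := by rw [ha5, ha4]; ring
    rw [e7]
    clear ha1 ha2 ha3 ha4 ha5 e5 e6 e7 h17 h18 h1 h2 h3 h4 h5 h6 h8 h9 h10 h13 h14 hc0 hc1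
    linarith

end Pool.Agent.TH41.LP.P12f
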