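import Mathlib
import Pool.Agent.TH41.LP.Stm

set_option autoImplicit false

open MeasureTheory Filter Topology

namespace Pool.Agent.TH41.LP.P3f

open Pool.Agent.TH41.LP

/-- the Riemann sum of `1/g` on `[a, a+1]` -/
noncomputable def SS (H : ℕ) (a : ℝ) : ℝ := 1 / (H : ℝ) * ∑ l ∈ Finset.range H, 1 / (a + (l : ℝ) / H)

lemma step_le {g h : ℝ} (hg : 0 < g) (hh : 0 < h) :
    h / (g + h) ≤ Real.log (g + h) - Real.log g ∧ Real.log (g + h) - Real.log g ≤ h / g := by
  have hgh : 0 < g + h := by linarith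
  have h1 : Real.log (g + h) - Real.log g = Real.log ((g + h) / g) := by
    rw [Real.log_div hgh.ne' hg.ne']
  constructor
  · rw [h1]
    have := Real.one_sub_inv_le_log_of_pos (x := (g + h) / g) (by positivity)
    have h2 : 1 - ((g + h) / g)⁻¹ = h / (g + h) := by
      field_simp
      ring
    linarith
  · rw [h1]
    have := Real.log_le_sub_one_of_pos (x := (g + h) / g) (by positivity)
    have h2 : (g + h) / g - 1 = h / g := by
      field_simp
      ring
    linarith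

lemma SS_bounds {H : ℕ} (hH : 0 < H) {a : ℝ} (ha : 1 ≤ a) :
    Real.log (a + 1) - Real.log a ≤ SS H a ∧
      SS H a ≤ Real.log (a + 1) - Real.log a + 1 / (H : ℝ) := by
  have hH' : (0 : ℝ) < H := by exact_mod_cast hH
  have ha0 : 0 < a := by linarith
  -- lower bound
  have hlow : ∀ n : ℕ, Real.log (a + (n : ℝ) / H) - Real.log a ≤
      1 / (H : ℝ) * ∑ l ∈ Finset.range n, 1 / (a + (l : ℝ) / H) := by
    intro n
    induction n with
    | zero => simp
    | succ n ih =>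
      rw [Finset.sum_range_succ, mul_add]
      have hg : 0 < a + (n : ℝ) / H := by positivity
      have := (step_le hg (h := 1 / (H : ℝ)) (by positivity)).2
      have e1 : a + (n : ℝ) / H + 1 / (H : ℝ) = a + ((n + 1 : ℕ) : ℝ) / H := by
        push_cast
        field_simp
        ring
      rw [e1] at this
      have e2 : 1 / (H : ℝ) / (a + (n : ℝ) / H) = 1 / (H : ℝ) * (1 / (a + (n : ℝ) / H)) := by
        field_simp
      rw [e2] at this
      linarith
  have hup : ∀ n : ℕ, 1 / (H : ℝ) * ∑ l ∈ Finset.range n, 1 / (a + (l : ℝ) / H) ≤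
      Real.log (a + (n : ℝ) / H) - Real.log a + 1 / (H : ℝ) * (1 / a - 1 / (a + (n : ℝ) / H)) := by
    intro n
    induction n with
    | zero => simp
    | succ n ih =>
      rw [Finset.sum_range_succ, mul_add]
      have hg : 0 < a + (n : ℝ) / H := by positivity
      have := (step_le hg (h := 1 / (H : ℝ)) (by positivity)).1
      have e1 : a + (n : ℝ) / H + 1 / (H : ℝ) = a + ((n + 1 : ℕ) : ℝ) / H := by
        push_cast
        field_simp
        ring
      rw [e1] at this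
      have e2 : 1 / (H : ℝ) / (a + ((n + 1 : ℕ) : ℝ) / H) =
          1 / (H : ℝ) * (1 / (a + ((n + 1 : ℕ) : ℝ) / H)) := by
        field_simp
      rw [e2] at this
      linarith
  have e : a + (H : ℝ) / H = a + 1 := by
    rw [div_self hH'.ne']
  have h1 := hlow H
  have h2 := hup H
  rw [e] at h1 h2
  refine ⟨h1, h2.trans ?_⟩
  have h3 : 1 / a - 1 / (a + 1) ≤ 1 := by
    have : 1 / a ≤ 1 := by
      rw [div_le_one ha0]; exact ha
    have : 0 < 1 / (a + 1) := by positivity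
    linarith
  have h4 : 1 / (H : ℝ) * (1 / a - 1 / (a + 1)) ≤ 1 / (H : ℝ) * 1 :=
    mul_le_mul_of_nonneg_left h3 (by positivity)
  linarith

/-- the grid value of `A1` -/
noncomputable def GG (N H : ℕ) (x : ℝ) : ℝ :=
  1 / (2 * (H : ℝ)) * ∑ k ∈ Finset.range N, ∑ l ∈ Finset.range H,
      x / ((2 * (k : ℝ) + 1 + (l : ℝ) / H) * (2 * (k : ℝ) + 1 + (l : ℝ) / H + x))

lemma GG_eq {N H : ℕ} (hH : 0 < H) {x : ℝ} (hx : 0 ≤ x) :
    GG N H x = ∑ k ∈ Finset.range N, (1 / 2 * SS H (2 * (k : ℝ) + 1) -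
      1 / 2 * SS H (2 * (k : ℝ) + 1 + x)) := by
  have hH' : (0 : ℝ) < H := by exact_mod_cast hH
  unfold GG SS
  rw [Finset.mul_sum]
  refine Finset.sum_congr rfl fun k _ => ?_
  have e : ∀ s t : ℝ, 1 / 2 * (1 / (H : ℝ) * s) - 1 / 2 * (1 / (H : ℝ) * t) =
      1 / (2 * (H : ℝ)) * (s - t) := by
    intro s t
    field_simp
  rw [e, ← Finset.sum_sub_distrib]
  congr 1
  refine Finset.sum_congr rfl fun l _ => ?_
  have h1 : 0 < 2 * (k : ℝ) + 1 + (l : ℝ) / H := by positivity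
  have h2 : 0 < 2 * (k : ℝ) + 1 + (l : ℝ) / H + x := by positivity
  have h3 : 2 * (k : ℝ) + 1 + x + (l : ℝ) / H = 2 * (k : ℝ) + 1 + (l : ℝ) / H + x := by ring
  rw [h3]
  generalize 2 * (k : ℝ) + 1 + (l : ℝ) / H = b at *
  field_simp
  ring

/-- the sum of the logarithms of Wallis -/
noncomputable def CN (N : ℕ) : ℝ :=
  ∑ k ∈ Finset.range N, (Real.log (2 * (k : ℝ) + 1 + 1) - Real.log (2 * (k : ℝ) + 1))

lemma tele (N : ℕ) (x : ℝ) :
    ∑ k ∈ Finset.range N, ((Real.log (2 * (k : ℝ) + 1 + x + 1) - Real.log (2 * (k : ℝ) + 1 + x)) +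
      (Real.log (2 * (k : ℝ) + 1 + (1 + x) + 1) - Real.log (2 * (k : ℝ) + 1 + (1 + x)))) =
      Real.log (2 * (N : ℝ) + 1 + x) - Real.log (1 + x) := by
  induction N with
  | zero => simp
  | succ n ih =>
    rw [Finset.sum_range_succ, ih]
    have e1 : 2 * (n : ℝ) + 1 + x + 1 = 2 * (n : ℝ) + 1 + (1 + x) := by ring
    have e2 : 2 * (n : ℝ) + 1 + (1 + x) + 1 = 2 * ((n + 1 : ℕ) : ℝ) + 1 + x := by
      push_cast; ring
    rw [e1, e2]
    ring

lemma log_W (N : ℕ) : Real.log (Real.Wallis.W N) = 2 * CN N - Real.log (2 * (N : ℝ) + 1) := by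
  unfold Real.Wallis.W CN
  induction N with
  | zero => simp
  | succ n ih =>
    rw [Finset.prod_range_succ, Finset.sum_range_succ, Real.log_mul, ih]
    · have h1 : (0 : ℝ) < 2 * (n : ℝ) + 1 := by positivity
      have h2 : (0 : ℝ) < 2 * (n : ℝ) + 2 := by positivity
      have h3 : (0 : ℝ) < 2 * (n : ℝ) + 3 := by positivity
      rw [Real.log_mul (by positivity) (by positivity), Real.log_div h2.ne' h1.ne',
        Real.log_div h2.ne' h3.ne']
      have e1 : 2 * (n : ℝ) + 1 + 1 = 2 * (n : ℝ) + 2 := by ring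
      have e2 : 2 * ((n + 1 : ℕ) : ℝ) + 1 = 2 * (n : ℝ) + 3 := by push_cast; ring
      rw [e1, e2]
      ring
    · exact (Finset.prod_pos fun i _ => by positivity).ne'
    · positivity

lemma GG_approx {N H : ℕ} (hH : 0 < H) {x : ℝ} (hx : 0 ≤ x) :
    |GG N H x + GG N H (1 + x) -
      (CN N - 1 / 2 * (Real.log (2 * (N : ℝ) + 1 + x) - Real.log (1 + x)))| ≤ (N : ℝ) / H := by
  have hH' : (0 : ℝ) < H := by exact_mod_cast hH
  rw [GG_eq hH hx, GG_eq hH (by linarith : (0 : ℝ) ≤ 1 + x), ← tele N x, CN, Finset.mul_sum,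
    ← Finset.sum_add_distrib, ← Finset.sum_sub_distrib, ← Finset.sum_sub_distrib]
  refine (Finset.abs_sum_le_sum_abs _ _).trans ?_
  have : (N : ℝ) / H = ∑ k ∈ Finset.range N, 1 / (H : ℝ) := by
    simp
    ring
  rw [this]
  refine Finset.sum_le_sum fun k _ => ?_
  have hk : (0 : ℝ) ≤ k := Nat.cast_nonneg k
  have b1 := SS_bounds hH (a := 2 * (k : ℝ) + 1) (by linarith)
  have b2 := SS_bounds hH (a := 2 * (k : ℝ) + 1 + x) (by linarith)
  have b3 := SS_bounds hH (a := 2 * (k : ℝ) + 1 + (1 + x)) (by linarith)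
  rw [abs_le]
  constructor <;> linarith [b1.1, b1.2, b2.1, b2.2, b3.1, b3.2]

theorem p3 : S_p3 := by
  intro η C hη hC
  have hlim : Tendsto (fun N : ℕ => 1 / 2 * Real.log (Real.Wallis.W N)) atTop
      (𝓝 (1 / 2 * Real.log (Real.pi / 2))) := by
    have h := Real.Wallis.tendsto_W_nhds_pi_div_two
    exact ((Real.continuousAt_log (by positivity : Real.pi / 2 ≠ 0)).tendsto.comp h).const_mul _
  have h1 := (Metric.tendsto_atTop.1 hlim) (η / 4) (by positivity)
  obtain ⟨N1, hN1⟩ := h1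
  obtain ⟨N2, hN2⟩ := exists_nat_gt (C / η)
  refine ⟨max N1 N2, fun N hN => ?_⟩
  obtain ⟨H0, hH0⟩ := exists_nat_gt (4 * (N : ℝ) / η)
  refine ⟨H0, fun H hH hHpos F hF x hx hxC => ?_⟩
  have hH' : (0 : ℝ) < H := by exact_mod_cast hHpos
  have g1 := hF.2 x hx
  have g2 := hF.2 (1 + x) (by linarith)
  have g3 := GG_approx (N := N) hHpos hx
  have hW := hN1 N (le_trans (le_max_left _ _) hN)
  rw [Real.dist_eq, log_W] at hW
  have hNH : (N : ℝ) / H ≤ η / 4 := by
    have hHH : 4 * (N : ℝ) / η ≤ H := le_trans hH0.le (by exact_mod_cast hH)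
    rw [div_le_iff₀ hη] at hHH
    rw [div_le_iff₀ hH']
    linarith
  have hN2' : C / η < N := lt_of_lt_of_le hN2 (by exact_mod_cast le_trans (le_max_right _ _) hN)
  have hN0 : (0 : ℝ) ≤ N := Nat.cast_nonneg N
  have l1 : Real.log (2 * (N : ℝ) + 1 + x) - Real.log (2 * (N : ℝ) + 1) ≤ η / 2 := by
    rcases hx.eq_or_lt with h0 | h0
    · rw [← h0]; simp; positivity
    · have := (step_le (g := 2 * (N : ℝ) + 1) (h := x) (by positivity) h0).2
      refine this.trans ?_
      rw [div_le_iff₀ (by positivity)]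
      rw [div_lt_iff₀ hη] at hN2'
      nlinarith
  have l2 : 0 ≤ Real.log (2 * (N : ℝ) + 1 + x) - Real.log (2 * (N : ℝ) + 1) := by
    have := Real.log_le_log (x := 2 * (N : ℝ) + 1) (y := 2 * (N : ℝ) + 1 + x) (by positivity)
      (by linarith)
    linarith
  have l3 : Real.log (Real.pi / 2 * (1 + x)) = Real.log (Real.pi / 2) + Real.log (1 + x) := by
    rw [Real.log_mul (by positivity) (by positivity)]
  rw [l3]
  have g1' : |F.A1 x - GG N H x| ≤ η / 8 := g1
  have g2' : |F.A1 (1 + x) - GG N H (1 + x)| ≤ η / 8 := g2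
  rw [abs_le] at *
  rw [abs_lt] at hW
  constructor <;> linarith [g1'.1, g1'.2, g2'.1, g2'.2, g3.1, g3.2, hW.1, hW.2]

end Pool.Agent.TH41.LP.P3f
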