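import Mathlib
import Pool.Agent.TH41.LP.Stm

set_option autoImplicit false

open MeasureTheory Filter Topology

namespace Pool.Agent.TH41.LP.P4f

open Pool.Agent.TH41.LP

/-- the grid value of `A2` -/
noncomputable def T2 (N H : ℕ) (x : ℝ) : ℝ :=
  1 / (2 * (H : ℝ)) * ∑ k ∈ Finset.range N, ∑ l ∈ Finset.range H,
      1 / (2 * (k : ℝ) + 1 + (l : ℝ) / H + x) ^ 2

lemma beta_ge (k l H : ℕ) : (1 : ℝ) ≤ 2 * (k : ℝ) + 1 + (l : ℝ) / H := by
  have h1 : (0 : ℝ) ≤ k := Nat.cast_nonneg k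
  have h2 : (0 : ℝ) ≤ (l : ℝ) / H := by positivity
  linarith

lemma T2_anti (N H : ℕ) {x y : ℝ} (hx : 0 ≤ x) (hxy : x ≤ y) : T2 N H y ≤ T2 N H x := by
  unfold T2
  refine mul_le_mul_of_nonneg_left ?_ (by positivity)
  refine Finset.sum_le_sum fun k _ => Finset.sum_le_sum fun l _ => ?_
  have hb := beta_ge k l H
  refine one_div_le_one_div_of_le (by nlinarith) ?_
  exact pow_le_pow_left₀ (by linarith) (by linarith) 2

lemma T2_nonneg (N H : ℕ) (x : ℝ) : 0 ≤ T2 N H x := by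
  unfold T2
  positivity

lemma T2_scale (N H : ℕ) {u y : ℝ} (hu : 0 ≤ u) (hu2 : u ≤ 1 / 2) (hy : 1 - u ≤ y) :
    T2 N H y ≤ (1 - u)⁻¹ ^ 2 * T2 N H 1 := by
  unfold T2
  have e : (1 - u)⁻¹ ^ 2 * (1 / (2 * (H : ℝ)) * ∑ k ∈ Finset.range N, ∑ l ∈ Finset.range H,
      1 / (2 * (k : ℝ) + 1 + (l : ℝ) / H + 1) ^ 2) = 1 / (2 * (H : ℝ)) *
      ∑ k ∈ Finset.range N, ∑ l ∈ Finset.range H,
      (1 - u)⁻¹ ^ 2 * (1 / (2 * (k : ℝ) + 1 + (l : ℝ) / H + 1) ^ 2) := by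
    simp only [← Finset.mul_sum]
    ring
  rw [e]
  refine mul_le_mul_of_nonneg_left ?_ (by positivity)
  refine Finset.sum_le_sum fun k _ => Finset.sum_le_sum fun l _ => ?_
  have hb := beta_ge k l H
  have h1 : 0 < 1 - u := by linarith
  have h2 : 0 < 2 * (k : ℝ) + 1 + (l : ℝ) / H + 1 := by linarith
  have e2 : (1 - u)⁻¹ ^ 2 * (1 / (2 * (k : ℝ) + 1 + (l : ℝ) / H + 1) ^ 2) =
      1 / ((1 - u) * (2 * (k : ℝ) + 1 + (l : ℝ) / H + 1)) ^ 2 := by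
    rw [inv_pow, mul_pow]
    field_simp
  rw [e2]
  refine one_div_le_one_div_of_le (by positivity) ?_
  refine pow_le_pow_left₀ (by positivity) ?_ 2
  nlinarith

/-- Riemann sums of `1/g^2` on `[a, a+1]` -/
lemma sq_sum_le {H : ℕ} (hH : 0 < H) {a : ℝ} (ha : 1 ≤ a) :
    1 / (H : ℝ) * ∑ l ∈ Finset.range H, 1 / (a + (l : ℝ) / H) ^ 2 ≤
      (1 / a - 1 / (a + 1)) + 1 / (H : ℝ) * (1 / a ^ 2 - 1 / (a + 1) ^ 2) := by
  have hH' : (0 : ℝ) < H := by exact_mod_cast hH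
  have ha0 : 0 < a := by linarith
  have hup : ∀ n : ℕ, 1 / (H : ℝ) * ∑ l ∈ Finset.range n, 1 / (a + (l : ℝ) / H) ^ 2 ≤
      (1 / a - 1 / (a + (n : ℝ) / H)) +
        1 / (H : ℝ) * (1 / a ^ 2 - 1 / (a + (n : ℝ) / H) ^ 2) := by
    intro n
    induction n with
    | zero => simp
    | succ n ih =>
      rw [Finset.sum_range_succ, mul_add]
      have hg : 0 < a + (n : ℝ) / H := by positivity
      have e1 : a + ((n + 1 : ℕ) : ℝ) / H = (a + (n : ℝ) / H) + 1 / (H : ℝ) := by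
        push_cast
        field_simp
        ring
      rw [e1]
      set g := a + (n : ℝ) / H with hgdef
      have hh : (0 : ℝ) < 1 / (H : ℝ) := by positivity
      set h := 1 / (H : ℝ) with hhdef
      have key : h * (1 / (g + h) ^ 2) ≤ 1 / g - 1 / (g + h) := by
        have e3 : 1 / g - 1 / (g + h) = h * (1 / (g * (g + h))) := by
          field_simp
          ring
        rw [e3]
        refine mul_le_mul_of_nonneg_left ?_ hh.le
        refine one_div_le_one_div_of_le (by positivity) ?_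
        nlinarith
      linarith
  have e : a + (H : ℝ) / H = a + 1 := by
    rw [div_self hH'.ne']
  have h2 := hup H
  rw [e] at h2
  exact h2

lemma T2_zero_one {N H : ℕ} (hH : 0 < H) : T2 N H 0 + T2 N H 1 ≤ 1 / 2 * (1 + 1 / (H : ℝ)) := by
  have hH' : (0 : ℝ) < H := by exact_mod_cast hH
  have e : T2 N H 0 + T2 N H 1 = ∑ k ∈ Finset.range N, (1 / 2 * (1 / (H : ℝ) *
      ∑ l ∈ Finset.range H, 1 / (2 * (k : ℝ) + 1 + (l : ℝ) / H) ^ 2) +
      1 / 2 * (1 / (H : ℝ) *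
      ∑ l ∈ Finset.range H, 1 / (2 * (k : ℝ) + 2 + (l : ℝ) / H) ^ 2)) := by
    unfold T2
    rw [Finset.sum_add_distrib, ← Finset.mul_sum, ← Finset.mul_sum, ← Finset.mul_sum,
      ← Finset.mul_sum]
    have e1 : ∀ k l : ℕ, (2 * (k : ℝ) + 1 + (l : ℝ) / H + 1) = 2 * (k : ℝ) + 2 + (l : ℝ) / H := by
      intro k l; ring
    simp only [e1, add_zero]
    field_simp
  rw [e]
  have tele : ∀ n : ℕ, ∑ k ∈ Finset.range n, (1 / 2 * (1 / (H : ℝ) *
      ∑ l ∈ Finset.range H, 1 / (2 * (k : ℝ) + 1 + (l : ℝ) / H) ^ 2) +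
      1 / 2 * (1 / (H : ℝ) *
      ∑ l ∈ Finset.range H, 1 / (2 * (k : ℝ) + 2 + (l : ℝ) / H) ^ 2)) ≤
      1 / 2 * ((1 - 1 / (2 * (n : ℝ) + 1)) + 1 / (H : ℝ) * (1 - 1 / (2 * (n : ℝ) + 1) ^ 2)) := by
    intro n
    induction n with
    | zero => simp
    | succ n ih =>
      rw [Finset.sum_range_succ]
      have hn : (0 : ℝ) ≤ n := Nat.cast_nonneg n
      have a1 := sq_sum_le hH (a := 2 * (n : ℝ) + 1) (by linarith)
      have a2 := sq_sum_le hH (a := 2 * (n : ℝ) + 2) (by linarith)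
      have e2 : 2 * (n : ℝ) + 1 + 1 = 2 * (n : ℝ) + 2 := by ring
      have e3 : 2 * ((n + 1 : ℕ) : ℝ) + 1 = 2 * (n : ℝ) + 2 + 1 := by push_cast; ring
      rw [e2] at a1
      rw [e3]
      nlinarith [a1, a2, ih]
  refine (tele N).trans ?_
  have h1 : 0 ≤ 1 / (2 * (N : ℝ) + 1) := by positivity
  have h2 : 0 ≤ 1 / (2 * (N : ℝ) + 1) ^ 2 := by positivity
  have h3 : 0 < 1 / (H : ℝ) := by positivity
  nlinarith [mul_nonneg h3.le h2]

lemma lg_le {g τ : ℝ} (hg : 0 < g) : lg g τ ≤ τ ^ 2 * (1 / 2 * (1 / g ^ 2)) := by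
  unfold lg
  have := Real.log_le_sub_one_of_pos (x := 1 + τ ^ 2 / g ^ 2) (by positivity)
  have e : 1 + τ ^ 2 / g ^ 2 - 1 = τ ^ 2 * (1 / g ^ 2) := by
    field_simp
    ring
  rw [e] at this
  linarith

lemma pp_zero {c x : ℝ} (hc : 0 < c) (hx : 0 < x) : pp c x 0 = √(x ^ 2 + c ^ 2) := by
  unfold pp
  have e : (x ^ 2 - 0 ^ 2 + c ^ 2) ^ 2 + 4 * x ^ 2 * 0 ^ 2 = (x ^ 2 + c ^ 2) ^ 2 := by ring
  rw [e, Real.sqrt_sq (by positivity)]
  congr 1
  ring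

lemma pp_cont (c x : ℝ) : Continuous (fun τ => pp c x τ) := by
  unfold pp
  fun_prop

lemma A2_le_T2 (hpp : S_pp) {N H : ℕ} {δ : ℝ} {F : Fam} (hF : Grid N H δ F) {x : ℝ} (hx : 0 < x) :
    F.A2 x ≤ T2 N H x + 2 * δ := by
  -- the quotient of the grid inequality
  have hlim : Tendsto (fun τ : ℝ => ∑ i, F.κ i *
      ((1 - x ^ 2 / pp (F.c i) x τ ^ 2) / (√(x ^ 2 + F.c i ^ 2) + pp (F.c i) x τ))) (𝓝[≠] 0)
      (𝓝 (∑ i, F.κ i * ((1 - x ^ 2 / √(x ^ 2 + F.c i ^ 2) ^ 2) /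
        (√(x ^ 2 + F.c i ^ 2) + √(x ^ 2 + F.c i ^ 2))))) := by
    refine tendsto_finsetSum _ fun i _ => ?_
    have hc := F.c_pos i
    have hp : Tendsto (fun τ : ℝ => pp (F.c i) x τ) (𝓝[≠] 0) (𝓝 (√(x ^ 2 + F.c i ^ 2))) := by
      have := (pp_cont (F.c i) x).tendsto 0
      rw [pp_zero hc hx] at this
      exact this.mono_left nhdsWithin_le_nhds
    have hr : 0 < √(x ^ 2 + F.c i ^ 2) := Real.sqrt_pos.2 (by positivity)
    refine Tendsto.const_mul _ (Tendsto.div ?_ (tendsto_const_nhds.add hp) (by positivity))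
    exact tendsto_const_nhds.sub (Tendsto.div tendsto_const_nhds (hp.pow 2) (by positivity))
  have hval : ∑ i, F.κ i * ((1 - x ^ 2 / √(x ^ 2 + F.c i ^ 2) ^ 2) /
        (√(x ^ 2 + F.c i ^ 2) + √(x ^ 2 + F.c i ^ 2))) = 1 / 2 * F.A2 x := by
    unfold Fam.A2
    rw [Finset.mul_sum]
    refine Finset.sum_congr rfl fun i _ => ?_
    have hc := F.c_pos i
    have hr : 0 < √(x ^ 2 + F.c i ^ 2) := Real.sqrt_pos.2 (by positivity)
    have hs : √(x ^ 2 + F.c i ^ 2) ^ 2 = x ^ 2 + F.c i ^ 2 := Real.sq_sqrt (by positivity)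
    set r := √(x ^ 2 + F.c i ^ 2) with hrdef
    have hx2 : x ^ 2 = r ^ 2 - F.c i ^ 2 := by linarith
    rw [hx2]
    field_simp
    ring
  rw [hval] at hlim
  have hbd : ∀ τ : ℝ, τ ≠ 0 → ∑ i, F.κ i *
      ((1 - x ^ 2 / pp (F.c i) x τ ^ 2) / (√(x ^ 2 + F.c i ^ 2) + pp (F.c i) x τ)) ≤
      1 / 2 * T2 N H x + δ := by
    intro τ hτ
    have hτ2 : 0 < τ ^ 2 := by positivity
    have h1 := (abs_le.1 (hF.1 x hx τ)).2
    have h2 : F.B x τ = τ ^ 2 * ∑ i, F.κ i *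
      ((1 - x ^ 2 / pp (F.c i) x τ ^ 2) / (√(x ^ 2 + F.c i ^ 2) + pp (F.c i) x τ)) := by
      unfold Fam.B
      rw [Finset.mul_sum]
      refine Finset.sum_congr rfl fun i _ => ?_
      rw [hpp.2.2.1 (F.c i) x τ (F.c_pos i) hx]
      ring
    have h3 : 1 / (2 * (H : ℝ)) * ∑ k ∈ Finset.range N, ∑ l ∈ Finset.range H,
      lg (2 * (k : ℝ) + 1 + (l : ℝ) / H + x) τ ≤ τ ^ 2 * (1 / 2 * T2 N H x) := by
      unfold T2
      have e : τ ^ 2 * (1 / 2 * (1 / (2 * (H : ℝ)) * ∑ k ∈ Finset.range N, ∑ l ∈ Finset.range H,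
          1 / (2 * (k : ℝ) + 1 + (l : ℝ) / H + x) ^ 2)) = 1 / (2 * (H : ℝ)) *
          ∑ k ∈ Finset.range N, ∑ l ∈ Finset.range H, τ ^ 2 * (1 / 2 *
          (1 / (2 * (k : ℝ) + 1 + (l : ℝ) / H + x) ^ 2)) := by
        simp only [← Finset.mul_sum]
        ring
      rw [e]
      refine mul_le_mul_of_nonneg_left ?_ (by positivity)
      refine Finset.sum_le_sum fun k _ => Finset.sum_le_sum fun l _ => ?_
      have hb := beta_ge k l H
      exact lg_le (by linarith)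
    rw [h2] at h1
    have h4 : τ ^ 2 * ∑ i, F.κ i *
      ((1 - x ^ 2 / pp (F.c i) x τ ^ 2) / (√(x ^ 2 + F.c i ^ 2) + pp (F.c i) x τ)) ≤
      τ ^ 2 * (1 / 2 * T2 N H x + δ) := by linarith
    exact le_of_mul_le_mul_left h4 hτ2
  have := le_of_tendsto hlim (by
    filter_upwards [self_mem_nhdsWithin] with τ hτ
    exact hbd τ hτ)
  linarith

lemma A2_le_T2' (hpp : S_pp) {N H : ℕ} {δ : ℝ} {F : Fam} (hF : Grid N H δ F) {x : ℝ} (hx : 0 ≤ x) :
    F.A2 x ≤ T2 N H x + 2 * δ := by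
  rcases hx.eq_or_lt with h | h
  · subst h
    have hc : Continuous F.A2 := by
      unfold Fam.A2
      refine continuous_finsetSum _ fun i _ => ?_
      have hci := F.c_pos i
      refine Continuous.mul continuous_const (Continuous.div continuous_const (by fun_prop) ?_)
      intro x
      have : 0 < √(x ^ 2 + F.c i ^ 2) := Real.sqrt_pos.2 (by positivity)
      positivity
    have h1 : Tendsto F.A2 (𝓝[>] 0) (𝓝 (F.A2 0)) :=
      (hc.tendsto 0).mono_left nhdsWithin_le_nhds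
    refine le_of_tendsto h1 ?_
    filter_upwards [self_mem_nhdsWithin] with x hx
    have hx' : 0 < x := hx
    refine (A2_le_T2 hpp hF hx').trans ?_
    have := T2_anti N H (x := 0) le_rfl hx'.le
    linarith
  · exact A2_le_T2 hpp hF h

theorem p4_of (hpp : S_pp) : S_p4 := by
  intro η hη
  obtain ⟨N0, hN0⟩ := exists_nat_gt (1 / η)
  refine ⟨N0, fun N H hH hHpos F hF u hu hu2 x y hx hy => ?_⟩
  have hH' : (0 : ℝ) < H := by exact_mod_cast hHpos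
  have hHη : 1 / (H : ℝ) ≤ η := by
    have : 1 / η ≤ H := le_trans hN0.le (by exact_mod_cast hH)
    rw [div_le_iff₀ hη] at this
    rw [div_le_iff₀ hH']
    linarith
  have hH1 : 1 / (H : ℝ) ≤ 1 := by
    rw [div_le_one hH']
    exact_mod_cast hHpos
  have a1 := A2_le_T2' hpp hF hx
  have a2 := A2_le_T2' hpp hF (x := y) (by linarith)
  have b1 := T2_anti N H (x := 0) le_rfl hx
  have b2 := T2_scale N H hu hu2 hy
  have b3 := T2_zero_one (N := N) hHpos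
  have b4 := T2_anti N H (x := 0) (y := 1) le_rfl zero_le_one
  have b5 := T2_nonneg N H 1
  have hT1 : T2 N H 1 ≤ 1 / 2 := by linarith
  have hu1 : 0 < 1 - u := by linarith
  have hc : (1 - u)⁻¹ ^ 2 ≤ 1 + 6 * u := by
    rw [inv_pow, inv_eq_one_div, div_le_iff₀ (by positivity)]
    nlinarith [mul_nonneg hu (by linarith : (0 : ℝ) ≤ 1 / 2 - u), mul_nonneg (mul_nonneg hu hu) (by linarith : (0 : ℝ) ≤ 1 / 2 - u)]
  have b6 : (1 - u)⁻¹ ^ 2 * T2 N H 1 ≤ (1 + 6 * u) * T2 N H 1 :=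
    mul_le_mul_of_nonneg_right hc b5
  nlinarith [mul_nonneg hu b5, mul_nonneg hu (by linarith : (0 : ℝ) ≤ 1 / 2 - T2 N H 1)]

end Pool.Agent.TH41.LP.P4f
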