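import Mathlib
import Pool.Agent.TH41.LP.Stm

set_option autoImplicit false

open MeasureTheory Filter Topology

namespace Pool.Agent.TH41.LP.PPf

open Pool.Agent.TH41.LP

/-- the inner root -/
noncomputable def qq (c x τ : ℝ) : ℝ := √((x ^ 2 - τ ^ 2 + c ^ 2) ^ 2 + 4 * x ^ 2 * τ ^ 2)

theorem qq_sq (c x τ : ℝ) : qq c x τ ^ 2 = (x ^ 2 - τ ^ 2 + c ^ 2) ^ 2 + 4 * x ^ 2 * τ ^ 2 :=
  Real.sq_sqrt (by positivity)

theorem qq_nonneg (c x τ : ℝ) : 0 ≤ qq c x τ := Real.sqrt_nonneg _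

theorem abs_le_qq (c x τ : ℝ) : |x ^ 2 - τ ^ 2 + c ^ 2| ≤ qq c x τ := by
  apply Real.abs_le_sqrt
  nlinarith [sq_nonneg (x * τ)]

theorem pp_sq (c x τ : ℝ) : pp c x τ ^ 2 = (qq c x τ + (x ^ 2 - τ ^ 2 + c ^ 2)) / 2 := by
  unfold pp
  rw [Real.sq_sqrt]
  · rfl
  · have := neg_abs_le (x ^ 2 - τ ^ 2 + c ^ 2)
    have h2 := abs_le_qq c x τ
    unfold qq at h2
    linarith

theorem pp_nonneg (c x τ : ℝ) : 0 ≤ pp c x τ := Real.sqrt_nonneg _

theorem pp_quartic (c x τ : ℝ) :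
    pp c x τ ^ 4 = (x ^ 2 - τ ^ 2 + c ^ 2) * pp c x τ ^ 2 + x ^ 2 * τ ^ 2 := by
  have h : pp c x τ ^ 4 = (pp c x τ ^ 2) ^ 2 := by ring
  rw [h, pp_sq]
  linear_combination (1 / 4) * qq_sq c x τ

theorem sq_le_pp_sq (c x τ : ℝ) : x ^ 2 ≤ pp c x τ ^ 2 := by
  rw [pp_sq]
  have h : 2 * x ^ 2 - (x ^ 2 - τ ^ 2 + c ^ 2) ≤ qq c x τ := by
    refine le_trans (le_abs_self _) (Real.abs_le_sqrt ?_)
    nlinarith [sq_nonneg (x * c)]
  linarith

theorem pp_sq_le (c x τ : ℝ) : pp c x τ ^ 2 ≤ x ^ 2 + c ^ 2 := by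
  rw [pp_sq]
  have h : qq c x τ ≤ x ^ 2 + c ^ 2 + τ ^ 2 := by
    unfold qq
    rw [Real.sqrt_le_left (by positivity)]
    nlinarith [sq_nonneg (c * τ)]
  linarith

theorem le_pp {c x τ : ℝ} (hx : 0 < x) : x ≤ pp c x τ :=
  (sq_le_sq₀ hx.le (pp_nonneg c x τ)).1 (sq_le_pp_sq c x τ)

theorem pp_le (c x τ : ℝ) : pp c x τ ≤ √(x ^ 2 + c ^ 2) :=
  Real.le_sqrt_of_sq_le (pp_sq_le c x τ)

theorem pp_hom (c x τ D : ℝ) (hD : 0 ≤ D) : pp (D * c) (D * x) (D * τ) = D * pp c x τ := by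
  have h1 : qq (D * c) (D * x) (D * τ) = D ^ 2 * qq c x τ := by
    unfold qq
    rw [show ((D * x) ^ 2 - (D * τ) ^ 2 + (D * c) ^ 2) ^ 2 + 4 * (D * x) ^ 2 * (D * τ) ^ 2 =
      (D ^ 2) ^ 2 * ((x ^ 2 - τ ^ 2 + c ^ 2) ^ 2 + 4 * x ^ 2 * τ ^ 2) by ring,
      Real.sqrt_mul (by positivity), Real.sqrt_sq (by positivity)]
  have h2 : pp (D * c) (D * x) (D * τ) ^ 2 = (D * pp c x τ) ^ 2 := by
    rw [mul_pow, pp_sq, pp_sq, h1]
    ring
  exact (pow_left_inj₀ (pp_nonneg _ _ _) (mul_nonneg hD (pp_nonneg _ _ _)) two_ne_zero).1 h2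

theorem third (c x τ : ℝ) (hc : 0 < c) (hx : 0 < x) :
    √(x ^ 2 + c ^ 2) - pp c x τ =
      τ ^ 2 * ((1 - x ^ 2 / pp c x τ ^ 2) / (√(x ^ 2 + c ^ 2) + pp c x τ)) := by
  have hp : 0 < pp c x τ := hx.trans_le (le_pp hx)
  have hr : 0 < √(x ^ 2 + c ^ 2) := Real.sqrt_pos.2 (by positivity)
  have hr2 : √(x ^ 2 + c ^ 2) ^ 2 = x ^ 2 + c ^ 2 := Real.sq_sqrt (by positivity)
  have hq := pp_quartic c x τ
  have hs : 0 < √(x ^ 2 + c ^ 2) + pp c x τ := by positivity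
  rw [← mul_div_assoc, eq_div_iff hs.ne']
  have h1 : (√(x ^ 2 + c ^ 2) - pp c x τ) * (√(x ^ 2 + c ^ 2) + pp c x τ) =
      x ^ 2 + c ^ 2 - pp c x τ ^ 2 := by
    linear_combination hr2
  rw [h1]
  field_simp
  linear_combination -hq

theorem pp_props : S_pp := by
  refine ⟨fun c x τ hc hx => ⟨le_pp hx, pp_le c x τ, pp_quartic c x τ⟩,
    fun c x τ D hD => pp_hom c x τ D hD, third, ?_, ?_⟩
  · intro c x τ hc hx
    have hp : 0 < pp c x τ := hx.trans_le (le_pp hx)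
    have hrc : c ≤ √(x ^ 2 + c ^ 2) := by
      apply Real.le_sqrt_of_sq_le
      nlinarith
    refine ⟨sub_nonneg.2 (pp_le c x τ), ?_⟩
    rw [third c x τ hc hx, ← mul_div_assoc]
    have h1 : 1 - x ^ 2 / pp c x τ ^ 2 ≤ 1 := by
      have : 0 ≤ x ^ 2 / pp c x τ ^ 2 := by positivity
      linarith
    have h2 : τ ^ 2 * (1 - x ^ 2 / pp c x τ ^ 2) ≤ τ ^ 2 := by
      nlinarith [sq_nonneg τ]
    exact div_le_div₀ (sq_nonneg _) h2 hc (by linarith)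
  · intro c x τ hc hx hτ
    have hp : 0 < pp c x τ := hx.trans_le (le_pp hx)
    have hr : 0 < √(x ^ 2 + c ^ 2) := Real.sqrt_pos.2 (by positivity)
    have hr2 : √(x ^ 2 + c ^ 2) ^ 2 = x ^ 2 + c ^ 2 := Real.sq_sqrt (by positivity)
    have hτ2 : τ ^ 2 ≤ c ^ 2 / 4 := by
      have := sq_le_sq' (by linarith [abs_nonneg τ] : -(c / 2) ≤ |τ|) hτ
      rw [sq_abs] at this
      linarith
    constructor
    · rw [pp_sq]
      have h1 := le_abs_self (x ^ 2 - τ ^ 2 + c ^ 2)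
      have h2 := abs_le_qq c x τ
      nlinarith [sq_nonneg x]
    · set p := pp c x τ with hpdef
      set r := √(x ^ 2 + c ^ 2) with hrdef
      have h3 := third c x τ hc hx
      rw [← hpdef, ← hrdef] at h3
      have hpr : p ≤ r := pp_le c x τ
      have hxp : x ≤ p := le_pp hx
      have h4 : r - p ≤ τ ^ 2 / r := by
        rw [h3, ← mul_div_assoc]
        have h5 : 0 ≤ x ^ 2 / p ^ 2 := by positivity
        have h6 : τ ^ 2 * (1 - x ^ 2 / p ^ 2) ≤ τ ^ 2 := by nlinarith [sq_nonneg τ]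
        exact div_le_div₀ (sq_nonneg _) h6 hr (by linarith)
      have h7 : x * τ / p - x * τ / r = x * τ * (r - p) / (p * r) := by
        field_simp
      rw [h7, abs_div, abs_mul, abs_mul, abs_of_pos hx, abs_of_pos (mul_pos hp hr),
        abs_of_nonneg (sub_nonneg.2 hpr)]
      have h8 : x * |τ| * (r - p) ≤ p * |τ| * (τ ^ 2 / r) := by
        apply mul_le_mul
        · exact mul_le_mul_of_nonneg_right hxp (abs_nonneg _)
        · exact h4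
        · exact sub_nonneg.2 hpr
        · positivity
      have h9 : p * |τ| * (τ ^ 2 / r) / (p * r) = |τ| ^ 3 / r ^ 2 := by
        rw [← sq_abs τ]
        field_simp
      calc x * |τ| * (r - p) / (p * r) ≤ p * |τ| * (τ ^ 2 / r) / (p * r) := by gcongr
        _ = |τ| ^ 3 / r ^ 2 := h9
        _ ≤ |τ| ^ 3 / c ^ 2 := by
          rw [hr2]
          apply div_le_div_of_nonneg_left (by positivity) (by positivity)
          nlinarith
        _ ≤ 2 * |τ| ^ 3 / c ^ 2 := by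
          apply div_le_div_of_nonneg_right _ (by positivity)
          nlinarith [pow_nonneg (abs_nonneg τ) 3]

end Pool.Agent.TH41.LP.PPf
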