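import Mathlib
import Pool.Agent.TH41.LP.Stm

set_option autoImplicit false

open MeasureTheory Filter Topology

namespace Pool.Agent.TH41.LP.RIEf

open Pool.Agent.TH41.LP

/-- `B ↦ √(B² + a)` is `1`-Lipschitz, one side -/
theorem sqrt_lip1 (B B' a : ℝ) (ha : 0 ≤ a) : √(B ^ 2 + a) ≤ √(B' ^ 2 + a) + |B - B'| := by
  have h0 : 0 ≤ √(B' ^ 2 + a) := Real.sqrt_nonneg _
  have h1 : |B'| ≤ √(B' ^ 2 + a) := by
    apply Real.le_sqrt_of_sq_le
    rw [sq_abs]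
    linarith
  have h2 : √(B' ^ 2 + a) ^ 2 = B' ^ 2 + a := Real.sq_sqrt (by positivity)
  rw [Real.sqrt_le_left (by positivity)]
  have h3 : B ^ 2 ≤ (|B'| + |B - B'|) ^ 2 := by
    rw [← sq_abs B]
    have h4 : |B| ≤ |B'| + |B - B'| := by
      have := abs_add_le B' (B - B')
      rwa [add_sub_cancel] at this
    exact pow_le_pow_left₀ (abs_nonneg _) h4 2
  have h5 : 0 ≤ |B - B'| := abs_nonneg _
  have h6 : |B'| ^ 2 = B' ^ 2 := sq_abs _
  nlinarith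

theorem sqrt_lip (B B' a : ℝ) (ha : 0 ≤ a) : |√(B ^ 2 + a) - √(B' ^ 2 + a)| ≤ |B - B'| := by
  rw [abs_le]
  have h1 := sqrt_lip1 B B' a ha
  have h2 := sqrt_lip1 B' B a ha
  rw [abs_sub_comm] at h2
  constructor <;> linarith

theorem pp_sq (c x τ : ℝ) : pp c x τ ^ 2 =
    (√((x ^ 2 - τ ^ 2 + c ^ 2) ^ 2 + 4 * x ^ 2 * τ ^ 2) + (x ^ 2 - τ ^ 2 + c ^ 2)) / 2 := by
  unfold pp
  apply Real.sq_sqrt
  have h1 : |x ^ 2 - τ ^ 2 + c ^ 2| ≤
      √((x ^ 2 - τ ^ 2 + c ^ 2) ^ 2 + 4 * x ^ 2 * τ ^ 2) := by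
    apply Real.le_sqrt_of_sq_le
    rw [sq_abs]
    have : 0 ≤ 4 * x ^ 2 * τ ^ 2 := by positivity
    linarith
  have h2 := neg_abs_le (x ^ 2 - τ ^ 2 + c ^ 2)
  linarith

/-- the square of the imaginary part -/
noncomputable def qq (c x τ : ℝ) : ℝ :=
  (√((x ^ 2 - τ ^ 2 + c ^ 2) ^ 2 + 4 * x ^ 2 * τ ^ 2) - (x ^ 2 - τ ^ 2 + c ^ 2)) / 2

theorem pp_qq (c x τ : ℝ) : pp c x τ ^ 2 * qq c x τ = x ^ 2 * τ ^ 2 := by
  rw [pp_sq, qq]
  have h : √((x ^ 2 - τ ^ 2 + c ^ 2) ^ 2 + 4 * x ^ 2 * τ ^ 2) ^ 2 =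
      (x ^ 2 - τ ^ 2 + c ^ 2) ^ 2 + 4 * x ^ 2 * τ ^ 2 := Real.sq_sqrt (by positivity)
  linear_combination h / 4

theorem lips (c c' x τ : ℝ) : |pp c x τ ^ 2 - pp c' x τ ^ 2| ≤ |c ^ 2 - c' ^ 2| ∧
    |qq c x τ - qq c' x τ| ≤ |c ^ 2 - c' ^ 2| := by
  have h := sqrt_lip (x ^ 2 - τ ^ 2 + c ^ 2) (x ^ 2 - τ ^ 2 + c' ^ 2) (4 * x ^ 2 * τ ^ 2)
    (by positivity)
  have e : x ^ 2 - τ ^ 2 + c ^ 2 - (x ^ 2 - τ ^ 2 + c' ^ 2) = c ^ 2 - c' ^ 2 := by ring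
  rw [e] at h
  rw [pp_sq, pp_sq, qq, qq]
  rw [abs_le] at h
  have h1 := abs_le.1 (le_refl |c ^ 2 - c' ^ 2|)
  constructor
  · rw [abs_le]
    constructor <;> linarith [h.1, h.2, h1.1, h1.2]
  · rw [abs_le]
    constructor <;> linarith [h.1, h.2, h1.1, h1.2]

theorem abs_sub_sq_le {a b : ℝ} (ha : 0 ≤ a) (hb : 0 ≤ b) : (a - b) ^ 2 ≤ |a ^ 2 - b ^ 2| := by
  rcases le_total a b with h | h
  · rw [abs_sub_comm, abs_of_nonneg (by nlinarith)]
    nlinarith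
  · rw [abs_of_nonneg (by nlinarith)]
    nlinarith

theorem abs_le_sqrt {a b E : ℝ} (ha : 0 ≤ a) (hb : 0 ≤ b) (h : |a ^ 2 - b ^ 2| ≤ E) :
    |a - b| ≤ √E := by
  apply Real.abs_le_sqrt
  exact (abs_sub_sq_le ha hb).trans h

theorem root_sq (x c : ℝ) : √(x ^ 2 + c ^ 2) ^ 2 = x ^ 2 + c ^ 2 := Real.sq_sqrt (by positivity)

theorem root_lip {x c c' E : ℝ} (h : |c ^ 2 - c' ^ 2| ≤ E) :
    |√(x ^ 2 + c ^ 2) - √(x ^ 2 + c' ^ 2)| ≤ √E := by
  apply abs_le_sqrt (Real.sqrt_nonneg _) (Real.sqrt_nonneg _)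
  rw [root_sq, root_sq]
  rwa [add_sub_add_left_eq_sub]

theorem le_root {x c : ℝ} (hc : 0 ≤ c) : c ≤ √(x ^ 2 + c ^ 2) := by
  apply Real.le_sqrt_of_sq_le
  nlinarith [sq_nonneg x]

theorem le_root' {x c : ℝ} (hx : 0 ≤ x) : x ≤ √(x ^ 2 + c ^ 2) := by
  apply Real.le_sqrt_of_sq_le
  nlinarith [sq_nonneg c]

/-- the quotients -/
theorem quot (hpp : S_pp) {cm c c' x τ E : ℝ} (hcm : 0 < cm) (hc : cm ≤ c) (hc' : cm ≤ c')
    (hx : 0 < x) (hτ : τ ≠ 0) (hE : |c ^ 2 - c' ^ 2| ≤ E) :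
    |x ^ 2 / pp c x τ ^ 2 - x ^ 2 / pp c' x τ ^ 2| ≤ 4 * E / cm ^ 2 := by
  obtain ⟨hp1, -, -, -, hp5⟩ := hpp
  have hc0 : 0 < c := by linarith
  have hc0' : 0 < c' := by linarith
  obtain ⟨a1, -, -⟩ := hp1 c x τ hc0 hx
  obtain ⟨a1', -, -⟩ := hp1 c' x τ hc0' hx
  have hp : 0 < pp c x τ := by linarith
  have hp' : 0 < pp c' x τ := by linarith
  obtain ⟨l1, l2⟩ := lips c c' x τ
  have hE0 : 0 ≤ E := (abs_nonneg _).trans hE
  rcases le_total |τ| (cm / 2) with ht | ht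
  · -- small `τ`
    have h1 : x ^ 2 / pp c x τ ^ 2 - x ^ 2 / pp c' x τ ^ 2 =
        x ^ 2 / pp c x τ ^ 2 * ((pp c' x τ ^ 2 - pp c x τ ^ 2) / pp c' x τ ^ 2) := by
      field_simp
    obtain ⟨b1, -⟩ := hp5 c' x τ hc0' hx (by linarith)
    have h2 : 3 / 4 * cm ^ 2 ≤ pp c' x τ ^ 2 := by nlinarith
    have h3 : |x ^ 2 / pp c x τ ^ 2| ≤ 1 := by
      rw [abs_of_nonneg (by positivity), div_le_one (by positivity)]
      exact pow_le_pow_left₀ hx.le a1 2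
    have h4 : |(pp c' x τ ^ 2 - pp c x τ ^ 2) / pp c' x τ ^ 2| ≤ 4 * E / cm ^ 2 := by
      rw [abs_div, abs_of_nonneg (show 0 ≤ pp c' x τ ^ 2 by positivity), abs_sub_comm]
      rw [div_le_div_iff₀ (by positivity) (by positivity)]
      have h5 : |pp c x τ ^ 2 - pp c' x τ ^ 2| ≤ E := l1.trans hE
      have h6 : 0 < cm ^ 2 := by positivity
      calc |pp c x τ ^ 2 - pp c' x τ ^ 2| * cm ^ 2 ≤ E * cm ^ 2 := by gcongr
        _ ≤ 4 * E * (3 / 4 * cm ^ 2) := by nlinarith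
        _ ≤ 4 * E * pp c' x τ ^ 2 := by gcongr
    rw [h1, abs_mul]
    calc |x ^ 2 / pp c x τ ^ 2| * |(pp c' x τ ^ 2 - pp c x τ ^ 2) / pp c' x τ ^ 2| ≤
        1 * (4 * E / cm ^ 2) := mul_le_mul h3 h4 (abs_nonneg _) zero_le_one
      _ = _ := one_mul _
  · -- large `τ`
    have h1 : ∀ c : ℝ, 0 < pp c x τ → x ^ 2 / pp c x τ ^ 2 = qq c x τ / τ ^ 2 := by
      intro c hpc
      have := pp_qq c x τ
      rw [div_eq_div_iff (by positivity) (by positivity)]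
      linarith
    rw [h1 c hp, h1 c' hp', ← sub_div, abs_div, abs_of_nonneg (sq_nonneg τ)]
    rw [div_le_div_iff₀ (by positivity) (by positivity)]
    have h2 : cm ^ 2 ≤ 4 * τ ^ 2 := by
      rw [← sq_abs τ]
      nlinarith
    calc |qq c x τ - qq c' x τ| * cm ^ 2 ≤ E * (4 * τ ^ 2) := by
          apply mul_le_mul (l2.trans hE) h2 (by positivity) hE0
      _ = _ := by ring

theorem psi (hpp : S_pp) {cm c c' x τ E : ℝ} (hcm : 0 < cm) (hc : cm ≤ c) (hc' : cm ≤ c')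
    (hx : 0 < x) (hτ : τ ≠ 0) (hE : |c ^ 2 - c' ^ 2| ≤ E) :
    |(1 - x ^ 2 / pp c x τ ^ 2) / (√(x ^ 2 + c ^ 2) + pp c x τ) -
      (1 - x ^ 2 / pp c' x τ ^ 2) / (√(x ^ 2 + c' ^ 2) + pp c' x τ)| ≤
      4 * E / cm ^ 2 / cm + 2 * √E / cm ^ 2 := by
  have hq := quot hpp hcm hc hc' hx hτ hE
  obtain ⟨hp1, -, -, -, -⟩ := hpp
  have hc0 : 0 < c := by linarith
  have hc0' : 0 < c' := by linarith
  obtain ⟨a1, -, -⟩ := hp1 c x τ hc0 hx
  obtain ⟨a1', -, -⟩ := hp1 c' x τ hc0' hx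
  have hp : 0 < pp c x τ := by linarith
  have hp' : 0 < pp c' x τ := by linarith
  obtain ⟨l1, -⟩ := lips c c' x τ
  have hE0 : 0 ≤ E := (abs_nonneg _).trans hE
  have hr := le_root (x := x) hc0.le
  have hr' := le_root (x := x) hc0'.le
  have hpl : |pp c x τ - pp c' x τ| ≤ √E := abs_le_sqrt hp.le hp'.le (l1.trans hE)
  have hrl := root_lip (x := x) hE
  set X := x ^ 2 / pp c x τ ^ 2 with hX
  set X' := x ^ 2 / pp c' x τ ^ 2 with hX'
  set s := √(x ^ 2 + c ^ 2) + pp c x τ with hs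
  set s' := √(x ^ 2 + c' ^ 2) + pp c' x τ with hs'
  have hs1 : cm ≤ s := by linarith
  have hs1' : cm ≤ s' := by linarith
  have hs0 : 0 < s := by linarith
  have hs0' : 0 < s' := by linarith
  have hXn : 0 ≤ X' := by rw [hX']; positivity
  have hX1 : X' ≤ 1 := by
    rw [hX', div_le_one (by positivity)]
    exact pow_le_pow_left₀ hx.le a1' 2
  have hsd : |s' - s| ≤ 2 * √E := by
    have e : s' - s = -((√(x ^ 2 + c ^ 2) - √(x ^ 2 + c' ^ 2)) + (pp c x τ - pp c' x τ)) := by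
      rw [hs, hs']; ring
    rw [e, abs_neg]
    exact (abs_add_le _ _).trans (by linarith)
  have e : (1 - X) / s - (1 - X') / s' = -(X - X') / s + (1 - X') * ((s' - s) / (s * s')) := by
    field_simp
    ring
  rw [e]
  refine (abs_add_le _ _).trans (add_le_add ?_ ?_)
  · rw [abs_div, abs_neg, abs_of_pos hs0]
    exact div_le_div₀ (by positivity) hq hcm hs1
  · rw [abs_mul, abs_of_nonneg (by linarith : 0 ≤ 1 - X'), abs_div,
      abs_of_pos (mul_pos hs0 hs0')]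
    have h1 : |s' - s| / (s * s') ≤ 2 * √E / cm ^ 2 := by
      apply div_le_div₀ (by positivity) hsd (by positivity)
      nlinarith
    calc (1 - X') * (|s' - s| / (s * s')) ≤ 1 * (2 * √E / cm ^ 2) := by
          apply mul_le_mul (by linarith) h1 (by positivity) zero_le_one
      _ = _ := one_mul _

theorem rie_of (hpp : S_pp) : S_rie := by
  intro cm cM δ hcm hcM hδ
  have hcM0 : 0 < cM := by linarith
  set E0 : ℝ := min (δ * cm ^ 3 / 8) (min ((δ * cm ^ 2 / 4) ^ 2) ((δ * cm) ^ 2)) with hE0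
  have hE0p : 0 < E0 := by positivity
  have e1 : E0 ≤ δ * cm ^ 3 / 8 := min_le_left _ _
  have e2 : E0 ≤ (δ * cm ^ 2 / 4) ^ 2 := (min_le_right _ _).trans (min_le_left _ _)
  have e3 : E0 ≤ (δ * cm) ^ 2 := (min_le_right _ _).trans (min_le_right _ _)
  refine ⟨E0 / (2 * cM), by positivity, ?_⟩
  intro c c' h1 h2 h3 h4 hh
  have hE : |c ^ 2 - c' ^ 2| ≤ E0 := by
    have : c ^ 2 - c' ^ 2 = (c - c') * (c + c') := by ring
    rw [this, abs_mul, abs_of_nonneg (by linarith : 0 ≤ c + c')]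
    calc |c - c'| * (c + c') ≤ E0 / (2 * cM) * (2 * cM) := by
          apply mul_le_mul hh (by linarith) (by linarith) (by positivity)
      _ = E0 := by field_simp
  have s2 : √E0 ≤ δ * cm ^ 2 / 4 := by
    rw [Real.sqrt_le_left (by positivity)]
    exact e2
  have s3 : √E0 ≤ δ * cm := by
    rw [Real.sqrt_le_left (by positivity)]
    exact e3
  constructor
  · intro x τ hx
    have hpp3 := hpp.2.2.1
    rw [hpp3 c x τ (by linarith) hx, hpp3 c' x τ (by linarith) hx]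
    by_cases hτ : τ = 0
    · rw [hτ]; simp
    · rw [← mul_sub, abs_mul, abs_of_nonneg (sq_nonneg τ), mul_comm δ]
      apply mul_le_mul_of_nonneg_left _ (sq_nonneg τ)
      refine (psi hpp hcm h1 h3 hx hτ hE).trans ?_
      have g1 : 4 * E0 / cm ^ 2 / cm ≤ δ / 2 := by
        rw [div_div, div_le_iff₀ (by positivity)]
        have : cm ^ 2 * cm = cm ^ 3 := by ring
        rw [this]
        linarith
      have g2 : 2 * √E0 / cm ^ 2 ≤ δ / 2 := by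
        rw [div_le_iff₀ (by positivity)]
        linarith
      linarith
  · intro x hx
    have hc0 : 0 < c := by linarith
    have hc0' : 0 < c' := by linarith
    have hr := le_root (x := x) hc0.le
    have hr' := le_root (x := x) hc0'.le
    have hr0 : 0 < √(x ^ 2 + c ^ 2) := by linarith
    have hr0' : 0 < √(x ^ 2 + c' ^ 2) := by linarith
    have hxr := le_root' (c := c) hx
    have hrl := root_lip (x := x) hE
    have e : x / √(x ^ 2 + c ^ 2) - x / √(x ^ 2 + c' ^ 2) =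
        x / √(x ^ 2 + c ^ 2) * ((√(x ^ 2 + c' ^ 2) - √(x ^ 2 + c ^ 2)) / √(x ^ 2 + c' ^ 2)) := by
      field_simp
    rw [e, abs_mul, abs_div, abs_div, abs_of_nonneg hx, abs_of_pos hr0, abs_of_pos hr0']
    have g1 : x / √(x ^ 2 + c ^ 2) ≤ 1 := by
      rw [div_le_one hr0]
      exact hxr
    have g2 : |√(x ^ 2 + c' ^ 2) - √(x ^ 2 + c ^ 2)| / √(x ^ 2 + c' ^ 2) ≤ δ := by
      rw [div_le_iff₀ hr0', abs_sub_comm]
      calc |√(x ^ 2 + c ^ 2) - √(x ^ 2 + c' ^ 2)| ≤ δ * cm := hrl.trans s3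
        _ ≤ _ := by
          apply mul_le_mul_of_nonneg_left _ hδ.le
          linarith
    calc x / √(x ^ 2 + c ^ 2) * (|√(x ^ 2 + c' ^ 2) - √(x ^ 2 + c ^ 2)| / √(x ^ 2 + c' ^ 2)) ≤
        1 * δ := mul_le_mul g1 g2 (by positivity) zero_le_one
      _ = δ := one_mul _

end Pool.Agent.TH41.LP.RIEf
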