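import Mathlib
import Pool.Agent.TH41.LP.Stm

set_option autoImplicit false

open MeasureTheory Filter Topology

namespace Pool.Agent.TH41.LP.ROOTf

open Pool.Agent.TH41.LP

theorem root : S_root := by
  intro c σ t hc hσ
  have hσ2 : 0 < σ ^ 2 := by positivity
  have hpp : pp c |σ| t =
      √((√((σ ^ 2 - t ^ 2 + c ^ 2) ^ 2 + 4 * σ ^ 2 * t ^ 2) + (σ ^ 2 - t ^ 2 + c ^ 2)) / 2) := by
    unfold pp
    rw [sq_abs]
  rw [hpp]
  set B := σ ^ 2 - t ^ 2 + c ^ 2 with hB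
  set R := √(B ^ 2 + 4 * σ ^ 2 * t ^ 2) with hR
  have hR2 : R ^ 2 = B ^ 2 + 4 * σ ^ 2 * t ^ 2 := Real.sq_sqrt (by positivity)
  have hR0 : 0 ≤ R := Real.sqrt_nonneg _
  have hpos : 0 < R + B := by
    by_contra h
    push Not at h
    have h1 : R ^ 2 ≤ B ^ 2 := by nlinarith
    have h2 : σ ^ 2 * t ^ 2 ≤ 0 := by linarith
    have h3 : t ^ 2 ≤ 0 := by
      by_contra h4
      push Not at h4
      have := mul_pos hσ2 h4
      linarith
    have h5 : 0 < c ^ 2 := by positivity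
    linarith
  set P := √((R + B) / 2) with hP
  have hP0 : 0 < P := Real.sqrt_pos.2 (by linarith)
  have hP2 : P ^ 2 = (R + B) / 2 := Real.sq_sqrt (by linarith)
  have hP4 : P ^ 2 * P ^ 2 - B * P ^ 2 = σ ^ 2 * t ^ 2 := by
    rw [hP2]
    linear_combination hR2 / 4
  refine ⟨hP0, ?_⟩
  have hre : P ^ 2 - (σ * t / P) ^ 2 = B := by
    rw [div_pow]
    field_simp
    linear_combination hP4
  have him : P * (σ * t / P) = σ * t := by
    field_simp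
  have hre' : ((P : ℝ) : ℂ) ^ 2 - ((σ * t / P : ℝ) : ℂ) ^ 2 = ((B : ℝ) : ℂ) := by
    exact_mod_cast congrArg (fun r : ℝ => (r : ℂ)) hre
  have him' : ((P : ℝ) : ℂ) * ((σ * t / P : ℝ) : ℂ) = (σ : ℂ) * (t : ℂ) := by
    rw [← Complex.ofReal_mul, him, Complex.ofReal_mul]
  have hB' : ((B : ℝ) : ℂ) = (σ : ℂ) ^ 2 - (t : ℂ) ^ 2 + (c : ℂ) ^ 2 := by
    rw [hB]
    push_cast
    ring
  have hI : Complex.I ^ 2 = -1 := Complex.I_sq
  linear_combination hre' + 2 * Complex.I * him' + hB' + (((σ * t / P : ℝ) : ℂ) ^ 2 - (t : ℂ) ^ 2) * hI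

end Pool.Agent.TH41.LP.ROOTf
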