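import Mathlib
import Pool.Agent.TH41.LP.Stm

set_option autoImplicit false

open MeasureTheory Filter Topology

namespace Pool.Agent.TH41.LP.VOLf

open Pool.Agent.TH41.LP

theorem gamma_int {x : ℝ} (hx : 0 < x) :
    Real.Gamma (x + 1) = ∫ t in Set.Ioi (0 : ℝ), Real.exp (-t) * t ^ x := by
  rw [Real.Gamma_eq_integral (by linarith : (0 : ℝ) < x + 1), add_sub_cancel_right]

theorem gamma_conv {x : ℝ} (hx : 0 < x) :
    IntegrableOn (fun t : ℝ => Real.exp (-t) * t ^ x) (Set.Ioi 0) := by
  have := Real.GammaIntegral_convergent (by linarith : (0 : ℝ) < x + 1)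
  rwa [add_sub_cancel_right] at this

theorem gamma_lower {x : ℝ} (hx : 0 < x) : Real.exp (x * Real.log x - x) ≤ Real.Gamma (x + 1) := by
  rw [gamma_int hx]
  have h1 : ∫ t in Set.Ioi x, Real.exp (-t) * t ^ x ≤
      ∫ t in Set.Ioi (0 : ℝ), Real.exp (-t) * t ^ x := by
    apply setIntegral_mono_set (gamma_conv hx)
    · filter_upwards [self_mem_ae_restrict measurableSet_Ioi] with t ht
      have : (0 : ℝ) < t := ht
      change 0 ≤ Real.exp (-t) * t ^ x
      positivity
    · exact (Set.Ioi_subset_Ioi hx.le).eventuallyLE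
  refine le_trans ?_ h1
  have h2 : ∫ t in Set.Ioi x, Real.exp (-t) * x ^ x ≤ ∫ t in Set.Ioi x, Real.exp (-t) * t ^ x := by
    apply setIntegral_mono_on
    · exact (integrableOn_exp_neg_Ioi x).mul_const _
    · exact (gamma_conv hx).mono_set (Set.Ioi_subset_Ioi hx.le)
    · exact measurableSet_Ioi
    · intro t ht
      have ht' : x < t := ht
      exact mul_le_mul_of_nonneg_left (Real.rpow_le_rpow hx.le ht'.le hx.le) (Real.exp_pos _).le
  refine le_trans (le_of_eq ?_) h2
  rw [integral_mul_const, integral_exp_neg_Ioi, Real.rpow_def_of_pos hx, ← Real.exp_add]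
  congr 1
  ring

theorem gamma_upper {x ε : ℝ} (hx : 0 < x) (hε : 0 < ε) :
    Real.Gamma (x + 1) * (1 - Real.exp (-ε)) ≤ Real.exp (x * Real.log x - x + ε * x) := by
  rw [gamma_int hx]
  have ha0 : 0 < Real.exp (-ε) := Real.exp_pos _
  have ha1 : Real.exp (-ε) < 1 := by
    rw [Real.exp_lt_one_iff]
    linarith
  have hb : 0 < 1 - Real.exp (-ε) := by linarith
  have h1 : ∫ t in Set.Ioi (0 : ℝ), Real.exp (-t) * t ^ x ≤
      ∫ t in Set.Ioi (0 : ℝ), Real.exp (x * Real.log x - x + ε * x) *
        Real.exp (-(1 - Real.exp (-ε)) * t) := by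
    apply setIntegral_mono_on (gamma_conv hx)
    · exact (integrableOn_exp_mul_Ioi (by linarith) 0).const_mul _
    · exact measurableSet_Ioi
    · intro t ht
      have ht' : (0 : ℝ) < t := ht
      rw [Real.rpow_def_of_pos ht', ← Real.exp_add, ← Real.exp_add, Real.exp_le_exp]
      -- log t ≤ log x + ε + a t / x - 1
      have h2 : Real.log (Real.exp (-ε) * t / x) ≤ Real.exp (-ε) * t / x - 1 :=
        Real.log_le_sub_one_of_pos (by positivity)
      rw [Real.log_div (by positivity) hx.ne', Real.log_mul ha0.ne' ht'.ne', Real.log_exp] at h2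
      have h3 : x * (-ε + Real.log t - Real.log x) ≤ x * (Real.exp (-ε) * t / x - 1) :=
        mul_le_mul_of_nonneg_left h2 hx.le
      have h4 : x * (Real.exp (-ε) * t / x - 1) = Real.exp (-ε) * t - x := by
        field_simp
      rw [h4] at h3
      nlinarith
  refine (mul_le_mul_of_nonneg_right h1 hb.le).trans (le_of_eq ?_)
  rw [integral_const_mul, integral_exp_mul_Ioi (by linarith), mul_zero, Real.exp_zero]
  field_simp

theorem vol_toReal (d : ℕ) (hd : 0 < d) (r : ℝ) (hr : 0 ≤ r) :
    (volume (Metric.ball (0 : EuclideanSpace ℝ (Fin d)) r)).toReal =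
      r ^ d * (√Real.pi ^ d / Real.Gamma ((d : ℝ) / 2 + 1)) := by
  have : Nonempty (Fin d) := ⟨⟨0, hd⟩⟩
  rw [EuclideanSpace.volume_ball, Fintype.card_fin, ENNReal.toReal_mul, ENNReal.toReal_pow,
    ENNReal.toReal_ofReal hr, ENNReal.toReal_ofReal (by positivity)]

theorem pow_exp (a : ℝ) (ha : 0 < a) (d : ℕ) : a ^ d = Real.exp (d * Real.log a) := by
  rw [mul_comm, Real.exp_mul, Real.exp_log ha, Real.rpow_natCast]

theorem vol : S_vol := by
  constructor
  · intro ε hε
    have ha1 : Real.exp (-ε) < 1 := by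
      rw [Real.exp_lt_one_iff]
      linarith
    have hlim : Tendsto (fun d : ℕ => Real.exp (-(ε / 2) * (d : ℝ))) atTop (𝓝 0) := by
      apply Real.tendsto_exp_atBot.comp
      exact Tendsto.const_mul_atTop_of_neg (by linarith) tendsto_natCast_atTop_atTop
    have hev := hlim.eventually_lt_const (by linarith : (0 : ℝ) < 1 - Real.exp (-ε))
    obtain ⟨d1, hd1⟩ := eventually_atTop.1 hev
    refine ⟨max d1 1, fun d hd => ?_⟩
    have hdd1 : d1 ≤ d := (le_max_left _ _).trans hd
    have hdpos : 0 < d := lt_of_lt_of_le one_pos ((le_max_right _ _).trans hd)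
    have hd0 : (0 : ℝ) < d := by exact_mod_cast hdpos
    rw [vol_toReal d hdpos (1 / 2) (by norm_num)]
    obtain ⟨x, hx⟩ : ∃ x : ℝ, x = (d : ℝ) / 2 := ⟨_, rfl⟩
    have hdx : (d : ℝ) = 2 * x := by linarith
    have hx0 : 0 < x := by linarith
    have hG : 0 < Real.Gamma ((d : ℝ) / 2 + 1) := Real.Gamma_pos_of_pos (by positivity)
    have hlogd : Real.log d = Real.log 2 + Real.log x := by
      rw [hdx, Real.log_mul (by norm_num) hx0.ne']
    have e1 : (√(d : ℝ) / Real.pi) ^ d * ((1 / 2 : ℝ) ^ d * √Real.pi ^ d) =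
        Real.exp (x * Real.log x - x * Real.log 2 - x * Real.log Real.pi) := by
      rw [← mul_pow, ← mul_pow, pow_exp _ (by positivity)]
      congr 1
      rw [Real.log_mul (by positivity) (by positivity), Real.log_div (by positivity) (by positivity),
        Real.log_mul (by positivity) (by positivity), Real.log_sqrt (by positivity),
        Real.log_sqrt (by positivity), one_div, Real.log_inv, hlogd, hdx]
      ring
    have e2 : (Real.exp 1 / (2 * Real.pi)) ^ ((d : ℝ) / 2) =
        Real.exp (x - x * Real.log 2 - x * Real.log Real.pi) := by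
      rw [Real.rpow_def_of_pos (by positivity), Real.log_div (by positivity) (by positivity),
        Real.log_exp, Real.log_mul (by norm_num) (by positivity), ← hx]
      congr 1
      ring
    have e3 : (√(d : ℝ) / Real.pi) ^ d *
        ((1 / 2 : ℝ) ^ d * (√Real.pi ^ d / Real.Gamma ((d : ℝ) / 2 + 1))) =
        Real.exp (x * Real.log x - x * Real.log 2 - x * Real.log Real.pi) /
          Real.Gamma ((d : ℝ) / 2 + 1) := by
      rw [← e1]
      ring
    rw [e3, e2, le_div_iff₀ hG, ← Real.exp_add]
    have hu := gamma_upper hx0 hε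
    rw [← hx]
    have hsmall : Real.exp (-(ε * x)) ≤ 1 - Real.exp (-ε) := by
      have := (hd1 d hdd1).le
      have e4 : -(ε / 2) * (d : ℝ) = -(ε * x) := by rw [hdx]; ring
      rwa [e4] at this
    have hG1 : 0 < Real.Gamma (x + 1) := Real.Gamma_pos_of_pos (by linarith)
    have h5 : Real.exp (-(ε * x)) * Real.Gamma (x + 1) ≤
        Real.exp (x * Real.log x - x + ε * x) := by
      refine le_trans ?_ hu
      rw [mul_comm]
      exact mul_le_mul_of_nonneg_left hsmall hG1.le
    calc Real.exp (x - x * Real.log 2 - x * Real.log Real.pi + -ε * (d : ℝ)) * Real.Gamma (x + 1)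
        = Real.exp (x - x * Real.log 2 - x * Real.log Real.pi - ε * x) *
          (Real.exp (-(ε * x)) * Real.Gamma (x + 1)) := by
          rw [← mul_assoc, ← Real.exp_add]
          congr 2
          rw [hdx]
          ring
      _ ≤ Real.exp (x - x * Real.log 2 - x * Real.log Real.pi - ε * x) *
          Real.exp (x * Real.log x - x + ε * x) :=
          mul_le_mul_of_nonneg_left h5 (Real.exp_pos _).le
      _ = Real.exp (x * Real.log x - x * Real.log 2 - x * Real.log Real.pi) := by
          rw [← Real.exp_add]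
          congr 1
          ring
  · refine ⟨1, fun d hd => ?_⟩
    have hdpos : 0 < d := hd
    have hd0 : (0 : ℝ) < d := by exact_mod_cast hdpos
    rw [vol_toReal d hdpos _ (by positivity)]
    obtain ⟨x, hx⟩ : ∃ x : ℝ, x = (d : ℝ) / 2 := ⟨_, rfl⟩
    have hdx : (d : ℝ) = 2 * x := by linarith
    have hx0 : 0 < x := by linarith
    have hG : 0 < Real.Gamma ((d : ℝ) / 2 + 1) := Real.Gamma_pos_of_pos (by positivity)
    have hlogd : Real.log d = Real.log 2 + Real.log x := by
      rw [hdx, Real.log_mul (by norm_num) hx0.ne']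
    have e1 : (√(d : ℝ) / Real.pi) ^ d * √Real.pi ^ d =
        Real.exp (x * Real.log x + x * Real.log 2 - x * Real.log Real.pi) := by
      rw [← mul_pow, pow_exp _ (by positivity)]
      congr 1
      rw [Real.log_mul (by positivity) (by positivity), Real.log_div (by positivity) (by positivity),
        Real.log_sqrt (by positivity), Real.log_sqrt (by positivity), hlogd, hdx]
      ring
    rw [← mul_div_assoc, e1, div_le_iff₀ hG, ← hx]
    have hl := gamma_lower hx0
    have h2pi : Real.log 2 ≤ Real.log Real.pi :=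
      Real.log_le_log (by norm_num) (by linarith [Real.pi_gt_three])
    calc Real.exp (x * Real.log x + x * Real.log 2 - x * Real.log Real.pi)
        ≤ Real.exp (d + (x * Real.log x - x)) := by
          rw [Real.exp_le_exp, hdx]
          nlinarith
      _ = Real.exp d * Real.exp (x * Real.log x - x) := Real.exp_add _ _
      _ ≤ Real.exp d * Real.Gamma (x + 1) := mul_le_mul_of_nonneg_left hl (Real.exp_pos _).le

end Pool.Agent.TH41.LP.VOLf
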