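import Mathlib
import Pool.Agent.TH41.LP.Stm

set_option autoImplicit false

open MeasureTheory Filter Topology

namespace Pool.Agent.TH41.LP.YBf

open Pool.Agent.TH41.LP

theorem gl_le (X y : ℝ) (hX : 0 < X) : gl X y ≤ |y| * (Real.pi / 2) := by
  unfold gl
  have h1 : 0 ≤ Real.log (1 + y ^ 2 / X ^ 2) := Real.log_nonneg (by
    have : 0 ≤ y ^ 2 / X ^ 2 := by positivity
    linarith)
  have h2 : y * Real.arctan (y / X) ≤ |y| * (Real.pi / 2) := by
    calc y * Real.arctan (y / X) ≤ |y * Real.arctan (y / X)| := le_abs_self _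
      _ = |y| * |Real.arctan (y / X)| := abs_mul _ _
      _ ≤ |y| * (Real.pi / 2) := by
        apply mul_le_mul_of_nonneg_left _ (abs_nonneg y)
        rw [abs_le]
        exact ⟨(Real.neg_pi_div_two_lt_arctan _).le, (Real.arctan_lt_pi_div_two _).le⟩
  have h3 : 0 ≤ 1 / 2 * X * Real.log (1 + y ^ 2 / X ^ 2) := by positivity
  linarith

theorem norm_exp_one (s : ℂ) (A : ℝ) (h : -A ≤ s.re) :
    ‖Complex.exp (-(s / 2) * (Real.log Real.pi : ℝ))‖ ≤ Real.exp (A / 2 * Real.log Real.pi) := by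
  rw [Complex.norm_exp]
  apply Real.exp_le_exp.mpr
  have h1 : (-(s / 2) * ((Real.log Real.pi : ℝ) : ℂ)).re = -(s.re / 2) * Real.log Real.pi := by
    simp
  rw [h1]
  have h2 : 0 ≤ Real.log Real.pi := Real.log_nonneg (by linarith [Real.pi_gt_three])
  nlinarith

theorem norm_exp_two (s : ℂ) (D K B : ℝ) (hD : 0 < D) (hK : 0 < K) (h : |s.re| ≤ B) :
    ‖Complex.exp ((s ^ 2 - D * s) / (2 * K * D))‖ ≤
      Real.exp ((B ^ 2 + D * B) / (2 * K * D)) * Real.exp (-(s.im ^ 2) / (2 * K * D)) := by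
  rw [Complex.norm_exp, ← Real.exp_add]
  apply Real.exp_le_exp.mpr
  have h0 : (2 * (K : ℂ) * (D : ℂ)) = ((2 * K * D : ℝ) : ℂ) := by push_cast; ring
  have h1 : ((s ^ 2 - (D : ℂ) * s) / (2 * (K : ℂ) * (D : ℂ))).re =
      (s.re ^ 2 - s.im ^ 2 - D * s.re) / (2 * K * D) := by
    rw [h0, Complex.div_ofReal_re]
    congr 1
    simp [pow_two]
  rw [h1, ← add_div]
  apply div_le_div_of_nonneg_right _ (by positivity)
  have h2 : s.re ^ 2 ≤ B ^ 2 := by
    rw [← sq_abs s.re]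
    exact pow_le_pow_left₀ (abs_nonneg _) h 2
  have h3 : -(s.re) ≤ B := (neg_le_abs _).trans h
  nlinarith

theorem prod_cosh_le (F : Fam) (D σ B : ℝ) (h : |σ| ≤ B) :
    ∏ i, Real.cosh (F.κ i * √(σ ^ 2 + (F.c i * D) ^ 2)) ≤
      ∏ i, Real.cosh (F.κ i * √(B ^ 2 + (F.c i * D) ^ 2)) := by
  apply Finset.prod_le_prod
  · intro i _
    exact (Real.cosh_pos _).le
  · intro i _
    rw [Real.cosh_le_cosh]
    have h2 : σ ^ 2 ≤ B ^ 2 := by
      rw [← sq_abs σ]
      exact pow_le_pow_left₀ (abs_nonneg _) h 2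
    have h3 := F.κ_pos i
    rw [abs_of_nonneg (by positivity), abs_of_nonneg (by positivity)]
    exact mul_le_mul_of_nonneg_left (Real.sqrt_le_sqrt (by linarith)) h3.le

theorem gauss_le (D K t : ℝ) (hD : 0 < D) (hK : 0 < K) :
    Real.exp (|t / 2| * (Real.pi / 2)) * Real.exp (-(t ^ 2) / (2 * K * D)) ≤
      Real.exp ((Real.pi / 4) ^ 2 * (K * D)) * Real.exp (-(1 / (4 * K * D)) * t ^ 2) := by
  rw [← Real.exp_add, ← Real.exp_add]
  apply Real.exp_le_exp.mpr
  have hKD : 0 < K * D := by positivity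
  have h1 : |t / 2| = |t| / 2 := by
    rw [abs_div]; norm_num
  rw [h1]
  have h2 : 0 ≤ (|t| - (Real.pi / 2) * (K * D)) ^ 2 / (4 * (K * D)) := by positivity
  have h3 : (|t| - (Real.pi / 2) * (K * D)) ^ 2 / (4 * (K * D)) =
      t ^ 2 / (4 * (K * D)) - (Real.pi / 4) * |t| + (Real.pi / 4) ^ 2 * (K * D) := by
    rw [sub_sq, sq_abs]
    field_simp
    ring
  have h4 : -(t ^ 2) / (2 * K * D) = -(2 * (t ^ 2 / (4 * (K * D)))) := by
    field_simp
    ring
  have h5 : -(1 / (4 * K * D)) * t ^ 2 = -(t ^ 2 / (4 * (K * D))) := by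
    field_simp
  rw [h4, h5]
  nlinarith

theorem yb_of (he : S_ee) (hg : S_gam) : S_yb := by
  intro F D K A hD hK hA
  obtain ⟨-, -, -, -, hE⟩ := he F D hD
  -- the bound for `1/Γ`
  have hcont : Continuous (fun x : ℝ => ((Complex.Gamma ((x : ℂ) + 1))⁻¹ : ℂ)) := by
    have := Complex.differentiable_one_div_Gamma.continuous
    exact this.comp (by fun_prop)
  obtain ⟨CG, hCG⟩ := (isCompact_Icc (a := D / 4) (b := (D + A) / 2)).exists_bound_of_continuousOn
    hcont.continuousOn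
  set B : ℝ := A + D with hB
  set PB : ℝ := ∏ i, Real.cosh (F.κ i * √((B + D) ^ 2 + (F.c i * D) ^ 2)) with hPB
  have hPB0 : 0 ≤ PB := Finset.prod_nonneg (fun i _ => (Real.cosh_pos _).le)
  refine ⟨Real.exp (A / 2 * Real.log Real.pi) * Real.exp ((B ^ 2 + D * B) / (2 * K * D)) *
    (‖Complex.Gamma (D / 2 + 1)‖ * CG) * (PB * PB / ‖EE F D 0 * EE F D D‖) *
    Real.exp ((Real.pi / 4) ^ 2 * (K * D)), ?_⟩
  intro s hs1 hs2
  have hsB : |s.re| ≤ B := by
    rw [abs_le]; constructor <;> linarith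
  have hsB' : |s.re| ≤ B + D := by linarith
  have hsB2 : |D - s.re| ≤ B + D := by
    rw [abs_le]; constructor <;> linarith
  have e1 := norm_exp_one s A hs1
  have e2 := norm_exp_two s D K B hD hK hsB
  -- gamma
  set X : ℝ := (D - s.re) / 2 with hX
  have hX0 : 0 < X := by rw [hX]; linarith
  have hX1 : X ∈ Set.Icc (D / 4) ((D + A) / 2) := by
    constructor <;> (rw [hX]; linarith)
  have e3 : ‖Complex.Gamma (D / 2 + 1) / Complex.Gamma ((D - s) / 2 + 1)‖ ≤
      ‖Complex.Gamma (D / 2 + 1)‖ * CG * Real.exp (|s.im / 2| * (Real.pi / 2)) := by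
    have g1 := (hg X (s.im / 2) hX0).1
    have g2 : ((D : ℂ) - s) / 2 + 1 = (X : ℂ) + 1 - ((s.im / 2 : ℝ) : ℂ) * Complex.I := by
      apply Complex.ext
      · simp [hX]
      · simp; ring
    have g3 : Complex.Gamma ((X : ℂ) + 1) ≠ 0 := by
      apply Complex.Gamma_ne_zero_of_re_pos
      simp; linarith
    have g4 : Complex.Gamma (D / 2 + 1) / Complex.Gamma (((D : ℂ) - s) / 2 + 1) =
        Complex.Gamma (D / 2 + 1) * (Complex.Gamma ((X : ℂ) + 1))⁻¹ *
        (Complex.Gamma ((X : ℂ) + 1) / Complex.Gamma ((X : ℂ) + 1 - ((s.im / 2 : ℝ) : ℂ) * Complex.I)) := by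
      rw [g2]
      field_simp
    rw [g4, norm_mul, norm_mul]
    have g5 := hCG X hX1
    have g6 : (Real.exp (gl X (s.im / 2))) ≤ Real.exp (|s.im / 2| * (Real.pi / 2)) :=
      Real.exp_le_exp.mpr (gl_le X _ hX0)
    have g7 := g1.trans g6
    have g8 : 0 ≤ CG := (norm_nonneg _).trans g5
    gcongr
  -- EE
  have e4 : ‖EE F D s * EE F D (D - s) / (EE F D 0 * EE F D D)‖ ≤
      PB * PB / ‖EE F D 0 * EE F D D‖ := by
    rw [norm_div, norm_mul (EE F D s)]
    apply div_le_div_of_nonneg_right _ (norm_nonneg _)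
    have k1 : ‖EE F D s‖ ≤ PB := by
      have := hE s.re s.im
      rw [Complex.re_add_im] at this
      exact this.trans (prod_cosh_le F D s.re (B + D) hsB')
    have k2 : ‖EE F D (D - s)‖ ≤ PB := by
      have := hE (D - s.re) (-s.im)
      have k3 : (((D - s.re : ℝ) : ℂ) + ((-s.im : ℝ) : ℂ) * Complex.I) = (D : ℂ) - s := by
        apply Complex.ext
        · simp
        · simp
      rw [k3] at this
      exact this.trans (prod_cosh_le F D (D - s.re) (B + D) hsB2)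
    exact mul_le_mul k1 k2 (norm_nonneg _) hPB0
  have hCG0 : 0 ≤ CG := (norm_nonneg _).trans (hCG X hX1)
  have e5 := gauss_le D K s.im hD hK
  unfold YY
  rw [norm_mul, norm_mul, norm_mul]
  calc ‖Complex.exp (-(s / 2) * (Real.log Real.pi : ℝ))‖ *
        ‖Complex.exp ((s ^ 2 - D * s) / (2 * K * D))‖ *
        ‖Complex.Gamma (D / 2 + 1) / Complex.Gamma ((D - s) / 2 + 1)‖ *
        ‖EE F D s * EE F D (D - s) / (EE F D 0 * EE F D D)‖
      ≤ Real.exp (A / 2 * Real.log Real.pi) *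
        (Real.exp ((B ^ 2 + D * B) / (2 * K * D)) * Real.exp (-(s.im ^ 2) / (2 * K * D))) *
        (‖Complex.Gamma (D / 2 + 1)‖ * CG * Real.exp (|s.im / 2| * (Real.pi / 2))) *
        (PB * PB / ‖EE F D 0 * EE F D D‖) := by gcongr
    _ = (Real.exp (A / 2 * Real.log Real.pi) * Real.exp ((B ^ 2 + D * B) / (2 * K * D)) *
        (‖Complex.Gamma (D / 2 + 1)‖ * CG) * (PB * PB / ‖EE F D 0 * EE F D D‖)) *
        (Real.exp (|s.im / 2| * (Real.pi / 2)) * Real.exp (-(s.im ^ 2) / (2 * K * D))) := by ring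
    _ ≤ (Real.exp (A / 2 * Real.log Real.pi) * Real.exp ((B ^ 2 + D * B) / (2 * K * D)) *
        (‖Complex.Gamma (D / 2 + 1)‖ * CG) * (PB * PB / ‖EE F D 0 * EE F D D‖)) *
        (Real.exp ((Real.pi / 4) ^ 2 * (K * D)) * Real.exp (-(1 / (4 * K * D)) * s.im ^ 2)) := by
        gcongr
    _ = _ := by ring

end Pool.Agent.TH41.LP.YBf
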