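import Mathlib
import Pool.Agent.TH41.LP.Stm

set_option autoImplicit false

open MeasureTheory Filter Topology

namespace Pool.Agent.TH41.LP.YPf

open Pool.Agent.TH41.LP

theorem yp_of (he : S_ee) : S_yp := by
  intro F D K hD hK
  obtain ⟨hdiff, heven, -, hreal, -⟩ := he F D hD
  -- the real values of `EE`
  set R : ℝ → ℝ := fun σ => ∏ i, Real.cosh (F.κ i * √(σ ^ 2 + (F.c i * D) ^ 2)) with hR
  have hRpos : ∀ σ : ℝ, 0 < R σ := fun σ => Finset.prod_pos fun i _ => Real.cosh_pos _
  have hEE : ∀ σ : ℝ, EE F D σ = ((R σ : ℝ) : ℂ) := fun σ => hreal σ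
  have h0 : EE F D 0 = ((R 0 : ℝ) : ℂ) := by
    have := hEE 0
    simpa using this
  have hE0 : EE F D 0 ≠ 0 := by
    rw [h0]; exact_mod_cast (hRpos 0).ne'
  have hED : EE F D D ≠ 0 := by
    rw [hEE D]; exact_mod_cast (hRpos D).ne'
  have hG0 : Complex.Gamma (D / 2 + 1) ≠ 0 := by
    apply Complex.Gamma_ne_zero_of_re_pos
    have : ((D : ℂ) / 2 + 1).re = D / 2 + 1 := by simp
    rw [this]; positivity
  refine ⟨?_, ?_, ?_⟩
  · unfold YY
    have h1 : Differentiable ℂ fun s : ℂ => Complex.exp (-(s / 2) * (Real.log Real.pi : ℝ)) := by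
      fun_prop
    have h2 : Differentiable ℂ fun s : ℂ => Complex.exp ((s ^ 2 - D * s) / (2 * K * D)) := by
      fun_prop
    have h3 : Differentiable ℂ fun s : ℂ =>
        Complex.Gamma (D / 2 + 1) / Complex.Gamma ((D - s) / 2 + 1) := by
      have e : (fun s : ℂ => Complex.Gamma (D / 2 + 1) / Complex.Gamma ((D - s) / 2 + 1)) =
          fun s : ℂ => Complex.Gamma (D / 2 + 1) * (fun z : ℂ => (Complex.Gamma z)⁻¹)
            ((D - s) / 2 + 1) := by
        funext s; simp only [div_eq_mul_inv]
      rw [e]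
      apply Differentiable.const_mul
      apply Differentiable.comp Complex.differentiable_one_div_Gamma
      fun_prop
    have h4 : Differentiable ℂ fun s : ℂ =>
        EE F D s * EE F D (D - s) / (EE F D 0 * EE F D D) := by
      apply Differentiable.div_const
      apply Differentiable.mul hdiff
      exact hdiff.comp (by fun_prop)
    exact ((h1.mul h2).mul h3).mul h4
  · unfold YY
    have e1 : ((D : ℂ) - 0) / 2 + 1 = D / 2 + 1 := by ring
    rw [e1]
    simp only [zero_div, neg_zero, zero_mul, Complex.exp_zero, mul_zero, sub_zero, one_mul]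
    have e2 : ((0 : ℂ) ^ 2) / (2 * K * D) = 0 := by simp
    rw [e2, Complex.exp_zero, one_mul, div_self hG0, one_mul, div_self (mul_ne_zero hE0 hED)]
  · intro σ hσ
    have hreal2 : YY F D K σ =
        ((Real.exp (-(σ / 2) * Real.log Real.pi) *
          Real.exp ((σ ^ 2 - D * σ) / (2 * K * D)) *
          (Real.Gamma (D / 2 + 1) / Real.Gamma ((D - σ) / 2 + 1)) *
          (R σ * R (D - σ) / (R 0 * R D)) : ℝ) : ℂ) := by
      unfold YY
      have a1 := hEE σ
      have a2 := hEE (D - σ)
      have a3 := hEE D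
      push_cast at a2
      rw [a1, a2, a3, h0]
      push_cast
      rw [← Complex.Gamma_ofReal, ← Complex.Gamma_ofReal]
      push_cast
      rfl
    have hg1 : 0 < Real.Gamma (D / 2 + 1) := Real.Gamma_pos_of_pos (by positivity)
    have hg2 : 0 < Real.Gamma ((D - σ) / 2 + 1) := Real.Gamma_pos_of_pos (by linarith)
    have r1 := hRpos σ
    have r2 := hRpos (D - σ)
    have r3 := hRpos 0
    have r4 := hRpos D
    rw [hreal2]
    constructor
    · rw [Complex.ofReal_re]
      positivity
    · rw [Complex.ofReal_im]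

end Pool.Agent.TH41.LP.YPf
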