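import Mathlib
import Pool.Agent.TH41.LP.Stm
import Pool.Agent.TH41.LP.BLK
import Pool.Agent.TH41.LP.C1
import Pool.Agent.TH41.LP.C2
import Pool.Agent.TH41.LP.C3
import Pool.Agent.TH41.LP.C4
import Pool.Agent.TH41.LP.C5
import Pool.Agent.TH41.LP.C6
import Pool.Agent.TH41.LP.CSH
import Pool.Agent.TH41.LP.DUAL
import Pool.Agent.TH41.LP.EE
import Pool.Agent.TH41.LP.FIN
import Pool.Agent.TH41.LP.GAM
import Pool.Agent.TH41.LP.GPH
import Pool.Agent.TH41.LP.GRD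
import Pool.Agent.TH41.LP.GREA
import Pool.Agent.TH41.LP.GREB
import Pool.Agent.TH41.LP.INT1
import Pool.Agent.TH41.LP.INT2
import Pool.Agent.TH41.LP.KS
import Pool.Agent.TH41.LP.P12
import Pool.Agent.TH41.LP.P3
import Pool.Agent.TH41.LP.P4
import Pool.Agent.TH41.LP.PP
import Pool.Agent.TH41.LP.RIE
import Pool.Agent.TH41.LP.ROOT
import Pool.Agent.TH41.LP.SHIFT
import Pool.Agent.TH41.LP.VOL
import Pool.Agent.TH41.LP.YB
import Pool.Agent.TH41.LP.YP
import Pool.Agent.TH41.LP.VV3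

set_option autoImplicit false

namespace Pool.Agent.TH41.LP.ASMf

open Pool.Agent.TH41.LP

theorem pot_of (hg : S_grid) (h12 : S_p12) (h3 : S_p3) (h4 : S_p4) : S_pot := by
  intro η C hη hC
  obtain ⟨N12, h12'⟩ := h12 η hη
  obtain ⟨N3, h3'⟩ := h3 η C hη hC
  obtain ⟨N4, h4'⟩ := h4 η hη
  obtain ⟨H3, h3''⟩ := h3' (max N12 (max N3 N4)) ((le_max_left _ _).trans (le_max_right _ _))
  obtain ⟨F, hF⟩ := hg (max N12 (max N3 N4)) (max N12 (max N4 H3) + 1) (Nat.succ_pos _) (η / 8)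
    (by positivity)
  have hH12 : N12 ≤ max N12 (max N4 H3) + 1 := (le_max_left _ _).trans (Nat.le_succ _)
  have hH4 : N4 ≤ max N12 (max N4 H3) + 1 :=
    ((le_max_left _ _).trans (le_max_right _ _)).trans (Nat.le_succ _)
  have hH3 : H3 ≤ max N12 (max N4 H3) + 1 :=
    ((le_max_right _ _).trans (le_max_right _ _)).trans (Nat.le_succ _)
  have hA := h12' (max N12 (max N3 N4)) (max N12 (max N4 H3) + 1) (le_max_left _ _) hH12
    (Nat.succ_pos _) F hF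
  have hB := h3'' (max N12 (max N4 H3) + 1) hH3 (Nat.succ_pos _) F hF
  have hD := h4' (max N12 (max N3 N4)) (max N12 (max N4 H3) + 1) hH4 (Nat.succ_pos _) F hF
  exact ⟨F, hA.1, hA.2, hB, hD⟩

theorem gre : S_gre :=
  ⟨GREAf.grea.1, GREAf.grea.2.1, GREBf.greb.1, GREAf.grea.2.2, GREBf.greb.2⟩

theorem ee : S_ee := EEf.ee_of CSHf.csh ROOTf.root PPf.pp_props

theorem yp : S_yp := YPf.yp_of ee

theorem pot : S_pot := pot_of
  (GRDf.grid_of (BLKf.block_of PPf.pp_props (RIEf.rie_of PPf.pp_props)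
    (INT1f.int1_of PPf.pp_props ROOTf.root) INT2f.int2))
  P12f.p12 P3f.p3 (P4f.p4_of PPf.pp_props)

theorem vv : S_vv := VVf.vv_of pot SHIFTf.shift DUALf.dual (YBf.yb_of ee GAMf.gam) yp
  (KSf.ks_of ee) (C1f.c1_of ee PPf.pp_props GAMf.gam yp)
  (C2f.c2_of ee PPf.pp_props GAMf.gam GPHf.gph yp) (C3f.c3_of gre.1) (C4f.c4_of gre.2.1)
  (C5f.c5_of ee yp gre.2.2.2.2) (C6f.c6_of ee yp gre)

theorem lp_main : S_main := FINf.main_of vv VOLf.vol

end Pool.Agent.TH41.LP.ASMf
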