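import Mathlib
import Pool.Agent.TH41.LP.ASM

set_option autoImplicit false

open MeasureTheory Filter Topology

open scoped FourierTransform

namespace Pool.Agent.TH41.LP.SCLf

open Pool.Agent.TH41.LP

theorem fourier_scale {d : ℕ} (f : EuclideanSpace ℝ (Fin d) → ℂ) {r : ℝ} (hr : 0 < r)
    (y : EuclideanSpace ℝ (Fin d)) :
    𝓕 (fun x => f (r • x)) y = ((r ^ d)⁻¹ : ℝ) • 𝓕 f (r⁻¹ • y) := by
  rw [Real.fourier_eq', Real.fourier_eq']
  have h1 : ∀ v : EuclideanSpace ℝ (Fin d),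
      Complex.exp (↑(-2 * Real.pi * inner ℝ v y) * Complex.I) • f (r • v) =
      (fun u => Complex.exp (↑(-2 * Real.pi * inner ℝ u (r⁻¹ • y)) * Complex.I) • f u) (r • v) := by
    intro v
    simp only
    congr 4
    rw [inner_smul_left, inner_smul_right]
    simp only [conj_trivial]
    field_simp
  simp only [h1]
  rw [Measure.integral_comp_smul volume (fun u : EuclideanSpace ℝ (Fin d) =>
    Complex.exp (↑(-2 * Real.pi * inner ℝ u (r⁻¹ • y)) * Complex.I) • f u) r]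
  rw [finrank_euclideanSpace_fin, abs_of_pos (by positivity)]

theorem vol_scale {d : ℕ} {r : ℝ} (hr : 0 < r) :
    (volume (Metric.ball (0 : EuclideanSpace ℝ (Fin d)) (r / 2))).toReal =
      r ^ d * (volume (Metric.ball (0 : EuclideanSpace ℝ (Fin d)) (1 / 2))).toReal := by
  have h := Measure.addHaar_ball_mul_of_pos (volume : Measure (EuclideanSpace ℝ (Fin d))) 0 hr
    (1 / 2)
  rw [show r * (1 / 2) = r / 2 by ring, finrank_euclideanSpace_fin] at h
  rw [h, ENNReal.toReal_mul, ENNReal.toReal_ofReal (by positivity)]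

/-- the main theorem for general `r` and real functions -/
theorem lp_main_r (ε : ℝ) (hε : 0 < ε) : ∃ d0 : ℕ, ∀ d : ℕ, d0 ≤ d →
    ∀ (r : ℝ) (f : EuclideanSpace ℝ (Fin d) → ℝ), 0 < r → Continuous f → Integrable f →
    Integrable (𝓕 (fun x => (f x : ℂ))) → (∀ x, (𝓕 (fun x => (f x : ℂ)) x).im = 0) →
    (∀ x, 0 ≤ (𝓕 (fun x => (f x : ℂ)) x).re) → 0 < ∫ x, f x →
    (∀ x, r ≤ ‖x‖ → f x ≤ 0) →
    (Real.exp 1 / (2 * Real.pi)) ^ ((d : ℝ) / 2) * Real.exp (-ε * d) ≤
      (volume (Metric.ball (0 : EuclideanSpace ℝ (Fin d)) (r / 2))).toReal * f 0 / ∫ x, f x := by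
  obtain ⟨d0, h⟩ := ASMf.lp_main ε hε
  refine ⟨d0, fun d hd r f hr hc hi hFi him hre hpos hneg => ?_⟩
  have hsc : 𝓕 (fun x => ((f (r • x) : ℝ) : ℂ)) =
      fun y => ((r ^ d)⁻¹ : ℝ) • 𝓕 (fun x => (f x : ℂ)) (r⁻¹ • y) := by
    funext y
    exact fourier_scale (fun x => ((f x : ℝ) : ℂ)) hr y
  have h0 : (𝓕 (fun x => (f x : ℂ)) 0).re = ∫ x, f x := by
    rw [Real.fourier_eq']
    simp only [inner_zero_right, mul_zero, Complex.ofReal_zero, zero_mul, Complex.exp_zero,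
      one_smul]
    rw [integral_complex_ofReal, Complex.ofReal_re]
  have hi' : Integrable (fun x => ((f x : ℝ) : ℂ)) := hi.ofReal
  have key := h d hd (fun x => ((f (r • x) : ℝ) : ℂ)) (by fun_prop)
    (hi'.comp_smul hr.ne') ?_ (fun x => Complex.ofReal_im _) ?_ ?_ ?_
  · rw [hsc] at key
    simp only [smul_zero, Complex.smul_re, Complex.ofReal_re, smul_eq_mul] at key
    rw [h0] at key
    rw [vol_scale hr, le_div_iff₀ hpos]
    have hrd : 0 < r ^ d := by positivity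
    have h1 := mul_le_mul_of_nonneg_left key hrd.le
    calc _ = r ^ d * ((Real.exp 1 / (2 * Real.pi)) ^ ((d : ℝ) / 2) * Real.exp (-ε * d) *
          ((r ^ d)⁻¹ * ∫ x, f x)) := by
          field_simp
      _ ≤ _ := h1
      _ = _ := by ring
  · rw [hsc]
    exact Integrable.smul ((r ^ d)⁻¹ : ℝ) (hFi.comp_smul (inv_ne_zero hr.ne'))
  · intro x
    rw [hsc]
    simp only [Complex.smul_im, him, smul_zero]
  · intro x
    rw [hsc]
    simp only [Complex.smul_re, smul_eq_mul]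
    have := hre (r⁻¹ • x)
    positivity
  · intro x hx
    simp only [Complex.ofReal_re]
    apply hneg
    rw [norm_smul, Real.norm_of_nonneg hr.le]
    nlinarith

/-- numerical value of the exponent -/
theorem num_upper : 1 / 2 * Real.logb 2 (2 * Real.pi / Real.exp 1) < 6045 / 10000 := by
  have hpi := Real.pi_pos
  have h1 : 2 * Real.pi / Real.exp 1 < 23115 / 10000 := by
    have h2 : Real.pi < 3.1416 := Real.pi_lt_d4
    have h3 : (2.7182818283 : ℝ) < Real.exp 1 := Real.exp_one_gt_d9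
    rw [div_lt_iff₀ (Real.exp_pos 1)]
    nlinarith
  have h2 : (0 : ℝ) < 2 * Real.pi / Real.exp 1 := by positivity
  have h3 : (2 * Real.pi / Real.exp 1) ^ 67 < (2 : ℝ) ^ 81 := by
    refine (pow_lt_pow_left₀ h1 h2.le (by norm_num)).trans ?_
    norm_num
  have h4 : (67 : ℝ) * Real.logb 2 (2 * Real.pi / Real.exp 1) < 81 := by
    have h5 := Real.logb_lt_logb (b := 2) (by norm_num) (by positivity) h3
    rw [Real.logb_pow, Real.logb_pow, Real.logb_self_eq_one (by norm_num)] at h5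
    push_cast at h5
    linarith
  linarith

theorem exponent (c : ℝ) (h : ∃ᶠ d : ℕ in atTop, ∃ (r : ℝ) (f : EuclideanSpace ℝ (Fin d) → ℝ),
      0 < r ∧ Continuous f ∧ Integrable f ∧
      Integrable (𝓕 (fun x => (f x : ℂ))) ∧ (∀ x, (𝓕 (fun x => (f x : ℂ)) x).im = 0) ∧
      (∀ x, 0 ≤ (𝓕 (fun x => (f x : ℂ)) x).re) ∧ 0 < ∫ x, f x ∧ (∀ x, r ≤ ‖x‖ → f x ≤ 0) ∧
      (volume (Metric.ball (0 : EuclideanSpace ℝ (Fin d)) (r / 2))).toReal * f 0 / ∫ x, f x ≤
        (2 : ℝ) ^ (-c * d)) :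
    c ≤ 1 / 2 * Real.logb 2 (2 * Real.pi / Real.exp 1) := by
  by_contra hc
  rw [not_le] at hc
  set c0 := 1 / 2 * Real.logb 2 (2 * Real.pi / Real.exp 1) with hc0
  have hlog2 : 0 < Real.log 2 := Real.log_pos (by norm_num)
  set ε := (c - c0) / 2 * Real.log 2 with hε
  have hε0 : 0 < ε := by
    have : 0 < c - c0 := by linarith
    positivity
  obtain ⟨d0, h0⟩ := lp_main_r ε hε0
  obtain ⟨d, hd, r, f, hr, h1, h2, h3, h4, h5, h6, h7, h8⟩ :=
    (frequently_atTop.1 h) (max d0 1)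
  have hd1 : (1 : ℝ) ≤ (d : ℝ) := by exact_mod_cast (le_max_right d0 1).trans hd
  have h9 := (h0 d ((le_max_left d0 1).trans hd) r f hr h1 h2 h3 h4 h5 h6 h7).trans h8
  have hpi := Real.pi_pos
  have e1 : (Real.exp 1 / (2 * Real.pi)) ^ ((d : ℝ) / 2) = Real.exp (-(c0 * Real.log 2) * d) := by
    rw [Real.rpow_def_of_pos (by positivity)]
    congr 1
    have e2 : Real.log (Real.exp 1 / (2 * Real.pi)) = -(2 * (c0 * Real.log 2)) := by
      rw [show Real.exp 1 / (2 * Real.pi) = (2 * Real.pi / Real.exp 1)⁻¹ by rw [inv_div],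
        Real.log_inv, hc0, Real.logb]
      field_simp
    rw [e2]
    ring
  rw [e1, ← Real.exp_add, Real.rpow_def_of_pos (by norm_num), Real.exp_le_exp] at h9
  have h10 : 0 < (c - c0) / 2 * Real.log 2 * d := by positivity
  rw [hε] at h9
  nlinarith

end Pool.Agent.TH41.LP.SCLf
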