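import Mathlib
import Pool.Agent.TH41.LP.Stm

set_option autoImplicit false

open MeasureTheory Filter Topology

namespace Pool.Agent.TH41.LP.GRDf

open Pool.Agent.TH41.LP

/-- the union of the families `G p`, all weights multiplied by `w` -/
noncomputable def uni {P : Type} [Fintype P] (G : P → Fam) (w : ℝ) (hw : 0 < w) : Fam where
  ι := (p : P) × (G p).ι
  inst := inferInstance
  κ := fun i => w * (G i.1).κ i.2
  c := fun i => (G i.1).c i.2
  κ_pos := fun i => mul_pos hw ((G i.1).κ_pos i.2)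
  c_pos := fun i => (G i.1).c_pos i.2

theorem sum_uni {P : Type} [Fintype P] (G : P → Fam) (w : ℝ) (hw : 0 < w) (f : ℝ → ℝ) :
    ∑ i, (uni G w hw).κ i * f ((uni G w hw).c i) = w * ∑ p, ∑ i, (G p).κ i * f ((G p).c i) := by
  have h : ∑ i, (uni G w hw).κ i * f ((uni G w hw).c i) =
      ∑ i : (p : P) × (G p).ι, w * (G i.1).κ i.2 * f ((G i.1).c i.2) := rfl
  rw [h, Fintype.sum_sigma, Finset.mul_sum]
  refine Finset.sum_congr rfl fun p _ => ?_
  rw [Finset.mul_sum]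
  exact Finset.sum_congr rfl fun i _ => by ring

theorem err {N H : ℕ} (hH : 0 < H) (δ e : ℝ) (hδ : 0 ≤ δ) (he : 0 ≤ e)
    (a b : Fin N × Fin H → ℝ)
    (h : ∀ p, |a p - b p| ≤ δ / (N + 1) * e) :
    |1 / (2 * (H : ℝ)) * ∑ p, a p - 1 / (2 * (H : ℝ)) * ∑ p, b p| ≤ δ * e := by
  have hH' : (0 : ℝ) < H := by exact_mod_cast hH
  rw [← mul_sub, ← Finset.sum_sub_distrib, abs_mul, abs_of_pos (by positivity)]
  have h1 : |∑ p, (a p - b p)| ≤ (N : ℝ) * H * (δ / (N + 1) * e) := by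
    refine (Finset.abs_sum_le_sum_abs _ _).trans ?_
    refine (Finset.sum_le_card_nsmul _ _ _ fun p _ => h p).trans ?_
    rw [nsmul_eq_mul]
    simp
  refine (mul_le_mul_of_nonneg_left h1 (by positivity)).trans ?_
  have h2 : 1 / (2 * (H : ℝ)) * ((N : ℝ) * H * (δ / (N + 1) * e)) =
      (N / (N + 1) / 2) * (δ * e) := by
    field_simp
  rw [h2]
  have h3 : (N : ℝ) / (N + 1) / 2 ≤ 1 := by
    rw [div_div, div_le_one (by positivity)]
    have : (0 : ℝ) ≤ N := Nat.cast_nonneg N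
    linarith
  calc (N : ℝ) / (N + 1) / 2 * (δ * e) ≤ 1 * (δ * e) :=
        mul_le_mul_of_nonneg_right h3 (mul_nonneg hδ he)
    _ = δ * e := one_mul _

theorem grid_of (h : S_block) : S_grid := by
  intro N H hH δ hδ
  have hH' : (0 : ℝ) < H := by exact_mod_cast hH
  have hβ : ∀ p : Fin N × Fin H, (1 : ℝ) ≤ 2 * ((p.1 : ℕ) : ℝ) + 1 + ((p.2 : ℕ) : ℝ) / H := by
    intro p
    have h1 : (0 : ℝ) ≤ ((p.1 : ℕ) : ℝ) := Nat.cast_nonneg _
    have h2 : (0 : ℝ) ≤ ((p.2 : ℕ) : ℝ) / H := by positivity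
    linarith
  have hδ' : 0 < δ / ((N : ℝ) + 1) := by positivity
  choose G hG1 hG2 using fun p : Fin N × Fin H =>
    h (2 * ((p.1 : ℕ) : ℝ) + 1 + ((p.2 : ℕ) : ℝ) / H) (hβ p) (δ / ((N : ℝ) + 1)) hδ'
  have hw : 0 < 1 / (2 * (H : ℝ)) := by positivity
  have hsum : ∀ f : ℕ → ℕ → ℝ, ∑ k ∈ Finset.range N, ∑ l ∈ Finset.range H, f k l =
      ∑ p : Fin N × Fin H, f p.1 p.2 := by
    intro f
    rw [Fintype.sum_prod_type, Finset.sum_range]
    refine Finset.sum_congr rfl fun k _ => ?_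
    rw [Finset.sum_range]
  refine ⟨uni G _ hw, ?_, ?_⟩
  · intro x hx τ
    have e1 : (uni G _ hw).B x τ = 1 / (2 * (H : ℝ)) * ∑ p, (G p).B x τ :=
      sum_uni G _ hw (fun c => √(x ^ 2 + c ^ 2) - pp c x τ)
    rw [e1, hsum (fun k l => lg (2 * (k : ℝ) + 1 + (l : ℝ) / H + x) τ)]
    exact err hH δ (τ ^ 2) hδ.le (sq_nonneg τ) _ _ fun p => hG1 p x hx τ
  · intro x hx
    have e1 : (uni G _ hw).A1 x = 1 / (2 * (H : ℝ)) * ∑ p, (G p).A1 x :=
      sum_uni G _ hw (fun c => x / √(x ^ 2 + c ^ 2))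
    rw [e1, hsum (fun k l => x / ((2 * (k : ℝ) + 1 + (l : ℝ) / H) *
      (2 * (k : ℝ) + 1 + (l : ℝ) / H + x)))]
    have := err hH δ 1 hδ.le zero_le_one (fun p => (G p).A1 x)
      (fun p => x / ((2 * ((p.1 : ℕ) : ℝ) + 1 + ((p.2 : ℕ) : ℝ) / H) *
        (2 * ((p.1 : ℕ) : ℝ) + 1 + ((p.2 : ℕ) : ℝ) / H + x)))
      (fun p => by rw [mul_one]; exact hG2 p x hx)
    rw [mul_one] at this
    exact this

end Pool.Agent.TH41.LP.GRDf
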