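import Mathlib
import Pool.Agent.TH41.LP.Stm
import Pool.Agent.TH41.LP.VV2

set_option autoImplicit false

open MeasureTheory Filter Topology

open scoped FourierTransform

namespace Pool.Agent.TH41.LP.VVf

open Pool.Agent.TH41.LP

theorem ks_line (hks : S_ks) {F : Fam} {K : ℝ} {d : ℕ} (hd : 0 < d) (hK : 0 < K) (t : ℝ) :
    1 / 2 * Complex.exp (-(((d : ℂ) / 2 + t * Complex.I) / 2) * (Real.log Real.pi : ℝ)) *
      Complex.Gamma (((d : ℂ) / 2 + t * Complex.I) / 2) * KK F d K ((d : ℂ) / 2 + t * Complex.I) =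
    YY F d K (((d : ℝ) / 2 : ℝ) + t * Complex.I) / (((d : ℝ) / 2 : ℝ) + t * Complex.I) := by
  have hd' : (0 : ℝ) < (d : ℝ) := by exact_mod_cast hd
  have e := (hks F d K hd' hK).2.2 t
  rw [Complex.ofReal_natCast] at e
  exact e

theorem vK_eq (hks : S_ks) {F : Fam} {K : ℝ} {d : ℕ} (hd : 0 < d) (hK : 0 < K)
    (x : EuclideanSpace ℝ (Fin d)) :
    vK d (KK F d K) x = WW (YY F d K) ((d : ℝ) / 2) (Real.log ‖x‖) / (2 * Real.pi) := by
  unfold vK WW
  rw [one_div (2 * (Real.pi : ℂ)), inv_mul_eq_div]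
  congr 1
  apply integral_congr_ae
  refine Eventually.of_forall fun t => ?_
  have e := ks_line hks (F := F) hd hK t
  simp only
  rw [e]
  congr 2
  push_cast
  ring

theorem ks_int (hks : S_ks) (hyp : S_yp) (hyb : S_yb) {F : Fam} {K : ℝ} {d : ℕ} (hd : 0 < d)
    (hK : 0 < K) : Integrable (fun t : ℝ => Complex.Gamma (((d : ℂ) / 2 + t * Complex.I) / 2) *
    KK F d K ((d : ℂ) / 2 + t * Complex.I)) := by
  have hd' : (0 : ℝ) < (d : ℝ) := by exact_mod_cast hd
  have hY := (hyp F d K hd' hK).1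
  obtain ⟨M, hM⟩ := hyb F d K 1 hd' hK one_pos
  have hb : 0 < 1 / (4 * K * (d : ℝ)) := by positivity
  have e : (fun t : ℝ => Complex.Gamma (((d : ℂ) / 2 + t * Complex.I) / 2) *
      KK F d K ((d : ℂ) / 2 + t * Complex.I)) = fun t : ℝ =>
      2 * Complex.exp ((((d : ℂ) / 2 + t * Complex.I) / 2) * (Real.log Real.pi : ℝ)) *
      (YY F d K (((d : ℝ) / 2 : ℝ) + t * Complex.I) / (((d : ℝ) / 2 : ℝ) + t * Complex.I)) := by
    funext t
    rw [← ks_line hks hd hK t]
    have : Complex.exp ((((d : ℂ) / 2 + t * Complex.I) / 2) * (Real.log Real.pi : ℝ)) *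
        Complex.exp (-(((d : ℂ) / 2 + t * Complex.I) / 2) * (Real.log Real.pi : ℝ)) = 1 := by
      rw [← Complex.exp_add]
      rw [show (((d : ℂ) / 2 + t * Complex.I) / 2) * (Real.log Real.pi : ℝ) +
        -(((d : ℂ) / 2 + t * Complex.I) / 2) * (Real.log Real.pi : ℝ) = 0 by ring]
      exact Complex.exp_zero
    linear_combination (-(Complex.Gamma (((d : ℂ) / 2 + t * Complex.I) / 2) *
      KK F d K ((d : ℂ) / 2 + t * Complex.I))) * this
  rw [e]
  refine ((integrable_exp_neg_mul_sq hb).const_mul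
    (2 * Real.exp ((d : ℝ) / 2 / 2 * Real.log Real.pi) * (|M| / ((d : ℝ) / 2)))).mono' ?_ ?_
  · apply Continuous.aestronglyMeasurable
    apply Continuous.mul
    · fun_prop
    · apply Continuous.div
      · exact hY.continuous.comp (by fun_prop)
      · fun_prop
      · intro t
        exact line_ne (by positivity)
  · refine Eventually.of_forall fun t => ?_
    rw [norm_mul, norm_mul, norm_div, Complex.norm_exp]
    have h1 : ((((d : ℂ) / 2 + t * Complex.I) / 2) * (Real.log Real.pi : ℝ)).re =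
        (d : ℝ) / 2 / 2 * Real.log Real.pi := by
      have : ((((d : ℂ) / 2 + t * Complex.I) / 2) * (Real.log Real.pi : ℝ)) =
          (((d : ℝ) / 2 / 2 * Real.log Real.pi : ℝ) : ℂ) +
          ((t / 2 * Real.log Real.pi : ℝ) : ℂ) * Complex.I := by
        push_cast
        ring
      rw [this]
      simp
    rw [h1]
    have h2 : ‖YY F d K (((d : ℝ) / 2 : ℝ) + t * Complex.I)‖ ≤
        |M| * Real.exp (-(1 / (4 * K * (d : ℝ))) * t ^ 2) := by
      have h3 := hM (((d : ℝ) / 2 : ℝ) + t * Complex.I) (by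
        simp
        linarith) (by simp)
      have h4 : (((((d : ℝ) / 2 : ℝ) : ℂ) + t * Complex.I)).im = t := by simp
      rw [h4] at h3
      refine h3.trans ?_
      exact mul_le_mul_of_nonneg_right (le_abs_self M) (Real.exp_pos _).le
    have h5 : (d : ℝ) / 2 ≤ ‖(((d : ℝ) / 2 : ℝ) : ℂ) + t * Complex.I‖ := by
      have := line_norm ((d : ℝ) / 2) t
      rwa [abs_of_pos (by positivity)] at this
    have h6 : ‖YY F d K (((d : ℝ) / 2 : ℝ) + t * Complex.I)‖ /
        ‖(((d : ℝ) / 2 : ℝ) : ℂ) + t * Complex.I‖ ≤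
        |M| * Real.exp (-(1 / (4 * K * (d : ℝ))) * t ^ 2) / ((d : ℝ) / 2) :=
      div_le_div₀ (by positivity) h2 (by positivity) h5
    have h7 : ‖(2 : ℂ)‖ = 2 := by norm_num
    rw [h7]
    calc _ ≤ 2 * Real.exp ((d : ℝ) / 2 / 2 * Real.log Real.pi) *
          (|M| * Real.exp (-(1 / (4 * K * (d : ℝ))) * t ^ 2) / ((d : ℝ) / 2)) :=
          mul_le_mul_of_nonneg_left h6 (by positivity)
      _ = _ := by ring

theorem vv_of (hpot : S_pot) (hshift : S_shift) (hdual : S_dual) (hyb : S_yb) (hyp : S_yp)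
    (hks : S_ks) (h1 : S_c1) (h2 : S_c2) (h3 : S_c3) (h4 : S_c4) (h5 : S_c5) (h6 : S_c6) :
    S_vv := by
  intro ε hε hε1
  obtain ⟨C, hC⟩ : ∃ C : ℝ, C = 8 / ε := ⟨_, rfl⟩
  obtain ⟨K, hK⟩ : ∃ K : ℝ, K = 16 / (3 * ε ^ 2) := ⟨_, rfl⟩
  obtain ⟨η, hη⟩ : ∃ η : ℝ, η = 3 * ε ^ 2 / 6400 := ⟨_, rfl⟩
  have hC0 : 0 < C := by rw [hC]; positivity
  have hK0 : 0 < K := by rw [hK]; positivity
  have hη0 : 0 < η := by rw [hη]; positivity
  have hKη : K * η ≤ 1 / 400 := by
    rw [hK, hη]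
    apply le_of_eq
    field_simp
    norm_num
  obtain ⟨F, hF⟩ := hpot η C hη0 hC0
  obtain ⟨D1, hD1, h1'⟩ := h1 K C η hK0 hC0 hη0 hKη F hF
  obtain ⟨D2, hD2, h2'⟩ := h2 K C η hK0 hC0 hη0 hKη F hF
  obtain ⟨D4, hD4, h4'⟩ := h4 K C η hK0 hC0 hη0 F hF
  obtain ⟨D5, hD5, h5'⟩ := h5 K C η hK0 hC0 hη0 F hF
  obtain ⟨D6, hD6, h6'⟩ := h6 K C η hK0 hC0 hη0 hKη F hF
  obtain ⟨d0, hd0⟩ := exists_nat_ge (D1 + D2 + D4 + D5 + D6 + 4 * K + 1)
  refine ⟨d0, fun d hd => ?_⟩
  have hdr : D1 + D2 + D4 + D5 + D6 + 4 * K + 1 ≤ (d : ℝ) := by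
    refine hd0.trans ?_
    exact_mod_cast hd
  have hd1 : (1 : ℝ) ≤ (d : ℝ) := by linarith
  have hdpos : 0 < d := by
    have : (0 : ℝ) < (d : ℝ) := by linarith
    exact_mod_cast this
  have hd' : (0 : ℝ) < (d : ℝ) := by linarith
  have hDK : 9 / 10 * √(K * d) ≤ (d : ℝ) / 2 := by
    have h7 : √(K * d) ≤ (d : ℝ) / 2 := by
      rw [Real.sqrt_le_left (by positivity)]
      nlinarith
    linarith
  obtain ⟨hYd, hY0, hYpos⟩ := hyp F d K hd' hK0
  have hb : 0 < 1 / (4 * K * (d : ℝ)) := by positivity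
  obtain ⟨M0, hM0⟩ := hyb F d K (C * d) hd' hK0 (by positivity)
  have hsh := hshift (YY F d K) (C * d) (d / 2) M0 (1 / (4 * K * (d : ℝ))) (by positivity)
    (by positivity) hb hYd hM0
  have hcore := core hε hε1 hC hK hη hd1 hDK (YY F d K) (alpha F d K) hYd hY0 hYpos hsh
    (h1' d (by linarith)).1 (h1' d (by linarith)).2 (h2' d (by linarith))
    (h3 F d K hd' hK0) (h4' d (by linarith)) (h5' d (by linarith)) (h6' d (by linarith))
  obtain ⟨⟨M, hM⟩, hA, hB⟩ := hcore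
  obtain ⟨hks1, hks2, hks3⟩ := hks F d K hd' hK0
  have hks2' : ∀ s : ℂ, KK F d K (d - s) = KK F d K s := by
    intro s
    have := hks2 s
    rwa [Complex.ofReal_natCast] at this
  obtain ⟨hmeas, hdu⟩ := hdual d hdpos (KK F d K) hks1 hks2' (ks_int hks hyp hyb hdpos hK0)
  have hpi0 : 0 < Real.pi := Real.pi_pos
  have hn : ‖(2 * (Real.pi : ℂ))‖ = 2 * Real.pi := by
    rw [norm_mul, Complex.norm_real, Real.norm_of_nonneg hpi0.le]
    norm_num
  have hvb : ∀ x : EuclideanSpace ℝ (Fin d), ‖vK d (KK F d K) x‖ ≤ M / (2 * Real.pi) := by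
    intro x
    rw [vK_eq hks hdpos hK0 x, norm_div, hn]
    exact div_le_div_of_nonneg_right (hM _) (by positivity)
  have hlog : Real.log (√(d : ℝ) / Real.pi * Real.exp (-ε)) =
      1 / 2 * Real.log d - Real.log Real.pi - ε := by
    have hs : 0 < √(d : ℝ) := Real.sqrt_pos.2 hd'
    rw [Real.log_mul (by positivity) (Real.exp_pos _).ne', Real.log_exp,
      Real.log_div hs.ne' hpi0.ne', Real.log_sqrt hd'.le]
    ring
  have hpos' : 0 < √(d : ℝ) / Real.pi * Real.exp (-ε) := by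
    have hs : 0 < √(d : ℝ) := Real.sqrt_pos.2 hd'
    positivity
  refine ⟨fun x => (vK d (KK F d K) x).re, ?_, ?_, ?_, ?_, ?_⟩
  · exact Complex.continuous_re.comp_aestronglyMeasurable hmeas
  · intro f hfc hfi hFfi hf1 hf2
    have h7 := hdu f hfc hfi hFfi
    have hint : ∀ g : EuclideanSpace ℝ (Fin d) → ℂ, Integrable g → (∀ x, (g x).im = 0) →
        ∫ x, (g x).re * (vK d (KK F d K) x).re = (∫ x, g x * vK d (KK F d K) x).re := by
      intro g hg hgi
      have h8 : Integrable (fun x => g x * vK d (KK F d K) x) := by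
        have h9 : Integrable (fun x => vK d (KK F d K) x * g x) :=
          hg.bdd_mul hmeas (Eventually.of_forall hvb)
        refine h9.congr (Eventually.of_forall fun x => ?_)
        simp only
        ring
      have h10 : (∫ x, g x * vK d (KK F d K) x).re = ∫ x, (g x * vK d (KK F d K) x).re :=
        (integral_re h8).symm
      rw [h10]
      congr 1
      funext x
      rw [Complex.mul_re, hgi x]
      ring
    rw [hint _ hFfi hf2, hint _ hfi hf1, h7]
  · refine ⟨M / (2 * Real.pi), fun x _ => ?_⟩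
    exact (Complex.abs_re_le_norm _).trans (hvb x)
  · intro x hx hxn
    simp only
    rw [vK_eq hks hdpos hK0 x]
    apply hB
    rw [← hlog]
    exact Real.log_le_log hpos' hxn
  · intro x hx hxn
    have h7 : ‖1 - vK d (KK F d K) x‖ ≤ Real.exp (-(d : ℝ)) := by
      rw [vK_eq hks hdpos hK0 x]
      apply hA
      rw [← hlog]
      exact Real.log_le_log (norm_pos_iff.2 hx) hxn
    refine le_trans ?_ h7
    have h8 : 1 - (vK d (KK F d K) x).re = (1 - vK d (KK F d K) x).re := by simp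
    simp only
    rw [h8]
    exact Complex.abs_re_le_norm _

end Pool.Agent.TH41.LP.VVf
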